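import Pool.Agent.H75.ZM.BrDefs

/-!
# Relations in context (row ZM BrTr1)

Proofs.  By cyclicity `tr m (p ++ x ++ v) = tr m (x ++ (v ++ p))`, so a relation at the head of the
word holds everywhere; `comm`: two letters with disjoint labels commute (`E E` by `ee`, the others by
`sl`, as the swap fixes the labels of the other letter); for `E` letters one may first use `esym`.
`se`: `S i j :: E i j` is `E j i :: S i j` by `sl`, then `esym`, `es`.
`v3`, `mix`: by `sl`.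
-/

namespace ZM

variable {K : Type} [Field K] {lam : K} {n : ℕ}

/-- Letters without common labels. -/
def Lt.disj : Lt → Lt → Prop
  | .E i j, .E a b => i ≠ a ∧ i ≠ b ∧ j ≠ a ∧ j ≠ b
  | .E i j, .S a b => i ≠ a ∧ i ≠ b ∧ j ≠ a ∧ j ≠ b
  | .S i j, .E a b => i ≠ a ∧ i ≠ b ∧ j ≠ a ∧ j ≠ b
  | .S i j, .S a b => i ≠ a ∧ i ≠ b ∧ j ≠ a ∧ j ≠ b

lemma brtr1_ok_append {m : ℕ} {u v : List Lt} (hu : Ok m u) (hv : Ok m v) : Ok m (u ++ v) := by
  intro a ha
  rcases List.mem_append.mp ha with h | h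
  · exact hu a h
  · exact hv a h

lemma brtr1_ok_cons {m : ℕ} {a : Lt} {v : List Lt} (ha : a.ok m) (hv : Ok m v) :
    Ok m (a :: v) := by
  intro b hb
  rcases List.mem_cons.mp hb with h | h
  · rw [h]; exact ha
  · exact hv b h

lemma brtr1_ok_nil {m : ℕ} : Ok m [] := by
  intro a ha
  simp at ha

lemma brtr1_ok_sing {m : ℕ} {a : Lt} (ha : a.ok m) : Ok m [a] := brtr1_ok_cons ha brtr1_ok_nil

lemma brtr1_ok_pair {m : ℕ} {a b : Lt} (ha : a.ok m) (hb : b.ok m) : Ok m [a, b] :=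
  brtr1_ok_cons ha (brtr1_ok_sing hb)

lemma brtr1_ok_trip {m : ℕ} {a b c : Lt} (ha : a.ok m) (hb : b.ok m) (hc : c.ok m) :
    Ok m [a, b, c] := brtr1_ok_cons ha (brtr1_ok_pair hb hc)

variable (S : TraceSys K lam n) {m : ℕ} {p v : List Lt}

lemma brtr1_rot (hp : Ok m p) (hv : Ok m v) {x : List Lt} (hx : Ok m x) :
    S.tr m (p ++ x ++ v) = S.tr m (x ++ (v ++ p)) := by
  rw [List.append_assoc, S.cyc m p (x ++ v) hp (brtr1_ok_append hx hv), List.append_assoc]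

lemma cx_ss (hp : Ok m p) (hv : Ok m v) {i j : ℕ} (hi : i < m) (hj : j < m) :
    S.tr m (p ++ [.S i j, .S i j] ++ v) = S.tr m (p ++ v) := by
  rw [brtr1_rot S hp hv (brtr1_ok_pair (a := .S i j) (b := .S i j) ⟨hi, hj⟩ ⟨hi, hj⟩),
    S.cyc m p v hp hv]
  exact S.ss m i j (v ++ p) hi hj (brtr1_ok_append hv hp)

lemma cx_sl (hp : Ok m p) (hv : Ok m v) {i j : ℕ} (hi : i < m) (hj : j < m) {a : Lt}
    (ha : a.ok m) :
    S.tr m (p ++ [.S i j, a] ++ v) = S.tr m (p ++ [a.map (Equiv.swap i j), .S i j] ++ v) := by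
  have hsw : ∀ t, t < m → Equiv.swap i j t < m := by
    intro t ht
    by_cases h1 : t = i
    · rw [h1, Equiv.swap_apply_left]; exact hj
    · by_cases h2 : t = j
      · rw [h2, Equiv.swap_apply_right]; exact hi
      · rw [Equiv.swap_apply_of_ne_of_ne h1 h2]; exact ht
  have ha' : (a.map (Equiv.swap i j)).ok m := by
    cases a with
    | E b c =>
      obtain ⟨h1, h2, h3⟩ := ha
      exact ⟨hsw b h1, hsw c h2, fun h => h3 ((Equiv.swap i j).injective h)⟩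
    | S b c =>
      obtain ⟨h1, h2⟩ := ha
      exact ⟨hsw b h1, hsw c h2⟩
  rw [brtr1_rot S hp hv (brtr1_ok_pair (a := .S i j) ⟨hi, hj⟩ ha),
    brtr1_rot S hp hv (brtr1_ok_pair (b := .S i j) ha' ⟨hi, hj⟩)]
  exact S.sl m i j a (v ++ p) hi hj ha (brtr1_ok_append hv hp)

lemma cx_comm (hp : Ok m p) (hv : Ok m v) {a b : Lt} (ha : a.ok m) (hb : b.ok m)
    (hd : a.disj b) : S.tr m (p ++ [a, b] ++ v) = S.tr m (p ++ [b, a] ++ v) := by
  have hvp := brtr1_ok_append hv hp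
  rw [brtr1_rot S hp hv (brtr1_ok_pair ha hb), brtr1_rot S hp hv (brtr1_ok_pair hb ha)]
  cases a with
  | E i j =>
    cases b with
    | E a b =>
      obtain ⟨h1, h2, h3⟩ := ha
      obtain ⟨k1, k2, k3⟩ := hb
      obtain ⟨d1, d2, d3, d4⟩ := hd
      exact S.ee m i j a b (v ++ p) h1 h2 k1 k2 h3 k3 d1 d2 d3 d4 hvp
    | S a b =>
      obtain ⟨k1, k2⟩ := hb
      obtain ⟨d1, d2, d3, d4⟩ := hd
      have h := S.sl m a b (.E i j) (v ++ p) k1 k2 ha hvp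
      have e : (Lt.E i j).map (Equiv.swap a b) = Lt.E i j := by
        simp only [Lt.map]
        rw [Equiv.swap_apply_of_ne_of_ne d1 d2, Equiv.swap_apply_of_ne_of_ne d3 d4]
      rw [e] at h
      exact h.symm
  | S i j =>
    obtain ⟨h1, h2⟩ := ha
    have h := S.sl m i j b (v ++ p) h1 h2 hb hvp
    have e : b.map (Equiv.swap i j) = b := by
      cases b with
      | E a b =>
        obtain ⟨d1, d2, d3, d4⟩ := hd
        simp only [Lt.map]
        rw [Equiv.swap_apply_of_ne_of_ne d1.symm d3.symm,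
          Equiv.swap_apply_of_ne_of_ne d2.symm d4.symm]
      | S a b =>
        obtain ⟨d1, d2, d3, d4⟩ := hd
        simp only [Lt.map]
        rw [Equiv.swap_apply_of_ne_of_ne d1.symm d3.symm,
          Equiv.swap_apply_of_ne_of_ne d2.symm d4.symm]
    rw [e] at h
    exact h

/-- A letter commutes with a word without common labels. -/
lemma cx_comm_word (hp : Ok m p) (hv : Ok m v) {a : Lt} (ha : a.ok m) {w : List Lt}
    (hw : Ok m w) (hd : ∀ b ∈ w, a.disj b) :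
    S.tr m (p ++ [a] ++ w ++ v) = S.tr m (p ++ w ++ [a] ++ v) := by
  induction w generalizing p with
  | nil => simp
  | cons b w ih =>
    have hb : b.ok m := hw b (List.mem_cons_self)
    have hw' : Ok m w := fun c hc => hw c (List.mem_cons_of_mem _ hc)
    have h1 := cx_comm S hp (brtr1_ok_append hw' hv) ha hb (hd b (List.mem_cons_self))
    have h2 := ih (p := p ++ [b]) (brtr1_ok_append hp (brtr1_ok_sing hb)) hw'
      (fun c hc => hd c (List.mem_cons_of_mem _ hc))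
    simp only [List.append_assoc, List.cons_append, List.nil_append] at h1 h2 ⊢
    rw [h1, h2]

lemma cx_es (hp : Ok m p) (hv : Ok m v) {i j : ℕ} (hi : i < m) (hj : j < m) (h : i ≠ j) :
    S.tr m (p ++ [.E i j, .S i j] ++ v) = S.tr m (p ++ [.E i j] ++ v) := by
  rw [brtr1_rot S hp hv (brtr1_ok_pair (a := .E i j) (b := .S i j) ⟨hi, hj, h⟩ ⟨hi, hj⟩),
    brtr1_rot S hp hv (brtr1_ok_sing (a := .E i j) ⟨hi, hj, h⟩)]
  exact S.es m i j (v ++ p) hi hj h (brtr1_ok_append hv hp)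

lemma cx_se (hp : Ok m p) (hv : Ok m v) {i j : ℕ} (hi : i < m) (hj : j < m) (h : i ≠ j) :
    S.tr m (p ++ [.S i j, .E i j] ++ v) = S.tr m (p ++ [.E i j] ++ v) := by
  have hvp := brtr1_ok_append hv hp
  rw [brtr1_rot S hp hv (brtr1_ok_pair (a := .S i j) (b := .E i j) ⟨hi, hj⟩ ⟨hi, hj, h⟩),
    brtr1_rot S hp hv (brtr1_ok_sing (a := .E i j) ⟨hi, hj, h⟩)]
  have h1 := S.sl m i j (.E i j) (v ++ p) hi hj ⟨hi, hj, h⟩ hvp
  simp only [Lt.map, Equiv.swap_apply_left, Equiv.swap_apply_right] at h1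
  have h2 := S.esym m j i (.S i j :: (v ++ p)) hj hi h.symm (brtr1_ok_cons ⟨hi, hj⟩ hvp)
  have h3 := S.es m i j (v ++ p) hi hj h hvp
  exact (h1.trans h2).trans h3

lemma cx_esym (hp : Ok m p) (hv : Ok m v) {i j : ℕ} (hi : i < m) (hj : j < m) (h : i ≠ j) :
    S.tr m (p ++ [.E i j] ++ v) = S.tr m (p ++ [.E j i] ++ v) := by
  rw [brtr1_rot S hp hv (brtr1_ok_sing (a := .E i j) ⟨hi, hj, h⟩),
    brtr1_rot S hp hv (brtr1_ok_sing (a := .E j i) ⟨hj, hi, h.symm⟩)]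
  exact S.esym m i j (v ++ p) hi hj h (brtr1_ok_append hv hp)

lemma cx_ssym (hp : Ok m p) (hv : Ok m v) {i j : ℕ} (hi : i < m) (hj : j < m) :
    S.tr m (p ++ [.S i j] ++ v) = S.tr m (p ++ [.S j i] ++ v) := by
  rw [brtr1_rot S hp hv (brtr1_ok_sing (a := .S i j) ⟨hi, hj⟩),
    brtr1_rot S hp hv (brtr1_ok_sing (a := .S j i) ⟨hj, hi⟩)]
  exact S.ssym m i j (v ++ p) hi hj (brtr1_ok_append hv hp)

lemma cx_e2 (hp : Ok m p) (hv : Ok m v) {i j : ℕ} (hi : i < m) (hj : j < m) (h : i ≠ j) :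
    S.tr m (p ++ [.E i j, .E i j] ++ v) = (lam + lam⁻¹) * S.tr m (p ++ [.E i j] ++ v) := by
  rw [brtr1_rot S hp hv (brtr1_ok_pair (a := .E i j) (b := .E i j) ⟨hi, hj, h⟩ ⟨hi, hj, h⟩),
    brtr1_rot S hp hv (brtr1_ok_sing (a := .E i j) ⟨hi, hj, h⟩)]
  exact S.e2 m i j (v ++ p) hi hj h (brtr1_ok_append hv hp)

lemma cx_tri (hp : Ok m p) (hv : Ok m v) {i j l : ℕ} (hi : i < m) (hj : j < m) (hl : l < m)
    (h1 : i ≠ j) (h2 : i ≠ l) (h3 : j ≠ l) :
    S.tr m (p ++ [.E i j, .E j l, .E i j] ++ v) + S.tr m (p ++ [.E j l] ++ v) =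
      S.tr m (p ++ [.E j l, .E i j, .E j l] ++ v) + S.tr m (p ++ [.E i j] ++ v) := by
  have a1 : (Lt.E i j).ok m := ⟨hi, hj, h1⟩
  have a2 : (Lt.E j l).ok m := ⟨hj, hl, h3⟩
  rw [brtr1_rot S hp hv (brtr1_ok_trip a1 a2 a1), brtr1_rot S hp hv (brtr1_ok_sing a2),
    brtr1_rot S hp hv (brtr1_ok_trip a2 a1 a2), brtr1_rot S hp hv (brtr1_ok_sing a1)]
  exact S.tri m i j l (v ++ p) hi hj hl h1 h2 h3 (brtr1_ok_append hv hp)

lemma cx_v3 (hp : Ok m p) (hv : Ok m v) {i j l : ℕ} (hi : i < m) (hj : j < m) (hl : l < m)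
    (h1 : i ≠ j) (h2 : i ≠ l) (h3 : j ≠ l) :
    S.tr m (p ++ [.S i j, .S j l, .S i j] ++ v) = S.tr m (p ++ [.S j l, .S i j, .S j l] ++ v) := by
  have a1 : (Lt.S i j).ok m := ⟨hi, hj⟩
  have a2 : (Lt.S j l).ok m := ⟨hj, hl⟩
  have a3 : (Lt.S i l).ok m := ⟨hi, hl⟩
  have e1 := cx_sl S hp (brtr1_ok_append (brtr1_ok_sing a1) hv) hi hj a2
  have e2 := cx_sl S hp (brtr1_ok_append (brtr1_ok_sing a2) hv) hj hl a1
  have e3 := cx_ss S (brtr1_ok_append hp (brtr1_ok_sing a3)) hv hi hj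
  have e4 := cx_ss S (brtr1_ok_append hp (brtr1_ok_sing a3)) hv hj hl
  simp only [Lt.map, Equiv.swap_apply_left, Equiv.swap_apply_right,
    Equiv.swap_apply_of_ne_of_ne h2.symm h3.symm, Equiv.swap_apply_of_ne_of_ne h1 h2] at e1 e2
  simp only [List.append_assoc, List.cons_append, List.nil_append] at e1 e2 e3 e4 ⊢
  rw [e1, e2, e3, e4]

lemma cx_mix (hp : Ok m p) (hv : Ok m v) {i j l : ℕ} (hi : i < m) (hj : j < m) (hl : l < m)
    (h1 : i ≠ j) (h2 : i ≠ l) (h3 : j ≠ l) :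
    S.tr m (p ++ [.S i j, .S j l, .E i j] ++ v) = S.tr m (p ++ [.E j l, .S i j, .S j l] ++ v) := by
  have a1 : (Lt.S i j).ok m := ⟨hi, hj⟩
  have a2 : (Lt.S j l).ok m := ⟨hj, hl⟩
  have a3 : (Lt.E i j).ok m := ⟨hi, hj, h1⟩
  have a4 : (Lt.E i l).ok m := ⟨hi, hl, h2⟩
  have e1 := cx_sl S (brtr1_ok_append hp (brtr1_ok_sing a1)) hv hj hl a3
  have e2 := cx_sl S hp (brtr1_ok_append (brtr1_ok_sing a2) hv) hi hj a4
  simp only [Lt.map, Equiv.swap_apply_left,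
    Equiv.swap_apply_of_ne_of_ne h2.symm h3.symm, Equiv.swap_apply_of_ne_of_ne h1 h2] at e1 e2
  simp only [List.append_assoc, List.cons_append, List.nil_append] at e1 e2 ⊢
  rw [e1, e2]

end ZM
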