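import Pool.Agent.H75.ZM.BrExt
import Pool.Agent.H75.ZM.BrTr1

/-!
# Local moves (row ZM BrLoc)

`bP S (m, w) = ext lam n (S.tr m) w`.

Proof.  `ext f (u ++ x ++ v) = ext (fun p => ext (fun y => f (p ++ y)) (x ++ v)) u`, so by `ext_congr`
it is enough to show, for all words `p` on `m` strands, with `g y = S.tr m (p ++ y)`,
`ext g (x ++ v) = ext g (y ++ v)`; expand the two or three letters of `x`, `y` and use `ext_congr`,
`ext_add`, `ext_sub`, `ext_mul` and the relations of `BrTr1`.
`canc`: `(lam - E)(lam⁻¹ - E) = 1 - (lam + lam⁻¹) E + E E = 1`.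
`r3`: `(lam - e)(lam - e')(lam - e) - (lam - e')(lam - e)(lam - e') =
  - lam^2 (e - e') + lam (e e - e' e') - (e e' e - e' e e') = 0` by `cx_e2`, `cx_tri`.
`mix`: for `s` true or false, `τ_i τ_{i+1} (c - e_i) = (c - e_{i+1}) τ_i τ_{i+1}` with `c` a constant:
the constant term is trivial, the other one is `cx_mix`.
`virt`: `S (c - E) S = c S S - S E S = c - E`.
-/

namespace ZM

variable {K : Type} [Field K] {lam : K} {n : ℕ}

/-- The invariant. -/
def bP (S : TraceSys K lam n) (D : ℕ × List BL) : K := ext lam n (S.tr D.1) D.2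

/-- expansion of the rest of the word, with the prefix `p` and the expanded letters `l` -/
def brloc_B (S : TraceSys K lam n) (m : ℕ) (p : List Lt) (l : List Lt) (w : List BL) : K :=
  ext lam n (fun y => S.tr m (p ++ l ++ y)) w

lemma brloc_t (S : TraceSys K lam n) (m : ℕ) (p l : List Lt) (i : ℕ) (w : List BL) :
    brloc_B S m p l (.sg i true :: w) = (lam⁻¹) ^ n * (lam * brloc_B S m p l w -
      brloc_B S m p (l ++ [.E i (i + 1)]) w) := by
  unfold brloc_B
  rw [ext]
  simp only [List.append_assoc, List.cons_append, List.nil_append]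

lemma brloc_f (S : TraceSys K lam n) (m : ℕ) (p l : List Lt) (i : ℕ) (w : List BL) :
    brloc_B S m p l (.sg i false :: w) = lam ^ n * (lam⁻¹ * brloc_B S m p l w -
      brloc_B S m p (l ++ [.E i (i + 1)]) w) := by
  unfold brloc_B
  rw [ext]
  simp only [List.append_assoc, List.cons_append, List.nil_append]

lemma brloc_s (S : TraceSys K lam n) (m : ℕ) (p l : List Lt) (i : ℕ) (w : List BL) :
    brloc_B S m p l (.ta i :: w) = brloc_B S m p (l ++ [.S i (i + 1)]) w := by
  unfold brloc_B
  rw [ext]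
  simp only [List.append_assoc, List.cons_append, List.nil_append]

lemma brloc_congr (S : TraceSys K lam n) {m : ℕ} {p l l' : List Lt} {w : List BL} (hw : BOk m w)
    (h : ∀ y, Ok m y → S.tr m (p ++ l ++ y) = S.tr m (p ++ l' ++ y)) :
    brloc_B S m p l w = brloc_B S m p l' w :=
  ext_congr hw h

lemma brloc_mul (S : TraceSys K lam n) {m : ℕ} {p l l' : List Lt} {w : List BL} {c : K}
    (hw : BOk m w) (h : ∀ y, Ok m y → S.tr m (p ++ l ++ y) = c * S.tr m (p ++ l' ++ y)) :
    brloc_B S m p l w = c * brloc_B S m p l' w := by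
  unfold brloc_B
  rw [← ext_mul]
  exact ext_congr hw h

lemma brloc_add (S : TraceSys K lam n) {m : ℕ} {p l1 l2 l3 l4 : List Lt} {w : List BL}
    (hw : BOk m w) (h : ∀ y, Ok m y → S.tr m (p ++ l1 ++ y) + S.tr m (p ++ l2 ++ y) =
      S.tr m (p ++ l3 ++ y) + S.tr m (p ++ l4 ++ y)) :
    brloc_B S m p l1 w + brloc_B S m p l2 w = brloc_B S m p l3 w + brloc_B S m p l4 w := by
  unfold brloc_B
  rw [← ext_add, ← ext_add]
  exact ext_congr hw h

lemma brloc_red (S : TraceSys K lam n) {m : ℕ} {u v x y : List BL} (hu : BOk m u)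
    (h : ∀ p, Ok m p → brloc_B S m p [] (x ++ v) = brloc_B S m p [] (y ++ v)) :
    bP S (m, u ++ x ++ v) = bP S (m, u ++ y ++ v) := by
  show ext lam n (S.tr m) (u ++ x ++ v) = ext lam n (S.tr m) (u ++ y ++ v)
  rw [List.append_assoc, List.append_assoc, ext_append, ext_append]
  refine ext_congr hu fun p hp => ?_
  have h1 := h p hp
  unfold brloc_B at h1
  simpa only [List.append_nil] using h1

lemma brloc_inv (hne : lam ≠ 0) : (lam⁻¹) ^ n * lam ^ n = 1 := by
  rw [← mul_pow, inv_mul_cancel₀ hne, one_pow]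

lemma brloc_far (S : TraceSys K lam n) {m : ℕ} {p : List Lt} (hp : Ok m p) {v : List BL}
    (hv : BOk m v) (a b : BL) (h : a.ix + 2 ≤ b.ix) (hb : b.ix + 1 < m) :
    brloc_B S m p [] ([a, b] ++ v) = brloc_B S m p [] ([b, a] ++ v) := by
  rcases a with ⟨i, s⟩ | i <;> rcases b with ⟨j, t⟩ | j
  · have h' : i + 2 ≤ j := h
    have hb' : j + 1 < m := hb
    have e1 := brloc_congr S (l := [Lt.E i (i + 1), Lt.E j (j + 1)])
      (l' := [Lt.E j (j + 1), Lt.E i (i + 1)]) hv (p := p) fun y hy =>
      cx_comm S hp hy (show Lt.ok m (.E i (i + 1)) from ⟨by omega, by omega, by omega⟩)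
        (show Lt.ok m (.E j (j + 1)) from ⟨by omega, by omega, by omega⟩)
        (show Lt.disj (.E i (i + 1)) (.E j (j + 1)) from ⟨by omega, by omega, by omega, by omega⟩)
    cases s <;> cases t <;>
      simp only [List.cons_append, List.nil_append, brloc_t, brloc_f, e1] <;> ring
  · have h' : i + 2 ≤ j := h
    have hb' : j + 1 < m := hb
    have e1 := brloc_congr S (l := [Lt.E i (i + 1), Lt.S j (j + 1)])
      (l' := [Lt.S j (j + 1), Lt.E i (i + 1)]) hv (p := p) fun y hy =>
      cx_comm S hp hy (show Lt.ok m (.E i (i + 1)) from ⟨by omega, by omega, by omega⟩)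
        (show Lt.ok m (.S j (j + 1)) from ⟨by omega, by omega⟩)
        (show Lt.disj (.E i (i + 1)) (.S j (j + 1)) from ⟨by omega, by omega, by omega, by omega⟩)
    cases s <;>
      simp only [List.cons_append, List.nil_append, brloc_t, brloc_f, brloc_s, e1]
  · have h' : i + 2 ≤ j := h
    have hb' : j + 1 < m := hb
    have e1 := brloc_congr S (l := [Lt.S i (i + 1), Lt.E j (j + 1)])
      (l' := [Lt.E j (j + 1), Lt.S i (i + 1)]) hv (p := p) fun y hy =>
      cx_comm S hp hy (show Lt.ok m (.S i (i + 1)) from ⟨by omega, by omega⟩)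
        (show Lt.ok m (.E j (j + 1)) from ⟨by omega, by omega, by omega⟩)
        (show Lt.disj (.S i (i + 1)) (.E j (j + 1)) from ⟨by omega, by omega, by omega, by omega⟩)
    cases t <;>
      simp only [List.cons_append, List.nil_append, brloc_t, brloc_f, brloc_s, e1]
  · have h' : i + 2 ≤ j := h
    have hb' : j + 1 < m := hb
    have e1 := brloc_congr S (l := [Lt.S i (i + 1), Lt.S j (j + 1)])
      (l' := [Lt.S j (j + 1), Lt.S i (i + 1)]) hv (p := p) fun y hy =>
      cx_comm S hp hy (show Lt.ok m (.S i (i + 1)) from ⟨by omega, by omega⟩)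
        (show Lt.ok m (.S j (j + 1)) from ⟨by omega, by omega⟩)
        (show Lt.disj (.S i (i + 1)) (.S j (j + 1)) from ⟨by omega, by omega, by omega, by omega⟩)
    simp only [List.cons_append, List.nil_append, brloc_s, e1]

lemma brloc_canc (hne : lam ≠ 0) (S : TraceSys K lam n) {m : ℕ} {p : List Lt} (hp : Ok m p)
    {v : List BL} (hv : BOk m v) (i : ℕ) (s : Bool) (hi : i + 1 < m) :
    brloc_B S m p [] ([.sg i s, .sg i !s] ++ v) = brloc_B S m p [] ([] ++ v) := by
  have e1 := brloc_mul S (l := [Lt.E i (i + 1), Lt.E i (i + 1)]) (l' := [Lt.E i (i + 1)])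
    (c := lam + lam⁻¹) hv (p := p) fun y hy => cx_e2 S hp hy (by omega) hi (by omega)
  have h1 := brloc_inv (lam := lam) (n := n) hne
  have h2 := mul_inv_cancel₀ hne
  cases s
  · simp only [Bool.not_false, List.cons_append, List.nil_append, brloc_t, brloc_f, e1]
    linear_combination (brloc_B S m p [] v * lam * lam⁻¹) * h1 + brloc_B S m p [] v * h2
  · simp only [Bool.not_true, List.cons_append, List.nil_append, brloc_t, brloc_f, e1]
    linear_combination (brloc_B S m p [] v * lam * lam⁻¹) * h1 + brloc_B S m p [] v * h2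

lemma brloc_r3 (hne : lam ≠ 0) (S : TraceSys K lam n) {m : ℕ} {p : List Lt} (hp : Ok m p)
    {v : List BL} (hv : BOk m v) (i : ℕ) (hi : i + 2 < m) :
    brloc_B S m p [] ([.sg i true, .sg (i + 1) true, .sg i true] ++ v) =
      brloc_B S m p [] ([.sg (i + 1) true, .sg i true, .sg (i + 1) true] ++ v) := by
  have e1 := brloc_mul S (l := [Lt.E i (i + 1), Lt.E i (i + 1)]) (l' := [Lt.E i (i + 1)])
    (c := lam + lam⁻¹) hv (p := p) fun y hy => cx_e2 S hp hy (by omega) (by omega) (by omega)
  have e2 := brloc_mul S (l := [Lt.E (i + 1) (i + 1 + 1), Lt.E (i + 1) (i + 1 + 1)])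
    (l' := [Lt.E (i + 1) (i + 1 + 1)])
    (c := lam + lam⁻¹) hv (p := p) fun y hy => cx_e2 S hp hy (by omega) (by omega) (by omega)
  have e3 := brloc_add S (l1 := [Lt.E i (i + 1), Lt.E (i + 1) (i + 1 + 1), Lt.E i (i + 1)])
    (l2 := [Lt.E (i + 1) (i + 1 + 1)])
    (l3 := [Lt.E (i + 1) (i + 1 + 1), Lt.E i (i + 1), Lt.E (i + 1) (i + 1 + 1)])
    (l4 := [Lt.E i (i + 1)]) hv (p := p) fun y hy =>
      cx_tri S hp hy (by omega) (by omega) (by omega) (by omega) (by omega) (by omega)
  have h2 := mul_inv_cancel₀ hne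
  simp only [List.cons_append, List.nil_append, brloc_t, e1, e2]
  linear_combination (-((lam⁻¹) ^ n) ^ 3) * e3 + ((lam⁻¹) ^ n) ^ 3 *
    (brloc_B S m p [Lt.E i (i + 1)] v - brloc_B S m p [Lt.E (i + 1) (i + 1 + 1)] v) * h2

lemma brloc_v3 (S : TraceSys K lam n) {m : ℕ} {p : List Lt} (hp : Ok m p)
    {v : List BL} (hv : BOk m v) (i : ℕ) (hi : i + 2 < m) :
    brloc_B S m p [] ([.ta i, .ta (i + 1), .ta i] ++ v) =
      brloc_B S m p [] ([.ta (i + 1), .ta i, .ta (i + 1)] ++ v) := by
  simp only [List.cons_append, List.nil_append, brloc_s]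
  exact brloc_congr S hv fun y hy =>
      cx_v3 S hp hy (by omega) (by omega) (by omega) (by omega) (by omega) (by omega)

lemma brloc_mix (S : TraceSys K lam n) {m : ℕ} {p : List Lt} (hp : Ok m p)
    {v : List BL} (hv : BOk m v) (i : ℕ) (s : Bool) (hi : i + 2 < m) :
    brloc_B S m p [] ([.ta i, .ta (i + 1), .sg i s] ++ v) =
      brloc_B S m p [] ([.sg (i + 1) s, .ta i, .ta (i + 1)] ++ v) := by
  have e1 := brloc_congr S (l := [Lt.S i (i + 1), Lt.S (i + 1) (i + 1 + 1), Lt.E i (i + 1)])
    (l' := [Lt.E (i + 1) (i + 1 + 1), Lt.S i (i + 1), Lt.S (i + 1) (i + 1 + 1)]) hv (p := p)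
    fun y hy => cx_mix S hp hy (by omega) (by omega) (by omega) (by omega) (by omega) (by omega)
  cases s <;> simp only [List.cons_append, List.nil_append, brloc_s, brloc_t, brloc_f, e1]

theorem bP_loc (hne : lam ≠ 0) (S : TraceSys K lam n) {m : ℕ} {u v x y : List BL} (h : Loc x y)
    (h1 : BOk m (u ++ x ++ v)) (h2 : BOk m (u ++ y ++ v)) :
    bP S (m, u ++ x ++ v) = bP S (m, u ++ y ++ v) := by
  have hu : BOk m u := fun a ha => h1 a (List.mem_append_left _ (List.mem_append_left _ ha))
  have hx : BOk m x := fun a ha => h1 a (List.mem_append_left _ (List.mem_append_right _ ha))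
  have hy : BOk m y := fun a ha => h2 a (List.mem_append_left _ (List.mem_append_right _ ha))
  have hv : BOk m v := fun a ha => h1 a (List.mem_append_right _ ha)
  refine brloc_red S hu fun p hp => ?_
  cases h with
  | far a b h =>
    exact brloc_far S hp hv a b h (hx b (by simp))
  | canc i s =>
    exact brloc_canc hne S hp hv i s (hx (.sg i s) (by simp))
  | tt i =>
    have hi : i + 1 < m := hx (.ta i) (by simp)
    simp only [List.cons_append, List.nil_append, brloc_s]
    refine brloc_congr S hv fun y hy => ?_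
    rw [cx_ss S hp hy (by omega) hi, List.append_nil]
  | r3 i =>
    exact brloc_r3 hne S hp hv i (hx (.sg (i + 1) true) (by simp))
  | v3 i =>
    exact brloc_v3 S hp hv i (hx (.ta (i + 1)) (by simp))
  | mix i s =>
    exact brloc_mix S hp hv i s (hx (.ta (i + 1)) (by simp))

theorem bP_virt (hne : lam ≠ 0) (S : TraceSys K lam n) {m : ℕ} {u v : List BL} {i : ℕ} {s : Bool}
    (h : BOk m (u ++ [.sg i s] ++ v)) :
    bP S (m, u ++ [.sg i s] ++ v) = bP S (m, u ++ [.ta i, .sg i s, .ta i] ++ v) := by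
  have hu : BOk m u := fun a ha => h a (List.mem_append_left _ (List.mem_append_left _ ha))
  have hv : BOk m v := fun a ha => h a (List.mem_append_right _ ha)
  have hi : i + 1 < m := h (.sg i s) (by simp)
  refine brloc_red S hu fun p hp => ?_
  have e1 := brloc_congr S (l := [Lt.S i (i + 1), Lt.S i (i + 1)]) (l' := []) hv (p := p)
    fun y hy => by rw [cx_ss S hp hy (by omega) hi, List.append_nil]
  have e2 := brloc_congr S (l := [Lt.S i (i + 1), Lt.E i (i + 1), Lt.S i (i + 1)])
    (l' := [Lt.E i (i + 1)]) hv (p := p) fun y hy => by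
      have hy' : Ok m ([Lt.S i (i + 1)] ++ y) := by
        intro b hb
        rcases List.mem_append.1 hb with hb | hb
        · rw [List.mem_singleton] at hb
          rw [hb]
          exact ⟨by omega, hi⟩
        · exact hy b hb
      have f1 := cx_se S hp hy' (i := i) (j := i + 1) (by omega) hi (by omega)
      have f2 := cx_es S hp hy (i := i) (j := i + 1) (by omega) hi (by omega)
      rw [← f2]
      simpa only [List.append_assoc, List.cons_append, List.nil_append] using f1
  cases s <;> simp only [List.cons_append, List.nil_append, brloc_s, brloc_t, brloc_f, e1, e2]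

end ZM
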