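import Pool.Agent.H75.ZM.BrDefs

/-!
# HOMFLY functionals are determined by the axioms (row ZM HoU)

Statement: for each classical word `w` on `m ≥ 1` strands there are `N` and a polynomial `F` in three
variables with integer coefficients such that `z ^ N * P m w = F (a, a⁻¹, z)` for all HOMFLY
functionals `P` (over all fields, all parameters `a ≠ 0`, `z`).  Call such a `w` good (for `m`).

Proof.  (0) Linear combinations: if `P m w = ∑ c_i P m w_i` for all `P`, with `c_i` polynomials in
`a, a⁻¹, z`, and all `w_i` are good, then `w` is good.
(1) By the skein relation `σ_i⁻¹ = a^2 σ_i - a z` in context; so one can restrict to positive words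
(written as lists of natural numbers), with the relations in context: far commutation, braid
relation, and `σ_i σ_i = a^-2 + a^-1 z σ_i` (from the skein relation and `σ_i σ_i⁻¹ = 1`).
(2) Let `G` be a predicate on positive words with indices `< M` compatible with these relations in
context.  If `G` holds for the words with indices `≤ j` and at most one occurrence of `j`, then it
holds for all words with indices `≤ j`.  Induction on `j`, and for given `j` on the number
of occurrences of `j` in `w`.  If there are at least two, consider two consecutive ones,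
`w = x j u j y` with `u` of indices `< j`.  If `j = 0`, `u` is empty.  If `j > 0`, by the claim for
`j - 1` we may assume that `u` has at most one occurrence of `j - 1`.  If it has none, then
`j u j = u j j` (far commutation), and `j j` reduces to at most one `j`.  If `u = α (j-1) β` with
`α, β` of indices `< j - 1`, then `j α (j-1) β j = α j (j-1) j β = α (j-1) j (j-1) β`.  In both cases
the number of occurrences of `j` drops.
(3) All words on `m ≥ 1` strands are good: induction on `m`.  `m = 1`: only the empty word,
`P 1 [] = 1`.  `m + 2` strands (indices `≤ m`): by (2) with `j = m` we may assume at most one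
occurrence of `m`.  If `w = x m y`, then by conjugation and stabilization
`P (m+2) (x m y) = P (m+2) ((y x) m) = P (m+1) (y x)`.  If there is none:
`z P (m+2) w = a P (m+2) (w σ_m) - a⁻¹ P (m+2) (w σ_m⁻¹) = (a - a⁻¹) P (m+1) w`.
-/

namespace ZM

/-- Positive words. -/
def hou_pos (l : List ℕ) : List BL := l.map (fun i => BL.sg i true)

/-- The words whose HOMFLY values are determined. -/
def hou_Good (m : ℕ) (w : List BL) : Prop :=
  ∃ (N : ℕ) (F : MvPolynomial (Fin 3) ℤ), ∀ (K : Type) [Field K] (a z : K) (P : ℕ → List BL → K),
      a ≠ 0 → Homfly K a z P → z ^ N * P m w = MvPolynomial.aeval ![a, a⁻¹, z] F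

/-- The predicates on positive words compatible with the relations in context. -/
structure hou_Cl (M : ℕ) (G : List ℕ → Prop) : Prop where
  far : ∀ u v i k, i + 2 ≤ k → k < M → (∀ x ∈ u, x < M) → (∀ x ∈ v, x < M) →
    (G (u ++ i :: k :: v) ↔ G (u ++ k :: i :: v))
  br : ∀ u v i, i + 1 < M → (∀ x ∈ u, x < M) → (∀ x ∈ v, x < M) →
    (G (u ++ i :: (i + 1) :: i :: v) ↔ G (u ++ (i + 1) :: i :: (i + 1) :: v))
  sq : ∀ u v i, i < M → (∀ x ∈ u, x < M) → (∀ x ∈ v, x < M) →
    G (u ++ v) → G (u ++ i :: v) → G (u ++ i :: i :: v)

lemma hou_app {M : ℕ} {u v : List ℕ} (hu : ∀ x ∈ u, x < M) (hv : ∀ x ∈ v, x < M) :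
    ∀ x ∈ u ++ v, x < M := by
  intro x hx
  rcases List.mem_append.mp hx with h | h
  exacts [hu x h, hv x h]

lemma hou_ctx {M : ℕ} {G : List ℕ → Prop} (h : hou_Cl M G) (p q : List ℕ)
    (hp : ∀ x ∈ p, x < M) (hq : ∀ x ∈ q, x < M) : hou_Cl M (fun y => G (p ++ (y ++ q))) where
  far u v i k h1 h2 h3 h4 := by
    have := h.far (p ++ u) (v ++ q) i k h1 h2 (hou_app hp h3) (hou_app h4 hq)
    simpa [List.append_assoc] using this
  br u v i h1 h3 h4 := by
    have := h.br (p ++ u) (v ++ q) i h1 (hou_app hp h3) (hou_app h4 hq)
    simpa [List.append_assoc] using this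
  sq u v i h1 h3 h4 h5 h6 := by
    have := h.sq (p ++ u) (v ++ q) i h1 (hou_app hp h3) (hou_app h4 hq)
      (by simpa [List.append_assoc] using h5) (by simpa [List.append_assoc] using h6)
    simpa [List.append_assoc] using this

lemma hou_thru {M : ℕ} {G : List ℕ → Prop} (h : hou_Cl M G) (j : ℕ) (hj : j < M) :
    ∀ α : List ℕ, (∀ x ∈ α, x + 2 ≤ j) → ∀ u v : List ℕ, (∀ x ∈ u, x < M) → (∀ x ∈ v, x < M) →
      (G (u ++ j :: (α ++ v)) ↔ G (u ++ (α ++ j :: v)))
  | [], _, _, _, _, _ => by simp
  | x :: α, hα, u, v, hu, hv => by
    have hx : x + 2 ≤ j := hα x (by simp)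
    have hα' : ∀ y ∈ α, y + 2 ≤ j := fun y hy => hα y (by simp [hy])
    have hαM : ∀ y ∈ α, y < M := fun y hy => by
      have := hα' y hy
      omega
    have e1 := h.far u (α ++ v) x j hx hj hu (hou_app hαM hv)
    have hu' : ∀ y ∈ u ++ [x], y < M := hou_app hu (by
      intro y hy
      have : y = x := by simpa using hy
      omega)
    have e2 := hou_thru h j hj α hα' (u ++ [x]) v hu' hv
    have e3 : u ++ [x] ++ j :: (α ++ v) = u ++ x :: j :: (α ++ v) := by simp
    have e4 : u ++ [x] ++ (α ++ j :: v) = u ++ (x :: α ++ j :: v) := by simp
    rw [e3, e4] at e2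
    exact e1.symm.trans e2

/-- Two consecutive occurrences. -/
lemma hou_split {j : ℕ} {x : List ℕ} (h : 2 ≤ x.count j) :
    ∃ p u q : List ℕ, x = p ++ j :: (u ++ j :: q) ∧ j ∉ u ∧ j ∉ p := by
  have h1 : j ∈ x := List.count_pos_iff.mp (by omega)
  obtain ⟨p, t, rfl, hp⟩ := List.eq_append_cons_of_mem h1
  have hp0 : p.count j = 0 := List.count_eq_zero.mpr hp
  rw [List.count_append, hp0, List.count_cons_self] at h
  have h2 : j ∈ t := List.count_pos_iff.mp (by omega)
  obtain ⟨u, q, rfl, hu⟩ := List.eq_append_cons_of_mem h2
  exact ⟨p, u, q, rfl, hu, hp⟩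

theorem hou_red (M : ℕ) : ∀ j, j < M → ∀ G : List ℕ → Prop, hou_Cl M G →
    (∀ y : List ℕ, (∀ x ∈ y, x ≤ j) → y.count j ≤ 1 → G y) →
      ∀ x : List ℕ, (∀ i ∈ x, i ≤ j) → G x := by
  intro j
  induction j with
  | zero =>
    intro hj G hG hb
    have key : ∀ n : ℕ, ∀ x : List ℕ, x.count 0 = n → (∀ i ∈ x, i ≤ 0) → G x := by
      intro n
      induction n using Nat.strong_induction_on with
      | _ n ih =>
        intro x hx hx0
        by_cases h2 : x.count 0 ≤ 1
        · exact hb x hx0 h2
        · obtain ⟨p, u, q, rfl, hu, -⟩ := hou_split (j := 0) (x := x) (by omega)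
          have hu0 : u = [] := by
            rcases u with _ | ⟨b, u⟩
            · rfl
            · exfalso
              have hb0 : b ≤ 0 := hx0 b (by simp)
              have : b = 0 := by omega
              exact hu (by simp [this])
          subst hu0
          have hp : ∀ i ∈ p, i ≤ 0 := fun i hi => hx0 i (by simp [hi])
          have hq : ∀ i ∈ q, i ≤ 0 := fun i hi => hx0 i (by simp [hi])
          simp only [List.nil_append] at hx ⊢
          rw [List.count_append, List.count_cons_self, List.count_cons_self] at hx
          refine hG.sq p q 0 hj (fun i hi => ?_) (fun i hi => ?_) ?_ ?_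
          · have := hp i hi
            omega
          · have := hq i hi
            omega
          · refine ih ((p ++ q).count 0) ?_ _ rfl ?_
            · rw [List.count_append]
              omega
            · intro i hi
              rcases List.mem_append.mp hi with h | h
              exacts [hp i h, hq i h]
          · refine ih ((p ++ 0 :: q).count 0) ?_ _ rfl ?_
            · rw [List.count_append, List.count_cons_self]
              omega
            · intro i hi
              rcases List.mem_append.mp hi with h | h
              · exact hp i h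
              · rcases List.mem_cons.mp h with h | h
                · omega
                · exact hq i h
    intro x hx
    exact key _ x rfl hx
  | succ j IH =>
    intro hj G hG hb
    have key : ∀ n : ℕ, ∀ x : List ℕ, x.count (j + 1) = n → (∀ i ∈ x, i ≤ j + 1) → G x := by
      intro n
      induction n using Nat.strong_induction_on with
      | _ n ih =>
        intro x hx hx0
        by_cases h2 : x.count (j + 1) ≤ 1
        · exact hb x hx0 h2
        · obtain ⟨p, u, q, rfl, hu, -⟩ := hou_split (j := j + 1) (x := x) (by omega)
          have hp : ∀ i ∈ p, i ≤ j + 1 := fun i hi => hx0 i (by simp [hi])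
          have hq : ∀ i ∈ q, i ≤ j + 1 := fun i hi => hx0 i (by simp [hi])
          have hu1 : ∀ i ∈ u, i ≤ j := fun i hi => by
            have h1 : i ≤ j + 1 := hx0 i (by simp [hi])
            have h3 : i ≠ j + 1 := fun h => hu (h ▸ hi)
            omega
          have hpM : ∀ i ∈ p, i < M := fun i hi => lt_of_le_of_lt (hp i hi) hj
          have hqM : ∀ i ∈ q, i < M := fun i hi => lt_of_le_of_lt (hq i hi) hj
          have hu0 : u.count (j + 1) = 0 := List.count_eq_zero.mpr hu
          rw [List.count_append, List.count_cons_self, List.count_append, List.count_cons_self,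
            hu0] at hx
          have hpj : ∀ i ∈ p ++ [j + 1], i < M := hou_app hpM (by
            intro i hi
            have : i = j + 1 := by simpa using hi
            omega)
          have hjq : ∀ i ∈ (j + 1) :: q, i < M := by
            intro i hi
            rcases List.mem_cons.mp hi with h | h
            · omega
            · exact hqM i h
          have hcl := hou_ctx hG (p ++ [j + 1]) ((j + 1) :: q) hpj hjq
          have goal := IH (by omega) (fun y => G (p ++ [j + 1] ++ (y ++ (j + 1) :: q))) hcl ?_ u hu1
          · simpa [List.append_assoc] using goal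
          · intro y hy hyc
            show G (p ++ [j + 1] ++ (y ++ (j + 1) :: q))
            have e0 : p ++ [j + 1] ++ (y ++ (j + 1) :: q) = p ++ (j + 1) :: (y ++ (j + 1) :: q) := by
              simp
            rw [e0]
            have hyj : y.count (j + 1) = 0 := List.count_eq_zero.mpr fun h => by
              have := hy _ h
              omega
            by_cases hc0 : y.count j = 0
            · have hyn : j ∉ y := List.count_eq_zero.mp hc0
              have hy2 : ∀ i ∈ y, i + 2 ≤ j + 1 := fun i hi => by
                have h1 := hy i hi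
                have h3 : i ≠ j := fun h => hyn (h ▸ hi)
                omega
              have hyM : ∀ i ∈ y, i < M := fun i hi => by
                have := hy i hi
                omega
              rw [hou_thru hG (j + 1) hj y hy2 p _ hpM hjq]
              have e1 : p ++ (y ++ (j + 1) :: (j + 1) :: q) = (p ++ y) ++ (j + 1) :: (j + 1) :: q := by
                simp
              rw [e1]
              refine hG.sq (p ++ y) q (j + 1) hj (hou_app hpM hyM) hqM ?_ ?_
              · refine ih ((p ++ y ++ q).count (j + 1)) ?_ _ rfl ?_
                · rw [List.count_append, List.count_append, hyj]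
                  omega
                · intro i hi
                  simp only [List.mem_append] at hi
                  rcases hi with (h | h) | h
                  · exact hp i h
                  · have := hy i h
                    omega
                  · exact hq i h
              · refine ih ((p ++ y ++ (j + 1) :: q).count (j + 1)) ?_ _ rfl ?_
                · rw [List.count_append, List.count_append, hyj, List.count_cons_self]
                  omega
                · intro i hi
                  simp only [List.mem_append, List.mem_cons] at hi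
                  rcases hi with (h | h) | h | h
                  · exact hp i h
                  · have := hy i h
                    omega
                  · omega
                  · exact hq i h
            · have hjy : j ∈ y := List.count_pos_iff.mp (by omega)
              obtain ⟨α, β, rfl, hα⟩ := List.eq_append_cons_of_mem hjy
              have hα0 : α.count j = 0 := List.count_eq_zero.mpr hα
              rw [List.count_append, List.count_cons_self, hα0] at hyc
              have hβ0 : β.count j = 0 := by omega
              have hβ : j ∉ β := List.count_eq_zero.mp hβ0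
              have hα2 : ∀ i ∈ α, i + 2 ≤ j + 1 := fun i hi => by
                have h1 := hy i (by simp [hi])
                have h3 : i ≠ j := fun h => hα (h ▸ hi)
                omega
              have hβ2 : ∀ i ∈ β, i + 2 ≤ j + 1 := fun i hi => by
                have h1 := hy i (by simp [hi])
                have h3 : i ≠ j := fun h => hβ (h ▸ hi)
                omega
              have hαM : ∀ i ∈ α, i < M := fun i hi => by
                have := hα2 i hi
                omega
              have hβM : ∀ i ∈ β, i < M := fun i hi => by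
                have := hβ2 i hi
                omega
              have hj1 : ∀ i ∈ [j], i < M := by
                intro i hi
                have : i = j := by simpa using hi
                omega
              have e1 : p ++ (j + 1) :: (α ++ j :: β ++ (j + 1) :: q) =
                  p ++ (j + 1) :: (α ++ (j :: (β ++ (j + 1) :: q))) := by simp
              have hM1 : ∀ i ∈ j :: (β ++ (j + 1) :: q), i < M := by
                have := hou_app hj1 (hou_app hβM hjq)
                simpa using this
              rw [e1, hou_thru hG (j + 1) hj α hα2 p _ hpM hM1]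
              have e2 : p ++ (α ++ (j + 1) :: j :: (β ++ (j + 1) :: q)) =
                  (p ++ α ++ [j + 1, j]) ++ (β ++ (j + 1) :: q) := by simp
              have hj2 : ∀ i ∈ [j + 1, j], i < M := by
                intro i hi
                have : i = j + 1 ∨ i = j := by simpa using hi
                omega
              have hM2 : ∀ i ∈ p ++ α ++ [j + 1, j], i < M := hou_app (hou_app hpM hαM) hj2
              rw [e2, ← hou_thru hG (j + 1) hj β hβ2 _ q hM2 hqM]
              have e3 : p ++ α ++ [j + 1, j] ++ (j + 1) :: (β ++ q) =
                  (p ++ α) ++ (j + 1) :: j :: (j + 1) :: (β ++ q) := by simp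
              rw [e3, ← hG.br (p ++ α) (β ++ q) j hj (hou_app hpM hαM) (hou_app hβM hqM)]
              have hαj : α.count (j + 1) = 0 := List.count_eq_zero.mpr fun h => by
                have := hα2 _ h
                omega
              have hβj : β.count (j + 1) = 0 := List.count_eq_zero.mpr fun h => by
                have := hβ2 _ h
                omega
              refine ih ((p ++ α ++ j :: (j + 1) :: j :: (β ++ q)).count (j + 1)) ?_ _ rfl ?_
              · have hne : j ≠ j + 1 := by omega
                rw [List.count_append, List.count_append, hαj, List.count_cons_of_ne hne,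
                  List.count_cons_self, List.count_cons_of_ne hne, List.count_append, hβj]
                omega
              · intro i hi
                simp only [List.mem_append, List.mem_cons] at hi
                rcases hi with (h | h) | h | h | h | h | h
                · exact hp i h
                · have := hα2 i h
                  omega
                · omega
                · omega
                · omega
                · have := hβ2 i h
                  omega
                · exact hq i h
    intro x hx
    exact key _ x rfl hx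

/-! ### Goodness -/

/-- Linear combinations. -/
lemma hou_comb {m m1 m2 : ℕ} {w w1 w2 : List BL} (k : ℕ) (C1 C2 : MvPolynomial (Fin 3) ℤ)
    (g1 : hou_Good m1 w1) (g2 : hou_Good m2 w2)
    (h : ∀ (K : Type) [Field K] (a z : K) (P : ℕ → List BL → K), a ≠ 0 → Homfly K a z P →
      z ^ k * P m w = MvPolynomial.aeval ![a, a⁻¹, z] C1 * P m1 w1 +
        MvPolynomial.aeval ![a, a⁻¹, z] C2 * P m2 w2) : hou_Good m w := by
  obtain ⟨N1, F1, h1⟩ := g1
  obtain ⟨N2, F2, h2⟩ := g2
  refine ⟨N1 + N2 + k, C1 * MvPolynomial.X 2 ^ N2 * F1 + C2 * MvPolynomial.X 2 ^ N1 * F2, ?_⟩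
  intro K _ a z P ha hP
  have e1 := h1 K a z P ha hP
  have e2 := h2 K a z P ha hP
  have e := h K a z P ha hP
  simp only [map_add, map_mul, map_pow, MvPolynomial.aeval_X]
  rw [← e1, ← e2]
  have hz : (![a, a⁻¹, z] : Fin 3 → K) 2 = z := rfl
  rw [hz, pow_add, mul_assoc, e]
  ring

/-- Equal values. -/
lemma hou_eq {m m1 : ℕ} {w w1 : List BL} (g1 : hou_Good m1 w1)
    (h : ∀ (K : Type) [Field K] (a z : K) (P : ℕ → List BL → K), a ≠ 0 → Homfly K a z P →
      P m w = P m1 w1) : hou_Good m w := by
  obtain ⟨N1, F1, h1⟩ := g1
  refine ⟨N1, F1, fun K _ a z P ha hP => ?_⟩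
  rw [h K a z P ha hP]
  exact h1 K a z P ha hP

lemma hou_pos_app (u v : List ℕ) : hou_pos (u ++ v) = hou_pos u ++ hou_pos v := by
  simp [hou_pos]

lemma hou_pos_cons (i : ℕ) (v : List ℕ) : hou_pos (i :: v) = BL.sg i true :: hou_pos v := by
  simp [hou_pos]

lemma hou_cl_pos (u : List ℕ) : Classical (hou_pos u) := by
  intro b hb
  obtain ⟨i, -, rfl⟩ := List.mem_map.mp hb
  exact ⟨i, true, rfl⟩

lemma hou_cl_app {u v : List BL} (hu : Classical u) (hv : Classical v) : Classical (u ++ v) := by
  intro b hb
  rcases List.mem_append.mp hb with h | h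
  exacts [hu b h, hv b h]

lemma hou_cl_cons (i : ℕ) (s : Bool) {v : List BL} (hv : Classical v) :
    Classical (BL.sg i s :: v) := by
  intro b hb
  rcases List.mem_cons.mp hb with h | h
  exacts [⟨i, s, h⟩, hv b h]

lemma hou_ok_pos {m : ℕ} {u : List ℕ} (h : ∀ i ∈ u, i + 1 < m) : BOk m (hou_pos u) := by
  intro b hb
  obtain ⟨i, hi, rfl⟩ := List.mem_map.mp hb
  exact h i hi

lemma hou_ok_app {m : ℕ} {u v : List BL} (hu : BOk m u) (hv : BOk m v) : BOk m (u ++ v) := by
  intro b hb
  rcases List.mem_append.mp hb with h | h
  exacts [hu b h, hv b h]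

lemma hou_ok_cons {m : ℕ} (i : ℕ) (s : Bool) (hi : i + 1 < m) {v : List BL} (hv : BOk m v) :
    BOk m (BL.sg i s :: v) := by
  intro b hb
  rcases List.mem_cons.mp hb with h | h
  · subst h
    exact hi
  · exact hv b h

lemma hou_nil_cl : Classical [] := by
  intro b hb
  simp at hb

lemma hou_nil_ok (m : ℕ) : BOk m [] := by
  intro b hb
  simp at hb

/-- The relation `σ σ = a⁻² + a⁻¹ z σ`. -/
lemma hou_sq {K : Type} [Field K] {a z : K} {P : ℕ → List BL → K} (ha : a ≠ 0)
    (hP : Homfly K a z P) {m i : ℕ} {u v : List BL} (hu : Classical u) (hv : Classical v)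
    (ou : BOk m u) (ov : BOk m v) (hi : i + 1 < m) :
    P m (u ++ BL.sg i true :: BL.sg i true :: v) =
      a⁻¹ ^ 2 * P m (u ++ v) + a⁻¹ * z * P m (u ++ BL.sg i true :: v) := by
  have s1 := hP.skein m (u ++ [BL.sg i true]) v i
    (hou_cl_app (hou_cl_app hu (hou_cl_cons i true hou_nil_cl)) hv)
    (hou_ok_app (hou_ok_app (hou_ok_app ou (hou_ok_cons i true hi (hou_nil_ok m)))
      (hou_ok_cons i true hi (hou_nil_ok m))) ov)
  have s2 := hP.loc m u v [BL.sg i true, BL.sg i false] [] (Loc.canc i true)
    (hou_cl_app (hou_cl_app hu (hou_cl_cons i true (hou_cl_cons i false hou_nil_cl))) hv)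
    (by simpa using hou_cl_app hu hv)
    (hou_ok_app (hou_ok_app ou (hou_ok_cons i true hi (hou_ok_cons i false hi (hou_nil_ok m)))) ov)
    (by simpa using hou_ok_app ou ov)
  have e1 : u ++ [BL.sg i true] ++ [BL.sg i true] ++ v = u ++ BL.sg i true :: BL.sg i true :: v := by
    simp
  have e2 : u ++ [BL.sg i true] ++ [BL.sg i false] ++ v = u ++ [BL.sg i true, BL.sg i false] ++ v := by
    simp
  have e3 : u ++ [BL.sg i true] ++ v = u ++ BL.sg i true :: v := by simp
  have e4 : u ++ [] ++ v = u ++ v := by simp
  rw [e1, e2, e3, s2, e4] at s1
  field_simp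
  field_simp at s1
  linear_combination s1

/-- The predicate goodness on positive words is compatible with the relations. -/
lemma hou_good_cl (m : ℕ) : hou_Cl (m + 1) (fun x => hou_Good (m + 2) (hou_pos x)) where
  far u v i k h1 h2 h3 h4 := by
    have key : ∀ (K : Type) [Field K] (a z : K) (P : ℕ → List BL → K), a ≠ 0 → Homfly K a z P →
        P (m + 2) (hou_pos (u ++ i :: k :: v)) = P (m + 2) (hou_pos (u ++ k :: i :: v)) := by
      intro K _ a z P ha hP
      have hl := hP.loc (m + 2) (hou_pos u) (hou_pos v) [BL.sg i true, BL.sg k true]
        [BL.sg k true, BL.sg i true] (Loc.far (BL.sg i true) (BL.sg k true) h1)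
      have e1 : hou_pos (u ++ i :: k :: v) = hou_pos u ++ [BL.sg i true, BL.sg k true] ++ hou_pos v := by
        simp [hou_pos]
      have e2 : hou_pos (u ++ k :: i :: v) = hou_pos u ++ [BL.sg k true, BL.sg i true] ++ hou_pos v := by
        simp [hou_pos]
      have o1 : ∀ x ∈ u ++ i :: k :: v, x + 1 < m + 2 := by
        intro x hx
        simp only [List.mem_append, List.mem_cons] at hx
        rcases hx with h | h | h | h
        · have := h3 x h
          omega
        · omega
        · omega
        · have := h4 x h
          omega
      have o2 : ∀ x ∈ u ++ k :: i :: v, x + 1 < m + 2 := by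
        intro x hx
        apply o1
        simp only [List.mem_append, List.mem_cons] at hx ⊢
        tauto
      rw [e1, e2]
      exact hl (e1 ▸ hou_cl_pos _) (e2 ▸ hou_cl_pos _) (e1 ▸ hou_ok_pos o1) (e2 ▸ hou_ok_pos o2)
    constructor
    · intro h
      exact hou_eq h fun K _ a z P ha hP => (key K a z P ha hP).symm
    · intro h
      exact hou_eq h fun K _ a z P ha hP => key K a z P ha hP
  br u v i h1 h3 h4 := by
    have key : ∀ (K : Type) [Field K] (a z : K) (P : ℕ → List BL → K), a ≠ 0 → Homfly K a z P →
        P (m + 2) (hou_pos (u ++ i :: (i + 1) :: i :: v)) =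
          P (m + 2) (hou_pos (u ++ (i + 1) :: i :: (i + 1) :: v)) := by
      intro K _ a z P ha hP
      have hl := hP.loc (m + 2) (hou_pos u) (hou_pos v) _ _ (Loc.r3 i)
      have e1 : hou_pos (u ++ i :: (i + 1) :: i :: v) =
          hou_pos u ++ [BL.sg i true, BL.sg (i + 1) true, BL.sg i true] ++ hou_pos v := by
        simp [hou_pos]
      have e2 : hou_pos (u ++ (i + 1) :: i :: (i + 1) :: v) =
          hou_pos u ++ [BL.sg (i + 1) true, BL.sg i true, BL.sg (i + 1) true] ++ hou_pos v := by
        simp [hou_pos]
      have o1 : ∀ x ∈ u ++ i :: (i + 1) :: i :: v, x + 1 < m + 2 := by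
        intro x hx
        simp only [List.mem_append, List.mem_cons] at hx
        rcases hx with h | h | h | h | h
        · have := h3 x h
          omega
        · omega
        · omega
        · omega
        · have := h4 x h
          omega
      have o2 : ∀ x ∈ u ++ (i + 1) :: i :: (i + 1) :: v, x + 1 < m + 2 := by
        intro x hx
        apply o1
        simp only [List.mem_append, List.mem_cons] at hx ⊢
        tauto
      rw [e1, e2]
      exact hl (e1 ▸ hou_cl_pos _) (e2 ▸ hou_cl_pos _) (e1 ▸ hou_ok_pos o1) (e2 ▸ hou_ok_pos o2)
    constructor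
    · intro h
      exact hou_eq h fun K _ a z P ha hP => (key K a z P ha hP).symm
    · intro h
      exact hou_eq h fun K _ a z P ha hP => key K a z P ha hP
  sq u v i h1 h3 h4 h5 h6 := by
    refine hou_comb 0 (MvPolynomial.X 1 ^ 2) (MvPolynomial.X 1 * MvPolynomial.X 2) h5 h6 ?_
    intro K _ a z P ha hP
    have ou : BOk (m + 2) (hou_pos u) := hou_ok_pos fun x hx => by
      have := h3 x hx
      omega
    have ov : BOk (m + 2) (hou_pos v) := hou_ok_pos fun x hx => by
      have := h4 x hx
      omega
    have s := hou_sq ha hP (m := m + 2) (i := i) (hou_cl_pos u) (hou_cl_pos v) ou ov (by omega)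
    simp only [hou_pos_app, hou_pos_cons, map_mul, map_pow, MvPolynomial.aeval_X]
    rw [pow_zero, one_mul, s]
    rfl

/-- Classical words are good if positive words are good. -/
lemma hou_classical (m : ℕ) (h : ∀ u : List ℕ, (∀ x ∈ u, x + 1 < m) → hou_Good m (hou_pos u)) :
    ∀ v : List BL, Classical v → BOk m v → ∀ u : List ℕ, (∀ x ∈ u, x + 1 < m) →
      hou_Good m (hou_pos u ++ v)
  | [], _, _, u, hu => by simpa using h u hu
  | b :: v, hc, ho, u, hu => by
    obtain ⟨i, s, rfl⟩ := hc b (by simp)
    have hi : i + 1 < m := ho _ (List.mem_cons_self)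
    have hcv : Classical v := fun x hx => hc x (by simp [hx])
    have hov : BOk m v := fun x hx => ho x (by simp [hx])
    have hu' : ∀ x ∈ u ++ [i], x + 1 < m := by
      intro x hx
      rcases List.mem_append.mp hx with h | h
      · exact hu x h
      · have : x = i := by simpa using h
        omega
    have g1 := hou_classical m h v hcv hov (u ++ [i]) hu'
    have e1 : hou_pos (u ++ [i]) ++ v = hou_pos u ++ [BL.sg i true] ++ v := by simp [hou_pos]
    rcases s with _ | _
    · have g2 := hou_classical m h v hcv hov u hu
      refine hou_comb 0 (MvPolynomial.X 0 ^ 2) (-(MvPolynomial.X 0 * MvPolynomial.X 2)) g1 g2 ?_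
      intro K _ a z P ha hP
      have s1 := hP.skein m (hou_pos u) v i (hou_cl_app (hou_cl_pos u) hcv)
        (hou_ok_app (hou_ok_app (hou_ok_pos hu) (hou_ok_cons i true hi (hou_nil_ok m))) hov)
      have e2 : hou_pos u ++ BL.sg i false :: v = hou_pos u ++ [BL.sg i false] ++ v := by simp
      have h0 : (![a, a⁻¹, z] : Fin 3 → K) 0 = a := rfl
      have h2 : (![a, a⁻¹, z] : Fin 3 → K) 2 = z := rfl
      simp only [map_mul, map_pow, map_neg, MvPolynomial.aeval_X, h0, h2]
      rw [e1, e2, pow_zero, one_mul]
      field_simp at s1
      linear_combination -s1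
    · have e2 : hou_pos u ++ BL.sg i true :: v = hou_pos u ++ [BL.sg i true] ++ v := by simp
      rw [e2, ← e1]
      exact g1

/-- All words are good. -/
lemma hou_all : ∀ m : ℕ, ∀ w : List BL, Classical w → BOk (m + 1) w → hou_Good (m + 1) w := by
  intro m
  induction m with
  | zero =>
    intro w hc ho
    have hw : w = [] := by
      rcases w with _ | ⟨b, w⟩
      · rfl
      · have := ho b (by simp)
        omega
    subst hw
    refine ⟨0, 1, fun K _ a z P ha hP => ?_⟩
    rw [hP.unknot]
    simp
  | succ m IH =>
    have hpos : ∀ u : List ℕ, (∀ x ∈ u, x + 1 < m + 2) → hou_Good (m + 2) (hou_pos u) := by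
      intro u hu
      refine hou_red (m + 1) m (by omega) (fun x => hou_Good (m + 2) (hou_pos x)) (hou_good_cl m)
        ?_ u (fun i hi => by have := hu i hi; omega)
      intro y hy hyc
      show hou_Good (m + 2) (hou_pos y)
      by_cases h0 : y.count m = 0
      · have hym : m ∉ y := List.count_eq_zero.mp h0
        have hy2 : ∀ i ∈ y, i + 1 < m + 1 := fun i hi => by
          have h1 := hy i hi
          have h3 : i ≠ m := fun h => hym (h ▸ hi)
          omega
        have g := IH (hou_pos y) (hou_cl_pos y) (hou_ok_pos hy2)
        refine hou_comb 1 (MvPolynomial.X 0) (-(MvPolynomial.X 1)) g g ?_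
        intro K _ a z P ha hP
        have oy : BOk (m + 2) (hou_pos y) := hou_ok_pos fun i hi => by
          have := hy2 i hi
          omega
        have s1 := hP.skein (m + 2) (hou_pos y) [] m
          (hou_cl_app (hou_cl_pos y) hou_nil_cl)
          (hou_ok_app (hou_ok_app oy (hou_ok_cons m true (by omega) (hou_nil_ok _)))
            (hou_nil_ok _))
        have s2 := hP.stab m (hou_pos y) true (hou_cl_pos y) (hou_ok_pos hy2)
        have s3 := hP.stab m (hou_pos y) false (hou_cl_pos y) (hou_ok_pos hy2)
        rw [List.append_nil, List.append_nil, List.append_nil, s2, s3] at s1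
        have h0 : (![a, a⁻¹, z] : Fin 3 → K) 0 = a := rfl
        have h2 : (![a, a⁻¹, z] : Fin 3 → K) 1 = a⁻¹ := rfl
        simp only [map_neg, MvPolynomial.aeval_X, h0, h2]
        rw [pow_one, ← s1]
        ring
      · have hmy : m ∈ y := List.count_pos_iff.mp (by omega)
        obtain ⟨α, β, rfl, hα⟩ := List.eq_append_cons_of_mem hmy
        have hα0 : α.count m = 0 := List.count_eq_zero.mpr hα
        rw [List.count_append, List.count_cons_self, hα0] at hyc
        have hβ : m ∉ β := List.count_eq_zero.mp (by omega)
        have hβα : ∀ i ∈ β ++ α, i + 1 < m + 1 := fun i hi => by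
          rcases List.mem_append.mp hi with h | h
          · have h1 := hy i (by simp [h])
            have h3 : i ≠ m := fun h' => hβ (h' ▸ h)
            omega
          · have h1 := hy i (by simp [h])
            have h3 : i ≠ m := fun h' => hα (h' ▸ h)
            omega
        have g := IH (hou_pos (β ++ α)) (hou_cl_pos _) (hou_ok_pos hβα)
        refine hou_eq g ?_
        intro K _ a z P ha hP
        have oy : BOk (m + 2) (hou_pos (α ++ m :: β)) := hou_ok_pos fun i hi => by
          have := hy i hi
          omega
        have e1 : hou_pos (α ++ m :: β) = (hou_pos α ++ [BL.sg m true]) ++ hou_pos β := by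
          simp [hou_pos]
        have e2 : hou_pos β ++ (hou_pos α ++ [BL.sg m true]) =
            hou_pos (β ++ α) ++ [BL.sg m true] := by
          simp [hou_pos]
        have s1 := hP.conj (m + 2) (hou_pos α ++ [BL.sg m true]) (hou_pos β)
          (e1 ▸ hou_cl_pos _) (e1 ▸ oy)
        rw [e1, s1, e2]
        exact hP.stab m (hou_pos (β ++ α)) true (hou_cl_pos _) (hou_ok_pos hβα)
    intro w hc ho
    have := hou_classical (m + 2) hpos w hc ho [] (by simp)
    simpa [hou_pos] using this

theorem homfly_unique {m : ℕ} (hm : 1 ≤ m) {w : List BL} (hc : Classical w) (hw : BOk m w) :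
    ∃ (N : ℕ) (F : MvPolynomial (Fin 3) ℤ), ∀ (K : Type) [Field K] (a z : K) (P : ℕ → List BL → K),
      a ≠ 0 → Homfly K a z P → z ^ N * P m w = MvPolynomial.aeval ![a, a⁻¹, z] F := by
  obtain ⟨m, rfl⟩ : ∃ m', m = m' + 1 := ⟨m - 1, by omega⟩
  exact hou_all m w hc hw

end ZM
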