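import Pool.Agent.H75.ZM.BrTr3

/-!
# The exchange lemma (row ZM BrTr4)

Proof.  Let `G` be `E` or `S`.  Claim:
`tr (m+1) (b1 ++ [G p m] ++ b2 ++ [G p m]) =
  tr (2m+1) ([G p (2m), G (m+p) (2m)] ++ Pis m m ++ b1 ++ b2.map (m + ·))`.
By `cyc` the left side is `tr (m+1) (([G p m] ++ b1 ++ [G p m]) ++ b2)`, which by `unr` (with
`a = m + 1`, `A = [G p m] ++ b1 ++ [G p m]`, `b = b2`) is
`tr (2m+1) (Pis (m+1) m ++ [G p m] ++ b1 ++ [G p m] ++ b2')`, `b2' = b2.map (m+1+·)`.  Moving `G p m`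
through `Pis (m+1) m` (by `cx_sl` for the successive swaps `S j (m+1+j)`: the label `p` becomes
`m+1+p`, the label `m` is fixed) one gets
`tr ([G (m+1+p) m] ++ Pis (m+1) m ++ b1 ++ [G p m] ++ b2')`; the letter `G p m` commutes with `b2'`
(labels `≥ m+1`), so with `cyc` this is
`tr ([G p m, G (m+1+p) m] ++ Pis (m+1) m ++ b1 ++ b2')`.  Relabel (`tr_relabel`) with the cycle
`m ↦ 2m`, `l ↦ l - 1` for `m < l ≤ 2m`.
Then for `E`: `addEE` and `unr` (with `a = m`) give
`qint (n-2) * tr m (b1 ++ b2) + tr (2m) (S p (m+p) :: (Pis m m ++ b1 ++ b2'))`; for `S`: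
`S p (2m) :: S (m+p) (2m)` equals `S (m+p) (2m) :: S p (m+p)` (`sl` read backwards), and `addS` gives
`tr (2m) (S p (m+p) :: (Pis m m ++ b1 ++ b2'))`.
-/

namespace ZM

variable {K : Type} [Field K] {lam : K} {n : ℕ}

lemma brtr4_ok_app {m : ℕ} {u v : List Lt} (hu : Ok m u) (hv : Ok m v) : Ok m (u ++ v) := by
  intro a ha
  rcases List.mem_append.1 ha with h | h
  exacts [hu a h, hv a h]

lemma brtr4_ok_nil {m : ℕ} : Ok m [] := fun a ha => absurd ha (by simp)

lemma brtr4_ok_one {m : ℕ} {a : Lt} (ha : a.ok m) : Ok m [a] := by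
  intro b hb
  rw [List.mem_singleton.1 hb]
  exact ha

lemma brtr4_ok_cons {m : ℕ} {a : Lt} {w : List Lt} (ha : a.ok m) (hw : Ok m w) :
    Ok m (a :: w) := by
  intro b hb
  rcases List.mem_cons.1 hb with h | h
  · rw [h]
    exact ha
  · exact hw b h

lemma brtr4_ok_mono {m M : ℕ} (h : m ≤ M) {w : List Lt} (hw : Ok m w) : Ok M w := by
  intro a ha
  have h1 := hw a ha
  cases a with
  | E i j => exact ⟨h1.1.trans_le h, h1.2.1.trans_le h, h1.2.2⟩
  | S i j => exact ⟨h1.1.trans_le h, h1.2.trans_le h⟩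

lemma brtr4_ok_shift {m a M : ℕ} (h : a + m ≤ M) {w : List Lt} (hw : Ok m w) :
    Ok M (w.map (Lt.map (a + ·))) := by
  intro b hb
  obtain ⟨c, hc, rfl⟩ := List.mem_map.1 hb
  have h1 := hw c hc
  cases c with
  | E i j =>
    obtain ⟨h2, h3, h4⟩ := h1
    refine ⟨?_, ?_, ?_⟩
    · show a + i < M
      omega
    · show a + j < M
      omega
    · show a + i ≠ a + j
      omega
  | S i j =>
    obtain ⟨h2, h3⟩ := h1
    refine ⟨?_, ?_⟩
    · show a + i < M
      omega
    · show a + j < M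
      omega

lemma brtr4_ok_pis {a m M : ℕ} (h : a + m ≤ M) : Ok M (Pis a m) := by
  induction m with
  | zero => exact brtr4_ok_nil
  | succ m ih =>
    refine brtr4_ok_cons ?_ (ih (by omega))
    refine ⟨?_, ?_⟩ <;> omega

/-- The permutation of the strands given by `Pis a m`. -/
def brtr4_piv (a m x : ℕ) : ℕ := if x < m then a + x else if a ≤ x ∧ x < a + m then x - a else x

lemma brtr4_swap {a m : ℕ} (hm : m < a) (x : ℕ) :
    Equiv.swap m (a + m) (brtr4_piv a m x) = brtr4_piv a (m + 1) x := by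
  unfold brtr4_piv
  by_cases h1 : x < m
  · rw [if_pos h1, if_pos (by omega), Equiv.swap_apply_of_ne_of_ne (by omega) (by omega)]
  · rw [if_neg h1]
    by_cases h2 : a ≤ x ∧ x < a + m
    · rw [if_pos h2, if_neg (by omega), if_pos (by omega),
        Equiv.swap_apply_of_ne_of_ne (by omega) (by omega)]
    · rw [if_neg h2]
      by_cases h3 : x = m
      · rw [h3, Equiv.swap_apply_left, if_pos (by omega)]
      · rw [if_neg (by omega)]
        by_cases h4 : x = a + m
        · rw [h4, Equiv.swap_apply_right, if_pos (by omega)]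
          omega
        · rw [if_neg (by omega), Equiv.swap_apply_of_ne_of_ne (by omega) (by omega)]

lemma brtr4_map_map (f g : ℕ → ℕ) (l : Lt) : Lt.map f (Lt.map g l) = Lt.map (fun x => f (g x)) l := by
  cases l <;> rfl

lemma brtr4_map_congr {f g : ℕ → ℕ} (h : ∀ x, f x = g x) (l : Lt) : Lt.map f l = Lt.map g l := by
  rw [show f = g from funext h]

lemma brtr4_piv_lt {a m M x : ℕ} (hM : a + m ≤ M) (hx : x < M) : brtr4_piv a m x < M := by
  unfold brtr4_piv
  split_ifs <;> omega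

lemma brtr4_piv_inj {a m : ℕ} (hm : m ≤ a) {x y : ℕ} (h : brtr4_piv a m x = brtr4_piv a m y) :
    x = y := by
  unfold brtr4_piv at h
  split_ifs at h <;> omega

lemma brtr4_ok_piv {a m M : ℕ} (hm : m ≤ a) (hM : a + m ≤ M) {l : Lt} (hl : l.ok M) :
    (l.map (brtr4_piv a m)).ok M := by
  cases l with
  | E i j =>
    exact ⟨brtr4_piv_lt hM hl.1, brtr4_piv_lt hM hl.2.1, fun h => hl.2.2 (brtr4_piv_inj hm h)⟩
  | S i j => exact ⟨brtr4_piv_lt hM hl.1, brtr4_piv_lt hM hl.2⟩

lemma brtr4_pis (S : TraceSys K lam n) {a m M : ℕ} (hm : m ≤ a) (hM : a + m ≤ M) {p v : List Lt}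
    (hp : Ok M p) (hv : Ok M v) {l : Lt} (hl : l.ok M) :
    S.tr M (p ++ Pis a m ++ [l] ++ v) =
      S.tr M (p ++ [l.map (brtr4_piv a m)] ++ Pis a m ++ v) := by
  induction m generalizing p with
  | zero =>
    have h1 : l.map (brtr4_piv a 0) = l := by
      have h2 : ∀ x, brtr4_piv a 0 x = x := by
        intro x
        unfold brtr4_piv
        rw [if_neg (by omega), if_neg (by omega)]
      rw [brtr4_map_congr h2]
      cases l <;> rfl
    rw [h1]
    show S.tr M (p ++ [] ++ [l] ++ v) = S.tr M (p ++ [l] ++ [] ++ v)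
    simp
  | succ m ih =>
    have h1 := ih (by omega) (by omega) (p := p ++ [.S m (a + m)])
      (brtr4_ok_app hp (brtr4_ok_one
        (show Lt.ok M (.S m (a + m)) from ⟨by omega, by omega⟩)))
    have h2 := cx_sl S hp (brtr4_ok_app (brtr4_ok_pis (M := M) (a := a) (m := m) (by omega)) hv)
      (i := m) (j := a + m) (by omega) (by omega)
      (brtr4_ok_piv (a := a) (m := m) (by omega) (by omega) hl)
    have h3 : (l.map (brtr4_piv a m)).map (Equiv.swap m (a + m)) =
        l.map (brtr4_piv a (m + 1)) := by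
      rw [brtr4_map_map]
      exact brtr4_map_congr (brtr4_swap (by omega)) l
    rw [h3] at h2
    have e1 : p ++ Pis a (m + 1) ++ [l] ++ v = p ++ [.S m (a + m)] ++ Pis a m ++ [l] ++ v := by
      simp [Pis]
    have e2 : p ++ [.S m (a + m)] ++ [l.map (brtr4_piv a m)] ++ Pis a m ++ v =
        p ++ [.S m (a + m), l.map (brtr4_piv a m)] ++ (Pis a m ++ v) := by
      simp
    have e3 : p ++ [l.map (brtr4_piv a (m + 1)), .S m (a + m)] ++ (Pis a m ++ v) =
        p ++ [l.map (brtr4_piv a (m + 1))] ++ Pis a (m + 1) ++ v := by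
      simp [Pis]
    rw [e1, h1, e2, h2, e3]

/-- The cycle `m ↦ 2m`, `l ↦ l - 1` for `m < l ≤ 2m`. -/
def brtr4_rho (m : ℕ) : Equiv.Perm ℕ where
  toFun l := if l = m then m + m else if m < l ∧ l ≤ m + m then l - 1 else l
  invFun l := if l = m + m then m else if m ≤ l ∧ l < m + m then l + 1 else l
  left_inv l := by
    dsimp only
    split_ifs <;> omega
  right_inv l := by
    dsimp only
    split_ifs <;> omega

lemma brtr4_rho_apply (m l : ℕ) : brtr4_rho m l =
    if l = m then m + m else if m < l ∧ l ≤ m + m then l - 1 else l := rfl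

lemma brtr4_map_id {m : ℕ} {f : ℕ → ℕ} (hf : ∀ l < m, f l = l) {w : List Lt} (hw : Ok m w) :
    w.map (Lt.map f) = w := by
  rw [List.map_eq_iff]
  intro i
  cases h : w[i]? with
  | none => rfl
  | some a =>
    have ha := hw a (List.mem_of_getElem? h)
    rw [Option.map_some]
    congr 1
    cases a with
    | E i j =>
      show Lt.E i j = Lt.E (f i) (f j)
      rw [hf i ha.1, hf j ha.2.1]
    | S i j =>
      show Lt.S i j = Lt.S (f i) (f j)
      rw [hf i ha.1, hf j ha.2]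

lemma brtr4_map_shift {m : ℕ} {f : ℕ → ℕ} (hf : ∀ l < m, f (m + 1 + l) = m + l) {w : List Lt}
    (hw : Ok m w) : (w.map (Lt.map (m + 1 + ·))).map (Lt.map f) = w.map (Lt.map (m + ·)) := by
  rw [List.map_map]
  refine List.map_congr_left fun a ha => ?_
  have h1 := hw a ha
  cases a with
  | E i j =>
    show Lt.E (f (m + 1 + i)) (f (m + 1 + j)) = Lt.E (m + i) (m + j)
    rw [hf i h1.1, hf j h1.2.1]
  | S i j =>
    show Lt.S (f (m + 1 + i)) (f (m + 1 + j)) = Lt.S (m + i) (m + j)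
    rw [hf i h1.1, hf j h1.2]

lemma brtr4_map_pis {m s : ℕ} (hs : s ≤ m) :
    (Pis (m + 1) s).map (Lt.map (brtr4_rho m)) = Pis m s := by
  induction s with
  | zero => rfl
  | succ s ih =>
    show Lt.S (brtr4_rho m s) (brtr4_rho m (m + 1 + s)) ::
      (Pis (m + 1) s).map (Lt.map (brtr4_rho m)) = .S s (m + s) :: Pis m s
    rw [ih (by omega), brtr4_rho_apply, brtr4_rho_apply, if_neg (by omega), if_neg (by omega),
      if_neg (by omega), if_pos (by omega)]
    congr 2
    omega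

lemma brtr4_core (S : TraceSys K lam n) {m p : ℕ} (hp : p < m) {b1 b2 : List Lt} (h1 : Ok m b1)
    (h2 : Ok m b2) (G : ℕ → ℕ → Lt) (hG : G = Lt.E ∨ G = Lt.S) :
    S.tr (m + 1) (b1 ++ [G p m] ++ b2 ++ [G p m]) =
      S.tr (m + m + 1) ([G p (m + m), G (m + p) (m + m)] ++
        (Pis m m ++ b1 ++ b2.map (Lt.map (m + ·)))) := by
  have gok : ∀ i j M, i < M → j < M → i ≠ j → (G i j).ok M := by
    intro i j M hi hj hij
    rcases hG with rfl | rfl
    exacts [⟨hi, hj, hij⟩, ⟨hi, hj⟩]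
  have gmap : ∀ (f : ℕ → ℕ) i j, (G i j).map f = G (f i) (f j) := by
    intro f i j
    rcases hG with rfl | rfl <;> rfl
  have h1' := brtr4_ok_mono (Nat.le_succ m) h1
  have h2' := brtr4_ok_mono (Nat.le_succ m) h2
  have g0 := brtr4_ok_one (gok p m (m + 1) (by omega) (by omega) (by omega))
  -- step 1
  have s1 : S.tr (m + 1) (b1 ++ [G p m] ++ b2 ++ [G p m]) =
      S.tr (m + 1) ([G p m] ++ b1 ++ [G p m] ++ b2) := by
    rw [S.cyc (m + 1) (b1 ++ [G p m] ++ b2) [G p m]
      (brtr4_ok_app (brtr4_ok_app h1' g0) h2') g0]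
    simp
  -- step 2
  have s2 := unr S (Nat.le_succ m) (brtr4_ok_app (brtr4_ok_app g0 h1') g0) h2
  have e2 : m + 1 + m = m + m + 1 := by omega
  rw [Nat.succ_eq_add_one, e2] at s2
  -- step 3
  have oPis : Ok (m + m + 1) (Pis (m + 1) m) := brtr4_ok_pis (by omega)
  have ob2 : Ok (m + m + 1) (b2.map (Lt.map (m + 1 + ·))) := brtr4_ok_shift (by omega) h2
  have ob1 : Ok (m + m + 1) b1 := brtr4_ok_mono (by omega) h1
  have og : (G p m).ok (m + m + 1) := gok _ _ _ (by omega) (by omega) (by omega)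
  have og2 : (G (m + 1 + p) m).ok (m + m + 1) := gok _ _ _ (by omega) (by omega) (by omega)
  have s3 := brtr4_pis S (a := m + 1) (m := m) (M := m + m + 1) (by omega) (by omega)
    (p := []) (v := b1 ++ [G p m] ++ b2.map (Lt.map (m + 1 + ·))) brtr4_ok_nil
    (brtr4_ok_app (brtr4_ok_app ob1 (brtr4_ok_one og)) ob2) og
  have e3 : (G p m).map (brtr4_piv (m + 1) m) = G (m + 1 + p) m := by
    rw [gmap]
    unfold brtr4_piv
    rw [if_pos hp, if_neg (by omega), if_neg (by omega)]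
  rw [e3] at s3
  -- step 4
  have s4 := cx_comm_word S (m := m + m + 1) (p := [G (m + 1 + p) m] ++ Pis (m + 1) m ++ b1)
    (v := []) (brtr4_ok_app (brtr4_ok_app (brtr4_ok_one og2) oPis) ob1) brtr4_ok_nil og ob2 (by
      intro b hb
      obtain ⟨c, hc, rfl⟩ := List.mem_map.1 hb
      cases c with
      | E i j =>
        rcases hG with rfl | rfl
        · show p ≠ m + 1 + i ∧ p ≠ m + 1 + j ∧ m ≠ m + 1 + i ∧ m ≠ m + 1 + j
          omega
        · show p ≠ m + 1 + i ∧ p ≠ m + 1 + j ∧ m ≠ m + 1 + i ∧ m ≠ m + 1 + j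
          omega
      | S i j =>
        rcases hG with rfl | rfl
        · show p ≠ m + 1 + i ∧ p ≠ m + 1 + j ∧ m ≠ m + 1 + i ∧ m ≠ m + 1 + j
          omega
        · show p ≠ m + 1 + i ∧ p ≠ m + 1 + j ∧ m ≠ m + 1 + i ∧ m ≠ m + 1 + j
          omega)
  -- step 5
  have s5 := S.cyc (m + m + 1)
    ([G (m + 1 + p) m] ++ Pis (m + 1) m ++ b1 ++ b2.map (Lt.map (m + 1 + ·))) [G p m]
    (brtr4_ok_app (brtr4_ok_app (brtr4_ok_app (brtr4_ok_one og2) oPis) ob1) ob2)
    (brtr4_ok_one og)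
  -- step 6
  have s6 := tr_relabel S (m := m + m + 1)
    (w := [G p m] ++ ([G (m + 1 + p) m] ++ Pis (m + 1) m ++ b1 ++ b2.map (Lt.map (m + 1 + ·))))
    (brtr4_ok_app (brtr4_ok_one og)
      (brtr4_ok_app (brtr4_ok_app (brtr4_ok_app (brtr4_ok_one og2) oPis) ob1) ob2))
    (brtr4_rho m) (by
      intro l hl
      rw [brtr4_rho_apply, if_neg (by omega), if_neg (by omega)])
  have e6 : ([G p m] ++ ([G (m + 1 + p) m] ++ Pis (m + 1) m ++ b1 ++
      b2.map (Lt.map (m + 1 + ·)))).map (Lt.map (brtr4_rho m)) =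
      [G p (m + m), G (m + p) (m + m)] ++ (Pis m m ++ b1 ++ b2.map (Lt.map (m + ·))) := by
    have f1 : (G p m).map (brtr4_rho m) = G p (m + m) := by
      rw [gmap, brtr4_rho_apply, brtr4_rho_apply, if_neg (by omega), if_neg (by omega),
        if_pos rfl]
    have f2 : (G (m + 1 + p) m).map (brtr4_rho m) = G (m + p) (m + m) := by
      rw [gmap, brtr4_rho_apply, brtr4_rho_apply, if_neg (by omega), if_pos (by omega),
        if_pos rfl]
      congr 1
      omega
    have f3 := brtr4_map_pis (m := m) (s := m) le_rfl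
    have f4 : b1.map (Lt.map (brtr4_rho m)) = b1 := brtr4_map_id (fun l hl => by
      rw [brtr4_rho_apply, if_neg (by omega), if_neg (by omega)]) h1
    have f5 : (b2.map (Lt.map (m + 1 + ·))).map (Lt.map (brtr4_rho m)) =
        b2.map (Lt.map (m + ·)) := brtr4_map_shift (fun l hl => by
      rw [brtr4_rho_apply, if_neg (by omega), if_pos (by omega)]
      omega) h2
    rw [List.map_append, List.map_append, List.map_append, List.map_append, f3, f4, f5]
    simp only [List.map_cons, List.map_nil, f1, f2]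
    simp
  rw [e6] at s6
  rw [s6, ← s5, s1, ← s2]
  have e7 : Pis (m + 1) m ++ ([G p m] ++ b1 ++ [G p m]) ++ b2.map (Lt.map (m + 1 + ·)) =
      [] ++ Pis (m + 1) m ++ [G p m] ++ (b1 ++ [G p m] ++ b2.map (Lt.map (m + 1 + ·))) := by
    simp
  have e8 : [] ++ [G (m + 1 + p) m] ++ Pis (m + 1) m ++
      (b1 ++ [G p m] ++ b2.map (Lt.map (m + 1 + ·))) =
      [G (m + 1 + p) m] ++ Pis (m + 1) m ++ b1 ++ [G p m] ++ b2.map (Lt.map (m + 1 + ·)) ++ [] := by
    simp
  rw [e7, s3, e8, s4]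
  simp

theorem exch (S : TraceSys K lam n) {m p : ℕ} (hp : p < m) {b1 b2 : List Lt} (h1 : Ok m b1)
    (h2 : Ok m b2) :
    S.tr (m + 1) (b1 ++ [.E p m] ++ b2 ++ [.E p m]) =
      qint lam (n - 2) * S.tr m (b1 ++ b2) +
        S.tr (m + 1) (b1 ++ [.S p m] ++ b2 ++ [.S p m]) := by
  have oPis : Ok (m + m) (Pis m m) := brtr4_ok_pis le_rfl
  have ob2 : Ok (m + m) (b2.map (Lt.map (m + ·))) := brtr4_ok_shift le_rfl h2
  have ob1 : Ok (m + m) b1 := brtr4_ok_mono (by omega) h1
  obtain ⟨w, hw⟩ : ∃ w, w = Pis m m ++ b1 ++ b2.map (Lt.map (m + ·)) := ⟨_, rfl⟩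
  have ow : Ok (m + m) w := by
    rw [hw]
    exact brtr4_ok_app (brtr4_ok_app oPis ob1) ob2
  have ow1 : Ok (m + m + 1) w := brtr4_ok_mono (by omega) ow
  have hE := brtr4_core S hp h1 h2 Lt.E (Or.inl rfl)
  have hS := brtr4_core S hp h1 h2 Lt.S (Or.inr rfl)
  rw [← hw] at hE hS
  have hu := unr S (le_refl m) h1 h2
  rw [← hw] at hu
  have k1 := S.addEE (m + m) p (m + p) w (by omega) (by omega) (by omega) ow
  have k2 := S.sl (m + m + 1) (m + p) (m + m) (.S p (m + p)) w (by omega) (by omega)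
    ⟨by omega, by omega⟩ ow1
  have e1 : (Lt.S p (m + p)).map (Equiv.swap (m + p) (m + m)) = .S p (m + m) := by
    show Lt.S (Equiv.swap (m + p) (m + m) p) (Equiv.swap (m + p) (m + m) (m + p)) = _
    rw [Equiv.swap_apply_left, Equiv.swap_apply_of_ne_of_ne (by omega) (by omega)]
  rw [e1] at k2
  have k3 := S.addS (m + m) (m + p) (.S p (m + p) :: w) (by omega)
    (brtr4_ok_cons (show Lt.ok (m + m) (.S p (m + p)) from ⟨by omega, by omega⟩) ow)
  rw [hE, hS, ← hu]
  show S.tr (m + m + 1) (.E p (m + m) :: .E (m + p) (m + m) :: w) = _ +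
    S.tr (m + m + 1) (.S p (m + m) :: .S (m + p) (m + m) :: w)
  rw [k1, ← k2, k3]

end ZM
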