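import Pool.Agent.H75.ZM.BrMk
import Pool.Agent.H75.ZM.BrTr4

/-!
# Exchange moves (row ZM BrEx)

Proof of the right exchange.  By `ext_append` and `ext_congr` it is enough to show, for words
`x`, `y` on `m + 1` strands, with `e = E m (m+1)`, `s = S m (m+1)` and `t = tr (m+2)`:
`t (x (lam⁻¹ - e) y (lam - e)) = t (x s y s)`.  The left side is
`t (x y) - lam⁻¹ t (x y e) - lam t (x e y) + t (x e y e)`, and by `cyc`, `add`, `addE`, `exch`
(with `m + 1` strands and `p = m`) this is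
`(qint n - (lam + lam⁻¹) qint (n-1) + qint (n-2)) tr (m+1) (x y) + t (x s y s)`, and the bracket
vanishes for `2 ≤ n`.
Left exchange: by `ext_shift` the words are `x.map (Lt.map succ)` etc.; relabel (`tr_relabel`) with the
cycle `0 ↦ m + 1`, `l ↦ l - 1` for `1 ≤ l ≤ m + 1`: `E 0 1` becomes `E (m+1) 0`, which can be
replaced by `E 0 (m+1)` (`cx_esym`, `cx_ssym`); then `exch` with `p = 0`.
-/

namespace ZM

variable {K : Type} [Field K] {lam : K} {n : ℕ}

lemma qint_id3 (hne : lam ≠ 0) (hn : 2 ≤ n) :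
    qint lam n - (lam + lam⁻¹) * qint lam (n - 1) + qint lam (n - 2) = 0 := by
  obtain ⟨m, rfl⟩ : ∃ m, n = m + 2 := ⟨n - 2, by omega⟩
  have e1 : m + 2 - 1 = m + 1 := by omega
  have e2 : m + 2 - 2 = m := by omega
  rw [e1, e2]
  unfold qint
  obtain ⟨μ, hμ⟩ : ∃ μ, μ = lam⁻¹ := ⟨_, rfl⟩
  have h : lam * μ = 1 := by rw [hμ]; exact mul_inv_cancel₀ hne
  rw [← hμ, Finset.sum_range_succ, Finset.sum_range_succ]
  obtain ⟨s, hs⟩ : ∃ s, s = ∑ i ∈ Finset.range m, (lam ^ 2) ^ i := ⟨_, rfl⟩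
  obtain ⟨P, hP⟩ : ∃ P, P = (lam ^ 2) ^ m := ⟨_, rfl⟩
  have e3 : (lam ^ 2) ^ (m + 1) = P * lam ^ 2 := by rw [hP, pow_succ]
  rw [e3, ← hs, ← hP]
  linear_combination (lam * μ ^ m) * (lam * μ * P - s) * h

/-- The expansion of a word with one negative and one positive crossing. -/
def brexT (lam : K) (n : ℕ) (f : List Lt → K) (e : Lt) (x y : List Lt) : K :=
  lam ^ n * (lam⁻¹ * ((lam⁻¹) ^ n * (lam * f (x ++ [] ++ y ++ []) - f (x ++ [] ++ y ++ [e]))) -
    (lam⁻¹) ^ n * (lam * f (x ++ [e] ++ y ++ []) - f (x ++ [e] ++ y ++ [e])))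

lemma brex_sg (f : List Lt → K) (u v : List BL) (i : ℕ) :
    ext lam n f (u ++ [.sg i false] ++ v ++ [.sg i true]) =
      ext lam n (fun x => ext lam n (fun y => brexT lam n f (.E i (i + 1)) x y) v) u := by
  rw [ext_append, ext_append, ext_append]
  congr 1
  funext x
  show lam ^ n * (lam⁻¹ * ext lam n (fun y => (lam⁻¹) ^ n * (lam * f (x ++ [] ++ y ++ []) -
      f (x ++ [] ++ y ++ [.E i (i + 1)]))) v -
    ext lam n (fun y => (lam⁻¹) ^ n * (lam * f (x ++ [.E i (i + 1)] ++ y ++ []) -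
      f (x ++ [.E i (i + 1)] ++ y ++ [.E i (i + 1)]))) v) = _
  rw [← ext_mul, ← ext_sub, ← ext_mul]
  rfl

lemma brex_ta (f : List Lt → K) (u v : List BL) (i : ℕ) :
    ext lam n f (u ++ [.ta i] ++ v ++ [.ta i]) =
      ext lam n (fun x => ext lam n (fun y =>
        f (x ++ [.S i (i + 1)] ++ y ++ [.S i (i + 1)])) v) u := by
  rw [ext_append, ext_append, ext_append]
  rfl

lemma brex_okapp {m : ℕ} {x y : List Lt} (hx : Ok m x) (hy : Ok m y) : Ok m (x ++ y) := by
  intro a ha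
  rcases List.mem_append.1 ha with h | h
  · exact hx a h
  · exact hy a h

lemma brex_ok1 {m : ℕ} {a : Lt} (ha : a.ok m) : Ok m [a] := by
  intro b hb
  rw [List.mem_singleton.1 hb]
  exact ha

lemma brex_oknil {m : ℕ} : Ok m [] := fun _ h => absurd h List.not_mem_nil

lemma brex_oksucc {m : ℕ} {x : List Lt} (hx : Ok m x) : Ok (m + 1) x := by
  intro a ha
  have h := hx a ha
  cases a with
  | E i j => exact ⟨by have := h.1; omega, by have := h.2.1; omega, h.2.2⟩
  | S i j => exact ⟨by have := h.1; omega, by have := h.2; omega⟩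

lemma brex_core (hne : lam ≠ 0) (hn : 2 ≤ n) (S : TraceSys K lam n) {m p : ℕ} (hp : p < m + 1)
    {x y : List Lt} (hx : Ok (m + 1) x) (hy : Ok (m + 1) y) :
    brexT lam n (S.tr (m + 2)) (.E p (m + 1)) x y =
      S.tr (m + 2) (x ++ [.S p (m + 1)] ++ y ++ [.S p (m + 1)]) := by
  have hxy : Ok (m + 1) (x ++ y) := brex_okapp hx hy
  have hx2 : Ok (m + 2) x := brex_oksucc hx
  have hy2 : Ok (m + 2) y := brex_oksucc hy
  have hxy2 : Ok (m + 2) (x ++ y) := brex_oksucc hxy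
  have he : (Lt.E p (m + 1)).ok (m + 2) := ⟨by omega, by omega, by omega⟩
  have h1 : S.tr (m + 2) (x ++ [] ++ y ++ []) = qint lam n * S.tr (m + 1) (x ++ y) := by
    rw [List.append_nil, List.append_nil]
    exact S.add (m + 1) _ hxy
  have h2 : S.tr (m + 2) (x ++ [] ++ y ++ [.E p (m + 1)]) =
      qint lam (n - 1) * S.tr (m + 1) (x ++ y) := by
    rw [List.append_nil, S.cyc (m + 2) _ _ hxy2 (brex_ok1 he)]
    exact S.addE (m + 1) p _ hp hxy
  have h3 : S.tr (m + 2) (x ++ [.E p (m + 1)] ++ y ++ []) =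
      qint lam (n - 1) * S.tr (m + 1) (x ++ y) := by
    rw [List.append_nil, List.append_assoc, S.cyc (m + 2) _ _ hx2 (brex_okapp (brex_ok1 he) hy2),
      S.cyc (m + 1) x y hx hy]
    exact S.addE (m + 1) p _ hp (brex_okapp hy hx)
  have h4 := exch S hp hx hy
  have h4' : S.tr (m + 2) (x ++ [.E p (m + 1)] ++ y ++ [.E p (m + 1)]) =
      qint lam (n - 2) * S.tr (m + 1) (x ++ y) +
        S.tr (m + 2) (x ++ [.S p (m + 1)] ++ y ++ [.S p (m + 1)]) := h4
  have h5 := qint_id3 hne hn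
  unfold brexT
  rw [h1, h2, h3, h4']
  have h6 : lam ^ n * (lam⁻¹) ^ n = 1 := by
    rw [← mul_pow, mul_inv_cancel₀ hne, one_pow]
  have h7 : lam * lam⁻¹ = 1 := mul_inv_cancel₀ hne
  obtain ⟨t, ht⟩ : ∃ t, t = S.tr (m + 1) (x ++ y) := ⟨_, rfl⟩
  obtain ⟨T, hT⟩ : ∃ T, T = S.tr (m + 2) (x ++ [.S p (m + 1)] ++ y ++ [.S p (m + 1)]) := ⟨_, rfl⟩
  rw [← ht, ← hT]
  obtain ⟨μ, hμ⟩ : ∃ μ, μ = lam⁻¹ := ⟨_, rfl⟩
  rw [← hμ] at h5 h6 h7 ⊢
  have h8 : lam ^ n * (μ * (μ ^ n * (lam * (qint lam n * t) - qint lam (n - 1) * t)) -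
      μ ^ n * (lam * (qint lam (n - 1) * t) - (qint lam (n - 2) * t + T))) =
      (lam ^ n * μ ^ n) * (((lam * μ) * qint lam n - (lam + μ) * qint lam (n - 1) +
        qint lam (n - 2)) * t + T) := by ring
  rw [h8, h6, h7, one_mul, one_mul, h5, zero_mul, zero_add]

theorem bP_exR (hne : lam ≠ 0) (hn : 2 ≤ n) (S : TraceSys K lam n) {m : ℕ} {u v : List BL}
    (hu : BOk (m + 1) u) (hv : BOk (m + 1) v) :
    bP S (m + 2, u ++ [.sg m false] ++ v ++ [.sg m true]) =
      bP S (m + 2, u ++ [.ta m] ++ v ++ [.ta m]) := by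
  show ext lam n (S.tr (m + 2)) _ = ext lam n (S.tr (m + 2)) _
  rw [brex_sg, brex_ta]
  refine ext_congr hu fun x hx => ext_congr hv fun y hy => ?_
  exact brex_core hne hn S (Nat.lt_succ_self m) hx hy

/-- The cycle `0 ↦ m + 1`, `l ↦ l - 1` for `1 ≤ l ≤ m + 1`. -/
def brexC (m : ℕ) : Equiv.Perm ℕ where
  toFun l := if l = 0 then m + 1 else if l ≤ m + 1 then l - 1 else l
  invFun l := if l = m + 1 then 0 else if l ≤ m then l + 1 else l
  left_inv l := by
    by_cases h1 : l = 0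
    · simp [h1]
    · by_cases h2 : l ≤ m + 1
      · have h3 : ¬ l - 1 = m + 1 := by omega
        have h4 : l - 1 ≤ m := by omega
        simp only [h1, h2, h3, h4, if_true, if_false]
        omega
      · have h3 : ¬ l = m + 1 := by omega
        have h4 : ¬ l ≤ m := by omega
        simp only [h1, h2, h3, h4, if_false]
  right_inv l := by
    by_cases h1 : l = m + 1
    · simp [h1]
    · by_cases h2 : l ≤ m
      · have h3 : ¬ l + 1 = 0 := by omega
        have h4 : l + 1 ≤ m + 1 := by omega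
        simp only [h1, h2, h3, h4, if_true, if_false]
        omega
      · have h3 : ¬ l = 0 := by omega
        have h4 : ¬ l ≤ m + 1 := by omega
        simp only [h1, h2, h3, h4, if_false]

lemma brexC_zero (m : ℕ) : brexC m 0 = m + 1 := by
  show (if (0 : ℕ) = 0 then m + 1 else if 0 ≤ m + 1 then 0 - 1 else 0) = m + 1
  rw [if_pos rfl]

lemma brexC_succ {m l : ℕ} (h : l < m + 1) : brexC m (l + 1) = l := by
  show (if l + 1 = 0 then m + 1 else if l + 1 ≤ m + 1 then l + 1 - 1 else l + 1) = l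
  rw [if_neg (by omega), if_pos (by omega)]
  omega

lemma brexC_ge {m l : ℕ} (h : m + 2 ≤ l) : brexC m l = l := by
  show (if l = 0 then m + 1 else if l ≤ m + 1 then l - 1 else l) = l
  rw [if_neg (by omega), if_neg (by omega)]

lemma brex_okshift {m : ℕ} {x : List Lt} (hx : Ok (m + 1) x) :
    Ok (m + 2) (x.map (Lt.map Nat.succ)) := by
  intro a ha
  obtain ⟨b, hb, rfl⟩ := List.mem_map.1 ha
  have h := hx b hb
  cases b with
  | E i j => exact ⟨Nat.succ_lt_succ h.1, Nat.succ_lt_succ h.2.1, fun e => h.2.2 (Nat.succ.inj e)⟩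
  | S i j => exact ⟨Nat.succ_lt_succ h.1, Nat.succ_lt_succ h.2⟩

lemma brex_unshift {m : ℕ} {x : List Lt} (hx : Ok (m + 1) x) :
    (x.map (Lt.map Nat.succ)).map (Lt.map (brexC m)) = x := by
  rw [List.map_map]
  conv_rhs => rw [← List.map_id x]
  refine List.map_congr_left fun a ha => ?_
  have h := hx a ha
  cases a with
  | E i j =>
    show Lt.E (brexC m (i + 1)) (brexC m (j + 1)) = Lt.E i j
    rw [brexC_succ h.1, brexC_succ h.2.1]
  | S i j =>
    show Lt.S (brexC m (i + 1)) (brexC m (j + 1)) = Lt.S i j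
    rw [brexC_succ h.1, brexC_succ h.2]

lemma brex_rel (S : TraceSys K lam n) {m : ℕ} {x y A B : List Lt} (hx : Ok (m + 1) x)
    (hy : Ok (m + 1) y) (hA : Ok (m + 2) A) (hB : Ok (m + 2) B) :
    S.tr (m + 2) (x.map (Lt.map Nat.succ) ++ A ++ y.map (Lt.map Nat.succ) ++ B) =
      S.tr (m + 2) (x ++ A.map (Lt.map (brexC m)) ++ y ++ B.map (Lt.map (brexC m))) := by
  rw [← tr_relabel S (brex_okapp (brex_okapp (brex_okapp (brex_okshift hx) hA)
    (brex_okshift hy)) hB) (brexC m) fun l hl => brexC_ge hl]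
  rw [List.map_append, List.map_append, List.map_append, brex_unshift hx, brex_unshift hy]

lemma brex_core' (hne : lam ≠ 0) (hn : 2 ≤ n) (S : TraceSys K lam n) {m : ℕ}
    {x y : List Lt} (hx : Ok (m + 1) x) (hy : Ok (m + 1) y) :
    brexT lam n (S.tr (m + 2)) (.E 0 1) (x.map (Lt.map Nat.succ)) (y.map (Lt.map Nat.succ)) =
      S.tr (m + 2) (x.map (Lt.map Nat.succ) ++ [.S 0 1] ++ y.map (Lt.map Nat.succ) ++
        [.S 0 1]) := by
  have hx2 : Ok (m + 2) x := brex_oksucc hx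
  have hy2 : Ok (m + 2) y := brex_oksucc hy
  have hE : (Lt.E 0 1).ok (m + 2) := ⟨by omega, by omega, by omega⟩
  have hS : (Lt.S 0 1).ok (m + 2) := ⟨by omega, by omega⟩
  have hE' : (Lt.E 0 (m + 1)).ok (m + 2) := ⟨by omega, by omega, by omega⟩
  have hE'' : (Lt.E (m + 1) 0).ok (m + 2) := ⟨by omega, by omega, by omega⟩
  have hS' : (Lt.S 0 (m + 1)).ok (m + 2) := ⟨by omega, by omega⟩
  have hS'' : (Lt.S (m + 1) 0).ok (m + 2) := ⟨by omega, by omega⟩
  have mE : [Lt.E 0 1].map (Lt.map (brexC m)) = [Lt.E (m + 1) 0] := by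
    show [Lt.E (brexC m 0) (brexC m (0 + 1))] = _
    rw [brexC_zero, brexC_succ (by omega)]
  have mS : [Lt.S 0 1].map (Lt.map (brexC m)) = [Lt.S (m + 1) 0] := by
    show [Lt.S (brexC m 0) (brexC m (0 + 1))] = _
    rw [brexC_zero, brexC_succ (by omega)]
  have mN : ([] : List Lt).map (Lt.map (brexC m)) = [] := rfl
  have n0 : Ok (m + 2) ([] : List Lt) := brex_oknil
  have s1 : ∀ B : List Lt, Ok (m + 2) B → S.tr (m + 2) (x ++ [.E (m + 1) 0] ++ y ++ B) =
      S.tr (m + 2) (x ++ [.E 0 (m + 1)] ++ y ++ B) := by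
    intro B hB
    rw [List.append_assoc _ y B, List.append_assoc _ y B]
    exact cx_esym S hx2 (brex_okapp hy2 hB) (by omega) (by omega) (by omega)
  have s2 : ∀ A : List Lt, Ok (m + 2) A → S.tr (m + 2) (x ++ A ++ y ++ [.E (m + 1) 0]) =
      S.tr (m + 2) (x ++ A ++ y ++ [.E 0 (m + 1)]) := by
    intro A hA
    have := cx_esym S (brex_okapp (brex_okapp hx2 hA) hy2) n0 (i := m + 1) (j := 0) (by omega)
      (by omega) (by omega)
    rw [List.append_nil, List.append_nil] at this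
    exact this
  have s3 : ∀ B : List Lt, Ok (m + 2) B → S.tr (m + 2) (x ++ [.S (m + 1) 0] ++ y ++ B) =
      S.tr (m + 2) (x ++ [.S 0 (m + 1)] ++ y ++ B) := by
    intro B hB
    rw [List.append_assoc _ y B, List.append_assoc _ y B]
    exact cx_ssym S hx2 (brex_okapp hy2 hB) (by omega) (by omega)
  have s4 : ∀ A : List Lt, Ok (m + 2) A → S.tr (m + 2) (x ++ A ++ y ++ [.S (m + 1) 0]) =
      S.tr (m + 2) (x ++ A ++ y ++ [.S 0 (m + 1)]) := by
    intro A hA
    have := cx_ssym S (brex_okapp (brex_okapp hx2 hA) hy2) n0 (i := m + 1) (j := 0) (by omega)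
      (by omega)
    rw [List.append_nil, List.append_nil] at this
    exact this
  have h := brex_core hne hn S (m := m) (p := 0) (by omega) hx hy
  unfold brexT at h ⊢
  rw [brex_rel S hx hy n0 n0, brex_rel S hx hy n0 (brex_ok1 hE),
    brex_rel S hx hy (brex_ok1 hE) n0, brex_rel S hx hy (brex_ok1 hE) (brex_ok1 hE),
    brex_rel S hx hy (brex_ok1 hS) (brex_ok1 hS), mE, mS, mN, s2 [] n0, s1 [] n0,
    s1 _ (brex_ok1 hE''), s2 _ (brex_ok1 hE'), s3 _ (brex_ok1 hS''), s4 _ (brex_ok1 hS')]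
  exact h

theorem bP_exL (hne : lam ≠ 0) (hn : 2 ≤ n) (S : TraceSys K lam n) {m : ℕ} {u v : List BL}
    (hu : BOk (m + 1) u) (hv : BOk (m + 1) v) :
    bP S (m + 2, u.map BL.shift ++ [.sg 0 false] ++ v.map BL.shift ++ [.sg 0 true]) =
      bP S (m + 2, u.map BL.shift ++ [.ta 0] ++ v.map BL.shift ++ [.ta 0]) := by
  show ext lam n (S.tr (m + 2)) _ = ext lam n (S.tr (m + 2)) _
  rw [brex_sg, brex_ta, ext_shift, ext_shift]
  refine ext_congr hu fun x hx => ?_
  rw [ext_shift, ext_shift]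
  refine ext_congr hv fun y hy => ?_
  exact brex_core' hne hn S hx hy

end ZM
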