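import Mathlib

/-!
# Density (row ZM HoD)

Proof.  Let `D` be at least the degree of `G` in the second variable.  There is a polynomial
`G' ∈ ℤ[A, Z]` (for instance `G' : Polynomial (Polynomial ℤ)`) with
`a ^ D * G(a, a⁻¹, z) = G'(a, z)` for all fields and all `a ≠ 0`, `z` (prove the existence of `D`, `G'`
by `MvPolynomial.induction_on`).  In `L = RatFunc ℚ`, `t = RatFunc.X`, `s = t - t⁻¹`:
`G'(t ^ n, s) = 0` for all `n ≥ 2`.  The powers `t ^ n` are pairwise distinct, so the polynomial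
`G'(·, s)` in one variable over the field `L` has infinitely many roots and vanishes; so each
coefficient `g_i(s) = 0`, `g_i ∈ ℤ[Z]`; and `s` is transcendental over `ℚ` (if `g(s) = 0` with
`g ≠ 0` of degree `d`, then `t^d g(s)` is a polynomial in `t` whose coefficient of `t ^ (2 d)` is the
leading coefficient of `g`), so `G' = 0`.
-/

namespace ZM

/-- Evaluation of a polynomial in two variables. -/
noncomputable def hod_ev (K : Type) [Field K] (a z : K) (P : Polynomial (Polynomial ℤ)) : K :=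
  Polynomial.eval₂ (Polynomial.eval₂RingHom (Int.castRingHom K) z) a P

theorem hod_red (G : MvPolynomial (Fin 3) ℤ) :
    ∃ (D : ℕ) (P : Polynomial (Polynomial ℤ)), ∀ (K : Type) [Field K] (a z : K), a ≠ 0 →
      a ^ D * MvPolynomial.aeval ![a, a⁻¹, z] G = hod_ev K a z P := by
  induction G using MvPolynomial.induction_on with
  | C c =>
    refine ⟨0, Polynomial.C (Polynomial.C c), ?_⟩
    intro K _ a z ha
    unfold hod_ev
    rw [Polynomial.eval₂_C, Polynomial.coe_eval₂RingHom, Polynomial.eval₂_C, pow_zero, one_mul,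
      MvPolynomial.aeval_C]
    rfl
  | add p q hp hq =>
    obtain ⟨D1, P1, h1⟩ := hp
    obtain ⟨D2, P2, h2⟩ := hq
    refine ⟨D1 + D2, Polynomial.X ^ D2 * P1 + Polynomial.X ^ D1 * P2, ?_⟩
    intro K _ a z ha
    have e1 := h1 K a z ha
    have e2 := h2 K a z ha
    unfold hod_ev at e1 e2 ⊢
    rw [Polynomial.eval₂_add, Polynomial.eval₂_mul, Polynomial.eval₂_mul, Polynomial.eval₂_pow,
      Polynomial.eval₂_pow, Polynomial.eval₂_X, ← e1, ← e2, map_add]
    ring
  | mul_X p i hp =>
    obtain ⟨D, P, h⟩ := hp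
    have hi : i = 0 ∨ i = 1 ∨ i = 2 := by
      fin_cases i
      · exact Or.inl rfl
      · exact Or.inr (Or.inl rfl)
      · exact Or.inr (Or.inr rfl)
    rcases hi with rfl | rfl | rfl
    · refine ⟨D, Polynomial.X * P, ?_⟩
      intro K _ a z ha
      have e := h K a z ha
      unfold hod_ev at e ⊢
      rw [Polynomial.eval₂_mul, Polynomial.eval₂_X, ← e, map_mul, MvPolynomial.aeval_X]
      have e0 : (![a, a⁻¹, z] : Fin 3 → K) 0 = a := rfl
      rw [e0]
      ring
    · refine ⟨D + 1, P, ?_⟩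
      intro K _ a z ha
      have e := h K a z ha
      rw [← e, map_mul, MvPolynomial.aeval_X]
      have e0 : (![a, a⁻¹, z] : Fin 3 → K) 1 = a⁻¹ := rfl
      rw [e0, pow_succ]
      field_simp
    · refine ⟨D, Polynomial.C Polynomial.X * P, ?_⟩
      intro K _ a z ha
      have e := h K a z ha
      unfold hod_ev at e ⊢
      rw [Polynomial.eval₂_mul, Polynomial.eval₂_C, ← e, map_mul, MvPolynomial.aeval_X]
      have e0 : (![a, a⁻¹, z] : Fin 3 → K) 2 = z := rfl
      rw [e0]
      simp only [Polynomial.coe_eval₂RingHom, Polynomial.eval₂_X]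
      ring

theorem hod_X_not_integral : ¬ IsIntegral ℚ (RatFunc.X : RatFunc ℚ) := by
  intro h
  have e : (RatFunc.X : RatFunc ℚ) = algebraMap (Polynomial ℚ) (RatFunc ℚ) Polynomial.X :=
    (RatFunc.algebraMap_X).symm
  rw [e] at h
  have h2 : IsIntegral ℚ (Polynomial.X : Polynomial ℚ) :=
    (isIntegral_algHom_iff (IsScalarTower.toAlgHom ℚ (Polynomial ℚ) (RatFunc ℚ))
      (RatFunc.algebraMap_injective ℚ)).mp h
  exact Polynomial.transcendental_X ℚ h2.isAlgebraic

theorem hod_s_not_integral :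
    ¬ IsIntegral ℚ ((RatFunc.X : RatFunc ℚ) - (RatFunc.X)⁻¹) := by
  intro h
  apply hod_X_not_integral
  have h2 : IsIntegral (integralClosure ℚ (RatFunc ℚ)) (RatFunc.X : RatFunc ℚ) := by
    refine ⟨Polynomial.X ^ 2 - Polynomial.C (⟨_, h⟩ : integralClosure ℚ (RatFunc ℚ)) *
      Polynomial.X - 1, ?_, ?_⟩
    · have e : Polynomial.X ^ 2 - Polynomial.C (⟨_, h⟩ : integralClosure ℚ (RatFunc ℚ)) *
          Polynomial.X - 1 = Polynomial.X ^ 2 + (-(Polynomial.C (⟨_, h⟩ :
            integralClosure ℚ (RatFunc ℚ)) * Polynomial.X) - 1) := by ring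
      rw [e]
      apply Polynomial.monic_X_pow_add
      refine lt_of_le_of_lt (Polynomial.degree_sub_le _ _) ?_
      rw [Polynomial.degree_neg]
      apply max_lt
      · refine lt_of_le_of_lt (Polynomial.degree_C_mul_X_le _) ?_
        norm_num
      · refine lt_of_le_of_lt Polynomial.degree_one_le ?_
        norm_num
    · rw [Polynomial.eval₂_sub, Polynomial.eval₂_sub, Polynomial.eval₂_pow, Polynomial.eval₂_X,
        Polynomial.eval₂_mul, Polynomial.eval₂_C, Polynomial.eval₂_X, Polynomial.eval₂_one]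
      have e3 : algebraMap (integralClosure ℚ (RatFunc ℚ)) (RatFunc ℚ)
          (⟨_, h⟩ : integralClosure ℚ (RatFunc ℚ)) = RatFunc.X - (RatFunc.X)⁻¹ := rfl
      rw [e3]
      have hX : (RatFunc.X : RatFunc ℚ) ≠ 0 := RatFunc.X_ne_zero
      field_simp
      ring
  exact isIntegral_trans _ h2

theorem hod_inj (g : Polynomial ℤ)
    (hg : Polynomial.eval₂RingHom (Int.castRingHom (RatFunc ℚ))
      ((RatFunc.X : RatFunc ℚ) - (RatFunc.X)⁻¹) g = 0) : g = 0 := by
  by_contra hne
  apply hod_s_not_integral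
  rw [← isAlgebraic_iff_isIntegral]
  refine ⟨g.map (Int.castRingHom ℚ), ?_, ?_⟩
  · rw [Ne, Polynomial.map_eq_zero_iff (RingHom.injective_int _)]
    exact hne
  · rw [Polynomial.aeval_def, Polynomial.eval₂_map]
    rw [Polynomial.coe_eval₂RingHom] at hg
    have e : (algebraMap ℚ (RatFunc ℚ)).comp (Int.castRingHom ℚ) = Int.castRingHom (RatFunc ℚ) :=
      RingHom.ext_int _ _
    rw [e]
    exact hg

theorem hod_aeval (K : Type) [Field K] [Algebra ℤ K] (v : Fin 3 → K)
    (G : MvPolynomial (Fin 3) ℤ) :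
    MvPolynomial.aeval v G = MvPolynomial.eval₂ (Int.castRingHom K) v G := by
  have e : algebraMap ℤ K = Int.castRingHom K := RingHom.ext_int _ _
  rw [MvPolynomial.aeval_def, e]

theorem density (G : MvPolynomial (Fin 3) ℤ)
    (h : ∀ n : ℕ, 2 ≤ n → MvPolynomial.aeval ![(RatFunc.X : RatFunc ℚ) ^ n,
      ((RatFunc.X : RatFunc ℚ) ^ n)⁻¹, RatFunc.X - (RatFunc.X)⁻¹] G = 0)
    (K : Type) [Field K] (a z : K) (ha : a ≠ 0) :
    MvPolynomial.aeval ![a, a⁻¹, z] G = 0 := by
  obtain ⟨D, P, hP⟩ := hod_red G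
  have hX : (RatFunc.X : RatFunc ℚ) ≠ 0 := RatFunc.X_ne_zero
  have hroot : ∀ n : ℕ, 2 ≤ n → (P.map (Polynomial.eval₂RingHom (Int.castRingHom (RatFunc ℚ))
      ((RatFunc.X : RatFunc ℚ) - (RatFunc.X)⁻¹))).IsRoot ((RatFunc.X : RatFunc ℚ) ^ n) := by
    intro n hn
    have e := hP (RatFunc ℚ) ((RatFunc.X : RatFunc ℚ) ^ n) (RatFunc.X - (RatFunc.X)⁻¹)
      (pow_ne_zero n hX)
    have h' := h n hn
    rw [hod_aeval] at e h'
    rw [h', mul_zero] at e
    unfold hod_ev at e
    rw [Polynomial.IsRoot.def, Polynomial.eval_map]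
    exact e.symm
  have hinj : Function.Injective (fun n : ℕ => (RatFunc.X : RatFunc ℚ) ^ n) := by
    intro m n hmn
    have e : algebraMap (Polynomial ℚ) (RatFunc ℚ) (Polynomial.X ^ m) =
        algebraMap (Polynomial ℚ) (RatFunc ℚ) (Polynomial.X ^ n) := by
      rw [map_pow, map_pow, RatFunc.algebraMap_X]
      exact hmn
    have e2 := RatFunc.algebraMap_injective ℚ e
    have e3 := congrArg Polynomial.natDegree e2
    rw [Polynomial.natDegree_X_pow, Polynomial.natDegree_X_pow] at e3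
    exact e3
  have hzero : P.map (Polynomial.eval₂RingHom (Int.castRingHom (RatFunc ℚ))
      ((RatFunc.X : RatFunc ℚ) - (RatFunc.X)⁻¹)) = 0 := by
    apply Polynomial.eq_zero_of_infinite_isRoot
    have hsub : Set.range (fun n : ℕ => (RatFunc.X : RatFunc ℚ) ^ (n + 2)) ⊆
        {x | (P.map (Polynomial.eval₂RingHom (Int.castRingHom (RatFunc ℚ))
          ((RatFunc.X : RatFunc ℚ) - (RatFunc.X)⁻¹))).IsRoot x} := by
      rintro x ⟨n, rfl⟩
      exact hroot (n + 2) (by omega)
    refine Set.Infinite.mono hsub ?_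
    apply Set.infinite_range_of_injective
    intro m n hmn
    have e : m + 2 = n + 2 := hinj hmn
    omega
  have hP0 : P = 0 := by
    ext1 i
    rw [Polynomial.coeff_zero]
    apply hod_inj
    rw [← Polynomial.coeff_map, hzero, Polynomial.coeff_zero]
  have e := hP K a z ha
  rw [hP0] at e
  unfold hod_ev at e
  rw [Polynomial.eval₂_zero] at e
  rcases mul_eq_zero.mp e with e1 | e1
  · exact absurd e1 (pow_ne_zero D ha)
  · exact e1

end ZM
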