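import Pool.Agent.H75.ZM.Sys
import Pool.Agent.H75.ZM.BrEx
import Pool.Agent.H75.ZM.HoU
import Pool.Agent.H75.ZM.HoD

/-!
# The main theorems (row ZM HoM)

Proof of `slnZ`: `traceSys` gives `S`; `P = bP S`; `inv`: case distinction on the move, with the
theorems of `BrLoc`, `BrMk`, `BrEx`.
Proof of `homfly_virt`: in `L = RatFunc ℚ`, `t = RatFunc.X`, let `P_n` be given by `slnZ` for
`lam = t`, `n ≥ 2`; `qint t n ≠ 0`; `P' m w = (qint t n)⁻¹ * P_n (m, w)` is a HOMFLY functional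
with parameters `a = t ^ n`, `z = t - t⁻¹` (apply `inv` to the steps given by `Loc`, `conj`, `stab`,
with `m ≥ 1`; for `m = 0` the only word is the empty one) and `P' D = P' D'`.  With
`homfly_unique` for `D` and `D'` (giving `N, F` and `N', F'`), `G = F * Z ^ N' - F' * Z ^ N` vanishes at
`(t^n, t^-n, t - t⁻¹)` for all `n ≥ 2`, so by `density` at `(a, a⁻¹, z)`; so
`z ^ (N + N') * (P D - P D') = 0` and `z ≠ 0`.
-/

namespace ZM

theorem hom_move {K : Type} [Field K] {lam : K} {n : ℕ} (hne : lam ≠ 0) (hn : 2 ≤ n)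
    (S : TraceSys K lam n) {D D' : ℕ × List BL} (h1 : BOk D.1 D.2) (h2 : BOk D'.1 D'.2)
    (h : Move D D') : bP S D = bP S D' := by
  cases h with
  | loc m u v x y h => exact bP_loc hne S h h1 h2
  | conj m u v => exact bP_conj S h1
  | stab m w hw s => exact bP_stab hne (le_trans (by norm_num) hn) S hw s
  | stabv m w hw => exact bP_stabv S hw
  | exR m u v hu hv => exact bP_exR hne hn S hu hv
  | exL m u v hu hv => exact bP_exL hne hn S hu hv
  | virt m u v i s => exact bP_virt hne S h1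

theorem slnZ (K : Type) [Field K] (lam : K) (n : ℕ) (hne : lam ≠ 0) (hn : 2 ≤ n)
    (hn1 : ((n : K) + 1) ≠ 0) : ∃ P : ℕ × List BL → K, SlnZ K lam n P := by
  obtain ⟨S, -⟩ := traceSys K lam n hne hn hn1
  refine ⟨bP S, ?_, ?_, ?_⟩
  · rintro D D' ⟨-, -, h1, h2, h | h⟩
    · exact hom_move hne hn S h1 h2 h
    · exact (hom_move hne hn S h2 h1 h).symm
  · intro m u v i h
    exact bP_skein hne S h
  · intro m
    exact bP_unlink S m

theorem hom_bok0 {w : List BL} (h : BOk 0 w) : w = [] := by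
  cases w with
  | nil => rfl
  | cons a w =>
    have h1 := h a (List.mem_cons_self ..)
    omega

theorem hom_bok_append {m : ℕ} {u v : List BL} (h : BOk m (u ++ v)) : BOk m (v ++ u) := by
  intro a ha
  apply h a
  rw [List.mem_append] at ha ⊢
  exact ha.symm

theorem hom_inv {K : Type} [Field K] {lam : K} {n : ℕ} {Q : ℕ × List BL → K}
    (hQ : SlnZ K lam n Q) {D D' : ℕ × List BL} (h : ZEquiv D D') : Q D = Q D' := by
  induction h with
  | refl => rfl
  | tail _ h1 ih => rw [ih, hQ.inv _ _ h1]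

theorem hom_one {D D' : ℕ × List BL} (h : ZEquiv D D') (h1 : 1 ≤ D.1) : 1 ≤ D'.1 := by
  cases h with
  | refl => exact h1
  | tail _ h2 => exact h2.2.1

theorem hom_homfly {K : Type} [Field K] {lam : K} {n : ℕ} {Q : ℕ × List BL → K}
    (hQ : SlnZ K lam n Q) (hq : qint lam n ≠ 0) :
    Homfly K (lam ^ n) (lam - lam⁻¹) (fun m w => (qint lam n)⁻¹ * Q (m, w)) := by
  refine ⟨?_, ?_, ?_, ?_, ?_⟩
  · intro m u v x y h _ _ h1 h2
    rcases Nat.eq_zero_or_pos m with hm | hm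
    · rw [hm] at h1 h2
      rw [hom_bok0 h1, hom_bok0 h2]
    · have e := hQ.inv (m, u ++ x ++ v) (m, u ++ y ++ v) ⟨hm, hm, h1, h2, Or.inl (Move.loc m u v x y h)⟩
      show _ * _ = _ * _
      rw [e]
  · intro m u v _ h1
    rcases Nat.eq_zero_or_pos m with hm | hm
    · rw [hm] at h1
      rw [hom_bok0 h1, hom_bok0 (hom_bok_append h1)]
    · have e := hQ.inv (m, u ++ v) (m, v ++ u) ⟨hm, hm, h1, hom_bok_append h1,
        Or.inl (Move.conj m u v)⟩
      show _ * _ = _ * _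
      rw [e]
  · intro m w s _ h1
    have h2 : BOk (m + 2) (w ++ [BL.sg m s]) := by
      intro a ha
      rw [List.mem_append, List.mem_singleton] at ha
      rcases ha with ha | ha
      · have := h1 a ha
        omega
      · rw [ha]
        show m + 1 < m + 2
        omega
    have e := hQ.inv (m + 1, w) (m + 2, w ++ [BL.sg m s]) ⟨by
      show 1 ≤ m + 1
      omega, by
      show 1 ≤ m + 2
      omega, h1, h2, Or.inl (Move.stab m w h1 s)⟩
    show _ * _ = _ * _
    rw [e]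
  · intro m u v i _ h1
    have e := hQ.skein m u v i h1
    show lam ^ n * ((qint lam n)⁻¹ * Q (m, u ++ [BL.sg i true] ++ v)) -
      (lam ^ n)⁻¹ * ((qint lam n)⁻¹ * Q (m, u ++ [BL.sg i false] ++ v)) =
      (lam - lam⁻¹) * ((qint lam n)⁻¹ * Q (m, u ++ v))
    calc _ = (qint lam n)⁻¹ * (lam ^ n * Q (m, u ++ [BL.sg i true] ++ v) -
        (lam ^ n)⁻¹ * Q (m, u ++ [BL.sg i false] ++ v)) := by ring
      _ = _ := by
        rw [e]
        ring
  · show (qint lam n)⁻¹ * Q (1, []) = 1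
    rw [hQ.unlink 1, pow_one, inv_mul_cancel₀ hq]

theorem hom_qint {n : ℕ} (hn : 1 ≤ n) : qint (RatFunc.X : RatFunc ℚ) n ≠ 0 := by
  have hX : (RatFunc.X : RatFunc ℚ) ≠ 0 := RatFunc.X_ne_zero
  rw [qint]
  refine mul_ne_zero (mul_ne_zero hX (pow_ne_zero _ (inv_ne_zero hX))) ?_
  have e : (∑ i ∈ Finset.range n, ((RatFunc.X : RatFunc ℚ) ^ 2) ^ i) =
      algebraMap (Polynomial ℚ) (RatFunc ℚ)
        (∑ i ∈ Finset.range n, ((Polynomial.X : Polynomial ℚ) ^ 2) ^ i) := by
    rw [map_sum]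
    refine Finset.sum_congr rfl fun i _ => ?_
    rw [map_pow, map_pow, RatFunc.algebraMap_X]
  rw [e]
  intro h0
  rw [← map_zero (algebraMap (Polynomial ℚ) (RatFunc ℚ))] at h0
  have h1 := RatFunc.algebraMap_injective ℚ h0
  have h2 := congrArg (Polynomial.eval 1) h1
  rw [Polynomial.eval_finset_sum] at h2
  simp at h2
  omega

theorem hom_eval {K : Type} [Field K] [Algebra ℤ K] (v : Fin 3 → K) (F F' : MvPolynomial (Fin 3) ℤ)
    (N N' : ℕ) : MvPolynomial.aeval v (F * MvPolynomial.X 2 ^ N' - F' * MvPolynomial.X 2 ^ N) =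
      MvPolynomial.aeval v F * v 2 ^ N' - MvPolynomial.aeval v F' * v 2 ^ N := by
  rw [map_sub, map_mul, map_mul, map_pow, map_pow, MvPolynomial.aeval_X]

theorem homfly_virt (K : Type) [Field K] (a z : K) (ha : a ≠ 0) (hz : z ≠ 0)
    (P : ℕ → List BL → K) (hP : Homfly K a z P) {m m' : ℕ} {w w' : List BL} (hm : 1 ≤ m)
    (hw : BOk m w) (hw' : BOk m' w') (hc : Classical w) (hc' : Classical w')
    (h : ZEquiv (m, w) (m', w')) : P m w = P m' w' := by
  have hm' : 1 ≤ m' := hom_one h hm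
  obtain ⟨N, F, hF⟩ := homfly_unique hm hc hw
  obtain ⟨N', F', hF'⟩ := homfly_unique hm' hc' hw'
  have hG : MvPolynomial.aeval ![a, a⁻¹, z]
      (F * MvPolynomial.X 2 ^ N' - F' * MvPolynomial.X 2 ^ N) = 0 := by
    refine density _ ?_ K a z ha
    intro n hn
    have hX : (RatFunc.X : RatFunc ℚ) ≠ 0 := RatFunc.X_ne_zero
    have hchar : CharZero (RatFunc ℚ) := algebraRat.charZero (RatFunc ℚ)
    obtain ⟨Q, hQ⟩ := slnZ (RatFunc ℚ) RatFunc.X n hX hn (Nat.cast_add_one_ne_zero n)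
    have hH := hom_homfly hQ (hom_qint (by omega))
    have e1 := hF (RatFunc ℚ) (RatFunc.X ^ n) (RatFunc.X - (RatFunc.X)⁻¹) _
      (pow_ne_zero n hX) hH
    have e2 := hF' (RatFunc ℚ) (RatFunc.X ^ n) (RatFunc.X - (RatFunc.X)⁻¹) _
      (pow_ne_zero n hX) hH
    have e3 : Q (m, w) = Q (m', w') := hom_inv hQ h
    rw [hod_aeval] at e1 e2
    rw [hom_eval, hod_aeval, hod_aeval, ← e1, ← e2, e3]
    show _ * (RatFunc.X - (RatFunc.X)⁻¹) ^ N' - _ * (RatFunc.X - (RatFunc.X)⁻¹) ^ N =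
      (0 : RatFunc ℚ)
    ring
  rw [hom_eval, ← hF K a z P ha hP, ← hF' K a z P ha hP] at hG
  have e : z ^ (N + N') * (P m w - P m' w') = 0 := by
    rw [← hG]
    show _ = z ^ N * P m w * z ^ N' - z ^ N' * P m' w' * z ^ N
    ring
  rcases mul_eq_zero.1 e with e1 | e1
  · exact absurd e1 (pow_ne_zero _ hz)
  · exact sub_eq_zero.1 e1

end ZM
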