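import Pool.Agent.H75.ZM.Defs

/-!
# Virtual braid words, moves, HOMFLY functionals

The diagram `(m, w)` is the closure of the virtual braid word `w` on `m` strands.
-/

namespace ZM

/-- Letters of virtual braid words: `sg i true` is the positive crossing of the strands in the
positions `i, i + 1`, `sg i false` the negative one, `ta i` the virtual crossing. -/
inductive BL where
  | sg (i : ℕ) (s : Bool) : BL
  | ta (i : ℕ) : BL
deriving DecidableEq

/-- The position of a letter. -/
def BL.ix : BL → ℕ
  | .sg i _ => i
  | .ta i => i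

/-- The letter moved by one position. -/
def BL.shift : BL → BL
  | .sg i s => .sg (i + 1) s
  | .ta i => .ta (i + 1)

/-- A word on `m` strands. -/
def BOk (m : ℕ) (w : List BL) : Prop := ∀ a ∈ w, a.ix + 1 < m

/-- Words without virtual crossings. -/
def Classical (w : List BL) : Prop := ∀ a ∈ w, ∃ i s, a = BL.sg i s

/-- The local relations of virtual braid words which do not involve crossing virtualization:
far commutation, `σ σ⁻¹ = 1`, `τ τ = 1`, and the three relations on three strands. -/
inductive Loc : List BL → List BL → Prop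
  | far (a b : BL) (h : a.ix + 2 ≤ b.ix) : Loc [a, b] [b, a]
  | canc (i : ℕ) (s : Bool) : Loc [.sg i s, .sg i !s] []
  | tt (i : ℕ) : Loc [.ta i, .ta i] []
  | r3 (i : ℕ) : Loc [.sg i true, .sg (i + 1) true, .sg i true]
      [.sg (i + 1) true, .sg i true, .sg (i + 1) true]
  | v3 (i : ℕ) : Loc [.ta i, .ta (i + 1), .ta i] [.ta (i + 1), .ta i, .ta (i + 1)]
  | mix (i : ℕ) (s : Bool) : Loc [.ta i, .ta (i + 1), .sg i s] [.sg (i + 1) s, .ta i, .ta (i + 1)]

/-- The moves between closures of virtual braid words: the local relations in context, conjugation,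
stabilizations, the right and left exchange moves, and crossing virtualization. -/
inductive Move : ℕ × List BL → ℕ × List BL → Prop
  | loc (m : ℕ) (u v x y : List BL) (h : Loc x y) : Move (m, u ++ x ++ v) (m, u ++ y ++ v)
  | conj (m : ℕ) (u v : List BL) : Move (m, u ++ v) (m, v ++ u)
  | stab (m : ℕ) (w : List BL) (hw : BOk (m + 1) w) (s : Bool) :
      Move (m + 1, w) (m + 2, w ++ [.sg m s])
  | stabv (m : ℕ) (w : List BL) (hw : BOk (m + 1) w) : Move (m + 1, w) (m + 2, w ++ [.ta m])
  | exR (m : ℕ) (u v : List BL) (hu : BOk (m + 1) u) (hv : BOk (m + 1) v) :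
      Move (m + 2, u ++ [.sg m false] ++ v ++ [.sg m true])
        (m + 2, u ++ [.ta m] ++ v ++ [.ta m])
  | exL (m : ℕ) (u v : List BL) (hu : BOk (m + 1) u) (hv : BOk (m + 1) v) :
      Move (m + 2, u.map BL.shift ++ [.sg 0 false] ++ v.map BL.shift ++ [.sg 0 true])
        (m + 2, u.map BL.shift ++ [.ta 0] ++ v.map BL.shift ++ [.ta 0])
  | virt (m : ℕ) (u v : List BL) (i : ℕ) (s : Bool) :
      Move (m, u ++ [.sg i s] ++ v) (m, u ++ [.ta i, .sg i s, .ta i] ++ v)

/-- One move in either direction between words on at least one strand. -/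
def Step (D D' : ℕ × List BL) : Prop :=
  1 ≤ D.1 ∧ 1 ≤ D'.1 ∧ BOk D.1 D.2 ∧ BOk D'.1 D'.2 ∧ (Move D D' ∨ Move D' D)

/-- Equivalence of closures of virtual braid words under generalized Reidemeister moves and
crossing virtualization. -/
def ZEquiv (D D' : ℕ × List BL) : Prop := Relation.ReflTransGen Step D D'

/-- `P` is a HOMFLY functional on closures of classical braid words, with values in `K` and
parameters `a`, `z`: it is invariant under the braid relations, conjugation and stabilization,
satisfies the skein relation `a P(L+) - a⁻¹ P(L-) = z P(L0)` and has the value `1` on the closure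
of the trivial braid on one strand. -/
structure Homfly (K : Type) [Field K] (a z : K) (P : ℕ → List BL → K) : Prop where
  loc : ∀ m u v x y, Loc x y → Classical (u ++ x ++ v) → Classical (u ++ y ++ v) →
    BOk m (u ++ x ++ v) → BOk m (u ++ y ++ v) → P m (u ++ x ++ v) = P m (u ++ y ++ v)
  conj : ∀ m u v, Classical (u ++ v) → BOk m (u ++ v) → P m (u ++ v) = P m (v ++ u)
  stab : ∀ m w s, Classical w → BOk (m + 1) w → P (m + 2) (w ++ [.sg m s]) = P (m + 1) w
  skein : ∀ m u v i, Classical (u ++ v) → BOk m (u ++ [.sg i true] ++ v) →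
    a * P m (u ++ [.sg i true] ++ v) - a⁻¹ * P m (u ++ [.sg i false] ++ v) = z * P m (u ++ v)
  unknot : P 1 [] = 1

/-- `P` is an extension of the unnormalized `sl(n)` polynomial, evaluated at `q = lam`, to closures
of virtual braid words, which is invariant under all moves. -/
structure SlnZ (K : Type) [Field K] (lam : K) (n : ℕ) (P : ℕ × List BL → K) : Prop where
  inv : ∀ D D', Step D D' → P D = P D'
  skein : ∀ m u v i, BOk m (u ++ [.sg i true] ++ v) →
    lam ^ n * P (m, u ++ [.sg i true] ++ v) - (lam ^ n)⁻¹ * P (m, u ++ [.sg i false] ++ v) =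
      (lam - lam⁻¹) * P (m, u ++ v)
  unlink : ∀ m, P (m, []) = qint lam n ^ m

end ZM
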