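import Pool.Agent.H75.ZM.BrDefs

/-!
# Expansion of braid words (row ZM BrExt)

`ext lam n f w` is the value of the linear extension of `f` on the product of the expansions
`σ ↦ lam^-n (lam - E)`, `σ⁻¹ ↦ lam^n (lam⁻¹ - E)`, `τ ↦ S` of the letters of `w`.
All statements are proved by induction on the word (generalizing `f`), with case distinction on
the first letter.
-/

namespace ZM

variable {K : Type} [Field K] {lam : K} {n : ℕ}

/-- The expansion. -/
def ext (lam : K) (n : ℕ) (f : List Lt → K) : List BL → K
  | [] => f []
  | .sg i true :: w => (lam⁻¹) ^ n * (lam * ext lam n f w -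
      ext lam n (fun v => f (.E i (i + 1) :: v)) w)
  | .sg i false :: w => lam ^ n * (lam⁻¹ * ext lam n f w -
      ext lam n (fun v => f (.E i (i + 1) :: v)) w)
  | .ta i :: w => ext lam n (fun v => f (.S i (i + 1) :: v)) w

lemma ext_append (f : List Lt → K) (u v : List BL) :
    ext lam n f (u ++ v) = ext lam n (fun x => ext lam n (fun y => f (x ++ y)) v) u := by
  induction u generalizing f with
  | nil => rfl
  | cons a u ih =>
    rcases a with ⟨i, s⟩ | i
    · cases s
      · simp only [List.cons_append, ext, ih]
      · simp only [List.cons_append, ext, ih]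
    · simp only [List.cons_append, ext, ih]

lemma ext_add (f g : List Lt → K) (u : List BL) :
    ext lam n (fun x => f x + g x) u = ext lam n f u + ext lam n g u := by
  induction u generalizing f g with
  | nil => rfl
  | cons a u ih =>
    rcases a with ⟨i, s⟩ | i
    · have h1 := ih f g
      have h2 := ih (fun v => f (.E i (i + 1) :: v)) (fun v => g (.E i (i + 1) :: v))
      cases s
      · simp only [ext, h1, h2]
        ring
      · simp only [ext, h1, h2]
        ring
    · exact ih (fun v => f (.S i (i + 1) :: v)) (fun v => g (.S i (i + 1) :: v))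

lemma ext_sub (f g : List Lt → K) (u : List BL) :
    ext lam n (fun x => f x - g x) u = ext lam n f u - ext lam n g u := by
  induction u generalizing f g with
  | nil => rfl
  | cons a u ih =>
    rcases a with ⟨i, s⟩ | i
    · have h1 := ih f g
      have h2 := ih (fun v => f (.E i (i + 1) :: v)) (fun v => g (.E i (i + 1) :: v))
      cases s
      · simp only [ext, h1, h2]
        ring
      · simp only [ext, h1, h2]
        ring
    · exact ih (fun v => f (.S i (i + 1) :: v)) (fun v => g (.S i (i + 1) :: v))

lemma ext_mul (c : K) (f : List Lt → K) (u : List BL) :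
    ext lam n (fun x => c * f x) u = c * ext lam n f u := by
  induction u generalizing f with
  | nil => rfl
  | cons a u ih =>
    rcases a with ⟨i, s⟩ | i
    · have h1 := ih f
      have h2 := ih (fun v => f (.E i (i + 1) :: v))
      cases s
      · simp only [ext, h1, h2]
        ring
      · simp only [ext, h1, h2]
        ring
    · exact ih (fun v => f (.S i (i + 1) :: v))

/-- Only the values on words on `m` strands matter. -/
lemma ext_congr {m : ℕ} {f g : List Lt → K} {u : List BL} (hu : BOk m u)
    (h : ∀ x, Ok m x → f x = g x) : ext lam n f u = ext lam n g u := by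
  induction u generalizing f g with
  | nil => exact h [] (by intro a ha; simp at ha)
  | cons a u ih =>
    have hu' : BOk m u := fun b hb => hu b (List.mem_cons_of_mem _ hb)
    have ha : a.ix + 1 < m := hu a List.mem_cons_self
    have hE : ∀ i, i + 1 < m → ∀ x, Ok m x → Ok m (Lt.E i (i + 1) :: x) := by
      intro i hi x hx b hb
      rcases List.mem_cons.1 hb with rfl | hb
      · exact ⟨by omega, hi, by omega⟩
      · exact hx b hb
    have hS : ∀ i, i + 1 < m → ∀ x, Ok m x → Ok m (Lt.S i (i + 1) :: x) := by
      intro i hi x hx b hb
      rcases List.mem_cons.1 hb with rfl | hb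
      · exact ⟨by omega, hi⟩
      · exact hx b hb
    rcases a with ⟨i, s⟩ | i
    · have h1 := ih hu' h
      have h2 := ih (f := fun v => f (.E i (i + 1) :: v)) (g := fun v => g (.E i (i + 1) :: v)) hu'
        (fun x hx => h _ (hE i ha x hx))
      cases s
      · simp only [ext, h1, h2]
      · simp only [ext, h1, h2]
    · exact ih (f := fun v => f (.S i (i + 1) :: v)) (g := fun v => g (.S i (i + 1) :: v)) hu'
        (fun x hx => h _ (hS i ha x hx))

lemma ext_comm (f : List Lt → List Lt → K) (u v : List BL) :
    ext lam n (fun x => ext lam n (fun y => f x y) v) u =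
      ext lam n (fun y => ext lam n (fun x => f x y) u) v := by
  induction u generalizing f with
  | nil => rfl
  | cons a u ih =>
    rcases a with ⟨i, s⟩ | i
    · have h1 := ih f
      have h2 := ih (fun x y => f (.E i (i + 1) :: x) y)
      cases s
      · simp only [ext]
        rw [ext_mul, ext_sub, ext_mul, h1, h2]
      · simp only [ext]
        rw [ext_mul, ext_sub, ext_mul, h1, h2]
    · exact ih (fun x y => f (.S i (i + 1) :: x) y)

/-- Shifted words. -/
lemma ext_shift (f : List Lt → K) (u : List BL) :
    ext lam n f (u.map BL.shift) = ext lam n (fun x => f (x.map (Lt.map Nat.succ))) u := by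
  induction u generalizing f with
  | nil => rfl
  | cons a u ih =>
    rcases a with ⟨i, s⟩ | i
    · have h1 := ih f
      have h2 := ih (fun v => f (.E (i + 1) (i + 1 + 1) :: v))
      cases s
      · simp only [List.map_cons, BL.shift, ext]
        rw [h1, h2]
        rfl
      · simp only [List.map_cons, BL.shift, ext]
        rw [h1, h2]
        rfl
    · simp only [List.map_cons, BL.shift, ext]
      rw [ih (fun v => f (.S (i + 1) (i + 1 + 1) :: v))]
      rfl

end ZM
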