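import Pool.Agent.H75.ZM.BrLoc

/-!
# Conjugation, stabilizations, skein relation (row ZM BrMk)

Proofs.  Conjugation: `ext_append`, `ext_comm`, `cyc`.  Stabilization: `ext_append`, for a word `x` on
`m + 1` strands: `lam * tr (m+2) x - tr (m+2) (x ++ [E m (m+1)])`, by `cyc` and `addE`, `add` equals
`(lam * qint lam n - qint lam (n-1)) * tr (m+1) x = lam ^ n * tr (m+1) x`, and similarly
`lam⁻¹ * qint lam n - qint lam (n-1) = (lam⁻¹) ^ n` (`1 ≤ n`).  Virtual stabilization: `addS`.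
Skein: `ext_append` and the definition of `ext`.  Unlink: `one`, `add`.
-/

namespace ZM

variable {K : Type} [Field K] {lam : K} {n : ℕ}

lemma brmk_bl {m : ℕ} {u v : List BL} (h : BOk m (u ++ v)) : BOk m u :=
  fun a ha => h a (List.mem_append_left v ha)

lemma brmk_br {m : ℕ} {u v : List BL} (h : BOk m (u ++ v)) : BOk m v :=
  fun a ha => h a (List.mem_append_right u ha)

lemma brmk_ok {m p : ℕ} (hmp : m ≤ p) {w : List Lt} (h : Ok m w) : Ok p w := by
  intro a ha
  have h1 := h a ha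
  cases a with
  | E i j =>
    have h2 : i < m ∧ j < m ∧ i ≠ j := h1
    exact ⟨by omega, by omega, h2.2.2⟩
  | S i j =>
    have h2 : i < m ∧ j < m := h1
    exact ⟨by omega, by omega⟩

lemma brmk_okE {m : ℕ} : Ok (m + 2) [.E m (m + 1)] := by
  intro a ha
  rw [List.mem_singleton] at ha
  subst ha
  exact ⟨by omega, by omega, by omega⟩

lemma brmk_okS {m : ℕ} : Ok (m + 2) [.S m (m + 1)] := by
  intro a ha
  rw [List.mem_singleton] at ha
  subst ha
  exact ⟨by omega, by omega⟩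

lemma brmk_trE (S : TraceSys K lam n) {m : ℕ} {x : List Lt} (hx : Ok (m + 1) x) :
    S.tr (m + 2) (x ++ [.E m (m + 1)]) = qint lam (n - 1) * S.tr (m + 1) x := by
  rw [S.cyc (m + 2) x [.E m (m + 1)] (brmk_ok (by omega) hx) brmk_okE]
  exact S.addE (m + 1) m x (by omega) hx

lemma brmk_trS (S : TraceSys K lam n) {m : ℕ} {x : List Lt} (hx : Ok (m + 1) x) :
    S.tr (m + 2) (x ++ [.S m (m + 1)]) = S.tr (m + 1) x := by
  rw [S.cyc (m + 2) x [.S m (m + 1)] (brmk_ok (by omega) hx) brmk_okS]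
  exact S.addS (m + 1) m x (by omega) hx

lemma brmk_tr1 (S : TraceSys K lam n) {m : ℕ} {x : List Lt} (hx : Ok (m + 1) x) :
    S.tr (m + 2) (x ++ []) = qint lam n * S.tr (m + 1) x := by
  rw [List.append_nil]
  exact S.add (m + 1) x hx

lemma brmk_pos (f : List Lt → K) (u v : List BL) (i : ℕ) :
    ext lam n f (u ++ [.sg i true] ++ v) = (lam⁻¹) ^ n * (lam *
      ext lam n (fun x => ext lam n (fun y => f (x ++ y)) v) u -
      ext lam n (fun x => ext lam n (fun y => f (x ++ .E i (i + 1) :: y)) v) u) := by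
  rw [List.append_assoc, ext_append, List.singleton_append]
  show ext lam n (fun x => (lam⁻¹) ^ n * (lam * ext lam n (fun y => f (x ++ y)) v -
      ext lam n (fun y => f (x ++ .E i (i + 1) :: y)) v)) u = _
  rw [ext_mul, ext_sub, ext_mul]

lemma brmk_neg (f : List Lt → K) (u v : List BL) (i : ℕ) :
    ext lam n f (u ++ [.sg i false] ++ v) = lam ^ n * (lam⁻¹ *
      ext lam n (fun x => ext lam n (fun y => f (x ++ y)) v) u -
      ext lam n (fun x => ext lam n (fun y => f (x ++ .E i (i + 1) :: y)) v) u) := by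
  rw [List.append_assoc, ext_append, List.singleton_append]
  show ext lam n (fun x => lam ^ n * (lam⁻¹ * ext lam n (fun y => f (x ++ y)) v -
      ext lam n (fun y => f (x ++ .E i (i + 1) :: y)) v)) u = _
  rw [ext_mul, ext_sub, ext_mul]

lemma qint_id1 (hne : lam ≠ 0) (hn : 1 ≤ n) :
    lam * qint lam n - qint lam (n - 1) = lam ^ n := by
  obtain ⟨r, rfl⟩ : ∃ r, n = r + 1 := ⟨n - 1, by omega⟩
  rw [Nat.add_sub_cancel]
  unfold qint
  rw [Finset.sum_range_succ, inv_pow, inv_pow]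
  have h1 : lam ^ (r + 1) ≠ 0 := pow_ne_zero _ hne
  have h2 : lam ^ r ≠ 0 := pow_ne_zero _ hne
  rw [← pow_mul]
  field_simp
  ring

lemma qint_id2 (hne : lam ≠ 0) (hn : 1 ≤ n) :
    lam⁻¹ * qint lam n - qint lam (n - 1) = (lam⁻¹) ^ n := by
  obtain ⟨r, rfl⟩ : ∃ r, n = r + 1 := ⟨n - 1, by omega⟩
  rw [Nat.add_sub_cancel]
  unfold qint
  rw [Finset.sum_range_succ']
  have h0 : ∀ i, (lam ^ 2) ^ (i + 1) = lam ^ 2 * (lam ^ 2) ^ i := fun i => pow_succ' _ _
  simp only [h0]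
  rw [← Finset.mul_sum, pow_zero, pow_succ]
  field_simp
  ring

theorem bP_conj (S : TraceSys K lam n) {m : ℕ} {u v : List BL} (h : BOk m (u ++ v)) :
    bP S (m, u ++ v) = bP S (m, v ++ u) := by
  unfold bP
  show ext lam n (S.tr m) (u ++ v) = ext lam n (S.tr m) (v ++ u)
  rw [ext_append, ext_append, ← ext_comm (fun x y => S.tr m (y ++ x)) u v]
  refine ext_congr (brmk_bl h) fun x hx => ext_congr (brmk_br h) fun y hy => ?_
  exact S.cyc m x y hx hy

theorem bP_stab (hne : lam ≠ 0) (hn : 1 ≤ n) (S : TraceSys K lam n) {m : ℕ} {w : List BL}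
    (hw : BOk (m + 1) w) (s : Bool) : bP S (m + 1, w) = bP S (m + 2, w ++ [.sg m s]) := by
  show ext lam n (S.tr (m + 1)) w = ext lam n (S.tr (m + 2)) (w ++ [.sg m s])
  rw [ext_append]
  refine ext_congr hw fun x hx => ?_
  cases s with
  | true =>
    show _ = (lam⁻¹) ^ n * (lam * S.tr (m + 2) (x ++ []) - S.tr (m + 2) (x ++ [.E m (m + 1)]))
    rw [brmk_tr1 S hx, brmk_trE S hx, ← mul_assoc, ← sub_mul, qint_id1 hne hn, ← mul_assoc,
      ← mul_pow, inv_mul_cancel₀ hne, one_pow, one_mul]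
  | false =>
    show _ = lam ^ n * (lam⁻¹ * S.tr (m + 2) (x ++ []) - S.tr (m + 2) (x ++ [.E m (m + 1)]))
    rw [brmk_tr1 S hx, brmk_trE S hx, ← mul_assoc, ← sub_mul, qint_id2 hne hn, ← mul_assoc,
      ← mul_pow, mul_inv_cancel₀ hne, one_pow, one_mul]

theorem bP_stabv (S : TraceSys K lam n) {m : ℕ} {w : List BL} (hw : BOk (m + 1) w) :
    bP S (m + 1, w) = bP S (m + 2, w ++ [.ta m]) := by
  show ext lam n (S.tr (m + 1)) w = ext lam n (S.tr (m + 2)) (w ++ [.ta m])
  rw [ext_append]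
  refine ext_congr hw fun x hx => ?_
  show _ = S.tr (m + 2) (x ++ [.S m (m + 1)])
  rw [brmk_trS S hx]

theorem bP_skein (hne : lam ≠ 0) (S : TraceSys K lam n) {m : ℕ} {u v : List BL} {i : ℕ}
    (h : BOk m (u ++ [.sg i true] ++ v)) :
    lam ^ n * bP S (m, u ++ [.sg i true] ++ v) - (lam ^ n)⁻¹ * bP S (m, u ++ [.sg i false] ++ v) =
      (lam - lam⁻¹) * bP S (m, u ++ v) := by
  show lam ^ n * ext lam n (S.tr m) (u ++ [.sg i true] ++ v) -
    (lam ^ n)⁻¹ * ext lam n (S.tr m) (u ++ [.sg i false] ++ v) =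
      (lam - lam⁻¹) * ext lam n (S.tr m) (u ++ v)
  rw [brmk_pos, brmk_neg, ext_append]
  have h1 : lam ^ n * (lam⁻¹) ^ n = 1 := by rw [← mul_pow, mul_inv_cancel₀ hne, one_pow]
  have h2 : (lam ^ n)⁻¹ * lam ^ n = 1 := inv_mul_cancel₀ (pow_ne_zero _ hne)
  rw [← mul_assoc, ← mul_assoc, h1, h2]
  ring

theorem bP_unlink (S : TraceSys K lam n) (m : ℕ) : bP S (m, []) = qint lam n ^ m := by
  show S.tr m [] = qint lam n ^ m
  induction m with
  | zero => rw [S.one, pow_zero]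
  | succ m ih =>
    rw [S.add m [] (fun a ha => absurd ha List.not_mem_nil), ih, pow_succ']

end ZM
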