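import Pool.Agent.H75.ZM.BrTr1

/-!
# Relabelling (row ZM BrTr2)

Proof.  For a swap: `tr m w = tr m (w ++ [S i j, S i j])` (`cx_ss`)
`= tr m ([S i j] ++ w ++ [S i j])` (`cyc`) and the first `S i j` can be moved to the right through
`w` letter by letter with `cx_sl`, mapping the letters; finally `cx_ss`.  A permutation of `ℕ` fixing
all `l ≥ m` is a product of swaps of labels `< m` (for instance: induction on `m`; if `ρ (m-1) = t`,
then `swap t (m-1) * ρ` fixes all `l ≥ m - 1`).
-/

namespace ZM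

variable {K : Type} [Field K] {lam : K} {n : ℕ}

lemma brtr2_ok_lt {m : ℕ} {ρ : ℕ → ℕ} (hinj : Function.Injective ρ) (hρ : ∀ l < m, ρ l < m)
    {a : Lt} (ha : a.ok m) : (a.map ρ).ok m := by
  cases a with
  | E i j =>
    obtain ⟨h1, h2, h3⟩ := ha
    exact ⟨hρ _ h1, hρ _ h2, fun h => h3 (hinj h)⟩
  | S i j =>
    obtain ⟨h1, h2⟩ := ha
    exact ⟨hρ _ h1, hρ _ h2⟩

lemma brtr2_ok {m : ℕ} {ρ : ℕ → ℕ} (hinj : Function.Injective ρ) (hρ : ∀ l < m, ρ l < m)
    {w : List Lt} (hw : Ok m w) : Ok m (w.map (Lt.map ρ)) := by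
  intro a ha
  obtain ⟨b, hb, rfl⟩ := List.mem_map.mp ha
  exact brtr2_ok_lt hinj hρ (hw b hb)

lemma brtr2_swap_lt {m i j : ℕ} (hi : i < m) (hj : j < m) : ∀ l < m, Equiv.swap i j l < m := by
  intro l hl
  rw [Equiv.swap_apply_def]
  split_ifs <;> assumption

lemma brtr2_map_map (f g : ℕ → ℕ) (w : List Lt) :
    (w.map (Lt.map f)).map (Lt.map g) = w.map (Lt.map (g ∘ f)) := by
  rw [List.map_map]
  congr 1
  funext a
  cases a <;> rfl

lemma brtr2_map_id (w : List Lt) : w.map (Lt.map (fun l => l)) = w := by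
  have h : (Lt.map (fun l => l)) = (id : Lt → Lt) := by
    funext a
    cases a <;> rfl
  rw [h, List.map_id]

lemma brtr2_ok_append {m : ℕ} {u v : List Lt} (hu : Ok m u) (hv : Ok m v) : Ok m (u ++ v) := by
  intro a ha
  rcases List.mem_append.mp ha with h | h
  · exact hu a h
  · exact hv a h

lemma brtr2_move (S : TraceSys K lam n) {m : ℕ} {i j : ℕ} (hi : i < m) (hj : j < m)
    (w : List Lt) : ∀ (p v : List Lt), Ok m p → Ok m v → Ok m w →
    S.tr m (p ++ [.S i j] ++ w ++ v) =
      S.tr m (p ++ w.map (Lt.map (Equiv.swap i j)) ++ [.S i j] ++ v) := by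
  induction w with
  | nil => intro p v hp hv hw; simp
  | cons a w ih =>
    intro p v hp hv hw
    have ha : a.ok m := hw a (by simp)
    have hw' : Ok m w := fun b hb => hw b (by simp [hb])
    have h1 := cx_sl S hp (brtr2_ok_append hw' hv) hi hj ha
    have ha' : (a.map (Equiv.swap i j)).ok m :=
      brtr2_ok_lt (Equiv.injective _) (brtr2_swap_lt hi hj) ha
    have hp' : Ok m (p ++ [a.map (Equiv.swap i j)]) :=
      brtr2_ok_append hp (fun b hb => by rw [List.mem_singleton.mp hb]; exact ha')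
    have h2 := ih (p ++ [a.map (Equiv.swap i j)]) v hp' hv hw'
    simp only [List.append_assoc, List.cons_append, List.nil_append, List.map_cons] at h1 h2 ⊢
    rw [h1, h2]

lemma tr_swap (S : TraceSys K lam n) {m : ℕ} {w : List Lt} (hw : Ok m w) {i j : ℕ} (hi : i < m)
    (hj : j < m) : S.tr m (w.map (Lt.map (Equiv.swap i j))) = S.tr m w := by
  have hnil : Ok m ([] : List Lt) := fun a ha => by simp at ha
  have hS : Ok m [Lt.S i j] := fun b hb => by
    rw [List.mem_singleton.mp hb]; exact ⟨hi, hj⟩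
  have hw' := brtr2_ok (Equiv.injective (Equiv.swap i j)) (brtr2_swap_lt hi hj) hw
  have h1 := cx_ss S hw hnil hi hj
  have h2 := cx_ss S hw' hnil hi hj
  have h3 := S.cyc m (w ++ [.S i j]) [.S i j] (brtr2_ok_append hw hS) hS
  have h4 := brtr2_move S hi hj w [] [.S i j] hnil hS hw
  simp only [List.append_assoc, List.cons_append, List.nil_append, List.append_nil] at h1 h2 h3 h4
  rw [← h2, ← h4, ← h3, h1]

lemma brtr2_aux (S : TraceSys K lam n) {m : ℕ} {w : List Lt} (hw : Ok m w) (k : ℕ) (hk : k ≤ m) :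
    ∀ ρ : Equiv.Perm ℕ, (∀ l, k ≤ l → ρ l = l) → S.tr m (w.map (Lt.map ρ)) = S.tr m w := by
  induction k with
  | zero =>
    intro ρ hρ
    have h : (ρ : ℕ → ℕ) = fun l => l := funext fun l => hρ l (Nat.zero_le l)
    rw [h, brtr2_map_id]
  | succ k ih =>
    intro ρ hρ
    have hlt : ∀ l, l < k + 1 → ρ l < k + 1 := by
      intro l hl
      by_contra hc
      have h1 := hρ (ρ l) (by omega)
      have h2 := ρ.injective h1
      omega
    have ht : ρ k < k + 1 := hlt k (by omega)
    have hlm : ∀ l < m, ρ l < m := by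
      intro l hl
      by_cases h : l < k + 1
      · exact lt_of_lt_of_le (hlt l h) hk
      · rw [hρ l (by omega)]; exact hl
    have h1 := ih (by omega) (Equiv.swap (ρ k) k * ρ) (by
      intro l hl
      rw [Equiv.Perm.mul_apply]
      rcases Nat.eq_or_lt_of_le hl with h | h
      · rw [← h, Equiv.swap_apply_left]
      · rw [hρ l (by omega), Equiv.swap_apply_of_ne_of_ne (by omega) (by omega)])
    have h2 := tr_swap S (brtr2_ok ρ.injective hlm hw) (i := ρ k) (j := k) (by omega) (by omega)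
    rw [brtr2_map_map] at h2
    rw [← h2, ← h1]
    rfl

theorem tr_relabel (S : TraceSys K lam n) {m : ℕ} {w : List Lt} (hw : Ok m w)
    (ρ : Equiv.Perm ℕ) (hρ : ∀ l, m ≤ l → ρ l = l) : S.tr m (w.map (Lt.map ρ)) = S.tr m w :=
  brtr2_aux S hw m le_rfl ρ hρ

end ZM
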