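import Pool.Agent.H75.ZM.BrTr2

/-!
# Unrolling for trace systems (row ZM BrTr3)

`Pis a m = [S (m-1) (a+m-1), ..., S 0 a]`.

Proof of `unr`.  Induction on `b` (generalizing `A`).  `b = []`: `m` times `addS`
(`Pis a (m+1) ++ A = S m (a+m) :: (Pis a m ++ A)`, and `Pis a m ++ A` is a word on `a + m` strands).
`b = l :: b2`, `l' = l.map (a + ·)`: `l'` has no common labels with `A`, so by `cx_comm_word` it can be
moved to the left of `A`; `Pis a m ++ [l'] ~ [l] ++ Pis a m` in context (`cx_sl` for the successive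
swaps `S j (a+j)`, which fix the labels other than `j`, `a + j`); by `cyc` the letter `l` moves to the
end, and it commutes with the shifted `b2`, whose labels are `≥ a`; now use the induction
hypothesis for `A ++ [l]` and `b2`.
-/

namespace ZM

variable {K : Type} [Field K] {lam : K} {n : ℕ}

/-- The exchange of the strands `0, ..., m-1` and `a, ..., a+m-1`. -/
def Pis (a : ℕ) : ℕ → List Lt
  | 0 => []
  | m + 1 => .S m (a + m) :: Pis a m

private lemma brtr3_app {m : ℕ} {u v : List Lt} (hu : Ok m u) (hv : Ok m v) : Ok m (u ++ v) := by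
  intro x hx
  rcases List.mem_append.1 hx with h | h
  · exact hu x h
  · exact hv x h

private lemma brtr3_one {m : ℕ} {l : Lt} (hl : l.ok m) : Ok m [l] := by
  intro x hx
  rw [List.mem_singleton] at hx
  rw [hx]
  exact hl

private lemma brtr3_mono {m m' : ℕ} (h : m ≤ m') {l : Lt} (hl : l.ok m) : l.ok m' := by
  cases l with
  | E i j =>
    obtain ⟨h1, h2, h3⟩ := hl
    exact ⟨by omega, by omega, h3⟩
  | S i j =>
    obtain ⟨h1, h2⟩ := hl
    exact ⟨by omega, by omega⟩

private lemma brtr3_shift {a m : ℕ} {l : Lt} (hl : l.ok m) : (l.map (a + ·)).ok (a + m) := by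
  cases l with
  | E i j =>
    obtain ⟨h1, h2, h3⟩ := hl
    show a + i < a + m ∧ a + j < a + m ∧ a + i ≠ a + j
    exact ⟨by omega, by omega, by omega⟩
  | S i j =>
    obtain ⟨h1, h2⟩ := hl
    show a + i < a + m ∧ a + j < a + m
    exact ⟨by omega, by omega⟩

private lemma brtr3_disj1 {a : ℕ} {l b : Lt} (hb : b.ok a) : (l.map (a + ·)).disj b := by
  cases l with
  | E i j =>
    cases b with
    | E c d =>
      obtain ⟨h1, h2, h3⟩ := hb
      show a + i ≠ c ∧ a + i ≠ d ∧ a + j ≠ c ∧ a + j ≠ d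
      exact ⟨by omega, by omega, by omega, by omega⟩
    | S c d =>
      obtain ⟨h1, h2⟩ := hb
      show a + i ≠ c ∧ a + i ≠ d ∧ a + j ≠ c ∧ a + j ≠ d
      exact ⟨by omega, by omega, by omega, by omega⟩
  | S i j =>
    cases b with
    | E c d =>
      obtain ⟨h1, h2, h3⟩ := hb
      show a + i ≠ c ∧ a + i ≠ d ∧ a + j ≠ c ∧ a + j ≠ d
      exact ⟨by omega, by omega, by omega, by omega⟩
    | S c d =>
      obtain ⟨h1, h2⟩ := hb
      show a + i ≠ c ∧ a + i ≠ d ∧ a + j ≠ c ∧ a + j ≠ d
      exact ⟨by omega, by omega, by omega, by omega⟩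

private lemma brtr3_disj2 {a : ℕ} {l b : Lt} (hb : b.ok a) : b.disj (l.map (a + ·)) := by
  cases l with
  | E i j =>
    cases b with
    | E c d =>
      obtain ⟨h1, h2, h3⟩ := hb
      show c ≠ a + i ∧ c ≠ a + j ∧ d ≠ a + i ∧ d ≠ a + j
      exact ⟨by omega, by omega, by omega, by omega⟩
    | S c d =>
      obtain ⟨h1, h2⟩ := hb
      show c ≠ a + i ∧ c ≠ a + j ∧ d ≠ a + i ∧ d ≠ a + j
      exact ⟨by omega, by omega, by omega, by omega⟩
  | S i j =>
    cases b with
    | E c d =>
      obtain ⟨h1, h2, h3⟩ := hb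
      show c ≠ a + i ∧ c ≠ a + j ∧ d ≠ a + i ∧ d ≠ a + j
      exact ⟨by omega, by omega, by omega, by omega⟩
    | S c d =>
      obtain ⟨h1, h2⟩ := hb
      show c ≠ a + i ∧ c ≠ a + j ∧ d ≠ a + i ∧ d ≠ a + j
      exact ⟨by omega, by omega, by omega, by omega⟩

private lemma brtr3_map_map (f g : ℕ → ℕ) (l : Lt) : (l.map f).map g = l.map (g ∘ f) := by
  cases l <;> rfl

private lemma brtr3_map_congr {f g : ℕ → ℕ} {m : ℕ} {l : Lt} (hl : l.ok m)
    (h : ∀ i < m, f i = g i) : l.map f = l.map g := by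
  cases l with
  | E i j =>
    obtain ⟨h1, h2, h3⟩ := hl
    show Lt.E _ _ = Lt.E _ _
    rw [h i h1, h j h2]
  | S i j =>
    obtain ⟨h1, h2⟩ := hl
    show Lt.S _ _ = Lt.S _ _
    rw [h i h1, h j h2]

private lemma brtr3_map_id (l : Lt) : l.map (fun x => x) = l := by
  cases l <;> rfl

private lemma brtr3_sw_ok {M i j : ℕ} (hi : i < M) (hj : j < M) {l : Lt} (hl : l.ok M) :
    (l.map (Equiv.swap i j)).ok M := by
  have h : ∀ x < M, Equiv.swap i j x < M := by
    intro x hx
    rw [Equiv.swap_apply_def]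
    split_ifs
    · exact hj
    · exact hi
    · exact hx
  cases l with
  | E c d =>
    obtain ⟨h1, h2, h3⟩ := hl
    exact ⟨h c h1, h d h2, fun h4 => h3 ((Equiv.swap i j).injective h4)⟩
  | S c d =>
    obtain ⟨h1, h2⟩ := hl
    exact ⟨h c h1, h d h2⟩

private lemma brtr3_sw_sw (i j : ℕ) (l : Lt) :
    (l.map (Equiv.swap i j)).map (Equiv.swap i j) = l := by
  rw [brtr3_map_map]
  have h : (⇑(Equiv.swap i j) ∘ ⇑(Equiv.swap i j)) = fun x => x := by
    funext x
    show Equiv.swap i j (Equiv.swap i j x) = x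
    simp only [Equiv.swap_apply_def]
    split_ifs <;> omega
  rw [h, brtr3_map_id]

/-- The permutation of `Pis a t`. -/
private def brtr3_sg (a : ℕ) : ℕ → ℕ → ℕ
  | 0 => fun x => x
  | t + 1 => fun x => brtr3_sg a t (Equiv.swap t (a + t) x)

private lemma brtr3_sg_eq (a : ℕ) : ∀ t : ℕ, t ≤ a → ∀ x : ℕ,
    brtr3_sg a t x = if x < t then a + x else if a ≤ x ∧ x < a + t then x - a else x := by
  intro t
  induction t with
  | zero =>
    intro _ x
    show x = _
    split_ifs <;> omega
  | succ t ih =>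
    intro ht x
    show brtr3_sg a t (Equiv.swap t (a + t) x) = _
    rw [ih (by omega), Equiv.swap_apply_def]
    split_ifs <;> omega

private lemma brtr3_pis_ok {a M : ℕ} : ∀ t : ℕ, t ≤ a → a + t ≤ M → Ok M (Pis a t) := by
  intro t
  induction t with
  | zero =>
    intro _ _ x hx
    exact absurd hx List.not_mem_nil
  | succ t ih =>
    intro h1 h2 x hx
    rcases List.mem_cons.1 hx with h | h
    · rw [h]
      exact ⟨by omega, by omega⟩
    · exact ih (by omega) (by omega) x h

private lemma brtr3_conj (S : TraceSys K lam n) {a M : ℕ} : ∀ t : ℕ, t ≤ a → a + t ≤ M →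
    ∀ {p v : List Lt}, Ok M p → Ok M v → ∀ {l : Lt}, l.ok M →
    S.tr M (p ++ Pis a t ++ [l.map (brtr3_sg a t)] ++ v) = S.tr M (p ++ [l] ++ Pis a t ++ v) := by
  intro t
  induction t with
  | zero =>
    intro _ _ p v _ _ l _
    show S.tr M (p ++ [] ++ [l.map (fun x => x)] ++ v) = S.tr M (p ++ [l] ++ [] ++ v)
    rw [brtr3_map_id, List.append_nil, List.append_nil]
  | succ t ih =>
    intro h1 h2 p v hp hv l hl
    have hS : Ok M [Lt.S t (a + t)] := brtr3_one ⟨by omega, by omega⟩
    have hl' := brtr3_sw_ok (i := t) (j := a + t) (M := M) (by omega) (by omega) hl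
    have e1 := ih (by omega) (by omega) (brtr3_app hp hS) hv hl'
    have hPt : Ok M (Pis a t) := brtr3_pis_ok t (by omega) (by omega)
    have e2 := cx_sl S hp (brtr3_app hPt hv) (i := t) (j := a + t) (by omega) (by omega) hl'
    rw [brtr3_sw_sw] at e2
    rw [brtr3_map_map] at e1
    have e3 : p ++ Pis a (t + 1) ++ [l.map (brtr3_sg a (t + 1))] ++ v =
        p ++ [Lt.S t (a + t)] ++ Pis a t ++
          [l.map (brtr3_sg a t ∘ ⇑(Equiv.swap t (a + t)))] ++ v := by
      show p ++ (Lt.S t (a + t) :: Pis a t) ++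
        [l.map (brtr3_sg a t ∘ ⇑(Equiv.swap t (a + t)))] ++ v = _
      simp only [List.append_assoc, List.cons_append, List.nil_append]
    have e4 : p ++ [Lt.S t (a + t)] ++ [l.map ⇑(Equiv.swap t (a + t))] ++ Pis a t ++ v =
        p ++ [Lt.S t (a + t), l.map ⇑(Equiv.swap t (a + t))] ++ (Pis a t ++ v) := by
      simp only [List.append_assoc, List.cons_append, List.nil_append]
    have e5 : p ++ [l, Lt.S t (a + t)] ++ (Pis a t ++ v) = p ++ [l] ++ Pis a (t + 1) ++ v := by
      show _ = p ++ [l] ++ (Lt.S t (a + t) :: Pis a t) ++ v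
      simp only [List.append_assoc, List.cons_append, List.nil_append]
    rw [e3, e1, e4, e2, e5]

/-- A letter on the strands `a, ..., a + m - 1` can be moved through `Pis a m`. -/
lemma pis_conj (S : TraceSys K lam n) {a m M : ℕ} (hm : m ≤ a) (hM : a + m ≤ M) {p v : List Lt}
    (hp : Ok M p) (hv : Ok M v) {l : Lt} (hl : l.ok m) :
    S.tr M (p ++ Pis a m ++ [l.map (a + ·)] ++ v) = S.tr M (p ++ [l] ++ Pis a m ++ v) := by
  rw [← brtr3_conj S m hm hM hp hv (brtr3_mono (by omega) hl)]
  have h : l.map (a + ·) = l.map (brtr3_sg a m) := by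
    refine brtr3_map_congr hl fun i hi => ?_
    rw [brtr3_sg_eq a m hm, if_pos hi]
  rw [h]

private lemma brtr3_base (S : TraceSys K lam n) {a : ℕ} {A : List Lt} (hA : Ok a A) :
    ∀ m : ℕ, m ≤ a → S.tr (a + m) (Pis a m ++ A) = S.tr a A := by
  intro m
  induction m with
  | zero =>
    intro _
    rfl
  | succ m ih =>
    intro hm
    have h1 := S.addS (a + m) m (Pis a m ++ A) (by omega)
      (brtr3_app (brtr3_pis_ok m (by omega) (by omega)) fun x hx => brtr3_mono (by omega) (hA x hx))
    exact Eq.trans h1 (ih (by omega))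

theorem unr (S : TraceSys K lam n) {a m : ℕ} (hm : m ≤ a) {A b : List Lt} (hA : Ok a A)
    (hb : Ok m b) :
    S.tr (a + m) (Pis a m ++ A ++ b.map (Lt.map (a + ·))) = S.tr a (A ++ b) := by
  induction b generalizing A with
  | nil =>
    rw [List.map_nil, List.append_nil, List.append_nil]
    exact brtr3_base S hA m hm
  | cons l b2 ih =>
    have hl : l.ok m := hb l List.mem_cons_self
    have hb2 : Ok m b2 := fun x hx => hb x (List.mem_cons_of_mem _ hx)
    have hP : Ok (a + m) (Pis a m) := brtr3_pis_ok m hm (le_refl _)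
    have hA' : Ok (a + m) A := fun x hx => brtr3_mono (by omega) (hA x hx)
    have hb2' : Ok (a + m) (b2.map (Lt.map (a + ·))) := by
      intro x hx
      obtain ⟨y, hy, rfl⟩ := List.mem_map.1 hx
      exact brtr3_shift (hb2 y hy)
    have hl' : (l.map (a + ·)).ok (a + m) := brtr3_shift hl
    have hlM : l.ok (a + m) := brtr3_mono (by omega) hl
    have hla : l.ok a := brtr3_mono hm hl
    have hnil : Ok (a + m) [] := fun x hx => absurd hx List.not_mem_nil
    -- move the shifted letter to the left of A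
    have e1 := cx_comm_word S hP hb2' hl' hA'
      (fun b hb => brtr3_disj1 (l := l) (hA b hb))
    have e2 := pis_conj S hm (le_refl (a + m)) hnil (brtr3_app hA' hb2') hl
    have e3 := S.cyc (a + m) [l] (Pis a m ++ A ++ b2.map (Lt.map (a + ·))) (brtr3_one hlM)
      (brtr3_app (brtr3_app hP hA') hb2')
    have e4 := cx_comm_word S (brtr3_app hP hA') hnil hlM hb2' (by
      intro x hx
      obtain ⟨y, hy, rfl⟩ := List.mem_map.1 hx
      exact brtr3_disj2 (l := y) hla)
    have e5 := ih (A := A ++ [l]) (brtr3_app hA (brtr3_one hla)) hb2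
    simp only [List.append_assoc, List.cons_append, List.nil_append, List.append_nil,
      List.map_cons] at e1 e2 e3 e4 e5 ⊢
    rw [← e1, e2, e3, ← e4, e5]

end ZM
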