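import Pool.Agent.H75.ZM.IsoE

/-!
# Commutations (row ZM Comm)

Proofs.  `E_E`: `((a, b), (c, d)) ↦ ((a, c), (b, d))`.  `new_E`: the linear equivalence
`(ℕ →₀ V) × (ℕ →₀ V) ≃ ℕ →₀ (V × V)` (send `(single i v, 0)` to `single i (v, 0)`, etc.; build the
two maps with `Finsupp.lsum`/`Finsupp.mapRange.linearMap` of `LinearMap.inl`, `LinearMap.inr`,
`LinearMap.fst`, `LinearMap.snd`).  `new_new`: the equivalence
`(ℕ →₀ (ℕ →₀ V)) ≃ (ℕ →₀ (ℕ →₀ V))`, `single i (single j v) ↦ single j (single i v)`.  All others: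
the identity map (check the operators at each label).  `word_new`, `word_news`, `word_rel`:
induction on the word with `Iso.wordU`, etc.
-/

namespace ZM

variable {k : Type} [Field k] {lam : k} {n : ℕ}

section commAux

variable {V W U : Type} [AddCommGroup V] [Module k V] [AddCommGroup W] [Module k W]
  [AddCommGroup U] [Module k U]

lemma comm_cw_sh (f : V →ₗ[k] W) (v : ℕ →₀ V) : cw f (sh (k := k) v) = sh (k := k) (cw f v) := by
  have h : (cw f) ∘ₗ (sh (k := k) (V := V)) = (sh (k := k) (V := W)) ∘ₗ cw f := by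
    apply Finsupp.lhom_ext; intro i v; simp
  exact LinearMap.congr_fun h v

lemma comm_cw_zero : cw (0 : Module.End k V) = 0 := by
  apply Finsupp.lhom_ext; intro i v; simp

lemma comm_cw_one : cw (1 : Module.End k V) = 1 := by
  apply Finsupp.lhom_ext; intro i v; simp

lemma comm_cw_neg (f : Module.End k V) : cw (-f) = -cw f := by
  apply Finsupp.lhom_ext; intro i v; simp

lemma comm_cw_add (f g : Module.End k V) : cw (f + g) = cw f + cw g := by
  apply Finsupp.lhom_ext; intro i v; simp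

/-- `(ℕ →₀ V) × (ℕ →₀ V) ≃ ℕ →₀ (V × V)`. -/
noncomputable def comm_pr (k V : Type) [Field k] [AddCommGroup V] [Module k V] :
    ((ℕ →₀ V) × (ℕ →₀ V)) ≃ₗ[k] (ℕ →₀ (V × V)) :=
  LinearEquiv.ofLinearMap
    ((cw (LinearMap.inl k V V)).coprod (cw (LinearMap.inr k V V)))
    ((cw (LinearMap.fst k V V)).prod (cw (LinearMap.snd k V V)))
    (by
      apply Finsupp.lhom_ext; rintro i ⟨v, w⟩
      simp [← Finsupp.single_add])
    (by
      apply LinearMap.prod_ext
      · apply Finsupp.lhom_ext; intro i v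
        simp
      · apply Finsupp.lhom_ext; intro i v
        simp)

lemma comm_pr_apply (p : (ℕ →₀ V) × (ℕ →₀ V)) :
    comm_pr k V p = cw (LinearMap.inl k V V) p.1 + cw (LinearMap.inr k V V) p.2 := rfl

lemma comm_pr_blk (A B C D : Module.End k V) (p : (ℕ →₀ V) × (ℕ →₀ V)) :
    comm_pr k V (blk (cw A) (cw B) (cw C) (cw D) p) = cw (blk A B C D) (comm_pr k V p) := by
  have h : (comm_pr k V).toLinearMap ∘ₗ (blk (cw A) (cw B) (cw C) (cw D)) =
      (cw (blk A B C D)) ∘ₗ (comm_pr k V).toLinearMap := by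
    apply LinearMap.prod_ext
    · apply Finsupp.lhom_ext; intro i v
      simp [comm_pr_apply, ← Finsupp.single_add]
    · apply Finsupp.lhom_ext; intro i v
      simp [comm_pr_apply, ← Finsupp.single_add]
  exact LinearMap.congr_fun h p

lemma comm_pr_th (A B : Module.End k V) (p : (ℕ →₀ V) × (ℕ →₀ V)) :
    comm_pr k V (thOp (cw A) (cw B) p) = cw (thOp A B) (comm_pr k V p) := by
  unfold thOp
  rw [← comm_pr_blk, comm_cw_zero, comm_cw_neg, comm_cw_one, comm_cw_add, cw_mul]

lemma comm_pr_dg (A : Module.End k V) (p : (ℕ →₀ V) × (ℕ →₀ V)) :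
    comm_pr k V (dg (cw A) p) = cw (dg A) (comm_pr k V p) := by
  rw [dg_blk, dg_blk, ← comm_pr_blk, comm_cw_zero]

lemma comm_pr_pm (A B : Module.End k V) (p : (ℕ →₀ V) × (ℕ →₀ V)) :
    comm_pr k V (pm (cw A) (cw B) p) = cw (pm A B) (comm_pr k V p) := by
  rw [pm_blk, pm_blk, ← comm_pr_blk, comm_cw_zero]

lemma comm_pr_sh (p : (ℕ →₀ V) × (ℕ →₀ V)) :
    comm_pr k V (dg (sh (k := k)) p) = sh (k := k) (comm_pr k V p) := by
  rw [comm_pr_apply, comm_pr_apply, dg_apply, map_add, comm_cw_sh, comm_cw_sh]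

lemma comm_cw_wt (f : V →ₗ[k] W) (c : k) (v : ℕ →₀ V) : cw f (wt c v) = wt c (cw f v) := by
  have h : (cw f) ∘ₗ (wt c : Module.End k (ℕ →₀ V)) = (wt c : Module.End k (ℕ →₀ W)) ∘ₗ cw f := by
    apply Finsupp.lhom_ext; intro i v; simp
  exact LinearMap.congr_fun h v

lemma comm_pr_wt (c : k) (p : (ℕ →₀ V) × (ℕ →₀ V)) :
    comm_pr k V (dg (wt c) p) = wt c (comm_pr k V p) := by
  rw [comm_pr_apply, comm_pr_apply, dg_apply, map_add, comm_cw_wt, comm_cw_wt]

/-- The exchange of the two variables. -/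
noncomputable def comm_ex (k V : Type) [Field k] [AddCommGroup V] [Module k V] :
    (ℕ →₀ (ℕ →₀ V)) →ₗ[k] (ℕ →₀ (ℕ →₀ V)) :=
  Finsupp.lsum k fun i => Finsupp.lsum k fun j => (Finsupp.lsingle j).comp (Finsupp.lsingle i)

@[simp] lemma comm_ex_single (i j : ℕ) (v : V) :
    comm_ex k V (Finsupp.single i (Finsupp.single j v)) = Finsupp.single j (Finsupp.single i v) := by
  simp [comm_ex]

lemma comm_ext2 {f g : (ℕ →₀ (ℕ →₀ V)) →ₗ[k] W}
    (h : ∀ i j v, f (Finsupp.single i (Finsupp.single j v)) =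
      g (Finsupp.single i (Finsupp.single j v))) : f = g := by
  apply Finsupp.lhom_ext'; intro i
  apply Finsupp.lhom_ext; intro j v
  exact h i j v

/-- The exchange of the two variables. -/
noncomputable def comm_exE (k V : Type) [Field k] [AddCommGroup V] [Module k V] :
    (ℕ →₀ (ℕ →₀ V)) ≃ₗ[k] (ℕ →₀ (ℕ →₀ V)) :=
  LinearEquiv.ofLinearMap (comm_ex k V) (comm_ex k V)
    (by apply comm_ext2; intro i j v; simp) (by apply comm_ext2; intro i j v; simp)

/-- The tops of `X.E i j`. -/
def comm_yE (y : ℕ → Module.End k V) (i j l : ℕ) : Module.End k (V × V) :=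
  if l = i then thOp (y i) (y j) else if l = j then dg (y i + y j) - thOp (y i) (y j) else dg (y l)

lemma comm_exE_T (c : k) (T : Module.End k V) (v : ℕ →₀ (ℕ →₀ V)) :
    comm_exE k V (wt c (cw (wt c * cw T) v)) = wt c (cw (wt c * cw T) (comm_exE k V v)) := by
  have h : (comm_ex k V) ∘ₗ (wt c : Module.End k (ℕ →₀ (ℕ →₀ V))) ∘ₗ (cw (wt c * cw T)) =
      (wt c : Module.End k (ℕ →₀ (ℕ →₀ V))) ∘ₗ (cw (wt c * cw T)) ∘ₗ (comm_ex k V) := by
    apply comm_ext2; intro i j v
    simp only [LinearMap.comp_apply, cw_single, comm_ex_single, Module.End.mul_apply, wt_single,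
      Finsupp.smul_single]
    rw [smul_comm]
  exact LinearMap.congr_fun h v

lemma comm_pr_yE (y : ℕ → Module.End k V) (i j l : ℕ) (p : (ℕ →₀ V) × (ℕ →₀ V)) :
    comm_pr k V (comm_yE (fun t => cw (y t)) i j l p) = cw (comm_yE y i j l) (comm_pr k V p) := by
  unfold comm_yE
  by_cases c1 : l = i
  · rw [if_pos c1, if_pos c1]
    exact comm_pr_th _ _ _
  · rw [if_neg c1, if_neg c1]
    by_cases c2 : l = j
    · rw [if_pos c2, if_pos c2]
      have e1 : cw (dg (y i + y j) - thOp (y i) (y j)) =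
          cw (dg (y i + y j)) - cw (thOp (y i) (y j)) := by
        rw [sub_eq_add_neg, comm_cw_add, comm_cw_neg, ← sub_eq_add_neg]
      rw [e1, LinearMap.sub_apply, map_sub, LinearMap.sub_apply, comm_pr_th, ← comm_pr_dg,
        comm_cw_add]
    · rw [if_neg c2, if_neg c2]
      exact comm_pr_dg _ _

lemma comm_thOp (p q : Module.End k V) (h : Commute p q) : thOp q p = thOp p q := by
  unfold thOp
  rw [h.eq, add_comm]

end commAux

lemma comm_id {X Y : Ob k lam n} (A : Set ℕ) (e : X.V ≃ₗ[k] Y.V)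
    (hy : ∀ l ∈ A, ∀ v, e (X.y l v) = Y.y l (e v))
    (hx : ∀ l ∈ A, ∀ v, e (X.x l v) = Y.x l (e v)) (hd : ∀ v, e (X.d v) = Y.d (e v))
    (hT : ∀ v, e (X.T v) = Y.T (e v)) : Iso A X Y := ⟨e, hy, hx, hd, hT⟩

lemma E_E (X : Ob k lam n) {i j a b : ℕ} (h1 : i ≠ a) (h2 : i ≠ b) (h3 : j ≠ a) (h4 : j ≠ b) :
    Iso Set.univ ((X.E a b).E i j) ((X.E i j).E a b) := by
  have yi : (X.E a b).y i = dg (X.y i) := by
    show X.yE a b i = _
    simp [Ob.yE, h1, h2]
  have yj : (X.E a b).y j = dg (X.y j) := by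
    show X.yE a b j = _
    simp [Ob.yE, h3, h4]
  have ya : (X.E i j).y a = dg (X.y a) := by
    show X.yE i j a = _
    simp [Ob.yE, h1.symm, h3.symm]
  have yb : (X.E i j).y b = dg (X.y b) := by
    show X.yE i j b = _
    simp [Ob.yE, h2.symm, h4.symm]
  refine ⟨LinearEquiv.prodProdProdComm k X.V X.V X.V X.V, fun l _ => ?_, fun l _ => ?_, ?_, ?_⟩
  · rintro ⟨⟨v1, v2⟩, ⟨w1, w2⟩⟩
    show _ = ((X.E i j).yE a b l) ((v1, w1), (v2, w2))
    show LinearEquiv.prodProdProdComm k X.V X.V X.V X.V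
      (((X.E a b).yE i j l) ((v1, v2), (w1, w2))) = _
    unfold Ob.yE
    rw [yi, yj, ya, yb]
    by_cases c1 : l = i
    · subst c1
      rw [if_pos rfl, if_neg h1, if_neg h2]
      have : (X.E l j).y l = thOp (X.y l) (X.y j) := by
        show X.yE l j l = _
        simp [Ob.yE]
      rw [this]
      rfl
    · by_cases c2 : l = j
      · subst c2
        rw [if_neg c1, if_pos rfl, if_neg h3, if_neg h4]
        have : (X.E i l).y l = dg (X.y i + X.y l) - thOp (X.y i) (X.y l) := by
          show X.yE i l l = _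
          simp [Ob.yE, c1]
        rw [this]
        rfl
      · rw [if_neg c1, if_neg c2]
        by_cases c3 : l = a
        · subst c3
          rw [if_pos rfl]
          have : (X.E l b).y l = thOp (X.y l) (X.y b) := by
            show X.yE l b l = _
            simp [Ob.yE]
          rw [this]
          rfl
        · by_cases c4 : l = b
          · subst c4
            rw [if_neg c3, if_pos rfl]
            have : (X.E a l).y l = dg (X.y a + X.y l) - thOp (X.y a) (X.y l) := by
              show X.yE a l l = _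
              simp [Ob.yE, c3]
            rw [this]
            rfl
          · rw [if_neg c3, if_neg c4]
            have e1 : (X.E a b).y l = dg (X.y l) := by
              show X.yE a b l = _
              simp [Ob.yE, c3, c4]
            have e2 : (X.E i j).y l = dg (X.y l) := by
              show X.yE i j l = _
              simp [Ob.yE, c1, c2]
            rw [e1, e2]
            rfl
  · rintro ⟨⟨v1, v2⟩, ⟨w1, w2⟩⟩
    rfl
  · rintro ⟨⟨v1, v2⟩, ⟨w1, w2⟩⟩
    rfl
  · rintro ⟨⟨v1, v2⟩, ⟨w1, w2⟩⟩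
    show ((lam⁻¹ • lam⁻¹ • X.T v1, lam • lam⁻¹ • X.T w1),
      (lam⁻¹ • lam • X.T v2, lam • lam • X.T w2)) =
      ((lam⁻¹ • lam⁻¹ • X.T v1, lam⁻¹ • lam • X.T w1),
      (lam • lam⁻¹ • X.T v2, lam • lam • X.T w2))
    rw [smul_comm lam lam⁻¹, smul_comm lam lam⁻¹]

lemma new_E (X : Ob k lam n) {p i j : ℕ} (h1 : p ≠ i) (h2 : p ≠ j) :
    Iso Set.univ ((X.new p).E i j) ((X.E i j).new p) := by
  refine ⟨comm_pr k X.V, fun l _ v => ?_, fun l _ v => ?_, fun v => ?_, fun v => ?_⟩
  · show comm_pr k X.V (comm_yE (fun l => nop X.V p X.y l) i j l v) =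
      nop (X.V × X.V) p (comm_yE X.y i j) l (comm_pr k X.V v)
    have e1 : nop X.V p X.y i = cw (X.y i) := by simp [nop, h1.symm]
    have e2 : nop X.V p X.y j = cw (X.y j) := by simp [nop, h2.symm]
    by_cases c0 : l = p
    · subst c0
      have e3 : nop X.V l X.y l = sh := by simp [nop]
      have e4 : nop (X.V × X.V) l (comm_yE X.y i j) l = sh := by simp [nop]
      have e5 : comm_yE (fun t => nop X.V l X.y t) i j l = dg sh := by
        unfold comm_yE
        rw [if_neg h1, if_neg h2]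
        exact congrArg dg e3
      rw [e4, e5]
      exact comm_pr_sh v
    · have e3 : nop X.V p X.y l = cw (X.y l) := by simp [nop, c0]
      have e4 : nop (X.V × X.V) p (comm_yE X.y i j) l = cw (comm_yE X.y i j l) := by
        simp [nop, c0]
      have e5 : comm_yE (fun t => nop X.V p X.y t) i j l = comm_yE (fun t => cw (X.y t)) i j l := by
        unfold comm_yE
        simp only [e1, e2, e3]
      rw [e4, e5]
      exact comm_pr_yE _ _ _ _ _
  · show comm_pr k X.V (dg (nop X.V p X.x l) v) =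
      nop (X.V × X.V) p (fun l => dg (X.x l)) l (comm_pr k X.V v)
    unfold nop
    split_ifs
    · exact comm_pr_sh v
    · exact comm_pr_dg _ v
  · exact comm_pr_dg _ v
  · show comm_pr k X.V (pm (lam⁻¹ • (wt (lam ^ 2) * cw X.T)) (lam • (wt (lam ^ 2) * cw X.T)) v) =
      wt (lam ^ 2) (cw (pm (lam⁻¹ • X.T) (lam • X.T)) (comm_pr k X.V v))
    rw [← comm_pr_pm, ← comm_pr_wt, cw_smul, cw_smul]
    congr 1
    refine Prod.ext ?_ ?_
    · show lam⁻¹ • wt (lam ^ 2) (cw X.T v.1) = wt (lam ^ 2) (lam⁻¹ • cw X.T v.1)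
      rw [map_smul]
    · show lam • wt (lam ^ 2) (cw X.T v.2) = wt (lam ^ 2) (lam • cw X.T v.2)
      rw [map_smul]

lemma new_S (X : Ob k lam n) {p i j : ℕ} (h1 : p ≠ i) (h2 : p ≠ j) :
    Iso Set.univ ((X.new p).S i j) ((X.S i j).new p) := by
  refine ⟨LinearEquiv.refl k _, fun l _ v => ?_, fun l _ v => rfl, fun v => rfl, fun v => rfl⟩
  show nop X.V p X.y (Equiv.swap i j l) v = nop X.V p (fun l => X.y (Equiv.swap i j l)) l v
  unfold nop
  have : Equiv.swap i j l = p ↔ l = p := by
    rw [Equiv.swap_apply_eq_iff, Equiv.swap_apply_of_ne_of_ne h1 h2]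
  simp only [this]

lemma new_new (X : Ob k lam n) {p q : ℕ} (h : p ≠ q) :
    Iso Set.univ ((X.new p).new q) ((X.new q).new p) := by
  have key : ∀ (A B : Module.End k (ℕ →₀ (ℕ →₀ X.V))),
      (∀ i j v, comm_ex k X.V (A (Finsupp.single i (Finsupp.single j v))) =
        B (Finsupp.single j (Finsupp.single i v))) →
      ∀ v, comm_exE k X.V (A v) = B (comm_exE k X.V v) := by
    intro A B hAB v
    have : (comm_ex k X.V) ∘ₗ A = B ∘ₗ (comm_ex k X.V) := by
      apply comm_ext2; intro i j v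
      rw [LinearMap.comp_apply, LinearMap.comp_apply, hAB, comm_ex_single]
    exact LinearMap.congr_fun this v
  have hop : ∀ (f : ℕ → Module.End k X.V) (l : ℕ) (v : ℕ →₀ (ℕ →₀ X.V)),
      comm_exE k X.V (nop (ℕ →₀ X.V) q (nop X.V p f) l v) =
        nop (ℕ →₀ X.V) p (nop X.V q f) l (comm_exE k X.V v) := by
    intro f l v
    apply key
    intro i j v
    unfold nop
    by_cases c1 : l = q
    · subst c1
      rw [if_pos rfl, if_neg (Ne.symm h), if_pos rfl]
      simp
    · by_cases c2 : l = p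
      · subst c2
        rw [if_neg h, if_pos rfl, if_pos rfl]
        simp
      · rw [if_neg c1, if_neg c2, if_neg c2, if_neg c1]
        simp
  refine ⟨comm_exE k X.V, fun l _ v => hop X.y l v, fun l _ v => hop X.x l v, fun v => ?_,
    fun v => ?_⟩
  · show comm_exE k X.V (cw (cw X.d) v) = cw (cw X.d) (comm_exE k X.V v)
    apply key
    intro i j v
    simp
  · exact comm_exE_T (lam ^ 2) X.T v

lemma app_S (X : Ob k lam n) (a : Lt) (i j : ℕ) :
    Iso Set.univ ((X.app a).S i j) ((X.S i j).app (a.map (Equiv.swap i j))) := by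
  cases a with
  | E a b =>
    refine ⟨LinearEquiv.refl k _, fun l _ v => ?_, fun l _ v => rfl, fun v => rfl, fun v => rfl⟩
    have key : comm_yE X.y a b (Equiv.swap i j l) =
        comm_yE (fun l => X.y (Equiv.swap i j l)) (Equiv.swap i j a) (Equiv.swap i j b) l := by
      unfold comm_yE
      have e2 : ∀ c, Equiv.swap i j l = c ↔ l = Equiv.swap i j c := by
        intro c
        rw [Equiv.swap_apply_eq_iff]
      simp only [e2, Equiv.swap_apply_self]
    exact LinearMap.congr_fun key v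
  | S a b =>
    refine ⟨LinearEquiv.refl k _, fun l _ v => ?_, fun l _ v => rfl, fun v => rfl, fun v => rfl⟩
    show X.y (Equiv.swap a b (Equiv.swap i j l)) v =
      X.y (Equiv.swap i j (Equiv.swap (Equiv.swap i j a) (Equiv.swap i j b) l)) v
    rw [Equiv.swap_apply_apply]
    simp [Equiv.Perm.mul_apply]

lemma S_invol (X : Ob k lam n) (i j : ℕ) : Iso Set.univ ((X.S i j).S i j) X := by
  refine ⟨LinearEquiv.refl k _, fun l _ v => ?_, fun l _ v => rfl, fun v => rfl, fun v => rfl⟩
  show X.y (Equiv.swap i j (Equiv.swap i j l)) v = X.y l v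
  rw [Equiv.swap_apply_self]

lemma S_symm (X : Ob k lam n) (i j : ℕ) : Iso Set.univ (X.S i j) (X.S j i) := by
  refine ⟨LinearEquiv.refl k _, fun l _ v => ?_, fun l _ v => rfl, fun v => rfl, fun v => rfl⟩
  show X.y (Equiv.swap i j l) v = X.y (Equiv.swap j i l) v
  rw [Equiv.swap_comm]

lemma E_S (X : Ob k lam n) {i j : ℕ} (h : i ≠ j) : Iso Set.univ ((X.S i j).E i j) (X.E i j) := by
  refine ⟨LinearEquiv.refl k _, fun l _ v => ?_, fun l _ v => rfl, fun v => rfl, fun v => rfl⟩
  have key : comm_yE (fun l => X.y (Equiv.swap i j l)) i j l = comm_yE X.y i j l := by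
    unfold comm_yE
    simp only [Equiv.swap_apply_left, Equiv.swap_apply_right]
    rw [comm_thOp (X.y i) (X.y j) (X.hyy i j), add_comm (X.y j)]
    by_cases c1 : l = i
    · rw [if_pos c1, if_pos c1]
    · rw [if_neg c1, if_neg c1]
      by_cases c2 : l = j
      · rw [if_pos c2, if_pos c2]
      · rw [if_neg c2, if_neg c2, Equiv.swap_apply_of_ne_of_ne c1 c2]
  exact LinearMap.congr_fun key v

/-- The map `(v, w) ↦ (v + s w, - w)`. -/
def comm_fl {V : Type} [AddCommGroup V] [Module k V] (s : Module.End k V) :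
    (V × V) ≃ₗ[k] (V × V) :=
  LinearEquiv.ofLinearMap (blk 1 s 0 (-1)) (blk 1 s 0 (-1))
    (by ext p <;> simp) (by ext p <;> simp)

lemma comm_fl_apply {V : Type} [AddCommGroup V] [Module k V] (s : Module.End k V) (p : V × V) :
    comm_fl s p = (p.1 + s p.2, -p.2) := by
  refine Prod.ext ?_ ?_
  · show (1 : Module.End k V) p.1 + s p.2 = _
    rfl
  · show (0 : Module.End k V) p.1 + (-1 : Module.End k V) p.2 = _
    simp

/-- The map `(v, w) ↦ (v + (y_i + y_j) w, - w)`. -/
lemma E_symm (X : Ob k lam n) {i j : ℕ} (h : i ≠ j) : Iso Set.univ (X.E i j) (X.E j i) := by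
  have hc : ∀ A : Module.End k X.V, Commute A (X.y i + X.y j) → ∀ v : X.V × X.V,
      comm_fl (X.y i + X.y j) (dg A v) = dg A (comm_fl (X.y i + X.y j) v) := by
    intro A hA v
    have := LinearMap.congr_fun hA.eq v.2
    simp only [Module.End.mul_apply] at this
    rw [comm_fl_apply, comm_fl_apply]
    refine Prod.ext ?_ ?_
    · show A v.1 + (X.y i + X.y j) (A v.2) = A (v.1 + (X.y i + X.y j) v.2)
      rw [map_add, this]
    · show -(A v.2) = A (-v.2)
      rw [map_neg]
  have hth : ∀ v : X.V × X.V, comm_fl (X.y i + X.y j) (thOp (X.y i) (X.y j) v) =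
      (dg (X.y i + X.y j) - thOp (X.y i) (X.y j)) (comm_fl (X.y i + X.y j) v) := by
    intro v
    rw [comm_fl_apply, comm_fl_apply]
    refine Prod.ext ?_ ?_
    · simp [thOp]
      abel
    · simp [thOp]
  refine ⟨comm_fl (X.y i + X.y j), fun l _ v => ?_, fun l _ v => ?_, fun v => ?_, fun v => ?_⟩
  · show comm_fl (X.y i + X.y j) (X.yE i j l v) = X.yE j i l (comm_fl (X.y i + X.y j) v)
    unfold Ob.yE
    rw [comm_thOp (X.y i) (X.y j) (X.hyy i j), add_comm (X.y j)]
    by_cases c1 : l = i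
    · subst c1
      rw [if_pos rfl, if_neg h, if_pos rfl]
      exact hth v
    · rw [if_neg c1, if_neg c1]
      by_cases c2 : l = j
      · rw [if_pos c2, if_pos c2, LinearMap.sub_apply, map_sub, hth, hc _ (Commute.refl _),
          LinearMap.sub_apply]
        abel
      · rw [if_neg c2, if_neg c2]
        exact hc _ ((X.hyy l i).add_right (X.hyy l j)) v
  · exact hc _ ((X.hxy l i).add_right (X.hxy l j)) v
  · exact hc _ ((X.hdy i).add_right (X.hdy j)) v
  · show comm_fl (X.y i + X.y j) (pm (lam⁻¹ • X.T) (lam • X.T) v) =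
      pm (lam⁻¹ • X.T) (lam • X.T) (comm_fl (X.y i + X.y j) v)
    rw [comm_fl_apply, comm_fl_apply]
    have e1 := LinearMap.congr_fun (X.hTy i) v.2
    have e2 := LinearMap.congr_fun (X.hTy j) v.2
    simp only [Module.End.mul_apply, LinearMap.smul_apply] at e1 e2
    have hl := X.ne
    have e3 : lam⁻¹ * lam ^ 2 = lam := by field_simp
    refine Prod.ext ?_ ?_
    · show lam⁻¹ • X.T v.1 + (X.y i + X.y j) (lam • X.T v.2) =
        lam⁻¹ • X.T (v.1 + (X.y i + X.y j) v.2)
      rw [map_add, LinearMap.add_apply, LinearMap.add_apply, map_add, e1, e2, smul_add, smul_add,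
        smul_smul, smul_smul, e3, map_smul, map_smul]
    · show -(lam • X.T v.2) = lam • X.T (-v.2)
      rw [map_neg, smul_neg]

lemma app_rel (X : Ob k lam n) (a : Lt) (σ ρ : ℕ → ℕ) (hσ : Function.Injective σ) :
    Iso Set.univ ((X.rel σ ρ).app a) ((X.app (a.map σ)).rel σ ρ) := by
  cases a with
  | E a b =>
    refine ⟨LinearEquiv.refl k _, fun l _ v => ?_, fun l _ v => rfl, fun v => rfl, fun v => rfl⟩
    show (X.rel σ ρ).yE a b l v = X.yE (σ a) (σ b) (σ l) v
    unfold Ob.yE
    simp only [hσ.eq_iff]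
    rfl
  | S a b =>
    refine ⟨LinearEquiv.refl k _, fun l _ v => ?_, fun l _ v => rfl, fun v => rfl, fun v => rfl⟩
    show X.y (σ (Equiv.swap a b l)) v = X.y (Equiv.swap (σ a) (σ b) (σ l)) v
    rw [hσ.swap_apply]

lemma new_rel (X : Ob k lam n) (σ : ℕ → ℕ) (hσ : Function.Injective σ) (p : ℕ) :
    Iso Set.univ ((X.rel σ σ).new p) ((X.new (σ p)).rel σ σ) := by
  refine ⟨LinearEquiv.refl k _, fun l _ v => ?_, fun l _ v => ?_, fun v => rfl, fun v => rfl⟩
  · show nop X.V p (fun l => X.y (σ l)) l v = nop X.V (σ p) X.y (σ l) v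
    unfold nop
    simp only [hσ.eq_iff]
  · show nop X.V p (fun l => X.x (σ l)) l v = nop X.V (σ p) X.x (σ l) v
    unfold nop
    simp only [hσ.eq_iff]

lemma cls_rel (X : Ob k lam n) (σ ρ : ℕ → ℕ) (L : List (ℕ × ℕ)) :
    Iso Set.univ ((X.rel σ ρ).cls L) ((X.cls (L.map fun a => (σ a.1, ρ a.2))).rel σ ρ) := by
  induction L generalizing X with
  | nil => exact Iso.refl _ _
  | cons p L ih => exact ih (X.cl (σ p.1) (ρ p.2))

lemma rel_hq (X : Ob k lam n) (σ ρ : ℕ → ℕ) : HQ (X.rel σ ρ) X :=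
  ⟨LinearEquiv.refl k X.H, fun _ => rfl⟩

lemma comm_appU {X Y : Ob k lam n} (h : Iso Set.univ X Y) (a : Lt) :
    Iso Set.univ (X.app a) (Y.app a) := Iso.wordU h [a]

lemma comm_new_app (X : Ob k lam n) {m p : ℕ} (hp : m ≤ p) {a : Lt} (ha : a.ok m) :
    Iso Set.univ ((X.new p).app a) ((X.app a).new p) := by
  cases a with
  | E i j =>
    obtain ⟨h1, h2, h3⟩ := ha
    exact new_E X (by omega) (by omega)
  | S i j =>
    obtain ⟨h1, h2⟩ := ha
    exact new_S X (by omega) (by omega)

lemma word_new (X : Ob k lam n) {m p : ℕ} (hp : m ≤ p) {w : List Lt} (hw : Ok m w) :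
    Iso Set.univ (word w (X.new p)) ((word w X).new p) := by
  induction w with
  | nil => exact Iso.refl _ _
  | cons a w ih =>
    have h1 := ih fun b hb => hw b (List.mem_cons_of_mem _ hb)
    exact (comm_appU h1 a).trans (comm_new_app _ hp (hw a (List.mem_cons_self)))

lemma word_news (X : Ob k lam n) {m : ℕ} (s : ℕ) {w : List Lt} (hw : Ok m w) :
    Iso Set.univ (word w (news X m s)) (news (word w X) m s) := by
  induction s with
  | zero => exact Iso.refl _ _
  | succ s ih =>
    refine (word_new _ (Nat.le_add_right m s) hw).trans ?_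
    exact (Iso.new ih (m + s)).mono (by simp)

lemma word_rel (X : Ob k lam n) (w : List Lt) (σ ρ : ℕ → ℕ) (hσ : Function.Injective σ) :
    Iso Set.univ (word w (X.rel σ ρ)) ((word (w.map (Lt.map σ)) X).rel σ ρ) := by
  induction w with
  | nil => exact Iso.refl _ _
  | cons a w ih => exact (comm_appU ih a).trans (app_rel _ a σ ρ hσ)

lemma comm_two (X : Ob k lam n) {m : ℕ} {a b : Lt} (ha : a.ok m) (hb : b.ok m) :
    Iso Set.univ ((X.app b).app (a.map (m + ·))) ((X.app (a.map (m + ·))).app b) := by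
  cases a with
  | E i j =>
    obtain ⟨h1, h2, h3⟩ := ha
    cases b with
    | E p q =>
      obtain ⟨h4, h5, h6⟩ := hb
      have g1 : m + i ≠ p := by omega
      have g2 : m + i ≠ q := by omega
      have g3 : m + j ≠ p := by omega
      have g4 : m + j ≠ q := by omega
      exact E_E X g1 g2 g3 g4
    | S p q =>
      obtain ⟨h4, h5⟩ := hb
      have h := app_S X (Lt.E (m + i) (m + j)) p q
      have e : (Lt.E (m + i) (m + j)).map (Equiv.swap p q) = Lt.E (m + i) (m + j) := by
        show Lt.E _ _ = _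
        rw [Equiv.swap_apply_of_ne_of_ne (by omega) (by omega),
          Equiv.swap_apply_of_ne_of_ne (by omega) (by omega)]
      rw [e] at h
      exact h.symm
  | S i j =>
    obtain ⟨h1, h2⟩ := ha
    have h := app_S X b (m + i) (m + j)
    have e : b.map (Equiv.swap (m + i) (m + j)) = b := by
      cases b with
      | E p q =>
        obtain ⟨h4, h5, h6⟩ := hb
        show Lt.E _ _ = _
        rw [Equiv.swap_apply_of_ne_of_ne (by omega) (by omega),
          Equiv.swap_apply_of_ne_of_ne (by omega) (by omega)]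
      | S p q =>
        obtain ⟨h4, h5⟩ := hb
        show Lt.S _ _ = _
        rw [Equiv.swap_apply_of_ne_of_ne (by omega) (by omega),
          Equiv.swap_apply_of_ne_of_ne (by omega) (by omega)]
    rw [e] at h
    exact h

lemma comm_app_word (X : Ob k lam n) {m : ℕ} {a : Lt} (ha : a.ok m) {v : List Lt} (hv : Ok m v) :
    Iso Set.univ ((word v X).app (a.map (m + ·))) (word v (X.app (a.map (m + ·)))) := by
  induction v with
  | nil => exact Iso.refl _ _
  | cons b v ih =>
    have h1 := ih fun c hc => hv c (List.mem_cons_of_mem _ hc)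
    exact (comm_two (word v X) ha (hv b List.mem_cons_self)).trans (comm_appU h1 b)

/-- Words with disjoint labels commute. -/
lemma word_comm (X : Ob k lam n) {m : ℕ} {u v : List Lt} (hu : Ok m u) (hv : Ok m v) :
    Iso Set.univ (word (u.map (Lt.map (m + ·)) ++ v) X)
      (word (v ++ u.map (Lt.map (m + ·))) X) := by
  have e : ∀ (s t : List Lt), word (s ++ t) X = word s (word t X) := by
    intro s t
    unfold word
    rw [List.foldr_append]
  rw [e, e]
  induction u with
  | nil => exact Iso.refl _ _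
  | cons a u ih =>
    have h1 := ih fun c hc => hu c (List.mem_cons_of_mem _ hc)
    exact (comm_appU h1 (a.map (m + ·))).trans (comm_app_word _ (hu a List.mem_cons_self) hv)

end ZM
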