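import Pool.Agent.H75.ZM.Hb

/-!
# Functoriality of the letters (row ZM IsoE)

Proofs.  `E`: the map `e × e` (it commutes with `thOp (y i) (y j)` since it commutes with `y i` and
`y j`).  `S`: the same map `e` (the swap preserves `A`).  `new`: `Finsupp.mapRange.linearEquiv e`
(check on `single`).  `word`: induction on `w`.
-/

namespace ZM

variable {k : Type} [Field k] {lam : k} {n : ℕ}

lemma isoe_yE {X Y : Ob k lam n} {f : X.V →ₗ[k] Y.V} {i j : ℕ} (l : ℕ)
    (hi : ∀ v, f (X.y i v) = Y.y i (f v)) (hj : ∀ v, f (X.y j v) = Y.y j (f v))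
    (hl : ∀ v, f (X.y l v) = Y.y l (f v)) (p : X.V × X.V) :
    f.prodMap f (X.yE i j l p) = Y.yE i j l (f.prodMap f p) := by
  obtain ⟨v, w⟩ := p
  unfold Ob.yE
  split_ifs
  · refine Prod.ext ?_ ?_ <;> simp [thOp, Module.End.mul_apply, hi, hj]
  · refine Prod.ext ?_ ?_ <;> simp [thOp, Module.End.mul_apply, hi, hj]
  · refine Prod.ext ?_ ?_ <;> simp [hl]

lemma isoe_MorE {A : Set ℕ} {X Y : Ob k lam n} {f : X.V →ₗ[k] Y.V} (h : Mor A X Y f) {i j : ℕ}
    (hi : i ∈ A) (hj : j ∈ A) : Mor A (X.E i j) (Y.E i j) (f.prodMap f) := by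
  obtain ⟨hy, hx, hd, hT⟩ := h
  refine ⟨?_, ?_, ?_, ?_⟩
  · intro l hl p
    exact isoe_yE l (hy i hi) (hy j hj) (hy l hl) p
  · rintro l hl ⟨v, w⟩
    exact Prod.ext (hx l hl v) (hx l hl w)
  · rintro ⟨v, w⟩
    exact Prod.ext (hd v) (hd w)
  · rintro ⟨v, w⟩
    refine Prod.ext ?_ ?_
    · show f (lam⁻¹ • X.T v) = lam⁻¹ • Y.T (f v)
      rw [map_smul, hT]
    · show f (lam • X.T w) = lam • Y.T (f w)
      rw [map_smul, hT]

lemma isoe_MorS {A : Set ℕ} {X Y : Ob k lam n} {f : X.V →ₗ[k] Y.V} (h : Mor A X Y f) {i j : ℕ}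
    (hi : i ∈ A) (hj : j ∈ A) : Mor A (X.S i j) (Y.S i j) f := by
  obtain ⟨hy, hx, hd, hT⟩ := h
  refine ⟨?_, hx, hd, hT⟩
  intro l hl v
  refine hy (Equiv.swap i j l) ?_ v
  rw [Equiv.swap_apply_def]
  split_ifs
  exacts [hj, hi, hl]

lemma isoe_cw_comp {V W U : Type} [AddCommGroup V] [Module k V] [AddCommGroup W] [Module k W]
    [AddCommGroup U] [Module k U] (g : W →ₗ[k] U) (f : V →ₗ[k] W) (v : ℕ →₀ V) :
    cw g (cw f v) = cw (g ∘ₗ f) v := by
  have : (cw g) ∘ₗ (cw f) = cw (g ∘ₗ f) := by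
    apply Finsupp.lhom_ext; intro i v; simp
  exact LinearMap.congr_fun this v

lemma isoe_cw_sh {V W : Type} [AddCommGroup V] [Module k V] [AddCommGroup W] [Module k W]
    (f : V →ₗ[k] W) (v : ℕ →₀ V) : cw f (sh (k := k) v) = sh (k := k) (cw f v) := by
  have : (cw f) ∘ₗ (sh (k := k) (V := V)) = (sh (k := k) (V := W)) ∘ₗ (cw f) := by
    apply Finsupp.lhom_ext; intro i v; simp
  exact LinearMap.congr_fun this v

lemma isoe_cw_wt {V W : Type} [AddCommGroup V] [Module k V] [AddCommGroup W] [Module k W]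
    (f : V →ₗ[k] W) (c : k) (v : ℕ →₀ V) : cw f (wt c v) = wt c (cw f v) := by
  have : (cw f) ∘ₗ (wt (V := V) c) = (wt (V := W) c) ∘ₗ (cw f) := by
    apply Finsupp.lhom_ext; intro i v; simp
  exact LinearMap.congr_fun this v

lemma isoe_cw_int {V W : Type} [AddCommGroup V] [Module k V] [AddCommGroup W] [Module k W]
    {f : V →ₗ[k] W} {a : Module.End k V} {b : Module.End k W} (h : ∀ v, f (a v) = b (f v))
    (v : ℕ →₀ V) : cw f (cw a v) = cw b (cw f v) := by
  rw [isoe_cw_comp, isoe_cw_comp]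
  congr 2
  apply LinearMap.ext; intro v; exact h v

/-- The equivalence on polynomials. -/
noncomputable def isoe_eqv {V W : Type} [AddCommGroup V] [Module k V] [AddCommGroup W] [Module k W]
    (e : V ≃ₗ[k] W) : (ℕ →₀ V) ≃ₗ[k] (ℕ →₀ W) :=
  LinearEquiv.ofLinearMap (cw e.toLinearMap) (cw e.symm.toLinearMap)
    (by apply Finsupp.lhom_ext; intro i v; simp) (by apply Finsupp.lhom_ext; intro i v; simp)

lemma isoe_eqv_apply {V W : Type} [AddCommGroup V] [Module k V] [AddCommGroup W] [Module k W]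
    (e : V ≃ₗ[k] W) (v : ℕ →₀ V) : isoe_eqv e v = cw e.toLinearMap v := rfl

lemma isoe_nop {V W : Type} [AddCommGroup V] [Module k V] [AddCommGroup W] [Module k W]
    {f : V →ₗ[k] W} (p : ℕ) {y : ℕ → Module.End k V} {y' : ℕ → Module.End k W} (l : ℕ)
    (h : l ≠ p → ∀ v, f (y l v) = y' l (f v)) (v : ℕ →₀ V) :
    cw f (nop V p y l v) = nop W p y' l (cw f v) := by
  unfold nop
  split_ifs with hl
  · exact isoe_cw_sh f v
  · exact isoe_cw_int (h hl) v

lemma Iso.E {A : Set ℕ} {X Y : Ob k lam n} (h : Iso A X Y) {i j : ℕ} (hi : i ∈ A) (hj : j ∈ A) :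
    Iso A (X.E i j) (Y.E i j) := by
  obtain ⟨e, h⟩ := h
  have := isoe_MorE (f := e.toLinearMap) (A := A) (X := X) (Y := Y) h hi hj
  obtain ⟨hy, hx, hd, hT⟩ := this
  exact ⟨e.prodCongr e, hy, hx, hd, hT⟩

lemma Iso.S {A : Set ℕ} {X Y : Ob k lam n} (h : Iso A X Y) {i j : ℕ} (hi : i ∈ A) (hj : j ∈ A) :
    Iso A (X.S i j) (Y.S i j) := by
  obtain ⟨e, h⟩ := h
  exact ⟨e, isoe_MorS (f := e.toLinearMap) (A := A) (X := X) (Y := Y) h hi hj⟩

lemma Iso.new {A : Set ℕ} {X Y : Ob k lam n} (h : Iso A X Y) (p : ℕ) :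
    Iso (insert p A) (X.new p) (Y.new p) := by
  obtain ⟨e, hy, hx, hd, hT⟩ := h
  refine ⟨isoe_eqv e, ?_, ?_, ?_, ?_⟩
  · intro l hl v
    exact isoe_nop (f := e.toLinearMap) p l (fun h => hy l (Set.mem_of_mem_insert_of_ne hl h)) v
  · intro l hl v
    exact isoe_nop (f := e.toLinearMap) p l (fun h => hx l (Set.mem_of_mem_insert_of_ne hl h)) v
  · intro v
    exact isoe_cw_int (f := e.toLinearMap) hd v
  · intro (v : ℕ →₀ X.V)
    exact (isoe_cw_wt e.toLinearMap (lam ^ 2) (cw X.T v)).trans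
      (congrArg (wt (lam ^ 2)) (isoe_cw_int (f := e.toLinearMap) hT v))

lemma Iso.app {A : Set ℕ} {X Y : Ob k lam n} (h : Iso A X Y) (m : ℕ) (hA : ∀ l < m, l ∈ A)
    {a : Lt} (ha : a.ok m) : Iso A (X.app a) (Y.app a) := by
  cases a with
  | E i j => exact h.E (hA i ha.1) (hA j ha.2.1)
  | S i j => exact h.S (hA i ha.1) (hA j ha.2)

lemma Iso.word {A : Set ℕ} {X Y : Ob k lam n} (h : Iso A X Y) (m : ℕ) (hA : ∀ l < m, l ∈ A)
    {w : List Lt} (hw : Ok m w) : Iso A (word w X) (word w Y) := by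
  induction w with
  | nil => exact h
  | cons a w ih =>
    exact Iso.app (ih fun b hb => hw b (List.mem_cons_of_mem _ hb)) m hA
      (hw a List.mem_cons_self)

lemma Iso.wordU {X Y : Ob k lam n} (h : Iso Set.univ X Y) (w : List Lt) :
    Iso Set.univ (ZM.word w X) (ZM.word w Y) := by
  induction w with
  | nil => exact h
  | cons a w ih =>
    cases a with
    | E i j => exact Iso.E ih (Set.mem_univ i) (Set.mem_univ j)
    | S i j => exact Iso.S ih (Set.mem_univ i) (Set.mem_univ j)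

lemma Iso.news {X Y : Ob k lam n} (h : Iso Set.univ X Y) (m s : ℕ) :
    Iso Set.univ (news X m s) (news Y m s) := by
  induction s with
  | zero => exact h
  | succ s ih => exact (ih.new (m + s)).mono (by intro l _; exact Set.mem_insert_of_mem _ trivial)

lemma Iso.rel {A B : Set ℕ} {X Y : Ob k lam n} (h : Iso A X Y) (σ ρ : ℕ → ℕ)
    (hσ : ∀ l ∈ B, σ l ∈ A) (hρ : ∀ l ∈ B, ρ l ∈ A) : Iso B (X.rel σ ρ) (Y.rel σ ρ) := by
  obtain ⟨e, hy, hx, hd, hT⟩ := h
  exact ⟨e, fun l hl => hy _ (hσ l hl), fun l hl => hx _ (hρ l hl), hd, hT⟩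

lemma Iso.scal {A : Set ℕ} {X Y : Ob k lam n} (h : Iso A X Y) (c : k) :
    Iso A (X.scal c) (Y.scal c) := by
  obtain ⟨e, hy, hx, hd, hT⟩ := h
  refine ⟨e, hy, hx, hd, fun (v : X.V) => ?_⟩
  exact (map_smul e c (X.T v)).trans (congrArg (fun z => c • z) (hT v))

lemma Iso.tp (A : Set ℕ) (X : Ob k lam n) {W : Type} [AddCommGroup W] [Module k W]
    (e : X.V ≃ₗ[k] W) : Iso A X (X.tp e) := by
  refine ⟨e, fun l _ v => ?_, fun l _ v => ?_, fun v => ?_, fun v => ?_⟩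
  · show e (X.y l v) = e.conj (X.y l) (e v)
    rw [LinearEquiv.conj_apply_apply, e.symm_apply_apply]
  · show e (X.x l v) = e.conj (X.x l) (e v)
    rw [LinearEquiv.conj_apply_apply, e.symm_apply_apply]
  · show e (X.d v) = e.conj X.d (e v)
    rw [LinearEquiv.conj_apply_apply, e.symm_apply_apply]
  · show e (X.T v) = e.conj X.T (e v)
    rw [LinearEquiv.conj_apply_apply, e.symm_apply_apply]

lemma Iso.cut (X : Ob k lam n) (m : ℕ) : Iso {l | l < m} X (X.cut m) := by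
  refine ⟨LinearEquiv.refl k X.V, fun l hl v => ?_, fun l hl v => ?_, fun _ => rfl, fun _ => rfl⟩
  · have h1 : (if l < m then X.y l else 0) = X.y l := if_pos hl
    exact (LinearMap.congr_fun h1 v).symm
  · have h1 : (if l < m then X.x l else 0) = X.x l := if_pos hl
    exact (LinearMap.congr_fun h1 v).symm

/-- The letters preserve contractions by `y t - x q` when they do not touch the top `t`. -/
lemma Con.app {X Y : Ob k lam n} {t q : ℕ} {f : X.V →ₗ[k] Y.V} (h : Con X Y t q f) {a : Lt}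
    (ha : match a with
      | .E i j => i ≠ t ∧ j ≠ t
      | .S i j => i ≠ t ∧ j ≠ t) : ∃ f', Con (X.app a) (Y.app a) t q f' := by
  obtain ⟨hm, hs, h0, hk, hi⟩ := h
  cases a with
  | S i j =>
    have ht : Equiv.swap i j t = t := Equiv.swap_apply_of_ne_of_ne (Ne.symm ha.1) (Ne.symm ha.2)
    refine ⟨f, isoe_MorS hm (Set.mem_univ i) (Set.mem_univ j), hs, ?_, ?_, ?_⟩
    · intro v
      show f (X.y (Equiv.swap i j t) v - X.x q v) = 0
      rw [ht]; exact h0 v
    · intro v hv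
      obtain ⟨w, hw⟩ := hk v hv
      refine ⟨w, ?_⟩
      show X.y (Equiv.swap i j t) w - X.x q w = v
      rw [ht]; exact hw
    · intro v hv
      have hv' : X.y (Equiv.swap i j t) v - X.x q v = 0 := hv
      rw [ht] at hv'
      exact hi v hv'
  | E i j =>
    have hy : X.yE i j t = dg (X.y t) := by
      unfold Ob.yE
      rw [if_neg (Ne.symm ha.1), if_neg (Ne.symm ha.2)]
    refine ⟨f.prodMap f, isoe_MorE hm (Set.mem_univ i) (Set.mem_univ j), ?_, ?_, ?_, ?_⟩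
    · rintro ⟨v, w⟩
      obtain ⟨v', rfl⟩ := hs v
      obtain ⟨w', rfl⟩ := hs w
      exact ⟨(v', w'), rfl⟩
    · rintro ⟨v, w⟩
      show (f.prodMap f) (X.yE i j t (v, w) - dg (X.x q) (v, w)) = 0
      rw [hy]
      exact Prod.ext (h0 v) (h0 w)
    · rintro ⟨v, w⟩ hp
      obtain ⟨v', hv'⟩ := hk v (congrArg Prod.fst hp)
      obtain ⟨w', hw'⟩ := hk w (congrArg Prod.snd hp)
      refine ⟨(v', w'), ?_⟩
      show X.yE i j t (v', w') - dg (X.x q) (v', w') = (v, w)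
      rw [hy]
      exact Prod.ext hv' hw'
    · rintro ⟨v, w⟩ hp
      have hp' : X.yE i j t (v, w) - dg (X.x q) (v, w) = 0 := hp
      rw [hy] at hp'
      exact Prod.ext (hi v (congrArg Prod.fst hp')) (hi w (congrArg Prod.snd hp'))

lemma Con.word {X Y : Ob k lam n} {t q : ℕ} {f : X.V →ₗ[k] Y.V} (h : Con X Y t q f)
    {w : List Lt} (hw : ∀ a ∈ w, match a with
      | .E i j => i ≠ t ∧ j ≠ t
      | .S i j => i ≠ t ∧ j ≠ t) : ∃ f', Con (ZM.word w X) (ZM.word w Y) t q f' := by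
  induction w with
  | nil => exact ⟨f, h⟩
  | cons a w ih =>
    obtain ⟨f', hf'⟩ := ih fun b hb => hw b (List.mem_cons_of_mem _ hb)
    exact hf'.app (hw a List.mem_cons_self)

end ZM
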