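import Pool.Agent.H75.ZM.Hb

/-!
# Calculus of polynomials with coefficients in a space (row ZM PolL)

`ℕ →₀ V` are the polynomials `V[u]`; `sh` multiplication by `u`, `cw f` coefficientwise `f`,
`Cc` constants, `ev a` evaluation at the operator `a`, `Dq a f = (f - f(a)) / (u - a)`, `wt c`
weights, `dr r` drops the coefficients below `r` and shifts down.  All statements are proved by
linearity from `single i v` (use `Finsupp.induction_linear` or `Finsupp.lhom_ext'`-style
extensionality of linear maps).
-/

namespace ZM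

variable {k : Type} [Field k] {lam : k} {n : ℕ} {V W : Type} [AddCommGroup V] [Module k V]
  [AddCommGroup W] [Module k W]

lemma cw_cw (f g : Module.End k V) (p : ℕ →₀ V) : cw f (cw g p) = cw (f * g) p :=
  LinearMap.congr_fun (cw_mul f g) p

lemma cw_coeff (f : V →ₗ[k] W) (p : ℕ →₀ V) (i : ℕ) : cw f p i = f (p i) := by
  induction p using Finsupp.induction_linear with
  | zero => simp
  | add p q hp hq => rw [map_add, Finsupp.add_apply, hp, hq, Finsupp.add_apply, map_add]
  | single j v =>
    rw [cw_single, Finsupp.single_apply, Finsupp.single_apply]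
    split_ifs
    · rfl
    · rw [map_zero]

lemma sh_coeff (p : ℕ →₀ V) (i : ℕ) :
    sh (k := k) p i = if i = 0 then 0 else p (i - 1) := by
  induction p using Finsupp.induction_linear with
  | zero => simp
  | add p q hp hq =>
    rw [map_add, Finsupp.add_apply, hp, hq, Finsupp.add_apply]
    split_ifs
    · rw [add_zero]
    · rfl
  | single j v =>
    rw [sh_single, Finsupp.single_apply, Finsupp.single_apply]
    by_cases h : i = 0
    · rw [if_pos h, if_neg (by omega)]
    · rw [if_neg h]
      by_cases h2 : j + 1 = i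
      · rw [if_pos h2, if_pos (by omega)]
      · rw [if_neg h2, if_neg (by omega)]

lemma shp_coeff (r : ℕ) (p : ℕ →₀ V) (i : ℕ) :
    ((sh (k := k)) ^ r) p i = if r ≤ i then p (i - r) else 0 := by
  induction r generalizing i with
  | zero => simp
  | succ r ih =>
    rw [pow_succ', Module.End.mul_apply, sh_coeff, ih]
    by_cases h : i = 0
    · rw [if_pos h, if_neg (by omega)]
    · rw [if_neg h]
      by_cases h2 : r ≤ i - 1
      · rw [if_pos h2, if_pos (by omega), show i - 1 - r = i - (r + 1) by omega]
      · rw [if_neg h2, if_neg (by omega)]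

lemma wt_coeff (c : k) (p : ℕ →₀ V) (i : ℕ) : wt c p i = c ^ i • p i := by
  induction p using Finsupp.induction_linear with
  | zero => simp
  | add p q hp hq => rw [map_add, Finsupp.add_apply, hp, hq, Finsupp.add_apply, smul_add]
  | single j v =>
    rw [wt_single, Finsupp.single_apply, Finsupp.single_apply]
    split_ifs with h
    · rw [h]
    · rw [smul_zero]

lemma cw_Cc (f : V →ₗ[k] W) (v : V) : cw f (Cc (k := k) v) = Cc (k := k) (f v) := by
  simp

lemma wt_Cc (c : k) (v : V) : wt c (Cc (k := k) v) = Cc (k := k) v := by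
  simp

lemma ev_Cc (a : Module.End k V) (v : V) : ev a (Cc (k := k) v) = v := by
  simp

lemma ev_sh (a : Module.End k V) (p : ℕ →₀ V) : ev a (sh (k := k) p) = a (ev a p) := by
  induction p using Finsupp.induction_linear with
  | zero => simp
  | add p q hp hq => rw [map_add, map_add, hp, hq, map_add, map_add]
  | single j v => rw [sh_single, ev_single, ev_single, pow_succ', Module.End.mul_apply]

lemma poll_pow {a b : Module.End k V} {f : V →ₗ[k] V} (h : ∀ v, f (a v) = b (f v)) (i : ℕ)
    (v : V) : (b ^ i) (f v) = f ((a ^ i) v) := by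
  induction i with
  | zero => simp
  | succ i ih =>
    rw [pow_succ', Module.End.mul_apply, ih, ← h, pow_succ', Module.End.mul_apply]

lemma ev_cw {a b : Module.End k V} {f : V →ₗ[k] V} (h : ∀ v, f (a v) = b (f v)) (p : ℕ →₀ V) :
    ev b (cw f p) = f (ev a p) := by
  induction p using Finsupp.induction_linear with
  | zero => simp
  | add p q hp hq => rw [map_add, map_add, hp, hq, map_add, map_add]
  | single j v => rw [cw_single, ev_single, ev_single, poll_pow h]

lemma ev_surj (a : Module.End k V) : Function.Surjective (ev (k := k) a) :=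
  fun v => ⟨Cc (k := k) v, ev_Cc a v⟩

lemma Dq_Cc (a : Module.End k V) (v : V) : Dq a (Cc (k := k) v) = 0 := by
  rw [Cc_apply, Dq_single, Finset.range_zero, Finset.sum_empty]

lemma Dq_sh (a : Module.End k V) (p : ℕ →₀ V) :
    Dq a (sh (k := k) p) = sh (k := k) (Dq a p) + Cc (k := k) (ev a p) := by
  induction p using Finsupp.induction_linear with
  | zero => simp
  | add p q hp hq =>
    rw [map_add, map_add, hp, hq, map_add, map_add, map_add, map_add]
    abel
  | single i v =>
    rw [sh_single, Dq_single, Dq_single, ev_single, Cc_apply, map_sum, Finset.sum_range_succ']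
    refine congrArg₂ (fun x y => x + y) (Finset.sum_congr rfl fun j _ => ?_) ?_
    · rw [sh_single, show i + 1 - 1 - (j + 1) = i - 1 - j by omega]
    · rw [show i + 1 - 1 - 0 = i by omega]

lemma Dq_cw {a b : Module.End k V} {f : V →ₗ[k] V} (h : ∀ v, f (a v) = b (f v)) (p : ℕ →₀ V) :
    Dq b (cw f p) = cw f (Dq a p) := by
  induction p using Finsupp.induction_linear with
  | zero => simp
  | add p q hp hq => rw [map_add, map_add, hp, hq, map_add, map_add]
  | single i v =>
    rw [cw_single, Dq_single, Dq_single, map_sum]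
    refine Finset.sum_congr rfl fun j _ => ?_
    rw [cw_single, poll_pow h]

/-- `(u - a) Dq a p = p - p(a)`. -/
lemma sh_Dq (a : Module.End k V) (p : ℕ →₀ V) :
    sh (k := k) (Dq a p) - cw a (Dq a p) = p - Cc (k := k) (ev a p) := by
  induction p using Finsupp.induction_linear with
  | zero => simp
  | add p q hp hq =>
    rw [map_add, map_add, map_add, map_add, map_add]
    have h : sh (k := k) (Dq a p) + sh (k := k) (Dq a q) - (cw a (Dq a p) + cw a (Dq a q)) =
        (sh (k := k) (Dq a p) - cw a (Dq a p)) + (sh (k := k) (Dq a q) - cw a (Dq a q)) := by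
      abel
    rw [h, hp, hq]
    abel
  | single i v =>
    rw [Dq_single, map_sum, map_sum, ← Finset.sum_sub_distrib, ev_single, Cc_apply]
    have h := Finset.sum_range_sub (fun j => Finsupp.single j ((a ^ (i - j)) v)) i
    rw [Nat.sub_self, Nat.sub_zero, pow_zero, Module.End.one_apply] at h
    rw [← h]
    refine Finset.sum_congr rfl fun j hj => ?_
    have hj' := Finset.mem_range.1 hj
    have h2 : a ((a ^ (i - 1 - j)) v) = (a ^ (i - j)) v := by
      rw [show i - j = (i - 1 - j) + 1 by omega, pow_succ', Module.End.mul_apply]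
    rw [sh_single, cw_single, h2, show i - (j + 1) = i - 1 - j by omega]

/-- `Dq a ((u - a) p) = p`. -/
lemma Dq_sub (a : Module.End k V) (p : ℕ →₀ V) : Dq a (sh (k := k) p - cw a p) = p := by
  rw [map_sub, Dq_sh, Dq_cw (a := a) (b := a) (f := a) (fun _ => rfl)]
  have h := sh_Dq a p
  have h2 : sh (k := k) (Dq a p) + Cc (k := k) (ev a p) - cw a (Dq a p) =
      (sh (k := k) (Dq a p) - cw a (Dq a p)) + Cc (k := k) (ev a p) := by
    abel
  rw [h2, h, sub_add_cancel]

lemma ev_sub (a : Module.End k V) (p : ℕ →₀ V) : ev a (sh (k := k) p - cw a p) = 0 := by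
  rw [map_sub, ev_sh, ev_cw (a := a) (b := a) (f := a) (fun _ => rfl), sub_self]

lemma poll_dr_single (r i : ℕ) (v : V) :
    dr (k := k) r (Finsupp.single i v) = if r ≤ i then Finsupp.single (i - r) v else 0 := by
  unfold dr
  rw [Finsupp.lsum_single]
  split_ifs
  · rfl
  · rfl

lemma poll_shp_single (r i : ℕ) (v : V) :
    ((sh (k := k)) ^ r) (Finsupp.single i v) = Finsupp.single (i + r) v := by
  induction r with
  | zero => simp
  | succ r ih =>
    rw [pow_succ', Module.End.mul_apply, ih, sh_single, add_assoc]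

lemma dr_shp (r : ℕ) (p : ℕ →₀ V) : dr (k := k) r (((sh (k := k)) ^ r) p) = p := by
  induction p using Finsupp.induction_linear with
  | zero => simp
  | add p q hp hq => rw [map_add, map_add, hp, hq]
  | single i v =>
    rw [poll_shp_single, poll_dr_single, if_pos (by omega), Nat.add_sub_cancel]

lemma poll_dr_coeff (r : ℕ) (p : ℕ →₀ V) (i : ℕ) : dr (k := k) r p i = p (i + r) := by
  induction p using Finsupp.induction_linear with
  | zero => simp
  | add p q hp hq => rw [map_add, Finsupp.add_apply, hp, hq, Finsupp.add_apply]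
  | single j v =>
    rw [poll_dr_single, Finsupp.single_apply]
    by_cases h : r ≤ j
    · rw [if_pos h, Finsupp.single_apply]
      by_cases h2 : j = i + r
      · rw [if_pos h2, if_pos (by omega)]
      · rw [if_neg h2, if_neg (by omega)]
    · rw [if_neg h, if_neg (by omega), Finsupp.zero_apply]

lemma shp_dr (r : ℕ) (p : ℕ →₀ V) (h : ∀ i < r, p i = 0) :
    ((sh (k := k)) ^ r) (dr (k := k) r p) = p := by
  ext i
  rw [shp_coeff, poll_dr_coeff]
  split_ifs with h1
  · rw [Nat.sub_add_cancel h1]
  · rw [h i (by omega)]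

lemma dr_cw (r : ℕ) (f : V →ₗ[k] W) (p : ℕ →₀ V) :
    dr (k := k) r (cw f p) = cw f (dr (k := k) r p) := by
  ext i
  rw [poll_dr_coeff, cw_coeff, cw_coeff, poll_dr_coeff]

lemma wt_sh' (c : k) (p : ℕ →₀ V) : wt c (sh (k := k) p) = c • sh (k := k) (wt c p) :=
  LinearMap.congr_fun (wt_sh c) p

lemma wt_cw' (c : k) (f : V →ₗ[k] W) (p : ℕ →₀ V) : wt c (cw f p) = cw f (wt c p) := by
  ext i
  rw [wt_coeff, cw_coeff, cw_coeff, wt_coeff, map_smul]

lemma poll_T {a T : Module.End k V} {c : k} (h : T * a = c • (a * T)) (i : ℕ) (v : V) :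
    T ((a ^ i) v) = c ^ i • (a ^ i) (T v) := by
  induction i with
  | zero => simp
  | succ i ih =>
    have h1 := LinearMap.congr_fun h ((a ^ i) v)
    have h2 : T (a ((a ^ i) v)) = c • a (T ((a ^ i) v)) := h1
    rw [pow_succ' a, Module.End.mul_apply, Module.End.mul_apply, h2, ih, map_smul, smul_smul,
      pow_succ' c]

/-- If `T a = c a T`, then `T` coefficientwise with weights `c ^ i` is compatible with evaluation
at `a`. -/
lemma ev_wt {a T : Module.End k V} {c : k} (h : T * a = c • (a * T)) (p : ℕ →₀ V) :
    ev a (wt c (cw T p)) = T (ev a p) := by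
  induction p using Finsupp.induction_linear with
  | zero => simp
  | add p q hp hq => rw [map_add, map_add, map_add, hp, hq, map_add, map_add]
  | single i v => rw [cw_single, wt_single, ev_single, ev_single, map_smul, poll_T h]

lemma Dq_wt {a T : Module.End k V} {c : k} (h : T * a = c • (a * T)) (p : ℕ →₀ V) :
    Dq a (wt c (cw T p)) = c • wt c (cw T (Dq a p)) := by
  induction p using Finsupp.induction_linear with
  | zero => simp
  | add p q hp hq =>
    rw [map_add, map_add, map_add, hp, hq, map_add, map_add, map_add, smul_add]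
  | single i v =>
    rw [cw_single, wt_single, Dq_single, Dq_single, map_sum, map_sum, Finset.smul_sum]
    refine Finset.sum_congr rfl fun j hj => ?_
    have hj' := Finset.mem_range.1 hj
    rw [cw_single, wt_single, Finsupp.smul_single, poll_T h, map_smul, smul_smul, smul_smul,
      ← pow_succ', ← pow_add, show j + 1 + (i - 1 - j) = i by omega]

/-- The coefficients of `(u ^ n v - a ^ n v) / (u - a)`. -/
lemma Dq_shp_Cc (a : Module.End k V) (r : ℕ) (v : V) (i : ℕ) :
    Dq a (((sh (k := k)) ^ r) (Cc (k := k) v)) i = if i < r then (a ^ (r - 1 - i)) v else 0 := by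
  rw [Cc_apply, poll_shp_single, zero_add, Dq_single, Finsupp.finset_sum_apply]
  simp only [Finsupp.single_apply]
  rw [Finset.sum_ite_eq']
  by_cases h : i < r
  · rw [if_pos h, if_pos (Finset.mem_range.2 h)]
  · rw [if_neg h, if_neg fun h2 => h (Finset.mem_range.1 h2)]

/-- The coefficients of the second difference quotient of `u ^ r v`. -/
lemma Dq_Dq_shp_Cc {a b : Module.End k V} (hab : Commute a b) (r : ℕ) (v : V) (i : ℕ) :
    Dq b (Dq a (((sh (k := k)) ^ r) (Cc (k := k) v))) i =
      if i + 2 ≤ r then hn (r - 2 - i) a b v else 0 := by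
  rw [Cc_apply, poll_shp_single, zero_add, Dq_single, map_sum, Finsupp.finset_sum_apply]
  have h1 : ∀ j, Dq b (Finsupp.single j ((a ^ (r - 1 - j)) v)) i =
      if i < j then (b ^ (j - 1 - i)) ((a ^ (r - 1 - j)) v) else 0 := by
    intro j
    have h2 := Dq_shp_Cc b j ((a ^ (r - 1 - j)) v) i
    rw [Cc_apply, poll_shp_single, zero_add] at h2
    exact h2
  rw [Finset.sum_congr rfl fun j _ => h1 j, ← Finset.sum_filter]
  by_cases h : i + 2 ≤ r
  · rw [if_pos h]
    unfold hn
    rw [LinearMap.sum_apply]
    refine Finset.sum_nbij' (fun j => r - 1 - j) (fun m => r - 1 - m) ?_ ?_ ?_ ?_ ?_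
    · intro j hj
      rw [Finset.mem_filter, Finset.mem_range] at hj
      rw [Finset.mem_range]
      omega
    · intro m hm
      rw [Finset.mem_range] at hm
      rw [Finset.mem_filter, Finset.mem_range]
      omega
    · intro j hj
      rw [Finset.mem_filter, Finset.mem_range] at hj
      omega
    · intro m hm
      rw [Finset.mem_range] at hm
      omega
    · intro j hj
      rw [Finset.mem_filter, Finset.mem_range] at hj
      have h3 : (b ^ (j - 1 - i)) * (a ^ (r - 1 - j)) = (a ^ (r - 1 - j)) * (b ^ (j - 1 - i)) :=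
        (hab.pow_pow (r - 1 - j) (j - 1 - i)).eq.symm
      rw [show r - 2 - i - (r - 1 - j) = j - 1 - i by omega, ← h3, Module.End.mul_apply]
  · rw [if_neg h]
    refine Finset.sum_eq_zero fun j hj => ?_
    rw [Finset.mem_filter, Finset.mem_range] at hj
    omega

end ZM
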