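import Pool.Agent.H75.ZM.Surj
import Pool.Agent.H75.ZM.PolL
import Pool.Agent.H75.ZM.IsoE

/-!
# Contraction of a closing (row ZM ConL)

Proofs.  `con_he`: let `b = X.y t - X.x q` and let `g` be a left inverse of the injective map `b`
(`LinearMap.exists_leftInverse_of_injective`).  The map `F (v, w) = f v` from `X.cl t q` to `Y` is a
surjective morphism (`f (b w) = 0`).  Its kernel is `{(v, w) | f v = 0}`, and it is contractible
with `h (v, w) = (0, g v)`: if `v = b u` then `g v = u`, `d' h (v, w) = (b g v, - d g v) = (v, - d u)`,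
`h d' (v, w) = (0, g (d v + b w)) = (0, d u + w)` since `d b = b d`, sum `(v, w)`; `h` commutes with
the operators on the kernel since they commute with `b`.  So `he_surj` applies with
`Relation.ReflTransGen.single`; flatness by `Mor.flat` for `F`.
`con_new`: `ev (X.y t) : X.new q → X.upd1 q t`; here `b = cw (X.y t) - sh` (`q ≠ t`), its kernel
is zero and its range is the kernel of `ev` by `Dq_sub`, `sh_Dq`, `ev_sub`.  `con_S`: the same
map `ev (X.y j)` from `(X.new p).S j p` to `X`, with `t = q = p`: `y p` of `(X.new p).S j p` is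
`cw (X.y j)`, `x p = sh`; but the label `p` is not preserved, so the target is
`X.upd1 p p'`-like; therefore the statement `con_S` is for closings with labels `≠ p`.
-/

namespace ZM

variable {k : Type} [Field k] {lam : k} {n : ℕ}

private lemma conl_mor {X Y : Ob k lam n} {t q : ℕ} {f : X.V →ₗ[k] Y.V} (h : Con X Y t q f) :
    Mor Set.univ (X.cl t q) Y (f ∘ₗ LinearMap.fst k X.V X.V) := by
  obtain ⟨⟨hy, hx, hd, hT⟩, hs, h0, h1, h2⟩ := h
  refine ⟨?_, ?_, ?_, ?_⟩
  · rintro l hl ⟨v, w⟩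
    exact hy l hl v
  · rintro l hl ⟨v, w⟩
    exact hx l hl v
  · rintro ⟨v, w⟩
    show f (X.d v + (X.y t w - X.x q w)) = Y.d (f v)
    rw [map_add, h0, add_zero, hd]
  · rintro ⟨v, w⟩
    exact hT v

theorem con_he {X Y : Ob k lam n} {t q : ℕ} {f : X.V →ₗ[k] Y.V} (h : Con X Y t q f)
    {L : List (ℕ × ℕ)} (hfl : Flat X ((t, q) :: L)) : HE (X.cl t q) Y L ∧ Flat Y L := by
  have hm := conl_mor h
  obtain ⟨-, hs, h0, h1, h2⟩ := h
  have hs' : Function.Surjective (f ∘ₗ LinearMap.fst k X.V X.V) := by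
    intro y
    obtain ⟨v, rfl⟩ := hs y
    exact ⟨(v, 0), rfl⟩
  have hL : ∀ a ∈ L, a.1 ∈ (Set.univ : Set ℕ) ∧ a.2 ∈ (Set.univ : Set ℕ) :=
    fun a _ => ⟨Set.mem_univ _, Set.mem_univ _⟩
  have hfl' : Flat (X.cl t q) L := hfl
  refine ⟨?_, hm.flat hs' hL hfl'⟩
  have hb : LinearMap.ker (X.y t - X.x q) = ⊥ := by
    rw [LinearMap.ker_eq_bot']
    intro v hv
    exact h2 v hv
  obtain ⟨g, hg⟩ := (X.y t - X.x q).exists_leftInverse_of_injective hb
  have hg' : ∀ u, g (X.y t u - X.x q u) = u := fun u => LinearMap.congr_fun hg u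
  have hyb : ∀ l u, X.y l (X.y t u - X.x q u) = X.y t (X.y l u) - X.x q (X.y l u) := by
    intro l u
    have e1 := LinearMap.congr_fun (X.hyy l t).eq u
    have e2 := LinearMap.congr_fun (X.hxy q l).eq u
    simp only [Module.End.mul_apply] at e1 e2
    rw [map_sub, e1, e2]
  have hxb : ∀ l u, X.x l (X.y t u - X.x q u) = X.y t (X.x l u) - X.x q (X.x l u) := by
    intro l u
    have e1 := LinearMap.congr_fun (X.hxy l t).eq u
    have e2 := LinearMap.congr_fun (X.hxx l q).eq u
    simp only [Module.End.mul_apply] at e1 e2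
    rw [map_sub, e1, e2]
  have hdb : ∀ u, X.d (X.y t u - X.x q u) = X.y t (X.d u) - X.x q (X.d u) := by
    intro u
    have e1 := LinearMap.congr_fun (X.hdy t).eq u
    have e2 := LinearMap.congr_fun (X.hdx q).eq u
    simp only [Module.End.mul_apply] at e1 e2
    rw [map_sub, e1, e2]
  refine he_surj (A := Set.univ) _ hm hs' ?_ hL hfl'
  refine Relation.ReflTransGen.single ⟨bot_le, ?_, ?_, blk 0 0 g 0, ?_, ?_, ?_, ?_, ?_⟩
  · refine ⟨fun l _ v hv => ?_, fun l _ v hv => ?_, fun v hv => ?_⟩ <;>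
      rw [Submodule.mem_bot] at hv ⊢ <;> rw [hv, map_zero]
  · refine ⟨fun l hl v hv => ?_, fun l hl v hv => ?_, fun v hv => ?_⟩ <;>
      rw [LinearMap.mem_ker] at hv ⊢
    · rw [hm.1 l hl, hv, map_zero]
    · rw [hm.2.1 l hl, hv, map_zero]
    · rw [hm.2.2.1, hv, map_zero]
  · rintro ⟨v, w⟩ hv
    rw [LinearMap.mem_ker] at hv ⊢
    show f (0 + 0) = 0
    rw [add_zero, map_zero]
  · intro v hv
    rw [Submodule.mem_bot] at hv ⊢
    rw [hv, map_zero]
  · rintro ⟨v, w⟩ hv
    obtain ⟨u, rfl⟩ := h1 v hv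
    rw [Submodule.mem_bot, sub_eq_zero]
    refine Prod.ext ?_ ?_
    · show (X.d (0 + 0) + (X.y t (g (X.y t u - X.x q u) + 0) - X.x q (g (X.y t u - X.x q u) + 0)))
        + (0 + 0) = X.y t u - X.x q u
      simp only [add_zero, hg', map_zero, zero_add]
    · show (hn n (X.y t) (X.x q) (0 + 0) + -X.d (g (X.y t u - X.x q u) + 0))
        + (g (X.d (X.y t u - X.x q u) + (X.y t w - X.x q w)) + 0) = w
      simp only [add_zero, hg', map_zero, zero_add, hdb, map_add]
      abel
  · rintro l - ⟨v, w⟩ hv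
    obtain ⟨u, rfl⟩ := h1 v hv
    rw [Submodule.mem_bot, sub_eq_zero]
    refine Prod.ext ?_ ?_
    · show (0 : X.V) + 0 = X.y l (0 + 0)
      simp only [add_zero, map_zero]
    · show g (X.y l (X.y t u - X.x q u)) + 0 = X.y l (g (X.y t u - X.x q u) + 0)
      simp only [add_zero, hg', hyb]
  · rintro l - ⟨v, w⟩ hv
    obtain ⟨u, rfl⟩ := h1 v hv
    rw [Submodule.mem_bot, sub_eq_zero]
    refine Prod.ext ?_ ?_
    · show (0 : X.V) + 0 = X.x l (0 + 0)
      simp only [add_zero, map_zero]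
    · show g (X.x l (X.y t u - X.x q u)) + 0 = X.x l (g (X.y t u - X.x q u) + 0)
      simp only [add_zero, hg', hxb]

private lemma conl_ev_y (X : Ob k lam n) (t l : ℕ) (v : ℕ →₀ X.V) :
    ev (X.y t) (cw (X.y l) v) = X.y l (ev (X.y t) v) :=
  ev_cw (fun u => LinearMap.congr_fun (X.hyy l t).eq u) v

private lemma conl_ev_x (X : Ob k lam n) (t l : ℕ) (v : ℕ →₀ X.V) :
    ev (X.y t) (cw (X.x l) v) = X.x l (ev (X.y t) v) :=
  ev_cw (fun u => LinearMap.congr_fun (X.hxy l t).eq u) v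

private lemma conl_ev_d (X : Ob k lam n) (t : ℕ) (v : ℕ →₀ X.V) :
    ev (X.y t) (cw X.d v) = X.d (ev (X.y t) v) :=
  ev_cw (fun u => LinearMap.congr_fun (X.hdy t).eq u) v

private lemma conl_ev_T (X : Ob k lam n) (t : ℕ) (v : ℕ →₀ X.V) :
    ev (X.y t) ((wt (lam ^ 2) * cw X.T : Module.End k (ℕ →₀ X.V)) v) = X.T (ev (X.y t) v) :=
  ev_wt (X.hTy t) v

private lemma conl_zero (X : Ob k lam n) (t : ℕ) (v : ℕ →₀ X.V) :
    ev (X.y t) (cw (X.y t) v - sh (k := k) v) = 0 := by
  have h := ev_sub (X.y t) v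
  rw [map_sub] at h ⊢
  rw [← neg_sub, h, neg_zero]

private lemma conl_range (X : Ob k lam n) (t : ℕ) (v : ℕ →₀ X.V) (hv : ev (X.y t) v = 0) :
    ∃ w : ℕ →₀ X.V, cw (X.y t) w - sh (k := k) w = v := by
  refine ⟨-Dq (X.y t) v, ?_⟩
  have h := sh_Dq (X.y t) v
  rw [hv, map_zero, sub_zero] at h
  rw [map_neg, map_neg, neg_sub_neg, h]

private lemma conl_inj (X : Ob k lam n) (t : ℕ) (v : ℕ →₀ X.V)
    (hv : cw (X.y t) v - sh (k := k) v = 0) : v = 0 := by
  have h := Dq_sub (X.y t) v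
  rw [← neg_sub, hv, neg_zero, map_zero] at h
  exact h.symm

theorem con_new (X : Ob k lam n) {q t : ℕ} (h : q ≠ t) :
    Con (X.new q) (X.upd1 q t) t q (ev (X.y t)) := by
  have e1 : (X.new q).y t = cw (X.y t) := if_neg (Ne.symm h)
  have e2 : (X.new q).x q = sh := if_pos rfl
  refine ⟨⟨?_, ?_, conl_ev_d X t, conl_ev_T X t⟩, ev_surj (X.y t), ?_, ?_, ?_⟩
  · intro l _ v
    show ev (X.y t) (nop X.V q X.y l v) = (if l = q then X.y t else X.y l) (ev (X.y t) v)
    unfold nop
    split_ifs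
    · exact ev_sh _ _
    · exact conl_ev_y X t l v
  · intro l _ v
    show ev (X.y t) (nop X.V q X.x l v) = (if l = q then X.y t else X.x l) (ev (X.y t) v)
    unfold nop
    split_ifs
    · exact ev_sh _ _
    · exact conl_ev_x X t l v
  · intro v
    rw [e1, e2]
    exact conl_zero X t v
  · intro v hv
    rw [e1, e2]
    exact conl_range X t v hv
  · intro v hv
    rw [e1, e2] at hv
    exact conl_inj X t v hv

private lemma conl_S (X : Ob k lam n) {m j : ℕ} (hj : j < m) :
    Con ((X.new m).S j m) (X.upd1 m j) m m (ev (X.y j)) := by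
  have hne : j ≠ m := ne_of_lt hj
  have e1 : ((X.new m).S j m).y m = cw (X.y j) := by
    show nop X.V m X.y (Equiv.swap j m m) = _
    rw [Equiv.swap_apply_right]
    exact if_neg hne
  have e2 : ((X.new m).S j m).x m = sh := if_pos rfl
  refine ⟨⟨?_, ?_, conl_ev_d X j, conl_ev_T X j⟩, ev_surj (X.y j), ?_, ?_, ?_⟩
  · intro l _ v
    show ev (X.y j) (nop X.V m X.y (Equiv.swap j m l) v) =
      (if l = m then X.y j else X.y l) (ev (X.y j) v)
    by_cases hl : l = m
    · rw [if_pos hl, hl, Equiv.swap_apply_right]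
      unfold nop
      rw [if_neg hne]
      exact conl_ev_y X j j v
    · rw [if_neg hl]
      by_cases hlj : l = j
      · rw [hlj, Equiv.swap_apply_left]
        unfold nop
        rw [if_pos rfl]
        exact ev_sh _ _
      · rw [Equiv.swap_apply_of_ne_of_ne hlj hl]
        unfold nop
        rw [if_neg hl]
        exact conl_ev_y X j l v
  · intro l _ v
    show ev (X.y j) (nop X.V m X.x l v) = (if l = m then X.y j else X.x l) (ev (X.y j) v)
    unfold nop
    split_ifs
    · exact ev_sh _ _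
    · exact conl_ev_x X j l v
  · intro v
    rw [e1, e2]
    exact conl_zero X j v
  · intro v hv
    rw [e1, e2]
    exact conl_range X j v hv
  · intro v hv
    rw [e1, e2] at hv
    exact conl_inj X j v hv

private lemma conl_upd (X : Ob k lam n) (m j : ℕ) : Iso {l | l < m} (X.upd1 m j) X := by
  refine ⟨LinearEquiv.refl k X.V, ?_, ?_, fun _ => rfl, fun _ => rfl⟩
  · intro l hl v
    show (if l = m then X.y j else X.y l) v = X.y l v
    rw [if_neg (ne_of_lt hl)]
  · intro l hl v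
    show (if l = m then X.y j else X.x l) v = X.x l v
    rw [if_neg (ne_of_lt hl)]

/-- The Markov move for `S j m`. -/
theorem T4 (X : Ob k lam n) {m j : ℕ} (hj : j < m) {L : List (ℕ × ℕ)}
    (hL : ∀ a ∈ L, a.1 < m ∧ a.2 < m) (hfl : Flat ((X.new m).S j m) ((m, m) :: L)) :
    HE (((X.new m).S j m).cl m m) X L :=
  (con_he (conl_S X hj) hfl).1.trans ((conl_upd X m j).he hL)

end ZM
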