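import Pool.Agent.H75.ZM.Hb

/-!
# Contractible pairs of subspaces (row ZM Ctr)

`St A X P`: `P` is stable under `d` and the operators `y l`, `x l` with `l ∈ A`.
`Ctr A X P Q`: `P ≤ Q` stable and `Q / P` is contractible (homotopy `h` of `X.V`).
`Fil` is the reflexive transitive closure.

Proofs.  For `Ctr.cl` use `h' = pm h (-h)` on `X.V × X.V`.  For `(v, w)` in `Q × Q`, with
`b = y p - x r`, `a = hn n (y p) (x r)`:
first component of `d' h' + h' d' - 1`: `d (h v) - b (h w) + h (d v) + h (b w) - v`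
`= (d h + h d - 1) v + (h b - b h) w`, second: `a (h v) + d (h w) - h (a v) + h (d w) - w`
`= (d h + h d - 1) w + (a h - h a) v`.  That `(h a - a h) v ∈ P` for `v ∈ Q`, `a` a polynomial in
`y p`, `x r`: if `h g - g h` and `h g' - g' h` map `Q` into `P` and `g, g'` preserve `P` and `Q`,
then so does `h (g g') - (g g') h = (h g - g h) g' + g (h g' - g' h)`; hence powers, products, sums.
For `Fil.acy` (here `d d = 0`): one step `Ctr A X P Q`: if `v ∈ Q`, `d v ∈ P` then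
`v - d (h v) = -(d h + h d - 1) v + h (d v) ∈ P`; a composition `P ≤ Q ≤ R`: `v ∈ R`, `d v ∈ P ≤ Q`
gives `w ∈ R` with `v - d w ∈ Q`, and `d (v - d w) = d v ∈ P`, so `w' ∈ Q` with
`v - d w - d w' ∈ P`.
-/

namespace ZM

variable {k : Type} [Field k] {lam : k} {n : ℕ}

private lemma ctr_pow_mem {V : Type} [AddCommGroup V] [Module k V] {P : Submodule k V}
    {a : Module.End k V} (h : ∀ v ∈ P, a v ∈ P) (i : ℕ) : ∀ v ∈ P, (a ^ i) v ∈ P := by
  induction i with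
  | zero => intro v hv; simpa using hv
  | succ i ih =>
    intro v hv
    rw [pow_succ, Module.End.mul_apply]
    exact ih _ (h v hv)

private lemma ctr_hn_mem {V : Type} [AddCommGroup V] [Module k V] {P : Submodule k V}
    {a b : Module.End k V} (ha : ∀ v ∈ P, a v ∈ P) (hb : ∀ v ∈ P, b v ∈ P) :
    ∀ v ∈ P, hn n a b v ∈ P := by
  intro v hv
  unfold hn
  rw [LinearMap.sum_apply]
  refine Submodule.sum_mem _ fun i _ => ?_
  rw [Module.End.mul_apply]
  exact ctr_pow_mem ha _ _ (ctr_pow_mem hb _ _ hv)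

private lemma ctr_mul_comm {V : Type} [AddCommGroup V] [Module k V] {P Q : Submodule k V}
    {a b h : Module.End k V} (haP : ∀ v ∈ P, a v ∈ P) (hbQ : ∀ v ∈ Q, b v ∈ Q)
    (hca : ∀ v ∈ Q, h (a v) - a (h v) ∈ P) (hcb : ∀ v ∈ Q, h (b v) - b (h v) ∈ P) :
    ∀ v ∈ Q, h ((a * b) v) - (a * b) (h v) ∈ P := by
  intro v hv
  have e : h ((a * b) v) - (a * b) (h v) =
      (h (a (b v)) - a (h (b v))) + a (h (b v) - b (h v)) := by
    rw [Module.End.mul_apply, Module.End.mul_apply, map_sub]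
    abel
  rw [e]
  exact P.add_mem (hca _ (hbQ v hv)) (haP _ (hcb v hv))

private lemma ctr_pow_comm {V : Type} [AddCommGroup V] [Module k V] {P Q : Submodule k V}
    {a h : Module.End k V} (haP : ∀ v ∈ P, a v ∈ P) (haQ : ∀ v ∈ Q, a v ∈ Q)
    (hca : ∀ v ∈ Q, h (a v) - a (h v) ∈ P) (i : ℕ) :
    ∀ v ∈ Q, h ((a ^ i) v) - (a ^ i) (h v) ∈ P := by
  induction i with
  | zero => intro v _; simp
  | succ i ih =>
    intro v hv
    rw [pow_succ]
    exact ctr_mul_comm (ctr_pow_mem haP i) haQ ih hca v hv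

private lemma ctr_hn_comm {V : Type} [AddCommGroup V] [Module k V] {P Q : Submodule k V}
    {a b h : Module.End k V} (haP : ∀ v ∈ P, a v ∈ P) (haQ : ∀ v ∈ Q, a v ∈ Q)
    (hbP : ∀ v ∈ P, b v ∈ P) (hbQ : ∀ v ∈ Q, b v ∈ Q)
    (hca : ∀ v ∈ Q, h (a v) - a (h v) ∈ P) (hcb : ∀ v ∈ Q, h (b v) - b (h v) ∈ P) :
    ∀ v ∈ Q, h (hn n a b v) - hn n a b (h v) ∈ P := by
  intro v hv
  unfold hn
  rw [LinearMap.sum_apply, LinearMap.sum_apply, map_sum, ← Finset.sum_sub_distrib]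
  refine Submodule.sum_mem _ fun i _ => ?_
  exact ctr_mul_comm (ctr_pow_mem haP i) (ctr_pow_mem hbQ _) (ctr_pow_comm haP haQ hca i)
    (ctr_pow_comm hbP hbQ hcb _) v hv

lemma St.cl {A : Set ℕ} {X : Ob k lam n} {P : Submodule k X.V} (h : St A X P) {p r : ℕ}
    (hp : p ∈ A) (hr : r ∈ A) : St A (X.cl p r) (P.prod P : Submodule k (X.V × X.V)) := by
  obtain ⟨hy, hx, hd⟩ := h
  refine ⟨?_, ?_, ?_⟩
  · rintro l hl ⟨v, w⟩ ⟨hv, hw⟩
    exact ⟨hy l hl v hv, hy l hl w hw⟩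
  · rintro l hl ⟨v, w⟩ ⟨hv, hw⟩
    exact ⟨hx l hl v hv, hx l hl w hw⟩
  · rintro ⟨v, w⟩ ⟨hv, hw⟩
    refine ⟨?_, ?_⟩
    · show X.d v + (X.y p w - X.x r w) ∈ P
      exact P.add_mem (hd v hv) (P.sub_mem (hy p hp w hw) (hx r hr w hw))
    · show hn n (X.y p) (X.x r) v + -X.d w ∈ P
      exact P.add_mem (ctr_hn_mem (hy p hp) (hx r hr) v hv) (P.neg_mem (hd w hw))

theorem Ctr.cl {A : Set ℕ} {X : Ob k lam n} {P Q : Submodule k X.V} (h : Ctr A X P Q)
    {p r : ℕ} (hp : p ∈ A) (hr : r ∈ A) :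
    Ctr A (X.cl p r) (P.prod P : Submodule k (X.V × X.V))
      (Q.prod Q : Submodule k (X.V × X.V)) := by
  obtain ⟨hPQ, hP, hQ, h, hhQ, hhP, hd, hy, hx⟩ := h
  refine ⟨?_, hP.cl hp hr, hQ.cl hp hr, pm h (-h), ?_, ?_, ?_, ?_, ?_⟩
  · rintro ⟨v, w⟩ ⟨hv, hw⟩
    exact ⟨hPQ hv, hPQ hw⟩
  · rintro ⟨v, w⟩ ⟨hv, hw⟩
    exact ⟨hhQ v hv, Q.neg_mem (hhQ w hw)⟩
  · rintro ⟨v, w⟩ ⟨hv, hw⟩
    exact ⟨hhP v hv, P.neg_mem (hhP w hw)⟩
  · rintro ⟨v, w⟩ ⟨hv, hw⟩
    change v ∈ Q at hv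
    change w ∈ Q at hw
    refine ⟨?_, ?_⟩
    · show (X.d (h v) + (X.y p (-h w) - X.x r (-h w))) +
        h (X.d v + (X.y p w - X.x r w)) - v ∈ P
      have e : (X.d (h v) + (X.y p (-h w) - X.x r (-h w))) +
          h (X.d v + (X.y p w - X.x r w)) - v =
          (X.d (h v) + h (X.d v) - v) + ((h (X.y p w) - X.y p (h w)) -
            (h (X.x r w) - X.x r (h w))) := by
        simp only [map_add, map_sub, map_neg]
        abel
      rw [e]
      exact P.add_mem (hd v hv) (P.sub_mem (hy p hp w hw) (hx r hr w hw))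
    · show (hn n (X.y p) (X.x r) (h v) + -X.d (-h w)) +
        -h (hn n (X.y p) (X.x r) v + -X.d w) - w ∈ P
      have e : (hn n (X.y p) (X.x r) (h v) + -X.d (-h w)) +
          -h (hn n (X.y p) (X.x r) v + -X.d w) - w =
          (X.d (h w) + h (X.d w) - w) - (h (hn n (X.y p) (X.x r) v) -
            hn n (X.y p) (X.x r) (h v)) := by
        simp only [map_add, map_neg]
        abel
      rw [e]
      exact P.sub_mem (hd w hw) (ctr_hn_comm (hP.1 p hp) (hQ.1 p hp) (hP.2.1 r hr)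
        (hQ.2.1 r hr) (hy p hp) (hx r hr) v hv)
  · rintro l hl ⟨v, w⟩ ⟨hv, hw⟩
    change v ∈ Q at hv
    change w ∈ Q at hw
    refine ⟨hy l hl v hv, ?_⟩
    show -h (X.y l w) - X.y l (-h w) ∈ P
    have e : -h (X.y l w) - X.y l (-h w) = -(h (X.y l w) - X.y l (h w)) := by
      rw [map_neg]; abel
    rw [e]
    exact P.neg_mem (hy l hl w hw)
  · rintro l hl ⟨v, w⟩ ⟨hv, hw⟩
    change v ∈ Q at hv
    change w ∈ Q at hw
    refine ⟨hx l hl v hv, ?_⟩
    show -h (X.x l w) - X.x l (-h w) ∈ P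
    have e : -h (X.x l w) - X.x l (-h w) = -(h (X.x l w) - X.x l (h w)) := by
      rw [map_neg]; abel
    rw [e]
    exact P.neg_mem (hx l hl w hw)

theorem Fil.cl {A : Set ℕ} {X : Ob k lam n} {P Q : Submodule k X.V} (h : Fil A X P Q)
    {p r : ℕ} (hp : p ∈ A) (hr : r ∈ A) :
    Fil A (X.cl p r) (P.prod P : Submodule k (X.V × X.V))
      (Q.prod Q : Submodule k (X.V × X.V)) := by
  induction h with
  | refl => exact Relation.ReflTransGen.refl
  | tail _ hbc ih => exact Relation.ReflTransGen.tail ih (hbc.cl hp hr)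

theorem Fil.le {A : Set ℕ} {X : Ob k lam n} {P Q : Submodule k X.V} (h : Fil A X P Q) :
    P ≤ Q := by
  induction h with
  | refl => exact le_refl _
  | tail _ hbc ih => exact ih.trans hbc.1

theorem Fil.acy {A : Set ℕ} {X : Ob k lam n} {P Q : Submodule k X.V} (h : Fil A X P Q)
    (hd : X.d * X.d = 0) : ∀ v ∈ Q, X.d v ∈ P → ∃ w ∈ Q, v - X.d w ∈ P := by
  induction h with
  | refl =>
    intro v hv _
    exact ⟨0, P.zero_mem, by simpa using hv⟩
  | @tail B C hPB hBC ih =>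
    intro v hv hdv
    have hPB' : P ≤ B := Fil.le hPB
    obtain ⟨hBC', hB, hC, h, hhQ, hhP, hd', hy, hx⟩ := hBC
    have h1 : v - X.d (h v) ∈ B := by
      have e : v - X.d (h v) = -(X.d (h v) + h (X.d v) - v) + h (X.d v) := by abel
      rw [e]
      exact B.add_mem (B.neg_mem (hd' v hv)) (hhP _ (hPB' hdv))
    have h2 : X.d (v - X.d (h v)) ∈ P := by
      have e : X.d (X.d (h v)) = 0 := LinearMap.congr_fun hd (h v)
      rw [map_sub, e, sub_zero]
      exact hdv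
    obtain ⟨w, hw, hw'⟩ := ih _ h1 h2
    refine ⟨h v + w, C.add_mem (hhQ v hv) (hBC' hw), ?_⟩
    have e : v - X.d (h v + w) = v - X.d (h v) - X.d w := by
      rw [map_add]; abel
    rw [e]
    exact hw'

end ZM
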