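import Pool.Agent.H75.ZM.Unroll

/-!
# Cyclicity of the trace (row ZM Cyc)

Proof.  Let `g u v` be the left hand side of `unroll`.  `g u v = g v u`: the words commute
(`word_comm`), the base is isomorphic to `(base (m+m)).rel ρ ρ`, `ρ = bsw m` (an injective
involution preserving `List.range (m + m)`): `base M` is `newl (unit) [M-1, ..., 0]`, `newl` does not
depend on the order of the list up to isomorphism (`new_new`, `List.Perm`), and
`newl ((unit).rel ρ ρ) L` is isomorphic to `(newl unit (L.map ρ)).rel ρ ρ` by `new_rel`.  Then use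
`word_rel`, `cls_rel`, `rel_hq`, `hq_perm`: relabelling by `ρ` turns the shifted word into the
unshifted one and conversely, and `dlist m m ++ elist m` into a permutation of itself.
-/

namespace ZM

variable {k : Type} [Field k] {lam : k} {n : ℕ}

lemma newl_perm (X : Ob k lam n) {L L' : List ℕ} (h : L.Perm L') :
    Iso Set.univ (newl X L) (newl X L') := by
  induction h with
  | nil => exact Iso.refl _ _
  | cons p _ ih => exact (ih.new p).mono (Set.subset_insert _ _)
  | swap p q L =>
    by_cases hpq : p = q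
    · subst hpq
      exact Iso.refl _ _
    · exact new_new (newl X L) hpq
  | trans _ _ ih1 ih2 => exact ih1.trans ih2

lemma cyc_newl_congr {X Y : Ob k lam n} (h : Iso Set.univ X Y) (L : List ℕ) :
    Iso Set.univ (newl X L) (newl Y L) := by
  induction L with
  | nil => exact h
  | cons p L ih => exact (ih.new p).mono (Set.subset_insert _ _)

lemma cyc_newl_rel (X : Ob k lam n) (σ : ℕ → ℕ) (hσ : Function.Injective σ) (L : List ℕ) :
    Iso Set.univ (newl (X.rel σ σ) L) ((newl X (L.map σ)).rel σ σ) := by
  induction L with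
  | nil => exact Iso.refl _ _
  | cons p L ih =>
    exact ((ih.new p).mono (Set.subset_insert _ _)).trans (new_rel (newl X (L.map σ)) σ hσ p)

lemma cyc_base (hne : lam ≠ 0) (M : ℕ) :
    base n hne M = newl (Ob.unit n hne) (List.range M).reverse := by
  induction M with
  | zero => rfl
  | succ M ih =>
    rw [List.range_succ, List.reverse_append]
    show (base n hne M).new M = (newl (Ob.unit n hne) (List.range M).reverse).new M
    rw [ih]

lemma cyc_bsw_lt {m l : ℕ} (h : l < m) : bsw m l = m + l := if_pos h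

lemma cyc_bsw_add {m l : ℕ} (h : l < m) : bsw m (m + l) = l := by
  unfold bsw
  rw [if_neg (by omega), if_pos (by omega)]
  omega

lemma cyc_inj (m : ℕ) : Function.Injective (bsw m) := by
  have h : Function.LeftInverse (bsw m) (bsw m) := by
    intro l
    unfold bsw
    split_ifs <;> omega
  exact h.injective

lemma cyc_range (m : ℕ) : ((List.range (m + m)).reverse.map (bsw m)).Perm
    (List.range (m + m)).reverse := by
  have h1 : ((List.range (m + m)).map (bsw m)).Perm (List.range (m + m)) := by
    rw [List.range_add, List.map_append, List.map_map]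
    have e1 : (List.range m).map (bsw m) = (List.range m).map (fun x => m + x) :=
      List.map_congr_left fun l hl => cyc_bsw_lt (List.mem_range.1 hl)
    have e2 : (List.range m).map (bsw m ∘ fun x => m + x) = List.range m := by
      conv_rhs => rw [← List.map_id (List.range m)]
      exact List.map_congr_left fun l hl => cyc_bsw_add (List.mem_range.1 hl)
    rw [e1, e2]
    exact List.perm_append_comm
  exact ((List.reverse_perm _).map (bsw m)).trans (h1.trans (List.reverse_perm _).symm)

lemma base_rel (hne : lam ≠ 0) (m : ℕ) :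
    Iso Set.univ (base n hne (m + m)) ((base n hne (m + m)).rel (bsw m) (bsw m)) := by
  rw [cyc_base]
  have h0 : Iso Set.univ (Ob.unit (lam := lam) n hne)
      ((Ob.unit (lam := lam) n hne).rel (bsw m) (bsw m)) :=
    ⟨LinearEquiv.refl k _, fun _ _ _ => rfl, fun _ _ _ => rfl, fun _ => rfl, fun _ => rfl⟩
  refine (cyc_newl_congr h0 _).trans ?_
  refine (cyc_newl_rel _ (bsw m) (cyc_inj m) _).trans ?_
  exact (newl_perm _ (cyc_range m)).rel _ _ (fun _ _ => trivial) (fun _ _ => trivial)

lemma cyc_map_lt {m : ℕ} {u : List Lt} (hu : Ok m u) :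
    u.map (Lt.map (bsw m)) = u.map (Lt.map (m + ·)) := by
  refine List.map_congr_left fun a ha => ?_
  have h := hu a ha
  cases a with
  | E i j =>
    obtain ⟨h1, h2, -⟩ := h
    show Lt.E (bsw m i) (bsw m j) = Lt.E (m + i) (m + j)
    rw [cyc_bsw_lt h1, cyc_bsw_lt h2]
  | S i j =>
    obtain ⟨h1, h2⟩ := h
    show Lt.S (bsw m i) (bsw m j) = Lt.S (m + i) (m + j)
    rw [cyc_bsw_lt h1, cyc_bsw_lt h2]

lemma cyc_map_add {m : ℕ} {u : List Lt} (hu : Ok m u) :
    (u.map (Lt.map (m + ·))).map (Lt.map (bsw m)) = u := by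
  rw [List.map_map]
  conv_rhs => rw [← List.map_id u]
  refine List.map_congr_left fun a ha => ?_
  have h := hu a ha
  cases a with
  | E i j =>
    obtain ⟨h1, h2, -⟩ := h
    show Lt.E (bsw m (m + i)) (bsw m (m + j)) = Lt.E i j
    rw [cyc_bsw_add h1, cyc_bsw_add h2]
  | S i j =>
    obtain ⟨h1, h2⟩ := h
    show Lt.S (bsw m (m + i)) (bsw m (m + j)) = Lt.S i j
    rw [cyc_bsw_add h1, cyc_bsw_add h2]

lemma cyc_clist (m : ℕ) : ∀ a ∈ clist m, a.1 < m ∧ a.2 < m := by
  induction m with
  | zero =>
    intro a ha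
    exact absurd ha (List.not_mem_nil)
  | succ m ih =>
    intro a ha
    rcases List.mem_cons.1 ha with rfl | ha
    · exact ⟨Nat.lt_succ_self m, Nat.lt_succ_self m⟩
    · exact ⟨(ih a ha).1.trans (Nat.lt_succ_self m), (ih a ha).2.trans (Nat.lt_succ_self m)⟩

lemma cyc_list (m : ℕ) :
    ((dlist m m ++ elist m).map fun a => (bsw m a.1, bsw m a.2)).Perm
      (dlist m m ++ elist m) := by
  have e1 : (dlist m m).map (fun a => (bsw m a.1, bsw m a.2)) = elist m := by
    unfold dlist elist
    rw [List.map_map]
    refine List.map_congr_left fun a ha => ?_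
    obtain ⟨h1, h2⟩ := cyc_clist m a ha
    show (bsw m a.1, bsw m (m + a.2)) = (m + a.1, a.2)
    rw [cyc_bsw_lt h1, cyc_bsw_add h2]
  have e2 : (elist m).map (fun a => (bsw m a.1, bsw m a.2)) = dlist m m := by
    unfold dlist elist
    rw [List.map_map]
    refine List.map_congr_left fun a ha => ?_
    obtain ⟨h1, h2⟩ := cyc_clist m a ha
    show (bsw m (m + a.1), bsw m a.2) = (a.1, m + a.2)
    rw [cyc_bsw_lt h2, cyc_bsw_add h1]
  rw [List.map_append, e1, e2]
  exact List.perm_append_comm

theorem trw_cyc (hne : lam ≠ 0) {m : ℕ} {u v : List Lt} (hu : Ok m u) (hv : Ok m v) :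
    trw n hne m (u ++ v) = trw n hne m (v ++ u) := by
  rw [← unroll hne hu hv, ← unroll hne hv hu]
  have h1 : HQ ((word (u.map (Lt.map (m + ·)) ++ v) (base n hne (m + m))).cls
      (dlist m m ++ elist m)) ((word (v ++ u.map (Lt.map (m + ·))) (base n hne (m + m))).cls
      (dlist m m ++ elist m)) :=
    ((word_comm (base n hne (m + m)) hu hv).cls _ fun _ _ => ⟨trivial, trivial⟩).hq
  have h2 : Iso Set.univ (word (v.map (Lt.map (m + ·)) ++ u) (base n hne (m + m)))
      ((word (v ++ u.map (Lt.map (m + ·))) (base n hne (m + m))).rel (bsw m) (bsw m)) := by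
    have h3 := ((base_rel (n := n) hne m).wordU (v.map (Lt.map (m + ·)) ++ u)).trans
      (word_rel (base n hne (m + m)) (v.map (Lt.map (m + ·)) ++ u) (bsw m) (bsw m) (cyc_inj m))
    rw [List.map_append, cyc_map_add hv, cyc_map_lt hu] at h3
    exact h3
  have h3 := (h2.cls (dlist m m ++ elist m) fun _ _ => ⟨trivial, trivial⟩).hq
  have h4 := (cls_rel (word (v ++ u.map (Lt.map (m + ·))) (base n hne (m + m))) (bsw m) (bsw m)
    (dlist m m ++ elist m)).hq
  have h5 := rel_hq ((word (v ++ u.map (Lt.map (m + ·))) (base n hne (m + m))).cls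
    ((dlist m m ++ elist m).map fun a => (bsw m a.1, bsw m a.2))) (bsw m) (bsw m)
  have h6 := hq_perm (word (v ++ u.map (Lt.map (m + ·))) (base n hne (m + m))) (cyc_list m)
  exact (h1.trans (h3.trans (h4.trans (h5.trans h6))).symm).tau

end ZM
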