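import Mathlib

/-!
# Definitions for the project MP_174676_ZM

Curved complexes with commuting operators (objects), the letters `E i j`, `S i j`, new strands,
closings, homology and the trace of `T` on homology.  See the paper proof H75_174676.md.
-/

namespace ZM

/-- Letters of abstract words: `E i j` is a vertex (wide edge) on the strands `i, j`,
`S i j` exchanges the strands `i` and `j`. -/
inductive Lt where
  | E (i j : ℕ) : Lt
  | S (i j : ℕ) : Lt
deriving DecidableEq

section Blk

variable {k : Type} [Field k] {V : Type} [AddCommGroup V] [Module k V]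

/-- The operator on `V × V` with block matrix `(A B ; C D)`. -/
def blk (A B C D : Module.End k V) : Module.End k (V × V) where
  toFun p := (A p.1 + B p.2, C p.1 + D p.2)
  map_add' p q := by
    simp only [Prod.fst_add, Prod.snd_add, map_add, Prod.mk_add_mk, Prod.mk.injEq]
    exact ⟨by abel, by abel⟩
  map_smul' c p := by
    simp only [Prod.smul_fst, Prod.smul_snd, map_smul, RingHom.id_apply, Prod.smul_mk, smul_add]

@[simp] lemma blk_apply (A B C D : Module.End k V) (p : V × V) :
    blk A B C D p = (A p.1 + B p.2, C p.1 + D p.2) := rfl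

/-- The operator `(v, w) ↦ (A v, D w)`. -/
def pm (A D : Module.End k V) : Module.End k (V × V) := A.prodMap D

@[simp] lemma pm_apply (A D : Module.End k V) (p : V × V) : pm A D p = (A p.1, D p.2) := rfl

lemma pm_blk (A D : Module.End k V) : pm A D = blk A 0 0 D := by
  ext p <;> simp

/-- The diagonal operator. -/
def dg (A : Module.End k V) : Module.End k (V × V) := pm A A

@[simp] lemma dg_apply (A : Module.End k V) (p : V × V) : dg A p = (A p.1, A p.2) := rfl

lemma dg_blk (A : Module.End k V) : dg A = blk A 0 0 A := pm_blk A A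

lemma blk_mul (A B C D A' B' C' D' : Module.End k V) :
    blk A B C D * blk A' B' C' D' =
      blk (A * A' + B * C') (A * B' + B * D') (C * A' + D * C') (C * B' + D * D') := by
  ext p <;> simp [Module.End.mul_apply]

lemma blk_add (A B C D A' B' C' D' : Module.End k V) :
    blk A B C D + blk A' B' C' D' = blk (A + A') (B + B') (C + C') (D + D') := by
  ext p <;> simp

lemma blk_sub (A B C D A' B' C' D' : Module.End k V) :
    blk A B C D - blk A' B' C' D' = blk (A - A') (B - B') (C - C') (D - D') := by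
  ext p <;> simp

lemma blk_neg (A B C D : Module.End k V) :
    - blk A B C D = blk (-A) (-B) (-C) (-D) := by
  ext p <;> simp

lemma blk_smul (c : k) (A B C D : Module.End k V) :
    c • blk A B C D = blk (c • A) (c • B) (c • C) (c • D) := by
  ext p <;> simp

lemma blk_one : blk (1 : Module.End k V) 0 0 1 = 1 := by
  ext p <;> simp

lemma blk_zero : blk (0 : Module.End k V) 0 0 0 = 0 := by
  ext p <;> simp

lemma dg_mul (A B : Module.End k V) : dg A * dg B = dg (A * B) := rfl

lemma dg_one : dg (1 : Module.End k V) = 1 := rfl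

lemma dg_pow (A : Module.End k V) (i : ℕ) : dg A ^ i = dg (A ^ i) := by
  induction i with
  | zero => rw [pow_zero, pow_zero, dg_one]
  | succ i ih => rw [pow_succ, ih, dg_mul, pow_succ]

end Blk

section Pol

variable {k : Type} [Field k] {V W : Type} [AddCommGroup V] [Module k V]
  [AddCommGroup W] [Module k W]

/-- Multiplication by the variable on `V[u] = ℕ →₀ V`. -/
noncomputable def sh : Module.End k (ℕ →₀ V) :=
  Finsupp.lsum k (fun i => Finsupp.lsingle (i + 1))

/-- Coefficientwise application of a linear map. -/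
noncomputable def cw (f : V →ₗ[k] W) : (ℕ →₀ V) →ₗ[k] (ℕ →₀ W) :=
  Finsupp.lsum k (fun i => (Finsupp.lsingle i).comp f)

/-- The weight operator: multiplies the coefficient of `u^i` by `c^i`. -/
noncomputable def wt (c : k) : Module.End k (ℕ →₀ V) :=
  Finsupp.lsum k (fun i => c ^ i • Finsupp.lsingle i)

/-- Constant polynomials. -/
noncomputable def Cc : V →ₗ[k] (ℕ →₀ V) := Finsupp.lsingle 0

/-- Evaluation of a polynomial at the operator `a`. -/
noncomputable def ev (a : Module.End k V) : (ℕ →₀ V) →ₗ[k] V :=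
  Finsupp.lsum k (fun i => a ^ i)

/-- The difference quotient `(f(u) - f(a)) / (u - a)`. -/
noncomputable def Dq (a : Module.End k V) : Module.End k (ℕ →₀ V) :=
  Finsupp.lsum k (fun i => ∑ j ∈ Finset.range i, (Finsupp.lsingle j).comp (a ^ (i - 1 - j)))

/-- Drops the coefficients below `r` and shifts down by `r`. -/
noncomputable def dr (r : ℕ) : Module.End k (ℕ →₀ V) :=
  Finsupp.lsum k (fun i => if r ≤ i then Finsupp.lsingle (i - r) else 0)

@[simp] lemma sh_single (i : ℕ) (v : V) : sh (k := k) (Finsupp.single i v) = Finsupp.single (i + 1) v := by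
  simp [sh]

@[simp] lemma cw_single (f : V →ₗ[k] W) (i : ℕ) (v : V) :
    cw f (Finsupp.single i v) = Finsupp.single i (f v) := by
  simp [cw]

@[simp] lemma wt_single (c : k) (i : ℕ) (v : V) :
    wt c (Finsupp.single i v) = Finsupp.single i (c ^ i • v) := by
  simp [wt]

@[simp] lemma Cc_apply (v : V) : Cc (k := k) v = Finsupp.single 0 v := rfl

@[simp] lemma ev_single (a : Module.End k V) (i : ℕ) (v : V) :
    ev a (Finsupp.single i v) = (a ^ i) v := by
  simp [ev]

lemma Dq_single (a : Module.End k V) (i : ℕ) (v : V) :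
    Dq a (Finsupp.single i v) =
      ∑ j ∈ Finset.range i, Finsupp.single j ((a ^ (i - 1 - j)) v) := by
  simp [Dq]

end Pol

section Obj

/-- `h_n(y, x)`. -/
def hn {R : Type} [Semiring R] (n : ℕ) (y x : R) : R :=
  ∑ i ∈ Finset.range (n + 1), y ^ i * x ^ (n - i)

/-- Objects: a `k`-space `V` with commuting operators `y l` (tops) and `x l` (bottoms), a
differential `d` commuting with them and a grading operator `T`. -/
structure Ob (k : Type) [Field k] (lam : k) (n : ℕ) where
  V : Type
  [acg : AddCommGroup V]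
  [mod : Module k V]
  y : ℕ → Module.End k V
  x : ℕ → Module.End k V
  d : Module.End k V
  T : Module.End k V
  hyy : ∀ i j, Commute (y i) (y j)
  hxx : ∀ i j, Commute (x i) (x j)
  hxy : ∀ i j, Commute (x i) (y j)
  hdy : ∀ i, Commute d (y i)
  hdx : ∀ i, Commute d (x i)
  hTy : ∀ i, T * y i = lam ^ 2 • (y i * T)
  hTx : ∀ i, T * x i = lam ^ 2 • (x i * T)
  hTd : T * d = lam ^ (n + 1) • (d * T)
  ne : lam ≠ 0

attribute [instance] Ob.acg Ob.mod

variable {k : Type} [Field k] {lam : k} {n : ℕ}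

lemma T_pow_y (X : Ob k lam n) (i p : ℕ) :
    X.T * X.y p ^ i = (lam ^ 2) ^ i • (X.y p ^ i * X.T) := by
  induction i with
  | zero => simp
  | succ i ih =>
    rw [pow_succ (X.y p), ← mul_assoc, ih, smul_mul_assoc, mul_assoc, X.hTy, mul_smul_comm,
      smul_smul, ← mul_assoc, ← pow_succ]

lemma T_pow_x (X : Ob k lam n) (i p : ℕ) :
    X.T * X.x p ^ i = (lam ^ 2) ^ i • (X.x p ^ i * X.T) := by
  induction i with
  | zero => simp
  | succ i ih =>
    rw [pow_succ (X.x p), ← mul_assoc, ih, smul_mul_assoc, mul_assoc, X.hTx, mul_smul_comm,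
      smul_smul, ← mul_assoc, ← pow_succ]

lemma T_hn (X : Ob k lam n) (p r : ℕ) :
    X.T * hn n (X.y p) (X.x r) = (lam ^ 2) ^ n • (hn n (X.y p) (X.x r) * X.T) := by
  unfold hn
  rw [Finset.mul_sum, Finset.sum_mul, Finset.smul_sum]
  refine Finset.sum_congr rfl fun i hi => ?_
  have hi' : i ≤ n := Nat.lt_succ_iff.mp (Finset.mem_range.mp hi)
  rw [← mul_assoc, T_pow_y, smul_mul_assoc, mul_assoc, T_pow_x, mul_smul_comm, smul_smul,
    ← mul_assoc, ← pow_add, Nat.add_sub_cancel' hi']

lemma comm_hn (X : Ob k lam n) {A : Module.End k X.V} (p r : ℕ) (hy : Commute A (X.y p))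
    (hx : Commute A (X.x r)) : Commute A (hn n (X.y p) (X.x r)) := by
  unfold hn
  exact Commute.sum_right _ _ _ fun i _ => (hy.pow_right i).mul_right (hx.pow_right _)

/-- Closing the top `p` with the bottom `r`. -/
def Ob.cl (X : Ob k lam n) (p r : ℕ) : Ob k lam n where
  V := X.V × X.V
  y l := dg (X.y l)
  x l := dg (X.x l)
  d := blk X.d (X.y p - X.x r) (hn n (X.y p) (X.x r)) (-X.d)
  T := pm X.T ((lam * (lam⁻¹) ^ n) • X.T)
  hyy i j := by
    show _ * _ = _ * _
    rw [dg_mul, dg_mul, (X.hyy i j).eq]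
  hxx i j := by
    show _ * _ = _ * _
    rw [dg_mul, dg_mul, (X.hxx i j).eq]
  hxy i j := by
    show _ * _ = _ * _
    rw [dg_mul, dg_mul, (X.hxy i j).eq]
  hdy i := by
    show _ * _ = _ * _
    have h1 : Commute (X.y p - X.x r) (X.y i) := (X.hyy p i).sub_left (X.hxy r i)
    have h2 : Commute (hn n (X.y p) (X.x r)) (X.y i) :=
      (comm_hn X p r (X.hyy i p) (X.hxy r i).symm).symm
    simp only [dg_blk, blk_mul, mul_zero, zero_mul, add_zero, zero_add, h1.eq, h2.eq,
      (X.hdy i).eq, neg_mul, mul_neg, neg_zero]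
  hdx i := by
    show _ * _ = _ * _
    have h1 : Commute (X.y p - X.x r) (X.x i) := (X.hxy i p).symm.sub_left (X.hxx r i)
    have h2 : Commute (hn n (X.y p) (X.x r)) (X.x i) :=
      (comm_hn X p r (X.hxy i p) (X.hxx i r)).symm
    simp only [dg_blk, blk_mul, mul_zero, zero_mul, add_zero, zero_add, h1.eq, h2.eq,
      (X.hdx i).eq, neg_mul, mul_neg, neg_zero]
  hTy i := by
    simp only [pm_blk, dg_blk, blk_mul, blk_smul, mul_zero, zero_mul, add_zero, zero_add,
      smul_zero, smul_mul_assoc, mul_smul_comm, X.hTy, smul_smul, mul_comm]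
  hTx i := by
    simp only [pm_blk, dg_blk, blk_mul, blk_smul, mul_zero, zero_mul, add_zero, zero_add,
      smul_zero, smul_mul_assoc, mul_smul_comm, X.hTx, smul_smul, mul_comm]
  hTd := by
    have hl := X.ne
    have e1 : lam ^ (n + 1) * (lam * (lam⁻¹) ^ n) = lam ^ 2 := by
      rw [inv_pow]; field_simp; ring
    have e2 : (lam * (lam⁻¹) ^ n) * (lam ^ 2) ^ n = lam ^ (n + 1) := by
      rw [inv_pow]; field_simp; ring
    have e3 : X.T * (X.y p - X.x r) = lam ^ 2 • ((X.y p - X.x r) * X.T) := by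
      rw [mul_sub, sub_mul, smul_sub, X.hTy, X.hTx]
    rw [pm_blk, blk_mul, blk_mul, blk_smul]
    congr 1
    · simp only [mul_zero, zero_mul, add_zero, X.hTd]
    · rw [e3, zero_mul, mul_zero, add_zero, zero_add, mul_smul_comm, smul_smul, e1]
    · rw [zero_mul, zero_add, mul_zero, add_zero, smul_mul_assoc, T_hn, smul_smul, e2]
    · simp only [mul_zero, zero_mul, zero_add, mul_neg, neg_mul, smul_mul_assoc, mul_smul_comm,
        X.hTd, smul_smul, smul_neg]
      rw [mul_comm]
  ne := X.ne

/-- The root `θ` of `(t - p)(t - q)` acting on `V × V`. -/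
def thOp {V : Type} [AddCommGroup V] [Module k V] (p q : Module.End k V) :
    Module.End k (V × V) := blk 0 (-(p * q)) 1 (p + q)

lemma thOp_comm {V : Type} [AddCommGroup V] [Module k V] {p q A : Module.End k V}
    (h1 : Commute p A) (h2 : Commute q A) : Commute (thOp p q) (dg A) := by
  have c1 : Commute (p * q) A := h1.mul_left h2
  have c2 : Commute (p + q) A := h1.add_left h2
  show _ * _ = _ * _
  simp only [thOp, dg_blk, blk_mul, mul_zero, zero_mul, add_zero, zero_add, mul_one, one_mul, neg_mul,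
    mul_neg, c1.eq, c2.eq, neg_zero]

/-- The tops of `X.E i j`. -/
def Ob.yE (X : Ob k lam n) (i j l : ℕ) : Module.End k (X.V × X.V) :=
  if l = i then thOp (X.y i) (X.y j)
  else if l = j then dg (X.y i + X.y j) - thOp (X.y i) (X.y j)
  else dg (X.y l)

lemma dg_comm {V : Type} [AddCommGroup V] [Module k V] {A B : Module.End k V}
    (h : Commute A B) : Commute (dg A) (dg B) := by
  show _ * _ = _ * _
  rw [dg_mul, dg_mul, h.eq]

lemma Ob.th_yE (X : Ob k lam n) (i j l : ℕ) :
    Commute (thOp (X.y i) (X.y j)) (X.yE i j l) := by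
  unfold Ob.yE
  split_ifs
  · exact Commute.refl _
  · exact (thOp_comm ((X.hyy i i).add_right (X.hyy i j))
      ((X.hyy j i).add_right (X.hyy j j))).sub_right (Commute.refl _)
  · exact thOp_comm (X.hyy i l) (X.hyy j l)

lemma Ob.dg_yE (X : Ob k lam n) (i j l : ℕ) {A : Module.End k X.V}
    (h : ∀ t, Commute A (X.y t)) : Commute (dg A) (X.yE i j l) := by
  unfold Ob.yE
  split_ifs
  · exact (thOp_comm (h i).symm (h j).symm).symm
  · exact (dg_comm ((h i).add_right (h j))).sub_right (thOp_comm (h i).symm (h j).symm).symm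
  · exact dg_comm (h l)

lemma Ob.yE_yE (X : Ob k lam n) (i j a b : ℕ) :
    Commute (X.yE i j a) (X.yE i j b) := by
  conv_lhs => unfold Ob.yE
  split_ifs
  · exact X.th_yE i j b
  · exact (X.dg_yE i j b fun t => (X.hyy i t).add_left (X.hyy j t)).sub_left (X.th_yE i j b)
  · exact X.dg_yE i j b fun t => X.hyy a t

/-- The letter `E i j`: adjoins a root of `(t - y_i)(t - y_j)`, which becomes the new top `i`;
the new top `j` is `y_i + y_j` minus it. -/
def Ob.E (X : Ob k lam n) (i j : ℕ) : Ob k lam n where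
  V := X.V × X.V
  y l := X.yE i j l
  x l := dg (X.x l)
  d := dg X.d
  T := pm (lam⁻¹ • X.T) (lam • X.T)
  hyy a b := X.yE_yE i j a b
  hxx a b := dg_comm (X.hxx a b)
  hxy a b := X.dg_yE i j b fun t => X.hxy a t
  hdy a := X.dg_yE i j a fun t => X.hdy t
  hdx a := dg_comm (X.hdx a)
  hTy a := by
    have hl := X.ne
    have e1 : lam * lam = lam ^ 2 := by ring
    have e2 : lam = lam ^ 2 * lam⁻¹ := by field_simp
    have hs : X.T * (X.y i + X.y j) = lam ^ 2 • ((X.y i + X.y j) * X.T) := by
      rw [mul_add, add_mul, smul_add, X.hTy, X.hTy]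
    have hp : X.T * (X.y i * X.y j) = lam ^ 4 • ((X.y i * X.y j) * X.T) := by
      rw [← mul_assoc, X.hTy, smul_mul_assoc, mul_assoc, X.hTy, mul_smul_comm, smul_smul,
        ← mul_assoc]
      congr 1; ring
    have hth : pm (lam⁻¹ • X.T) (lam • X.T) * thOp (X.y i) (X.y j) =
        lam ^ 2 • (thOp (X.y i) (X.y j) * pm (lam⁻¹ • X.T) (lam • X.T)) := by
      rw [pm_blk, thOp, blk_mul, blk_mul, blk_smul]
      congr 1
      · simp
      · simp only [mul_neg, smul_mul_assoc, hp, neg_mul, mul_smul_comm, smul_smul, smul_neg,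
          zero_mul, mul_zero, add_zero, zero_add]
        congr 2
        field_simp
      · simp only [mul_zero, add_zero, zero_add, mul_one, one_mul, smul_smul]
        rw [← e2]
      · simp only [mul_zero, add_zero, zero_mul, zero_add, smul_mul_assoc, mul_smul_comm, hs,
          smul_smul]
        rw [mul_comm]
    have hdg : ∀ A : Module.End k X.V, X.T * A = lam ^ 2 • (A * X.T) →
        pm (lam⁻¹ • X.T) (lam • X.T) * dg A =
          lam ^ 2 • (dg A * pm (lam⁻¹ • X.T) (lam • X.T)) := by
      intro A hA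
      rw [pm_blk, dg_blk, blk_mul, blk_mul, blk_smul]
      congr 1
      · simp only [mul_zero, add_zero, zero_mul, zero_add, smul_mul_assoc, mul_smul_comm, hA,
          smul_smul]
        rw [mul_comm]
      · simp
      · simp
      · simp only [mul_zero, add_zero, zero_mul, zero_add, smul_mul_assoc, mul_smul_comm, hA,
          smul_smul]
        rw [mul_comm]
    unfold Ob.yE
    split_ifs
    · exact hth
    · rw [mul_sub, sub_mul, smul_sub, hth, hdg _ hs]
    · exact hdg _ (X.hTy a)
  hTx a := by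
    simp only [pm_blk, dg_blk, blk_mul, blk_smul, mul_zero, zero_mul, add_zero, zero_add,
      smul_zero, smul_mul_assoc, mul_smul_comm, X.hTx, smul_smul, mul_comm]
  hTd := by
    simp only [pm_blk, dg_blk, blk_mul, blk_smul, mul_zero, zero_mul, add_zero, zero_add,
      smul_zero, smul_mul_assoc, mul_smul_comm, X.hTd, smul_smul, mul_comm]
  ne := X.ne

/-- The letter `S i j`: exchanges the tops `i` and `j`. -/
def Ob.S (X : Ob k lam n) (i j : ℕ) : Ob k lam n where
  V := X.V
  y l := X.y (Equiv.swap i j l)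
  x l := X.x l
  d := X.d
  T := X.T
  hyy _ _ := X.hyy _ _
  hxx _ _ := X.hxx _ _
  hxy _ _ := X.hxy _ _
  hdy _ := X.hdy _
  hdx _ := X.hdx _
  hTy _ := X.hTy _
  hTx _ := X.hTx _
  hTd := X.hTd
  ne := X.ne

/-- Exchange of strands: the bottoms and tops relabelled by `σ` (tops) and `ρ` (bottoms). -/
def Ob.rel (X : Ob k lam n) (σ ρ : ℕ → ℕ) : Ob k lam n where
  V := X.V
  y l := X.y (σ l)
  x l := X.x (ρ l)
  d := X.d
  T := X.T
  hyy _ _ := X.hyy _ _
  hxx _ _ := X.hxx _ _
  hxy _ _ := X.hxy _ _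
  hdy _ := X.hdy _
  hdx _ := X.hdx _
  hTy _ := X.hTy _
  hTx _ := X.hTx _
  hTd := X.hTd
  ne := X.ne

/-- Multiplies the grading operator by `c`. -/
def Ob.scal (c : k) (X : Ob k lam n) : Ob k lam n where
  V := X.V
  y := X.y
  x := X.x
  d := X.d
  T := c • X.T
  hyy := X.hyy
  hxx := X.hxx
  hxy := X.hxy
  hdy := X.hdy
  hdx := X.hdx
  hTy i := by rw [smul_mul_assoc, X.hTy, mul_smul_comm, smul_comm]
  hTx i := by rw [smul_mul_assoc, X.hTx, mul_smul_comm, smul_comm]
  hTd := by rw [smul_mul_assoc, X.hTd, mul_smul_comm, smul_comm]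
  ne := X.ne

/-- Changes the sign of the differential. -/
def Ob.neg (X : Ob k lam n) : Ob k lam n where
  V := X.V
  y := X.y
  x := X.x
  d := -X.d
  T := X.T
  hyy := X.hyy
  hxx := X.hxx
  hxy := X.hxy
  hdy i := (X.hdy i).neg_left
  hdx i := (X.hdx i).neg_left
  hTy := X.hTy
  hTx := X.hTx
  hTd := by rw [mul_neg, neg_mul, X.hTd, smul_neg]
  ne := X.ne

/-- Makes the tops and bottoms with labels `≥ m` zero. -/
def Ob.cut (X : Ob k lam n) (m : ℕ) : Ob k lam n where
  V := X.V
  y l := if l < m then X.y l else 0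
  x l := if l < m then X.x l else 0
  d := X.d
  T := X.T
  hyy i j := by
    split_ifs
    exacts [X.hyy _ _, Commute.zero_right _, Commute.zero_left _, Commute.zero_left _]
  hxx i j := by
    split_ifs
    exacts [X.hxx _ _, Commute.zero_right _, Commute.zero_left _, Commute.zero_left _]
  hxy i j := by
    split_ifs
    exacts [X.hxy _ _, Commute.zero_right _, Commute.zero_left _, Commute.zero_left _]
  hdy i := by
    split_ifs
    exacts [X.hdy _, Commute.zero_right _]
  hdx i := by
    split_ifs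
    exacts [X.hdx _, Commute.zero_right _]
  hTy i := by
    split_ifs
    · exact X.hTy i
    · simp
  hTx i := by
    split_ifs
    · exact X.hTx i
    · simp
  hTd := X.hTd
  ne := X.ne

/-- The direct sum of two objects. -/
def Ob.sum (X Y : Ob k lam n) : Ob k lam n where
  V := X.V × Y.V
  y l := (X.y l).prodMap (Y.y l)
  x l := (X.x l).prodMap (Y.x l)
  d := X.d.prodMap Y.d
  T := X.T.prodMap Y.T
  hyy i j := by
    show _ * _ = _ * _
    rw [LinearMap.prodMap_mul, LinearMap.prodMap_mul, (X.hyy i j).eq, (Y.hyy i j).eq]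
  hxx i j := by
    show _ * _ = _ * _
    rw [LinearMap.prodMap_mul, LinearMap.prodMap_mul, (X.hxx i j).eq, (Y.hxx i j).eq]
  hxy i j := by
    show _ * _ = _ * _
    rw [LinearMap.prodMap_mul, LinearMap.prodMap_mul, (X.hxy i j).eq, (Y.hxy i j).eq]
  hdy i := by
    show _ * _ = _ * _
    rw [LinearMap.prodMap_mul, LinearMap.prodMap_mul, (X.hdy i).eq, (Y.hdy i).eq]
  hdx i := by
    show _ * _ = _ * _
    rw [LinearMap.prodMap_mul, LinearMap.prodMap_mul, (X.hdx i).eq, (Y.hdx i).eq]
  hTy i := by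
    rw [LinearMap.prodMap_mul, LinearMap.prodMap_mul, X.hTy, Y.hTy]
    ext p <;> simp
  hTx i := by
    rw [LinearMap.prodMap_mul, LinearMap.prodMap_mul, X.hTx, Y.hTx]
    ext p <;> simp
  hTd := by
    rw [LinearMap.prodMap_mul, LinearMap.prodMap_mul, X.hTd, Y.hTd]
    ext p <;> simp
  ne := X.ne

/-- The unit object `k`. -/
def Ob.unit (n : ℕ) (h : lam ≠ 0) : Ob k lam n where
  V := k
  y _ := 0
  x _ := 0
  d := 0
  T := 1
  hyy _ _ := Commute.zero_left _
  hxx _ _ := Commute.zero_left _
  hxy _ _ := Commute.zero_left _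
  hdy _ := Commute.zero_left _
  hdx _ := Commute.zero_left _
  hTy _ := by simp
  hTx _ := by simp
  hTd := by simp
  ne := h

/-- The sub-object on a subspace stable under all operators. -/
def Ob.sub (X : Ob k lam n) (P : Submodule k X.V) (hy : ∀ l, ∀ v ∈ P, X.y l v ∈ P)
    (hx : ∀ l, ∀ v ∈ P, X.x l v ∈ P) (hd : ∀ v ∈ P, X.d v ∈ P) (hT : ∀ v ∈ P, X.T v ∈ P) :
    Ob k lam n where
  V := P
  y l := (X.y l).restrict (hy l)
  x l := (X.x l).restrict (hx l)
  d := X.d.restrict hd
  T := X.T.restrict hT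
  hyy i j := by
    apply LinearMap.ext; intro v; apply Subtype.ext
    exact LinearMap.congr_fun (X.hyy i j).eq v.1
  hxx i j := by
    apply LinearMap.ext; intro v; apply Subtype.ext
    exact LinearMap.congr_fun (X.hxx i j).eq v.1
  hxy i j := by
    apply LinearMap.ext; intro v; apply Subtype.ext
    exact LinearMap.congr_fun (X.hxy i j).eq v.1
  hdy i := by
    apply LinearMap.ext; intro v; apply Subtype.ext
    exact LinearMap.congr_fun (X.hdy i).eq v.1
  hdx i := by
    apply LinearMap.ext; intro v; apply Subtype.ext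
    exact LinearMap.congr_fun (X.hdx i).eq v.1
  hTy i := by
    apply LinearMap.ext; intro v; apply Subtype.ext
    exact LinearMap.congr_fun (X.hTy i) v.1
  hTx i := by
    apply LinearMap.ext; intro v; apply Subtype.ext
    exact LinearMap.congr_fun (X.hTx i) v.1
  hTd := by
    apply LinearMap.ext; intro v; apply Subtype.ext
    exact LinearMap.congr_fun X.hTd v.1
  ne := X.ne

section News

variable {V W U : Type} [AddCommGroup V] [Module k V] [AddCommGroup W] [Module k W]
  [AddCommGroup U] [Module k U]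

lemma cw_mul (f g : Module.End k V) : cw f * cw g = cw (f * g) := by
  apply Finsupp.lhom_ext; intro i v; simp [Module.End.mul_apply]

lemma cw_smul (c : k) (f : Module.End k V) : cw (c • f) = c • cw f := by
  apply Finsupp.lhom_ext; intro i v; simp

lemma cw_comm {f g : Module.End k V} (h : Commute f g) : Commute (cw f) (cw g) := by
  show _ * _ = _ * _
  rw [cw_mul, cw_mul, h.eq]

lemma cw_sh (f : Module.End k V) : Commute (cw f) (sh (V := V)) := by
  apply Finsupp.lhom_ext; intro i v; simp [Module.End.mul_apply]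

lemma wt_cw (c : k) (f : Module.End k V) : Commute (wt c) (cw f) := by
  apply Finsupp.lhom_ext; intro i v; simp [Module.End.mul_apply]

lemma wt_sh (c : k) : wt c * sh (V := V) = c • (sh * wt c) := by
  apply Finsupp.lhom_ext; intro i v
  simp [Module.End.mul_apply, pow_succ, smul_smul, mul_comm]

end News

/-- The operators of `X.new p`. -/
noncomputable def nop (V : Type) [AddCommGroup V] [Module k V] (p : ℕ)
    (y : ℕ → Module.End k V) (l : ℕ) : Module.End k (ℕ →₀ V) :=
  if l = p then sh else cw (y l)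

lemma nop_comm {V : Type} [AddCommGroup V] [Module k V] (p : ℕ)
    {y x : ℕ → Module.End k V} (h : ∀ i j, Commute (y i) (x j)) (i j : ℕ) :
    Commute (nop V p y i) (nop V p x j) := by
  unfold nop
  split_ifs
  exacts [Commute.refl _, (cw_sh _).symm, cw_sh _, cw_comm (h _ _)]

/-- A new strand `p`: the polynomials in a variable `u` which is both the top and the bottom
`p`. -/
noncomputable def Ob.new (X : Ob k lam n) (p : ℕ) : Ob k lam n where
  V := ℕ →₀ X.V
  y l := nop X.V p X.y l
  x l := nop X.V p X.x l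
  d := cw X.d
  T := wt (lam ^ 2) * cw X.T
  hyy i j := nop_comm p X.hyy i j
  hxx i j := nop_comm p X.hxx i j
  hxy i j := nop_comm p X.hxy i j
  hdy i := by
    unfold nop
    split_ifs
    exacts [cw_sh _, cw_comm (X.hdy i)]
  hdx i := by
    unfold nop
    split_ifs
    exacts [cw_sh _, cw_comm (X.hdx i)]
  hTy i := by
    unfold nop
    split_ifs
    · rw [mul_assoc, (cw_sh _).eq, ← mul_assoc, wt_sh, smul_mul_assoc, mul_assoc]
    · rw [mul_assoc, cw_mul, X.hTy, cw_smul, mul_smul_comm, ← cw_mul, ← mul_assoc, (wt_cw _ _).eq,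
        mul_assoc]
  hTx i := by
    unfold nop
    split_ifs
    · rw [mul_assoc, (cw_sh _).eq, ← mul_assoc, wt_sh, smul_mul_assoc, mul_assoc]
    · rw [mul_assoc, cw_mul, X.hTx, cw_smul, mul_smul_comm, ← cw_mul, ← mul_assoc, (wt_cw _ _).eq,
        mul_assoc]
  hTd := by
    rw [mul_assoc, cw_mul, X.hTd, cw_smul, mul_smul_comm, ← cw_mul, ← mul_assoc, (wt_cw _ _).eq,
      mul_assoc]
  ne := X.ne

/-- `r` copies of `X`, with the sign of `d` changed, the `i`-th copy with weight
`c * (lam ^ 2) ^ i`. -/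
def Ob.pw (X : Ob k lam n) (r : ℕ) (c : k) : Ob k lam n where
  V := Fin r → X.V
  y l := LinearMap.pi fun i => (X.y l).comp (LinearMap.proj i)
  x l := LinearMap.pi fun i => (X.x l).comp (LinearMap.proj i)
  d := LinearMap.pi fun i => -(X.d.comp (LinearMap.proj i))
  T := LinearMap.pi fun i => (c * (lam ^ 2) ^ (i : ℕ)) • (X.T.comp (LinearMap.proj i))
  hyy a b := by
    apply LinearMap.ext; intro v; funext i
    exact LinearMap.congr_fun (X.hyy a b).eq (v i)
  hxx a b := by
    apply LinearMap.ext; intro v; funext i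
    exact LinearMap.congr_fun (X.hxx a b).eq (v i)
  hxy a b := by
    apply LinearMap.ext; intro v; funext i
    exact LinearMap.congr_fun (X.hxy a b).eq (v i)
  hdy a := by
    apply LinearMap.ext; intro v; funext i
    exact LinearMap.congr_fun (X.hdy a).neg_left.eq (v i)
  hdx a := by
    apply LinearMap.ext; intro v; funext i
    exact LinearMap.congr_fun (X.hdx a).neg_left.eq (v i)
  hTy a := by
    apply LinearMap.ext; intro v; funext i
    have h := LinearMap.congr_fun (X.hTy a) (v i)
    simp only [Module.End.mul_apply, LinearMap.smul_apply] at h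
    simp [Module.End.mul_apply, h, smul_smul, mul_comm]
  hTx a := by
    apply LinearMap.ext; intro v; funext i
    have h := LinearMap.congr_fun (X.hTx a) (v i)
    simp only [Module.End.mul_apply, LinearMap.smul_apply] at h
    simp [Module.End.mul_apply, h, smul_smul, mul_comm]
  hTd := by
    apply LinearMap.ext; intro v; funext i
    have h := LinearMap.congr_fun X.hTd (v i)
    simp only [Module.End.mul_apply, LinearMap.smul_apply] at h
    simp [Module.End.mul_apply, h, smul_smul, mul_comm]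
  ne := X.ne

/-- Replaces top and bottom `l` by the top `l - m`, for `m + s ≤ l < 2 m`. -/
def Ob.upd (X : Ob k lam n) (m s : ℕ) : Ob k lam n where
  V := X.V
  y l := if m + s ≤ l ∧ l < 2 * m then X.y (l - m) else X.y l
  x l := if m + s ≤ l ∧ l < 2 * m then X.y (l - m) else X.x l
  d := X.d
  T := X.T
  hyy i j := by split_ifs <;> exact X.hyy _ _
  hxx i j := by
    split_ifs
    exacts [X.hyy _ _, (X.hxy _ _).symm, X.hxy _ _, X.hxx _ _]
  hxy i j := by
    split_ifs
    exacts [X.hyy _ _, X.hyy _ _, X.hxy _ _, X.hxy _ _]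
  hdy i := by split_ifs <;> exact X.hdy _
  hdx i := by
    split_ifs
    exacts [X.hdy _, X.hdx _]
  hTy i := by split_ifs <;> exact X.hTy _
  hTx i := by
    split_ifs
    exacts [X.hTy _, X.hTx _]
  hTd := X.hTd
  ne := X.ne

/-- Replaces the top `q` and the bottom `q` by the top `t`. -/
def Ob.upd1 (X : Ob k lam n) (q t : ℕ) : Ob k lam n where
  V := X.V
  y l := if l = q then X.y t else X.y l
  x l := if l = q then X.y t else X.x l
  d := X.d
  T := X.T
  hyy i j := by split_ifs <;> exact X.hyy _ _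
  hxx i j := by
    split_ifs
    exacts [X.hyy _ _, (X.hxy _ _).symm, X.hxy _ _, X.hxx _ _]
  hxy i j := by
    split_ifs
    exacts [X.hyy _ _, X.hyy _ _, X.hxy _ _, X.hxy _ _]
  hdy i := by split_ifs <;> exact X.hdy _
  hdx i := by
    split_ifs
    exacts [X.hdy _, X.hdx _]
  hTy i := by split_ifs <;> exact X.hTy _
  hTx i := by
    split_ifs
    exacts [X.hTy _, X.hTx _]
  hTd := X.hTd
  ne := X.ne

lemma conj_mul' {V W : Type} [AddCommGroup V] [Module k V] [AddCommGroup W] [Module k W]
    (e : V ≃ₗ[k] W) (f g : Module.End k V) : e.conj (f * g) = e.conj f * e.conj g := by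
  apply LinearMap.ext; intro v
  simp [LinearEquiv.conj_apply, Module.End.mul_apply]

/-- Transport along a linear equivalence. -/
def Ob.tp (X : Ob k lam n) {W : Type} [AddCommGroup W] [Module k W] (e : X.V ≃ₗ[k] W) :
    Ob k lam n where
  V := W
  y l := e.conj (X.y l)
  x l := e.conj (X.x l)
  d := e.conj X.d
  T := e.conj X.T
  hyy i j := by
    show _ * _ = _ * _
    rw [← conj_mul', ← conj_mul', (X.hyy i j).eq]
  hxx i j := by
    show _ * _ = _ * _
    rw [← conj_mul', ← conj_mul', (X.hxx i j).eq]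
  hxy i j := by
    show _ * _ = _ * _
    rw [← conj_mul', ← conj_mul', (X.hxy i j).eq]
  hdy i := by
    show _ * _ = _ * _
    rw [← conj_mul', ← conj_mul', (X.hdy i).eq]
  hdx i := by
    show _ * _ = _ * _
    rw [← conj_mul', ← conj_mul', (X.hdx i).eq]
  hTy i := by
    rw [← conj_mul', ← conj_mul', X.hTy, map_smul]
  hTx i := by
    rw [← conj_mul', ← conj_mul', X.hTx, map_smul]
  hTd := by
    rw [← conj_mul', ← conj_mul', X.hTd, map_smul]
  ne := X.ne

/-! ### homology -/

lemma Ob.T_ker (X : Ob k lam n) : ∀ v ∈ LinearMap.ker X.d, X.T v ∈ LinearMap.ker X.d := by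
  intro v hv
  rw [LinearMap.mem_ker] at hv ⊢
  have h := LinearMap.congr_fun X.hTd v
  simp only [Module.End.mul_apply, LinearMap.smul_apply, hv, map_zero] at h
  have h2 : lam ^ (n + 1) ≠ 0 := pow_ne_zero _ X.ne
  exact (smul_eq_zero.mp h.symm).resolve_left h2

/-- The homology. -/
def Ob.H (X : Ob k lam n) : Type :=
  (LinearMap.ker X.d) ⧸ (LinearMap.range X.d).comap (LinearMap.ker X.d).subtype

instance (X : Ob k lam n) : AddCommGroup X.H :=
  inferInstanceAs (AddCommGroup ((LinearMap.ker X.d) ⧸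
    (LinearMap.range X.d).comap (LinearMap.ker X.d).subtype))

instance (X : Ob k lam n) : Module k X.H :=
  inferInstanceAs (Module k ((LinearMap.ker X.d) ⧸
    (LinearMap.range X.d).comap (LinearMap.ker X.d).subtype))

/-- The class of a cycle. -/
def Ob.cla (X : Ob k lam n) : LinearMap.ker X.d →ₗ[k] X.H :=
  ((LinearMap.range X.d).comap (LinearMap.ker X.d).subtype).mkQ

/-- The operator induced by `T` on homology. -/
def Ob.TH (X : Ob k lam n) : Module.End k X.H :=
  Submodule.mapQ _ _ (X.T.restrict X.T_ker) (by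
    rintro ⟨v, hv⟩ h
    obtain ⟨w, hw⟩ := h
    refine ⟨lam ^ (n + 1) • X.T w, ?_⟩
    have h2 := LinearMap.congr_fun X.hTd w
    simp only [Module.End.mul_apply, LinearMap.smul_apply] at h2
    rw [map_smul, ← h2, hw]
    rfl)

/-- The graded dimension: the trace of `T` on homology. -/
noncomputable def Ob.tau (X : Ob k lam n) : k := LinearMap.trace k X.H X.TH

/-- The closings of a list of pairs (top, bottom), the head first. -/
def Ob.cls (X : Ob k lam n) : List (ℕ × ℕ) → Ob k lam n
  | [] => X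
  | p :: L => (X.cl p.1 p.2).cls L

/-- `(X.cls L).d` squares to zero. -/
def Flat (X : Ob k lam n) (L : List (ℕ × ℕ)) : Prop := (X.cls L).d * (X.cls L).d = 0

/-- Isomorphism of objects, with respect to the labels in `A`. -/
def Iso (A : Set ℕ) (X Y : Ob k lam n) : Prop :=
  ∃ e : X.V ≃ₗ[k] Y.V, (∀ l ∈ A, ∀ v, e (X.y l v) = Y.y l (e v)) ∧
    (∀ l ∈ A, ∀ v, e (X.x l v) = Y.x l (e v)) ∧ (∀ v, e (X.d v) = Y.d (e v)) ∧
    ∀ v, e (X.T v) = Y.T (e v)

/-- Morphisms of objects, with respect to the labels in `A`. -/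
def Mor (A : Set ℕ) (X Y : Ob k lam n) (f : X.V →ₗ[k] Y.V) : Prop :=
  (∀ l ∈ A, ∀ v, f (X.y l v) = Y.y l (f v)) ∧
    (∀ l ∈ A, ∀ v, f (X.x l v) = Y.x l (f v)) ∧ (∀ v, f (X.d v) = Y.d (f v)) ∧
    ∀ v, f (X.T v) = Y.T (f v)

/-- The homologies are isomorphic, compatibly with `T`. -/
def HQ (X Y : Ob k lam n) : Prop := ∃ e : X.H ≃ₗ[k] Y.H, ∀ h, e (X.TH h) = Y.TH (e h)

/-- The homologies after the closings `L` are isomorphic, compatibly with `T`. -/
def HE (X Y : Ob k lam n) (L : List (ℕ × ℕ)) : Prop := HQ (X.cls L) (Y.cls L)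

/-- A subspace stable under `d` and the operators with labels in `A`. -/
def St (A : Set ℕ) (X : Ob k lam n) (P : Submodule k X.V) : Prop :=
  (∀ l ∈ A, ∀ v ∈ P, X.y l v ∈ P) ∧ (∀ l ∈ A, ∀ v ∈ P, X.x l v ∈ P) ∧ ∀ v ∈ P, X.d v ∈ P

/-- `Q / P` is contractible by a homotopy commuting with the operators with labels in `A`. -/
def Ctr (A : Set ℕ) (X : Ob k lam n) (P Q : Submodule k X.V) : Prop :=
  P ≤ Q ∧ St A X P ∧ St A X Q ∧ ∃ h : Module.End k X.V, (∀ v ∈ Q, h v ∈ Q) ∧ (∀ v ∈ P, h v ∈ P) ∧
    (∀ v ∈ Q, X.d (h v) + h (X.d v) - v ∈ P) ∧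
    (∀ l ∈ A, ∀ v ∈ Q, h (X.y l v) - X.y l (h v) ∈ P) ∧
    (∀ l ∈ A, ∀ v ∈ Q, h (X.x l v) - X.x l (h v) ∈ P)

/-- `Q / P` is filtered by contractible objects. -/
def Fil (A : Set ℕ) (X : Ob k lam n) (P Q : Submodule k X.V) : Prop :=
  Relation.ReflTransGen (Ctr A X) P Q

/-- `f` is the quotient by the injective operator `y t - x q`. -/
def Con (X Y : Ob k lam n) (t q : ℕ) (f : X.V →ₗ[k] Y.V) : Prop :=
  Mor Set.univ X Y f ∧ Function.Surjective f ∧ (∀ v, f (X.y t v - X.x q v) = 0) ∧
    (∀ v, f v = 0 → ∃ w, X.y t w - X.x q w = v) ∧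
    ∀ v, X.y t v - X.x q v = 0 → v = 0

end Obj

section Words

variable {k : Type} [Field k] {lam : k} {n : ℕ}

/-- Relabelling of letters. -/
def Lt.map (f : ℕ → ℕ) : Lt → Lt
  | .E i j => .E (f i) (f j)
  | .S i j => .S (f i) (f j)

/-- A letter on the strands `0, ..., m - 1`. -/
def Lt.ok (m : ℕ) : Lt → Prop
  | .E i j => i < m ∧ j < m ∧ i ≠ j
  | .S i j => i < m ∧ j < m

/-- A word on the strands `0, ..., m - 1`. -/
def Ok (m : ℕ) (w : List Lt) : Prop := ∀ a ∈ w, a.ok m

/-- Application of a letter on the top. -/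
def Ob.app (X : Ob k lam n) : Lt → Ob k lam n
  | .E i j => X.E i j
  | .S i j => X.S i j

/-- Application of a word on the top (the last letter first). -/
def word (w : List Lt) (X : Ob k lam n) : Ob k lam n := w.foldr (fun a Y => Y.app a) X

/-- The identity on the strands `0, ..., m - 1`. -/
noncomputable def base (n : ℕ) (h : lam ≠ 0) : ℕ → Ob k lam n
  | 0 => Ob.unit n h
  | m + 1 => (base n h m).new m

/-- The list `(m-1, m-1), ..., (0, 0)`. -/
def clist : ℕ → List (ℕ × ℕ)
  | 0 => []
  | m + 1 => (m, m) :: clist m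

/-- New strands `m, ..., m + s - 1`. -/
noncomputable def news (X : Ob k lam n) (m : ℕ) : ℕ → Ob k lam n
  | 0 => X
  | s + 1 => (news X m s).new (m + s)

/-- New strands with the labels of a list (the last one first). -/
noncomputable def newl (X : Ob k lam n) : List ℕ → Ob k lam n
  | [] => X
  | p :: L => (newl X L).new p

/-- The exchange of the blocks `0, ..., m - 1` and `m, ..., 2 m - 1`. -/
def bsw (m l : ℕ) : ℕ := if l < m then m + l else if l < 2 * m then l - m else l

/-- Finite generation over the bottoms `0, ..., m - 1`. -/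
def FG (X : Ob k lam n) (m : ℕ) : Prop :=
  ∃ s : Finset X.V, ∀ p : Submodule k X.V, (∀ v ∈ s, v ∈ p) →
    (∀ j < m, ∀ v ∈ p, X.x j v ∈ p) → p = ⊤

/-- The trace functional. -/
noncomputable def trw (n : ℕ) (h : lam ≠ 0) (m : ℕ) (w : List Lt) : k :=
  ((word w (base n h m)).cls (clist m)).tau

/-- The quantum integer `[r] = lam ^ (1 - r) + lam ^ (3 - r) + ... + lam ^ (r - 1)`. -/
def qint (lam : k) (r : ℕ) : k := lam * (lam⁻¹) ^ r * ∑ i ∈ Finset.range r, (lam ^ 2) ^ i

/-- The properties of the trace functional. -/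
structure TraceSys (k : Type) [Field k] (lam : k) (n : ℕ) where
  tr : ℕ → List Lt → k
  one : tr 0 [] = 1
  cyc : ∀ m u v, Ok m u → Ok m v → tr m (u ++ v) = tr m (v ++ u)
  ss : ∀ m i j w, i < m → j < m → Ok m w → tr m (.S i j :: .S i j :: w) = tr m w
  sl : ∀ m i j a w, i < m → j < m → Lt.ok m a → Ok m w →
    tr m (.S i j :: a :: w) = tr m (a.map (Equiv.swap i j) :: .S i j :: w)
  ee : ∀ m i j a b w, i < m → j < m → a < m → b < m → i ≠ j → a ≠ b → i ≠ a → i ≠ b → j ≠ a →
    j ≠ b → Ok m w → tr m (.E i j :: .E a b :: w) = tr m (.E a b :: .E i j :: w)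
  es : ∀ m i j w, i < m → j < m → i ≠ j → Ok m w → tr m (.E i j :: .S i j :: w) = tr m (.E i j :: w)
  esym : ∀ m i j w, i < m → j < m → i ≠ j → Ok m w → tr m (.E i j :: w) = tr m (.E j i :: w)
  ssym : ∀ m i j w, i < m → j < m → Ok m w → tr m (.S i j :: w) = tr m (.S j i :: w)
  e2 : ∀ m i j w, i < m → j < m → i ≠ j → Ok m w →
    tr m (.E i j :: .E i j :: w) = (lam + lam⁻¹) * tr m (.E i j :: w)
  tri : ∀ m i j l w, i < m → j < m → l < m → i ≠ j → i ≠ l → j ≠ l → Ok m w →
    tr m (.E i j :: .E j l :: .E i j :: w) + tr m (.E j l :: w) =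
      tr m (.E j l :: .E i j :: .E j l :: w) + tr m (.E i j :: w)
  add : ∀ m w, Ok m w → tr (m + 1) w = qint lam n * tr m w
  addS : ∀ m j w, j < m → Ok m w → tr (m + 1) (.S j m :: w) = tr m w
  addE : ∀ m j w, j < m → Ok m w → tr (m + 1) (.E j m :: w) = qint lam (n - 1) * tr m w
  addEE : ∀ m i j w, i < m → j < m → i ≠ j → Ok m w →
    tr (m + 1) (.E i m :: .E j m :: w) = qint lam (n - 2) * tr m w + tr m (.S i j :: w)

end Words

end ZM
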