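import Pool.Agent.H75.ZM.Pw

/-!
# The digon (row ZM E2)

Proof.  The linear equivalence `((v00, v10), (v01, v11)) ↦ ((v00, v01), (v10, v11))` is an
isomorphism of `(X.E i j).E i j` with the sum of `(X.E i j).scal lam⁻¹` and `(X.E i j).scal lam`
(`LinearEquiv.prodProdProdComm`): for `t = thOp (y i) (y j)`, `s = dg (y i + y j)` one has
`t + (s - t) = s` and `t * (s - t) = dg (y i * y j)`, so on `(X.E i j).E i j` the new root acts by
`(u0, u1) ↦ (- dg (y i y j) u1, u0 + s u1)`.  Then `sum_tau`, `scal_tau`; finiteness of the homology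
of the closings of `X.E i j` is a hypothesis.
-/

namespace ZM

variable {k : Type} [Field k] {lam : k} {n : ℕ}

lemma E2_th0 {V : Type} [AddCommGroup V] [Module k V] (p q : Module.End k V) (v : V × V) :
    thOp p q v = (-(p (q v.2)), v.1 + (p v.2 + q v.2)) := by
  unfold thOp
  rw [blk_apply]
  refine Prod.ext ?_ ?_ <;> simp

lemma E2_yi (X : Ob k lam n) (i j : ℕ) (v : X.V × X.V) :
    X.yE i j i v = (-(X.y i (X.y j v.2)), v.1 + (X.y i v.2 + X.y j v.2)) := by
  unfold Ob.yE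
  rw [if_pos rfl, E2_th0]

lemma E2_yj (X : Ob k lam n) {i j : ℕ} (h : i ≠ j) (v : X.V × X.V) :
    X.yE i j j v = (X.y i v.1 + X.y j v.1 + X.y i (X.y j v.2), -v.1) := by
  unfold Ob.yE
  rw [if_neg (Ne.symm h), if_pos rfl, LinearMap.sub_apply, E2_th0, dg_apply]
  refine Prod.ext ?_ ?_
  · simp
  · simp

lemma E2_yl (X : Ob k lam n) {i j l : ℕ} (h : l ≠ i) (h' : l ≠ j) (v : X.V × X.V) :
    X.yE i j l v = (X.y l v.1, X.y l v.2) := by
  unfold Ob.yE
  rw [if_neg h, if_neg h', dg_apply]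

lemma E2_sum (X : Ob k lam n) {i j : ℕ} (h : i ≠ j) (v : X.V × X.V) :
    X.yE i j i v + X.yE i j j v = (X.y i v.1 + X.y j v.1, X.y i v.2 + X.y j v.2) := by
  rw [E2_yi, E2_yj X h]
  refine Prod.ext ?_ ?_
  · show -(X.y i (X.y j v.2)) + (X.y i v.1 + X.y j v.1 + X.y i (X.y j v.2)) = _
    abel
  · show v.1 + (X.y i v.2 + X.y j v.2) + -v.1 = _
    abel

lemma E2_prod (X : Ob k lam n) {i j : ℕ} (h : i ≠ j) (v : X.V × X.V) :
    X.yE i j i (X.yE i j j v) = (X.y i (X.y j v.1), X.y i (X.y j v.2)) := by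
  rw [E2_yj X h, E2_yi]
  refine Prod.ext ?_ ?_
  · show -(X.y i (X.y j (-v.1))) = _
    rw [map_neg, map_neg, neg_neg]
  · show X.y i v.1 + X.y j v.1 + X.y i (X.y j v.2) + (X.y i (-v.1) + X.y j (-v.1)) = _
    rw [map_neg, map_neg]
    abel

lemma E2_top (X : Ob k lam n) {i j : ℕ} (h : i ≠ j) (l : ℕ) (a b c d : X.V) :
    ((((X.E i j).yE i j l ((a, b), (c, d))).1 : X.V × X.V).1, (((X.E i j).yE i j l
      ((a, b), (c, d))).2 : X.V × X.V).1) = X.yE i j l (a, c) ∧
    ((((X.E i j).yE i j l ((a, b), (c, d))).1 : X.V × X.V).2, (((X.E i j).yE i j l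
      ((a, b), (c, d))).2 : X.V × X.V).2) = X.yE i j l (b, d) := by
  by_cases hi : l = i
  · subst hi
    have hp := E2_prod X h (c, d)
    have hs := E2_sum X h (c, d)
    have e1 := E2_yi (X.E l j) l j ((a, b), (c, d))
    rw [e1, E2_yi, E2_yi]
    constructor
    · refine Prod.ext ?_ ?_
      · show -((X.yE l j l (X.yE l j j (c, d))).1) = -(X.y l (X.y j c))
        rw [hp]
      · show a + (X.yE l j l (c, d) + X.yE l j j (c, d)).1 = a + (X.y l c + X.y j c)
        rw [hs]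
    · refine Prod.ext ?_ ?_
      · show -((X.yE l j l (X.yE l j j (c, d))).2) = -(X.y l (X.y j d))
        rw [hp]
      · show b + (X.yE l j l (c, d) + X.yE l j j (c, d)).2 = b + (X.y l d + X.y j d)
        rw [hs]
  · by_cases hj : l = j
    · subst hj
      have hp := E2_prod X h (c, d)
      have hs := E2_sum X h (a, b)
      have e1 := E2_yj (X.E i l) h ((a, b), (c, d))
      rw [e1, E2_yj X h, E2_yj X h]
      constructor
      · refine Prod.ext ?_ ?_
        · show (X.yE i l i (a, b) + X.yE i l l (a, b)).1 + (X.yE i l i (X.yE i l l (c, d))).1 =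
            X.y i a + X.y l a + X.y i (X.y l c)
          rw [hp, hs]
        · rfl
      · refine Prod.ext ?_ ?_
        · show (X.yE i l i (a, b) + X.yE i l l (a, b)).2 + (X.yE i l i (X.yE i l l (c, d))).2 =
            X.y i b + X.y l b + X.y i (X.y l d)
          rw [hp, hs]
        · rfl
    · have e1 := E2_yl (X.E i j) hi hj ((a, b), (c, d))
      have e2 := E2_yl X hi hj (a, b)
      have e3 := E2_yl X hi hj (c, d)
      rw [e1, E2_yl X hi hj, E2_yl X hi hj]
      constructor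
      · refine Prod.ext ?_ ?_
        · show (X.yE i j l (a, b)).1 = _
          rw [e2]
        · show (X.yE i j l (c, d)).1 = _
          rw [e3]
      · refine Prod.ext ?_ ?_
        · show (X.yE i j l (a, b)).2 = _
          rw [e2]
        · show (X.yE i j l (c, d)).2 = _
          rw [e3]

lemma E_E_self (X : Ob k lam n) {i j : ℕ} (h : i ≠ j) :
    Iso Set.univ ((X.E i j).E i j) (((X.E i j).scal lam⁻¹).sum ((X.E i j).scal lam)) := by
  refine ⟨LinearEquiv.prodProdProdComm k X.V X.V X.V X.V, ?_, ?_, ?_, ?_⟩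
  · rintro l - ⟨⟨a, b⟩, ⟨c, d⟩⟩
    obtain ⟨h1, h2⟩ := E2_top X h l a b c d
    exact Prod.ext h1 h2
  · rintro l - ⟨⟨a, b⟩, ⟨c, d⟩⟩
    rfl
  · rintro ⟨⟨a, b⟩, ⟨c, d⟩⟩
    rfl
  · rintro ⟨⟨a, b⟩, ⟨c, d⟩⟩
    refine Prod.ext (Prod.ext ?_ ?_) (Prod.ext ?_ ?_)
    · rfl
    · show lam • lam⁻¹ • X.T c = lam⁻¹ • lam • X.T c
      rw [smul_comm]
    · show lam⁻¹ • lam • X.T b = lam • lam⁻¹ • X.T b
      rw [smul_comm]
    · rfl

theorem E2_tau (X : Ob k lam n) {i j : ℕ} (h : i ≠ j) (L : List (ℕ × ℕ))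
    (hfin : Module.Finite k ((X.E i j).cls L).H) :
    (((X.E i j).E i j).cls L).tau = (lam + lam⁻¹) * ((X.E i j).cls L).tau := by
  have h1 := (E_E_self X h).he (L := L) (fun a _ => ⟨Set.mem_univ _, Set.mem_univ _⟩)
  rw [h1.tau, sum_tau _ _ _ (scal_fin _ _ _ hfin) (scal_fin _ _ _ hfin), scal_tau, scal_tau]
  ring

end ZM
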