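import Pool.Agent.H75.ZM.Hb

/-!
# Finite generation of words (row ZM Fin1)

`FG X m`: there is a finite set `s` such that the only subspace of `X.V` containing `s` and stable
under `x j`, `j < m`, is everything.

Proofs.  For `E` and `cl` (space `X.V × X.V`, bottoms `dg (x j)`): take
`s' = s × {0} ∪ {0} × s`; for a subspace `p` of `X.V × X.V` use `p.comap (LinearMap.inl ..)` and
`p.comap (LinearMap.inr ..)`.  `S`: the same.  `new m`: `V = ℕ →₀ X.V`,
`s' = {single 0 v | v ∈ s}`; `p.comap (lsingle 0) = ⊤` by the stability under `x j = cw (x j)` for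
`j < m`, and then `single i v ∈ p` by induction on `i` with `x m = sh`.
-/

namespace ZM

variable {k : Type} [Field k] {lam : k} {n : ℕ}

lemma fin1_prod {V : Type} [AddCommGroup V] [Module k V] (x : ℕ → Module.End k V) (m : ℕ)
    (h : ∃ s : Finset V, ∀ p : Submodule k V, (∀ v ∈ s, v ∈ p) →
      (∀ j < m, ∀ v ∈ p, x j v ∈ p) → p = ⊤) :
    ∃ s : Finset (V × V), ∀ p : Submodule k (V × V), (∀ v ∈ s, v ∈ p) →
      (∀ j < m, ∀ v ∈ p, dg (x j) v ∈ p) → p = ⊤ := by
  classical
  obtain ⟨s, hs⟩ := h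
  refine ⟨s.image (fun v => (v, (0 : V))) ∪ s.image (fun v => ((0 : V), v)), fun p hp hx => ?_⟩
  have h1 : p.comap (LinearMap.inl k V V) = ⊤ := by
    refine hs _ (fun v hv => ?_) (fun j hj v hv => ?_)
    · exact hp _ (Finset.mem_union_left _ (Finset.mem_image_of_mem _ hv))
    · have := hx j hj _ hv
      simp only [LinearMap.inl_apply, dg_apply, map_zero] at this
      exact this
  have h2 : p.comap (LinearMap.inr k V V) = ⊤ := by
    refine hs _ (fun v hv => ?_) (fun j hj v hv => ?_)
    · exact hp _ (Finset.mem_union_right _ (Finset.mem_image_of_mem _ hv))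
    · have := hx j hj _ hv
      simp only [LinearMap.inr_apply, dg_apply, map_zero] at this
      exact this
  rw [eq_top_iff]
  rintro ⟨a, b⟩ -
  have ha : a ∈ p.comap (LinearMap.inl k V V) := h1 ▸ Submodule.mem_top
  have hb : b ∈ p.comap (LinearMap.inr k V V) := h2 ▸ Submodule.mem_top
  have hab := p.add_mem ha hb
  simp only [LinearMap.inl_apply, LinearMap.inr_apply, Prod.mk_add_mk, add_zero, zero_add] at hab
  exact hab

lemma FG_E {X : Ob k lam n} {m : ℕ} (h : FG X m) (i j : ℕ) : FG (X.E i j) m :=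
  fin1_prod X.x m h

lemma FG_S {X : Ob k lam n} {m : ℕ} (h : FG X m) (i j : ℕ) : FG (X.S i j) m := h

lemma FG_cl {X : Ob k lam n} {m : ℕ} (h : FG X m) (p r : ℕ) : FG (X.cl p r) m :=
  fin1_prod X.x m h

lemma fin1_new {V : Type} [AddCommGroup V] [Module k V] (x : ℕ → Module.End k V) (m : ℕ)
    (h : ∃ s : Finset V, ∀ p : Submodule k V, (∀ v ∈ s, v ∈ p) →
      (∀ j < m, ∀ v ∈ p, x j v ∈ p) → p = ⊤) :
    ∃ s : Finset (ℕ →₀ V), ∀ p : Submodule k (ℕ →₀ V), (∀ v ∈ s, v ∈ p) →
      (∀ j < m + 1, ∀ v ∈ p, nop V m x j v ∈ p) → p = ⊤ := by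
  classical
  obtain ⟨s, hs⟩ := h
  refine ⟨s.image (fun v => Finsupp.single 0 v), fun p hp hx => ?_⟩
  have h1 : p.comap (Finsupp.lsingle 0 : V →ₗ[k] (ℕ →₀ V)) = ⊤ := by
    refine hs _ (fun v hv => ?_) (fun j hj v hv => ?_)
    · exact hp _ (Finset.mem_image_of_mem _ hv)
    · have := hx j (by omega) _ hv
      simp only [nop, if_neg hj.ne, Finsupp.lsingle_apply, cw_single] at this
      exact this
  have h2 : ∀ (i : ℕ) (v : V), Finsupp.single i v ∈ p := by
    intro i
    induction i with
    | zero =>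
      intro v
      have hv : v ∈ p.comap (Finsupp.lsingle 0 : V →ₗ[k] (ℕ →₀ V)) := h1 ▸ Submodule.mem_top
      exact hv
    | succ i ih =>
      intro v
      have := hx m (by omega) _ (ih v)
      simp only [nop, if_true, sh_single] at this
      exact this
  rw [eq_top_iff]
  intro f _
  induction f using Finsupp.induction_linear with
  | zero => exact p.zero_mem
  | add f g hf hg => exact p.add_mem (hf trivial) (hg trivial)
  | single i v => exact h2 i v

lemma FG_new {X : Ob k lam n} {m : ℕ} (h : FG X m) : FG (X.new m) (m + 1) :=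
  fin1_new X.x m h

lemma fin1_base (hne : lam ≠ 0) (m : ℕ) : FG (base n hne m) m := by
  induction m with
  | zero =>
    refine ⟨{(1 : k)}, fun p hp _ => ?_⟩
    have h1 : (1 : k) ∈ p := hp _ (Finset.mem_singleton_self _)
    rw [eq_top_iff]
    intro (a : k) _
    have h2 := p.smul_mem a h1
    have h3 : a • (1 : k) = a := by rw [smul_eq_mul, mul_one]
    exact h3 ▸ h2
  | succ m ih => exact FG_new ih

lemma fin1_word {X : Ob k lam n} {m : ℕ} (h : FG X m) (w : List Lt) : FG (word w X) m := by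
  induction w with
  | nil => exact h
  | cons a w ih =>
    cases a with
    | E i j => exact FG_E ih i j
    | S i j => exact FG_S ih i j

lemma fin1_cls {m : ℕ} (L : List (ℕ × ℕ)) : ∀ {X : Ob k lam n}, FG X m → FG (X.cls L) m := by
  induction L with
  | nil => exact fun h => h
  | cons a L ih => exact fun h => ih (FG_cl h a.1 a.2)

theorem FG_word (hne : lam ≠ 0) (m : ℕ) (w : List Lt) (L : List (ℕ × ℕ)) :
    FG ((word w (base n hne m)).cls L) m :=
  fin1_cls L (fin1_word (fin1_base hne m) w)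

end ZM
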