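import Pool.Agent.H75.ZM.Hb

/-!
# Finiteness of the homology (row ZM Fin2)

Proof.  Let `S = Algebra.adjoin k {x j | j < m}`, a commutative subalgebra of `Module.End k X.V`
(`Algebra.adjoinCommRingOfComm` with `X.hxx`), which acts on `X.V`; it is a finitely generated
commutative `k`-algebra, hence Noetherian, and `X.V` is a finite `S`-module by `FG`.  `X.d` is
`S`-linear, so `ker X.d` is a finite `S`-module: there are finitely many cycles
`c_1, ..., c_r` such that every cycle is a combination of them with coefficients in `S`.  As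
`x j ^ N` maps cycles to boundaries and `x j` preserves cycles and boundaries, each cycle is, modulo
boundaries, a `k`-combination of the finitely many `x_0 ^ e_0 ... x_{m-1} ^ e_{m-1} c_i` with
`e_j < N`.  (Alternatively, let `J` be the ideal of `S` of the operators mapping cycles to
boundaries: `S / J` is finite dimensional, being generated by commuting nilpotent elements, and
`X.H` is a quotient of a finite `S / J`-module.)
-/

namespace ZM

variable {k : Type} [Field k] {lam : k} {n : ℕ}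

open scoped IsMulCommutative in
lemma fin2_hom {V : Type} [AddCommGroup V] [Module k V] (m : ℕ) (x : Fin m → Module.End k V)
    (hx : ∀ i j, Commute (x i) (x j)) :
    ∃ φ : MvPolynomial (Fin m) k →ₐ[k] Module.End k V, ∀ j, φ (MvPolynomial.X j) = x j := by
  have hcomm : ∀ a ∈ Set.range x, ∀ b ∈ Set.range x, a * b = b * a := by
    rintro _ ⟨i, rfl⟩ _ ⟨j, rfl⟩
    exact hx i j
  have := Algebra.isMulCommutative_adjoin k hcomm
  let ψ : MvPolynomial (Fin m) k →ₐ[k] Algebra.adjoin k (Set.range x) :=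
    MvPolynomial.aeval (fun j => ⟨x j, Algebra.subset_adjoin ⟨j, rfl⟩⟩)
  refine ⟨(Subalgebra.val _).comp ψ, fun j => ?_⟩
  rw [AlgHom.comp_apply]
  have : ψ (MvPolynomial.X j) = ⟨x j, Algebra.subset_adjoin ⟨j, rfl⟩⟩ := MvPolynomial.aeval_X _ _
  rw [this]
  rfl

section fin2gen

variable {S V : Type} [CommRing S] [Algebra k S] [AddCommGroup V] [Module k V] [Module S V]
  [IsScalarTower k S V]

/-- The ideal of the scalars mapping cycles to boundaries. -/
def fin2_J (d : V →ₗ[S] V) : Ideal S where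
  carrier := {s | ∀ v, d v = 0 → ∃ w, s • v = d w}
  add_mem' := by
    intro a b ha hb v hv
    obtain ⟨w, hw⟩ := ha v hv
    obtain ⟨w', hw'⟩ := hb v hv
    exact ⟨w + w', by rw [add_smul, hw, hw', map_add]⟩
  zero_mem' := fun v _ => ⟨0, by rw [zero_smul, map_zero]⟩
  smul_mem' := by
    intro c a ha v hv
    obtain ⟨w, hw⟩ := ha v hv
    exact ⟨c • w, by rw [smul_eq_mul, mul_smul, hw, map_smul]⟩

lemma fin2_quot {m : ℕ} (g : Fin m → S) (hg : Algebra.adjoin k (Set.range g) = ⊤) (J : Ideal S)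
    (N : ℕ) (hN : ∀ j, g j ^ N ∈ J) : Module.Finite k (S ⧸ J) := by
  have hs : Function.Surjective (Ideal.Quotient.mkₐ k J) := Ideal.Quotient.mkₐ_surjective k J
  have htop : Algebra.adjoin k (Set.range fun j => Ideal.Quotient.mkₐ k J (g j)) = ⊤ := by
    have h1 : (Set.range fun j => Ideal.Quotient.mkₐ k J (g j))
        = (Ideal.Quotient.mkₐ k J) '' (Set.range g) := by
      rw [← Set.range_comp]
      rfl
    rw [h1, ← AlgHom.map_adjoin, hg, Algebra.map_top]
    exact (AlgHom.range_eq_top _).2 hs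
  have hfg : (Algebra.adjoin k (Set.range fun j => Ideal.Quotient.mkₐ k J (g j))).toSubmodule.FG := by
    refine fg_adjoin_of_finite (Set.finite_range _) ?_
    rintro _ ⟨j, rfl⟩
    refine IsIntegral.of_pow (Nat.succ_pos N) ?_
    have h0 : (Ideal.Quotient.mkₐ k J (g j)) ^ (N + 1) = 0 := by
      rw [← map_pow, pow_succ]
      exact Ideal.Quotient.eq_zero_iff_mem.2 (J.mul_mem_right _ (hN j))
    rw [h0]
    exact isIntegral_zero
  rw [htop, Algebra.top_toSubmodule] at hfg
  exact Module.finite_def.2 hfg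

lemma fin2_lift (J : Ideal S) [Module.Finite k (S ⧸ J)] :
    ∃ T : Finset S, ∀ s : S, ∃ p ∈ Submodule.span k (T : Set S), s - p ∈ J := by
  classical
  obtain ⟨T0, hT0⟩ := Module.finite_def.1 (inferInstance : Module.Finite k (S ⧸ J))
  have hs : Function.Surjective (Ideal.Quotient.mkₐ k J) := Ideal.Quotient.mkₐ_surjective k J
  refine ⟨T0.image (Function.surjInv hs), fun s => ?_⟩
  have h1 : Submodule.span k (T0 : Set (S ⧸ J)) ≤
      (Submodule.span k ((T0.image (Function.surjInv hs) : Finset S) : Set S)).map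
        (Ideal.Quotient.mkₐ k J).toLinearMap := by
    rw [Submodule.span_le]
    intro t ht
    refine ⟨Function.surjInv hs t, Submodule.subset_span ?_, Function.surjInv_eq hs t⟩
    rw [Finset.coe_image]
    exact ⟨t, ht, rfl⟩
  have h2 : (Ideal.Quotient.mkₐ k J) s ∈ Submodule.span k (T0 : Set (S ⧸ J)) := by
    rw [hT0]
    exact Submodule.mem_top
  obtain ⟨p, hp, hp2⟩ := h1 h2
  refine ⟨p, hp, ?_⟩
  have h3 : Ideal.Quotient.mk J p = Ideal.Quotient.mk J s := hp2
  exact Ideal.Quotient.eq.1 h3.symm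

lemma fin2_gen [IsNoetherianRing S] [Module.Finite S V] {m : ℕ} (g : Fin m → S)
    (hg : Algebra.adjoin k (Set.range g) = ⊤) (d : V →ₗ[S] V) (N : ℕ)
    (hnil : ∀ j v, d v = 0 → ∃ w, g j ^ N • v = d w) :
    ∃ F : Finset V, (∀ v ∈ F, d v = 0) ∧
      ∀ v, d v = 0 → ∃ u ∈ Submodule.span k (F : Set V), ∃ w, v = u + d w := by
  classical
  have : Module.Finite k (S ⧸ fin2_J d) := fin2_quot g hg (fin2_J d) N (fun j v hv => hnil j v hv)
  obtain ⟨T, hT⟩ := fin2_lift (k := k) (fin2_J d)
  have : IsNoetherian S V := isNoetherian_of_isNoetherianRing_of_finite S V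
  obtain ⟨C, hC⟩ := IsNoetherian.noetherian (LinearMap.ker d)
  have hCk : ∀ c ∈ C, d c = 0 := by
    intro c hc
    have h1 : c ∈ LinearMap.ker d := by
      rw [← hC]
      exact Submodule.subset_span hc
    exact h1
  refine ⟨(T ×ˢ C).image (fun q => q.1 • q.2), ?_, ?_⟩
  · intro v hv
    obtain ⟨⟨t, c⟩, hq, rfl⟩ := Finset.mem_image.1 hv
    rw [map_smul, hCk c (Finset.mem_product.1 hq).2, smul_zero]
  · intro v hv
    have hv' : v ∈ Submodule.span S (C : Set V) := by
      rw [hC]
      exact hv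
    obtain ⟨f, -, hf⟩ := Submodule.mem_span_finset.1 hv'
    have key : v ∈ Submodule.span k (((T ×ˢ C).image (fun q => q.1 • q.2) : Finset V) : Set V) ⊔
        (LinearMap.range d).restrictScalars k := by
      rw [← hf]
      refine Submodule.sum_mem _ fun c hc => ?_
      obtain ⟨p, hp, hj⟩ := hT (f c)
      have e1 : f c • c = p • c + (f c - p) • c := by rw [sub_smul]; abel
      rw [e1]
      refine Submodule.add_mem_sup ?_ ?_
      · refine Submodule.span_induction (p := fun a _ => a • c ∈ Submodule.span k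
          (((T ×ˢ C).image (fun q => q.1 • q.2) : Finset V) : Set V)) ?_ ?_ ?_ ?_ hp
        · intro t ht
          refine Submodule.subset_span ?_
          rw [Finset.coe_image]
          exact ⟨(t, c), Finset.mem_coe.2 (Finset.mem_product.2 ⟨ht, hc⟩), rfl⟩
        · rw [zero_smul]
          exact Submodule.zero_mem _
        · intro a b _ _ ha hb
          rw [add_smul]
          exact Submodule.add_mem _ ha hb
        · intro r a _ ha
          rw [smul_assoc]
          exact Submodule.smul_mem _ _ ha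
      · obtain ⟨w, hw⟩ := hj c (hCk c hc)
        exact ⟨w, hw.symm⟩
    obtain ⟨u, hu, b, ⟨w, hw⟩, hub⟩ := Submodule.mem_sup.1 key
    exact ⟨u, hu, w, by rw [hw, hub]⟩

end fin2gen

theorem fin_of_FG {X : Ob k lam n} {m N : ℕ} (h : FG X m)
    (hnil : ∀ j < m, ∀ v, X.d v = 0 → ∃ w, (X.x j ^ N) v = X.d w) :
    Module.Finite k X.H := by

  classical
  obtain ⟨φ, hφ⟩ := fin2_hom m (fun j : Fin m => X.x j) (fun i j => X.hxx i j)
  letI : Module (MvPolynomial (Fin m) k) X.V := Module.compHom X.V φ.toRingHom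
  have hsm : ∀ (s : MvPolynomial (Fin m) k) (v : X.V), s • v = φ s v := fun s v => rfl
  have : IsScalarTower k (MvPolynomial (Fin m) k) X.V := by
    refine ⟨fun c s v => ?_⟩
    rw [hsm, hsm, map_smul]
    rfl
  have : Module.Finite (MvPolynomial (Fin m) k) X.V := by
    obtain ⟨s, hs⟩ := h
    refine Module.finite_def.2 ⟨s, ?_⟩
    have h1 := hs ((Submodule.span (MvPolynomial (Fin m) k) (s : Set X.V)).restrictScalars k)
      (fun v hv => Submodule.subset_span hv) (by
        intro j hj v hv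
        have h2 : X.x j v = (MvPolynomial.X ⟨j, hj⟩ : MvPolynomial (Fin m) k) • v := by
          rw [hsm, hφ]
        rw [h2]
        exact (Submodule.span (MvPolynomial (Fin m) k) (s : Set X.V)).smul_mem _ hv)
    rw [eq_top_iff]
    intro v _
    have h3 : v ∈ (Submodule.span (MvPolynomial (Fin m) k) (s : Set X.V)).restrictScalars k := by
      rw [h1]
      exact Submodule.mem_top
    exact h3
  have hd : ∀ (s : MvPolynomial (Fin m) k) (v : X.V), X.d (φ s v) = φ s (X.d v) := by
    intro s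
    induction s using MvPolynomial.induction_on with
    | C a =>
      intro v
      have h4 : φ (MvPolynomial.C a) = algebraMap k (Module.End k X.V) a := φ.commutes a
      rw [h4, Module.algebraMap_end_apply, Module.algebraMap_end_apply, map_smul]
    | add p q hp hq =>
      intro v
      rw [map_add, LinearMap.add_apply, LinearMap.add_apply, map_add, hp, hq]
    | mul_X p j hp =>
      intro v
      rw [map_mul, Module.End.mul_apply, Module.End.mul_apply, hp, hφ]
      have h5 := LinearMap.congr_fun (X.hdx j).eq v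
      rw [Module.End.mul_apply, Module.End.mul_apply] at h5
      rw [h5]
  let dS : X.V →ₗ[MvPolynomial (Fin m) k] X.V :=
    { toFun := fun v => X.d v
      map_add' := fun v w => map_add _ _ _
      map_smul' := fun s v => hd s v }
  have hdS : ∀ v, dS v = X.d v := fun v => rfl
  obtain ⟨F, hF0, hF⟩ := fin2_gen (k := k) (fun j : Fin m => (MvPolynomial.X j : MvPolynomial (Fin m) k))
    (MvPolynomial.adjoin_range_X) dS N (by
      intro j v hv
      obtain ⟨w, hw⟩ := hnil j j.2 v hv
      refine ⟨w, ?_⟩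
      rw [hsm, map_pow, hφ, hdS, ← hw])
  have hcla : ∀ w, X.d (X.d w) = 0 → ∀ h0 : X.d w ∈ LinearMap.ker X.d, X.cla ⟨X.d w, h0⟩ = 0 := by
    intro w _ h0
    exact (Submodule.Quotient.mk_eq_zero _).2 ⟨w, rfl⟩
  let F' : Finset (LinearMap.ker X.d) := F.attach.image (fun v => ⟨v.1, hF0 v.1 v.2⟩)
  refine Module.finite_def.2 ⟨F'.image X.cla, ?_⟩
  rw [eq_top_iff]
  intro z _
  obtain ⟨⟨v, hv⟩, rfl⟩ : ∃ v, X.cla v = z := Submodule.mkQ_surjective _ z
  obtain ⟨u, hu, w, hw⟩ := hF v hv
  have hFu : ∀ u ∈ Submodule.span k (F : Set X.V), ∃ h0 : u ∈ LinearMap.ker X.d,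
      X.cla ⟨u, h0⟩ ∈ Submodule.span k ((F'.image X.cla : Finset X.H) : Set X.H) := by
    intro u hu
    refine Submodule.span_induction (p := fun a _ => ∃ h0 : a ∈ LinearMap.ker X.d,
      X.cla ⟨a, h0⟩ ∈ Submodule.span k ((F'.image X.cla : Finset X.H) : Set X.H)) ?_ ?_ ?_ ?_ hu
    · intro a ha
      refine ⟨hF0 a ha, Submodule.subset_span ?_⟩
      rw [Finset.coe_image]
      refine ⟨⟨a, hF0 a ha⟩, ?_, rfl⟩
      exact Finset.mem_coe.2 (Finset.mem_image.2 ⟨⟨a, ha⟩, Finset.mem_attach _ _, rfl⟩)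
    · refine ⟨Submodule.zero_mem _, ?_⟩
      have : X.cla (⟨0, Submodule.zero_mem _⟩ : LinearMap.ker X.d) = 0 := map_zero X.cla
      rw [this]
      exact Submodule.zero_mem _
    · rintro a b _ _ ⟨ha, ha'⟩ ⟨hb, hb'⟩
      refine ⟨Submodule.add_mem _ ha hb, ?_⟩
      have : X.cla (⟨a + b, Submodule.add_mem _ ha hb⟩ : LinearMap.ker X.d)
          = X.cla ⟨a, ha⟩ + X.cla ⟨b, hb⟩ := map_add X.cla ⟨a, ha⟩ ⟨b, hb⟩
      rw [this]
      exact Submodule.add_mem _ ha' hb'
    · rintro r a _ ⟨ha, ha'⟩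
      refine ⟨Submodule.smul_mem _ r ha, ?_⟩
      have : X.cla (⟨r • a, Submodule.smul_mem _ r ha⟩ : LinearMap.ker X.d)
          = r • X.cla ⟨a, ha⟩ := map_smul X.cla r ⟨a, ha⟩
      rw [this]
      exact Submodule.smul_mem _ _ ha'
  obtain ⟨h0, h1⟩ := hFu u hu
  have hdw : X.d w ∈ LinearMap.ker X.d := by
    have e1 : X.d w = v - u := by rw [hw, hdS]; abel
    rw [e1]
    exact Submodule.sub_mem _ hv h0
  have e2 : (⟨v, hv⟩ : LinearMap.ker X.d) = ⟨u, h0⟩ + ⟨X.d w, hdw⟩ := Subtype.ext hw
  rw [e2, map_add, hcla w hdw hdw, add_zero]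
  exact h1

end ZM
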