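import Pool.Agent.H75.ZM.Fin1
import Pool.Agent.H75.ZM.Fin2

/-!
# Finiteness of the homology of closed words (row ZM Fin3)

Proof.  Say that an operator `g` of `X.V` is null-homotopic if there is `h` with
`d h + h d = g` and `h` commuting with all `y l` and `x l`.  After the closing of `(p, r)` both
`dg (y p - x r)` (with `h (v, w) = (0, v)`) and `dg (hn n (y p) (x r))` (with `h (v, w) = (w, 0)`)
are null-homotopic on `X.cl p r`: indeed `d' h (v, w) = (b v, - d v)`, `h d' (v, w) = (0, d v + b w)`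
in the first case, and `(d w, a w)`, `(a v - d w, 0)` in the second.  If `g` is null-homotopic on `X`
through `h`, then `dg g` is null-homotopic on `X.cl p' r'` through `pm h (-h)`.  So for
`(p, r) ∈ L`, `y p - x r` and `hn n (y p) (x r)` are null-homotopic on `X.cls L`; a null-homotopic
operator maps cycles to boundaries, and null-homotopic operators form an ideal for multiplication by
the `y`, `x`.  As `hn n (y) (x) - (n + 1) x ^ n` is a multiple of `y - x`
(all operators commute), `(n + 1) x r ^ n` maps cycles to boundaries.  Now `clist m` contains all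
`(j, j)`, `j < m`; use `FG_word` and `fin_of_FG` with `N = n`.
-/

namespace ZM

variable {k : Type} [Field k] {lam : k} {n : ℕ}

/-- Null-homotopic operators. -/
def fin3_NH (X : Ob k lam n) (g : Module.End k X.V) : Prop :=
  ∃ h : Module.End k X.V, X.d * h + h * X.d = g ∧ (∀ l, Commute h (X.y l)) ∧
    ∀ l, Commute h (X.x l)

lemma fin3_blk_comm {V : Type} [AddCommGroup V] [Module k V] {A B C D G : Module.End k V}
    (hA : Commute A G) (hB : Commute B G) (hC : Commute C G) (hD : Commute D G) :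
    Commute (blk A B C D) (dg G) := by
  show _ * _ = _ * _
  simp only [dg_blk, blk_mul, mul_zero, zero_mul, add_zero, zero_add, hA.eq, hB.eq, hC.eq, hD.eq]

lemma fin3_up {X : Ob k lam n} {g : Module.End k X.V} (hg : fin3_NH X g) (p r : ℕ) :
    fin3_NH (X.cl p r) (dg g) := by
  obtain ⟨h, h1, hy, hx⟩ := hg
  have ha : Commute h (X.y p - X.x r) := (hy p).sub_right (hx r)
  have hb : Commute h (hn n (X.y p) (X.x r)) := comm_hn X p r (hy p) (hx r)
  refine ⟨blk h 0 0 (-h), ?_, fun l => ?_, fun l => ?_⟩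
  · show blk X.d (X.y p - X.x r) (hn n (X.y p) (X.x r)) (-X.d) * blk h 0 0 (-h) +
      blk h 0 0 (-h) * blk X.d (X.y p - X.x r) (hn n (X.y p) (X.x r)) (-X.d) = dg g
    rw [blk_mul, blk_mul, blk_add, dg_blk, ← h1]
    congr 1
    · simp
    · simp [ha.eq]
    · simp [hb.eq]
    · simp
  · exact fin3_blk_comm (hy l) (Commute.zero_left _) (Commute.zero_left _) (hy l).neg_left
  · exact fin3_blk_comm (hx l) (Commute.zero_left _) (Commute.zero_left _) (hx l).neg_left

lemma fin3_hn_dg {V : Type} [AddCommGroup V] [Module k V] (A B : Module.End k V) :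
    hn n (dg A) (dg B) = dg (hn n A B) := by
  apply LinearMap.ext
  rintro ⟨v, w⟩
  simp only [hn, LinearMap.sum_apply, dg_apply, dg_pow, dg_mul]
  refine Prod.ext ?_ ?_
  · simp [Prod.fst_sum]
  · simp [Prod.snd_sum]

lemma fin3_a (X : Ob k lam n) (p r : ℕ) :
    fin3_NH (X.cl p r) ((X.cl p r).y p - (X.cl p r).x r) := by
  have key : blk X.d (X.y p - X.x r) (hn n (X.y p) (X.x r)) (-X.d) * blk 0 0 1 0 +
      blk 0 0 1 0 * blk X.d (X.y p - X.x r) (hn n (X.y p) (X.x r)) (-X.d) =
        dg (X.y p) - dg (X.x r) := by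
    rw [blk_mul, blk_mul, blk_add, dg_blk, dg_blk, blk_sub]
    congr 1
    · simp
    · simp
    · simp
    · simp
  refine ⟨blk 0 0 1 0, key, fun l => ?_, fun l => ?_⟩
  · exact fin3_blk_comm (Commute.zero_left _) (Commute.zero_left _) (Commute.one_left _)
      (Commute.zero_left _)
  · exact fin3_blk_comm (Commute.zero_left _) (Commute.zero_left _) (Commute.one_left _)
      (Commute.zero_left _)

lemma fin3_b (X : Ob k lam n) (p r : ℕ) :
    fin3_NH (X.cl p r) (hn n ((X.cl p r).y p) ((X.cl p r).x r)) := by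
  have key : blk X.d (X.y p - X.x r) (hn n (X.y p) (X.x r)) (-X.d) * blk 0 1 0 0 +
      blk 0 1 0 0 * blk X.d (X.y p - X.x r) (hn n (X.y p) (X.x r)) (-X.d) =
        hn n (dg (X.y p)) (dg (X.x r)) := by
    rw [fin3_hn_dg, blk_mul, blk_mul, blk_add, dg_blk]
    congr 1
    · simp
    · simp
    · simp
    · simp
  refine ⟨blk 0 1 0 0, key, fun l => ?_, fun l => ?_⟩
  · exact fin3_blk_comm (Commute.zero_left _) (Commute.one_left _) (Commute.zero_left _)
      (Commute.zero_left _)
  · exact fin3_blk_comm (Commute.zero_left _) (Commute.one_left _) (Commute.zero_left _)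
      (Commute.zero_left _)

lemma fin3_pers {X : Ob k lam n} {p r : ℕ} (h1 : fin3_NH X (X.y p - X.x r))
    (h2 : fin3_NH X (hn n (X.y p) (X.x r))) (L : List (ℕ × ℕ)) :
    fin3_NH (X.cls L) ((X.cls L).y p - (X.cls L).x r) ∧
      fin3_NH (X.cls L) (hn n ((X.cls L).y p) ((X.cls L).x r)) := by
  induction L generalizing X with
  | nil => exact ⟨h1, h2⟩
  | cons q L ih =>
    refine ih (X := X.cl q.1 q.2) ?_ ?_
    · exact fin3_up h1 q.1 q.2
    · have := fin3_up h2 q.1 q.2
      rw [← fin3_hn_dg] at this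
      exact this

lemma fin3_cls (X : Ob k lam n) (L : List (ℕ × ℕ)) {p r : ℕ} (h : (p, r) ∈ L) :
    fin3_NH (X.cls L) ((X.cls L).y p - (X.cls L).x r) ∧
      fin3_NH (X.cls L) (hn n ((X.cls L).y p) ((X.cls L).x r)) := by
  induction L generalizing X with
  | nil => simp at h
  | cons q L ih =>
    rcases List.mem_cons.mp h with h' | h'
    · subst h'
      exact fin3_pers (fin3_a X p r) (fin3_b X p r) L
    · exact ih (X.cl q.1 q.2) h'

/-- Operators mapping cycles to boundaries. -/
def fin3_B (X : Ob k lam n) (g : Module.End k X.V) : Prop :=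
  ∀ v, X.d v = 0 → ∃ w, g v = X.d w

lemma fin3_NH.B {X : Ob k lam n} {g : Module.End k X.V} (h : fin3_NH X g) : fin3_B X g := by
  obtain ⟨h, rfl, -, -⟩ := h
  intro v hv
  exact ⟨h v, by simp [Module.End.mul_apply, hv]⟩

lemma fin3_B.mul {X : Ob k lam n} {g c : Module.End k X.V} (h : fin3_B X g)
    (hc : Commute X.d c) : fin3_B X (c * g) := by
  intro v hv
  obtain ⟨w, hw⟩ := h v hv
  refine ⟨c w, ?_⟩
  rw [Module.End.mul_apply, hw, ← Module.End.mul_apply, ← Module.End.mul_apply, hc.eq]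

lemma fin3_B.sub {X : Ob k lam n} {g c : Module.End k X.V} (h : fin3_B X g)
    (h' : fin3_B X c) : fin3_B X (g - c) := by
  intro v hv
  obtain ⟨w, hw⟩ := h v hv
  obtain ⟨w', hw'⟩ := h' v hv
  exact ⟨w - w', by rw [LinearMap.sub_apply, hw, hw', map_sub]⟩

lemma fin3_B.sum {X : Ob k lam n} {ι : Type} (s : Finset ι) {g : ι → Module.End k X.V}
    (h : ∀ i ∈ s, fin3_B X (g i)) : fin3_B X (∑ i ∈ s, g i) := by
  classical
  induction s using Finset.induction_on with
  | empty => intro v _; exact ⟨0, by simp⟩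
  | insert a s ha ih =>
    rw [Finset.sum_insert ha]
    intro v hv
    obtain ⟨w, hw⟩ := h a (Finset.mem_insert_self _ _) v hv
    obtain ⟨w', hw'⟩ := ih (fun i hi => h i (Finset.mem_insert_of_mem hi)) v hv
    exact ⟨w + w', by rw [LinearMap.add_apply, hw, hw', map_add]⟩

lemma fin3_id {R : Type} [Ring R] {x y : R} (h : Commute y x) (n : ℕ) :
    ((n : R) + 1) * x ^ n = hn n y x -
      ∑ i ∈ Finset.range (n + 1), (x ^ (n - i) * ∑ j ∈ Finset.range i, y ^ j * x ^ (i - 1 - j)) *
        (y - x) := by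
  have e : ∀ i ∈ Finset.range (n + 1),
      (x ^ (n - i) * ∑ j ∈ Finset.range i, y ^ j * x ^ (i - 1 - j)) * (y - x) =
        y ^ i * x ^ (n - i) - x ^ n := by
    intro i hi
    have hi' : i ≤ n := Nat.lt_succ_iff.mp (Finset.mem_range.mp hi)
    rw [mul_assoc, h.geom_sum₂_mul, mul_sub, ← pow_add, Nat.sub_add_cancel hi',
      ((h.symm.pow_pow (n - i) i).eq)]
  rw [Finset.sum_congr rfl e, Finset.sum_sub_distrib, hn, sub_sub_cancel, Finset.sum_const,
    Finset.card_range, nsmul_eq_mul]
  push_cast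
  rfl

theorem nil_cls (hn1 : ((n : k) + 1) ≠ 0) (X : Ob k lam n) (L : List (ℕ × ℕ)) {p r : ℕ}
    (h : (p, r) ∈ L) : ∀ v, (X.cls L).d v = 0 → ∃ w, ((X.cls L).x r ^ n) v = (X.cls L).d w := by
  obtain ⟨h1, h2⟩ := fin3_cls X L h
  set Y := X.cls L with hY
  have hb : fin3_B Y (((n : Module.End k Y.V) + 1) * Y.x r ^ n) := by
    rw [fin3_id (Y.hxy r p).symm n]
    refine h2.B.sub (fin3_B.sum _ fun i _ => ?_)
    refine h1.B.mul ?_
    refine ((Y.hdx r).pow_right _).mul_right ?_
    exact Commute.sum_right _ _ _ fun j _ =>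
      ((Y.hdy p).pow_right _).mul_right ((Y.hdx r).pow_right _)
  intro v hv
  obtain ⟨w, hw⟩ := hb v hv
  refine ⟨((n : k) + 1)⁻¹ • w, ?_⟩
  rw [map_smul, ← hw]
  have e : (((n : Module.End k Y.V) + 1) * Y.x r ^ n) v = ((n : k) + 1) • (Y.x r ^ n) v := by
    rw [add_mul, one_mul, LinearMap.add_apply, add_smul, one_smul, Module.End.mul_apply]
    congr 1
    rw [Nat.cast_smul_eq_nsmul]
    exact Module.End.natCast_apply n _
  rw [e, smul_smul, inv_mul_cancel₀ hn1, one_smul]

lemma fin3_mem {j m : ℕ} (h : j < m) : (j, j) ∈ clist m := by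
  induction m with
  | zero => omega
  | succ m ih =>
    rw [clist, List.mem_cons]
    rcases Nat.lt_succ_iff_lt_or_eq.mp h with h' | h'
    · exact Or.inr (ih h')
    · exact Or.inl (by rw [h'])

theorem fin_word (hn1 : ((n : k) + 1) ≠ 0) (hne : lam ≠ 0) (m : ℕ) (w : List Lt) :
    Module.Finite k ((word w (base n hne m)).cls (clist m)).H :=
  fin_of_FG (FG_word hne m w (clist m)) fun _ hj => nil_cls hn1 _ _ (fin3_mem hj)

end ZM
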