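import Pool.Agent.H75.ZM.Perm

/-!
# Flatness of closed words (row ZM Flt)

Proof.  For an object `X` and a list `L` let `Bal X L` be
`X.d * X.d + (L.map fun a => X.y a.1 ^ (n + 1) - X.x a.2 ^ (n + 1)).sum = 0`.
(1) `Bal X ((p, r) :: L) → Bal (X.cl p r) L`, as
`(X.cl p r).d ^ 2 = dg (d ^ 2 + a b)`, `a b = b a = y p ^ (n + 1) - x r ^ (n + 1)`
(the operators commute; `Commute.geom_sum₂_mul` or a direct telescoping; note
`hn n y x = ∑ y ^ i * x ^ (n - i)`).  Hence `Bal X L → Flat X L` by induction.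
(2) `Bal` only depends on the multisets of tops and bottoms of `L`:
`(L.map fun a => F a.1 - G a.2).sum = ((L.map Prod.fst).map F).sum - ((L.map Prod.snd).map G).sum`.
(3) With tops a permutation of `List.range m` one has for `i, j < m`, `i ≠ j`:
`Bal X L → Bal (X.E i j) L` because `(y' i) ^ (n + 1) + (y' j) ^ (n + 1) =
dg (y i ^ (n + 1) + y j ^ (n + 1))`: for `t = thOp (y i) (y j)`, `s = dg (y i + y j)`,
`e = dg (y i * y j)`, all commuting, `t * (s - t) = e` and `t + (s - t) = s`, and power sums of two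
commuting elements satisfy `P (r + 2) = s P (r + 1) - e P r`, `P 0 = 2`, `P 1 = s`; the same
recursion holds for `y i, y j`.  `Bal X L → Bal (X.S i j) L` since the swap permutes the tops.
(4) `Bal (base m) L` when tops and bottoms of `L` are permutations of `List.range m`: `d = 0` and
`y l = x l` for `l < m` (induction on `m`; in fact for all `l`).
-/

namespace ZM

variable {k : Type} [Field k] {lam : k} {n : ℕ}

/-- `dg` as an additive homomorphism -/
def fltdg (V : Type) [AddCommGroup V] [Module k V] : Module.End k V →+ Module.End k (V × V) where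
  toFun A := dg A
  map_zero' := by ext p <;> simp
  map_add' A B := by ext p <;> simp

def fltBal (X : Ob k lam n) (L : List (ℕ × ℕ)) : Prop :=
  X.d * X.d + (L.map fun a => X.y a.1 ^ (n + 1) - X.x a.2 ^ (n + 1)).sum = 0

def fltB (m : ℕ) (X : Ob k lam n) : Prop :=
  X.d * X.d + ∑ l ∈ Finset.range m, (X.y l ^ (n + 1) - X.x l ^ (n + 1)) = 0

theorem flt_ba (X : Ob k lam n) (p r : ℕ) :
    (X.y p - X.x r) * hn n (X.y p) (X.x r) = X.y p ^ (n + 1) - X.x r ^ (n + 1) := by
  have := (X.hxy r p).symm.mul_geom_sum₂ (n + 1)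
  simpa [hn] using this

theorem flt_ab (X : Ob k lam n) (p r : ℕ) :
    hn n (X.y p) (X.x r) * (X.y p - X.x r) = X.y p ^ (n + 1) - X.x r ^ (n + 1) := by
  have := (X.hxy r p).symm.geom_sum₂_mul (n + 1)
  simpa [hn] using this

theorem flt_dd (X : Ob k lam n) (p r : ℕ) :
    (X.cl p r).d * (X.cl p r).d =
      dg (X.d * X.d + (X.y p ^ (n + 1) - X.x r ^ (n + 1))) := by
  show blk X.d (X.y p - X.x r) (hn n (X.y p) (X.x r)) (-X.d) *
    blk X.d (X.y p - X.x r) (hn n (X.y p) (X.x r)) (-X.d) = _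
  have h1 : X.d * (X.y p - X.x r) = (X.y p - X.x r) * X.d :=
    ((X.hdy p).sub_right (X.hdx r)).eq
  have h2 : X.d * hn n (X.y p) (X.x r) = hn n (X.y p) (X.x r) * X.d :=
    (comm_hn X p r (X.hdy p) (X.hdx r)).eq
  rw [blk_mul, dg_blk, flt_ba, flt_ab, mul_neg, neg_mul, neg_mul, mul_neg, neg_neg, h1, h2,
    add_neg_cancel, add_neg_cancel, add_comm (X.y p ^ (n + 1) - X.x r ^ (n + 1))]

theorem flt_bal_cl (X : Ob k lam n) (p r : ℕ) (L : List (ℕ × ℕ))
    (h : fltBal X ((p, r) :: L)) : fltBal (X.cl p r) L := by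
  unfold fltBal at h ⊢
  rw [flt_dd]
  have h1 : (L.map fun a => (X.cl p r).y a.1 ^ (n + 1) - (X.cl p r).x a.2 ^ (n + 1)).sum
      = fltdg X.V (L.map fun a => X.y a.1 ^ (n + 1) - X.x a.2 ^ (n + 1)).sum := by
    rw [map_list_sum, List.map_map]
    congr 1
    refine List.map_congr_left fun a _ => ?_
    show dg (X.y a.1) ^ (n + 1) - dg (X.x a.2) ^ (n + 1)
      = fltdg X.V (X.y a.1 ^ (n + 1) - X.x a.2 ^ (n + 1))
    rw [map_sub, dg_pow, dg_pow]
    rfl
  have h2 : dg (X.d * X.d + (X.y p ^ (n + 1) - X.x r ^ (n + 1)))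
      = fltdg X.V (X.d * X.d + (X.y p ^ (n + 1) - X.x r ^ (n + 1))) := rfl
  have h3 : fltdg X.V (X.d * X.d + (X.y p ^ (n + 1) - X.x r ^ (n + 1)) +
      (L.map fun a => X.y a.1 ^ (n + 1) - X.x a.2 ^ (n + 1)).sum) = 0 := by
    rw [List.map_cons, List.sum_cons, ← add_assoc] at h
    rw [h, map_zero]
  rw [map_add] at h3
  exact (congrArg₂ (fun a b : Module.End k (X.V × X.V) => a + b) h2 h1).trans h3

theorem flt_bal_flat (L : List (ℕ × ℕ)) : ∀ (X : Ob k lam n), fltBal X L → Flat X L := by
  induction L with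
  | nil =>
    intro X h
    unfold fltBal at h
    rw [List.map_nil, List.sum_nil, add_zero] at h
    exact h
  | cons a L ih =>
    intro X h
    exact ih _ (flt_bal_cl X a.1 a.2 L h)

theorem flt_split {R : Type} [AddCommGroup R] (F G : ℕ → R) (L : List (ℕ × ℕ)) :
    (L.map fun a => F a.1 - G a.2).sum
      = ((L.map Prod.fst).map F).sum - ((L.map Prod.snd).map G).sum := by
  induction L with
  | nil => simp
  | cons a L ih =>
    simp only [List.map_cons, List.sum_cons]
    rw [ih]
    abel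

theorem flt_range {R : Type} [AddCommGroup R] (F : ℕ → R) (m : ℕ) :
    ((List.range m).map F).sum = ∑ l ∈ Finset.range m, F l := by
  induction m with
  | zero => simp
  | succ m ih => rw [List.range_succ, List.map_append, List.sum_append, ih,
      Finset.sum_range_succ]; simp

theorem flt_B_bal (m : ℕ) (X : Ob k lam n) (h : fltB m X) {L : List (ℕ × ℕ)}
    (h1 : (L.map Prod.fst).Perm (List.range m)) (h2 : (L.map Prod.snd).Perm (List.range m)) :
    fltBal X L := by
  unfold fltBal
  unfold fltB at h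
  rw [flt_split (fun l => X.y l ^ (n + 1)) (fun l => X.x l ^ (n + 1)) L,
    (h1.map _).sum_eq, (h2.map _).sum_eq, flt_range, flt_range, ← Finset.sum_sub_distrib]
  exact h

theorem flt_rec {R : Type} [Ring R] {t u : R} (h : Commute t u) (r : ℕ) :
    t ^ (r + 2) + u ^ (r + 2) = (t + u) * (t ^ (r + 1) + u ^ (r + 1)) - t * u * (t ^ r + u ^ r) := by
  have h1 : u * t ^ (r + 1) = t * u * t ^ r := by
    rw [pow_succ', ← mul_assoc, h.eq]
  have h2 : t * u ^ (r + 1) = t * u * u ^ r := by
    rw [pow_succ', mul_assoc]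
  have h3 : t * t ^ (r + 1) = t ^ (r + 2) := by rw [← pow_succ']
  have h4 : u * u ^ (r + 1) = u ^ (r + 2) := by rw [← pow_succ']
  rw [add_mul, mul_add, mul_add, mul_add, h1, h2, h3, h4]
  abel

theorem flt_pow {R : Type} [Ring R] {t u a b : R} (h : Commute t u) (h' : Commute a b)
    (hs : t + u = a + b) (he : t * u = a * b) (r : ℕ) :
    t ^ r + u ^ r = a ^ r + b ^ r ∧ t ^ (r + 1) + u ^ (r + 1) = a ^ (r + 1) + b ^ (r + 1) := by
  induction r with
  | zero => simpa using hs
  | succ r ih => exact ⟨ih.2, by rw [flt_rec h, flt_rec h', ih.1, ih.2, hs, he]⟩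

theorem flt_th {V : Type} [AddCommGroup V] [Module k V] (p q : Module.End k V) :
    thOp p q * (dg (p + q) - thOp p q) = dg (p * q) := by
  rw [dg_blk, dg_blk, thOp, blk_sub, blk_mul]
  congr 1 <;> simp

theorem flt_B_E (m : ℕ) (X : Ob k lam n) (h : fltB m X) {i j : ℕ} (hi : i < m) (hj : j < m)
    (hij : i ≠ j) : fltB m (X.E i j) := by
  unfold fltB at h ⊢
  have hc : Commute (thOp (X.y i) (X.y j)) (dg (X.y i + X.y j) - thOp (X.y i) (X.y j)) :=
    (thOp_comm ((X.hyy i i).add_right (X.hyy i j))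
      ((X.hyy j i).add_right (X.hyy j j))).sub_right (Commute.refl _)
  have hp := (flt_pow hc (dg_comm (X.hyy i j)) (by
    rw [add_sub_cancel]
    exact (fltdg X.V).map_add _ _) (by rw [flt_th, dg_mul]) (n + 1)).1
  have key : ∑ l ∈ Finset.range m, (X.yE i j l ^ (n + 1) - dg (X.y l ^ (n + 1))) = 0 := by
    rw [Finset.sum_eq_add i j hij]
    · have hyi : X.yE i j i = thOp (X.y i) (X.y j) := by
        unfold Ob.yE
        rw [if_pos rfl]
      have hyj : X.yE i j j = dg (X.y i + X.y j) - thOp (X.y i) (X.y j) := by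
        unfold Ob.yE
        rw [if_neg hij.symm, if_pos rfl]
      rw [hyi, hyj, ← dg_pow, ← dg_pow]
      have : ∀ a b c d : Module.End k (X.V × X.V), a + c = b + d → a - b + (c - d) = 0 := by
        intro a b c d h
        have : a - b + (c - d) = (a + c) - (b + d) := by abel
        rw [this, h, sub_self]
      exact this _ _ _ _ hp
    · intro c _ hc
      unfold Ob.yE
      rw [if_neg hc.1, if_neg hc.2, dg_pow, sub_self]
    · intro h; exact absurd (Finset.mem_range.2 hi) h
    · intro h; exact absurd (Finset.mem_range.2 hj) h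
  have h2 : dg X.d * dg X.d + ∑ l ∈ Finset.range m, (X.yE i j l ^ (n + 1) - dg (X.x l) ^ (n + 1))
      = 0 := by
    have h3 := congrArg (fltdg X.V) h
    rw [map_zero, map_add, map_sum] at h3
    have h4 : ∑ l ∈ Finset.range m, (X.yE i j l ^ (n + 1) - dg (X.x l) ^ (n + 1))
        = ∑ l ∈ Finset.range m, (X.yE i j l ^ (n + 1) - dg (X.y l ^ (n + 1)))
          + ∑ l ∈ Finset.range m, fltdg X.V (X.y l ^ (n + 1) - X.x l ^ (n + 1)) := by
      rw [← Finset.sum_add_distrib]
      refine Finset.sum_congr rfl fun l _ => ?_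
      have : fltdg X.V (X.y l ^ (n + 1) - X.x l ^ (n + 1))
          = dg (X.y l ^ (n + 1)) - dg (X.x l) ^ (n + 1) := by
        rw [map_sub, dg_pow]
        rfl
      rw [this]
      abel
    rw [h4, key, zero_add, dg_mul]
    exact h3
  exact h2

theorem flt_B_S (m : ℕ) (X : Ob k lam n) (h : fltB m X) {i j : ℕ} (hi : i < m) (hj : j < m) :
    fltB m (X.S i j) := by
  unfold fltB at h ⊢
  rw [Finset.sum_sub_distrib] at h ⊢
  have h1 : ∑ l ∈ Finset.range m, X.y (Equiv.swap i j l) ^ (n + 1)
      = ∑ l ∈ Finset.range m, X.y l ^ (n + 1) := by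
    refine Equiv.Perm.sum_comp (Equiv.swap i j) (Finset.range m) (fun l => X.y l ^ (n + 1)) ?_
    intro a ha
    simp only [ne_eq, Set.mem_ofPred_eq] at ha
    rw [Finset.coe_range, Set.mem_Iio]
    by_contra hc
    apply ha
    rw [Equiv.swap_apply_of_ne_of_ne]
    · rintro rfl; exact hc hi
    · rintro rfl; exact hc hj
  rw [← h1] at h
  exact h

theorem flt_base (hne : lam ≠ 0) (m : ℕ) :
    (base n hne m).d = 0 ∧ ∀ l, (base n hne m).y l = (base n hne m).x l := by
  induction m with
  | zero => exact ⟨rfl, fun l => rfl⟩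
  | succ m ih =>
    refine ⟨?_, fun l => ?_⟩
    · show cw (base n hne m).d = 0
      rw [ih.1]
      apply Finsupp.lhom_ext
      intro i v
      simp
    · show nop _ m (base n hne m).y l = nop _ m (base n hne m).x l
      unfold nop
      rw [ih.2]

theorem flt_B_base (hne : lam ≠ 0) (m s : ℕ) : fltB m (base n hne s) := by
  unfold fltB
  obtain ⟨h1, h2⟩ := flt_base (n := n) hne s
  rw [h1, mul_zero, zero_add]
  refine Finset.sum_eq_zero fun l _ => ?_
  rw [h2, sub_self]

theorem flt_B_word (m : ℕ) (X : Ob k lam n) (h : fltB m X) {w : List Lt} (hw : Ok m w) :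
    fltB m (word w X) := by
  induction w with
  | nil => exact h
  | cons a w ih =>
    have h1 := ih fun b hb => hw b (List.mem_cons_of_mem _ hb)
    have h2 := hw a List.mem_cons_self
    show fltB m ((word w X).app a)
    cases a with
    | E i j => exact flt_B_E m _ h1 h2.1 h2.2.1 h2.2.2
    | S i j => exact flt_B_S m _ h1 h2.1 h2.2

theorem flat_word (hne : lam ≠ 0) {m : ℕ} {w : List Lt} (hw : Ok m w) {L : List (ℕ × ℕ)}
    (h1 : (L.map Prod.fst).Perm (List.range m)) (h2 : (L.map Prod.snd).Perm (List.range m)) :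
    Flat (word w (base n hne m)) L :=
  flt_bal_flat L _ (flt_B_bal m _ (flt_B_word m _ (flt_B_base hne m m) hw) h1 h2)

theorem flt_clist (m : ℕ) : ((clist m).map Prod.fst).Perm (List.range m) ∧
    ((clist m).map Prod.snd).Perm (List.range m) := by
  induction m with
  | zero => exact ⟨List.Perm.refl _, List.Perm.refl _⟩
  | succ m ih =>
    rw [List.range_succ]
    exact ⟨(ih.1.cons m).trans (List.perm_append_singleton m _).symm,
      (ih.2.cons m).trans (List.perm_append_singleton m _).symm⟩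

theorem flat_clist (hne : lam ≠ 0) {m : ℕ} {w : List Lt} (hw : Ok m w) :
    Flat (word w (base n hne m)) (clist m) :=
  flat_word hne hw (flt_clist m).1 (flt_clist m).2

end ZM
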