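import Pool.Agent.H75.ZM.Defs

/-!
# Basic properties of isomorphisms and of the homology
-/

namespace ZM

variable {k : Type} [Field k] {lam : k} {n : ℕ}

lemma Iso.refl (A : Set ℕ) (X : Ob k lam n) : Iso A X X :=
  ⟨LinearEquiv.refl k _, fun _ _ _ => rfl, fun _ _ _ => rfl, fun _ => rfl, fun _ => rfl⟩

lemma Iso.symm {A : Set ℕ} {X Y : Ob k lam n} (h : Iso A X Y) : Iso A Y X := by
  obtain ⟨e, hy, hx, hd, hT⟩ := h
  refine ⟨e.symm, fun l hl v => ?_, fun l hl v => ?_, fun v => ?_, fun v => ?_⟩ <;>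
    apply e.injective
  · rw [hy l hl, e.apply_symm_apply, e.apply_symm_apply]
  · rw [hx l hl, e.apply_symm_apply, e.apply_symm_apply]
  · rw [hd, e.apply_symm_apply, e.apply_symm_apply]
  · rw [hT, e.apply_symm_apply, e.apply_symm_apply]

lemma Iso.trans {A : Set ℕ} {X Y Z : Ob k lam n} (h : Iso A X Y) (h' : Iso A Y Z) :
    Iso A X Z := by
  obtain ⟨e, hy, hx, hd, hT⟩ := h
  obtain ⟨e', hy', hx', hd', hT'⟩ := h'
  refine ⟨e.trans e', fun l hl v => ?_, fun l hl v => ?_, fun v => ?_, fun v => ?_⟩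
  · simp [hy l hl, hy' l hl]
  · simp [hx l hl, hx' l hl]
  · simp [hd, hd']
  · simp [hT, hT']

lemma Iso.mono {A B : Set ℕ} {X Y : Ob k lam n} (hAB : A ⊆ B) (h : Iso B X Y) : Iso A X Y := by
  obtain ⟨e, hy, hx, hd, hT⟩ := h
  exact ⟨e, fun l hl => hy l (hAB hl), fun l hl => hx l (hAB hl), hd, hT⟩

lemma pow_int {V W : Type} [AddCommGroup V] [Module k V] [AddCommGroup W] [Module k W]
    {f : V →ₗ[k] W} {a : Module.End k V} {b : Module.End k W} (h : ∀ v, f (a v) = b (f v))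
    (i : ℕ) (v : V) : f ((a ^ i) v) = (b ^ i) (f v) := by
  induction i generalizing v with
  | zero => simp
  | succ i ih => rw [pow_succ, pow_succ, Module.End.mul_apply, Module.End.mul_apply, ih, h]

lemma hn_int {V W : Type} [AddCommGroup V] [Module k V] [AddCommGroup W] [Module k W]
    {f : V →ₗ[k] W} {a a' : Module.End k V} {b b' : Module.End k W} (h : ∀ v, f (a v) = b (f v))
    (h' : ∀ v, f (a' v) = b' (f v)) (v : V) : f (hn n a a' v) = hn n b b' (f v) := by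
  unfold hn
  simp only [LinearMap.sum_apply, map_sum, Module.End.mul_apply]
  exact Finset.sum_congr rfl fun i _ => by rw [pow_int h, pow_int h']

lemma Mor.cl {A : Set ℕ} {X Y : Ob k lam n} {f : X.V →ₗ[k] Y.V} (h : Mor A X Y f) {p r : ℕ}
    (hp : p ∈ A) (hr : r ∈ A) : Mor A (X.cl p r) (Y.cl p r) (f.prodMap f) := by
  obtain ⟨hy, hx, hd, hT⟩ := h
  refine ⟨?_, ?_, ?_, ?_⟩
  · rintro l hl ⟨v, w⟩
    exact Prod.ext (hy l hl v) (hy l hl w)
  · rintro l hl ⟨v, w⟩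
    exact Prod.ext (hx l hl v) (hx l hl w)
  · rintro ⟨v, w⟩
    refine Prod.ext ?_ ?_
    · show f (X.d v + (X.y p w - X.x r w)) = Y.d (f v) + (Y.y p (f w) - Y.x r (f w))
      rw [map_add, map_sub, hd, hy p hp, hx r hr]
    · show f (hn n (X.y p) (X.x r) v + -X.d w) = hn n (Y.y p) (Y.x r) (f v) + -Y.d (f w)
      rw [map_add, map_neg, hd, hn_int (hy p hp) (hx r hr)]
  · rintro ⟨v, w⟩
    refine Prod.ext (hT v) ?_
    show f ((lam * (lam⁻¹) ^ n) • X.T w) = (lam * (lam⁻¹) ^ n) • Y.T (f w)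
    rw [map_smul, hT]

lemma Iso.cl {A : Set ℕ} {X Y : Ob k lam n} (h : Iso A X Y) {p r : ℕ} (hp : p ∈ A)
    (hr : r ∈ A) : Iso A (X.cl p r) (Y.cl p r) := by
  obtain ⟨e, h⟩ := h
  have := Mor.cl (f := e.toLinearMap) (A := A) (X := X) (Y := Y) h hp hr
  obtain ⟨hy, hx, hd, hT⟩ := this
  exact ⟨e.prodCongr e, hy, hx, hd, hT⟩

lemma Iso.cls {A : Set ℕ} {X Y : Ob k lam n} (h : Iso A X Y) (L : List (ℕ × ℕ))
    (hL : ∀ a ∈ L, a.1 ∈ A ∧ a.2 ∈ A) : Iso A (X.cls L) (Y.cls L) := by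
  induction L generalizing X Y with
  | nil => exact h
  | cons p L ih =>
    exact ih (h.cl (hL p (by simp)).1 (hL p (by simp)).2) fun a ha => hL a (by simp [ha])

lemma HQ.refl (X : Ob k lam n) : HQ X X := ⟨LinearEquiv.refl k _, fun _ => rfl⟩

lemma HQ.symm {X Y : Ob k lam n} (h : HQ X Y) : HQ Y X := by
  obtain ⟨e, he⟩ := h
  refine ⟨e.symm, fun v => ?_⟩
  apply e.injective
  rw [he, e.apply_symm_apply, e.apply_symm_apply]

lemma HQ.trans {X Y Z : Ob k lam n} (h : HQ X Y) (h' : HQ Y Z) : HQ X Z := by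
  obtain ⟨e, he⟩ := h
  obtain ⟨e', he'⟩ := h'
  exact ⟨e.trans e', fun v => by simp [he, he']⟩

lemma HQ.tau {X Y : Ob k lam n} (h : HQ X Y) : X.tau = Y.tau := by
  obtain ⟨e, he⟩ := h
  have h1 : e.conj X.TH = Y.TH := by
    apply LinearMap.ext; intro v
    rw [LinearEquiv.conj_apply_apply, he, e.apply_symm_apply]
  rw [Ob.tau, Ob.tau, ← h1, LinearMap.trace_conj']

lemma HQ.fin {X Y : Ob k lam n} (h : HQ X Y) (hf : Module.Finite k X.H) :
    Module.Finite k Y.H := by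
  obtain ⟨e, _⟩ := h
  exact Module.Finite.equiv e

lemma Iso.hq {A : Set ℕ} {X Y : Ob k lam n} (h : Iso A X Y) : HQ X Y := by
  obtain ⟨e, hy, hx, hd, hT⟩ := h
  have hker : ∀ v ∈ LinearMap.ker X.d, e v ∈ LinearMap.ker Y.d := by
    intro v hv
    rw [LinearMap.mem_ker] at hv ⊢
    rw [← hd, hv, map_zero]
  have hker' : ∀ v ∈ LinearMap.ker Y.d, e.symm v ∈ LinearMap.ker X.d := by
    intro v hv
    rw [LinearMap.mem_ker] at hv ⊢
    apply e.injective
    rw [hd, e.apply_symm_apply, hv, map_zero]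
  let ek : LinearMap.ker X.d ≃ₗ[k] LinearMap.ker Y.d :=
    { toFun := fun v => ⟨e v.1, hker v.1 v.2⟩
      map_add' := fun v w => by simp
      map_smul' := fun c v => by simp
      invFun := fun v => ⟨e.symm v.1, hker' v.1 v.2⟩
      left_inv := fun v => by simp
      right_inv := fun v => by simp }
  refine ⟨Submodule.Quotient.equiv _ _ ek ?_, ?_⟩
  · ext ⟨v, hv⟩
    simp only [Submodule.mem_map, Submodule.mem_comap, LinearMap.mem_range, Subtype.exists]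
    constructor
    · rintro ⟨w, hw, ⟨u, hu⟩, h2⟩
      have h3 : e w = v := congrArg Subtype.val h2
      refine ⟨e u, ?_⟩
      rw [← hd, hu]
      exact h3
    · rintro ⟨u, hu⟩
      have hu' : Y.d u = v := hu
      refine ⟨e.symm v, hker' v hv, ⟨e.symm u, ?_⟩, ?_⟩
      · apply e.injective
        rw [hd, e.apply_symm_apply, hu']
        simp
      · apply Subtype.ext
        simp [ek]
  · intro z
    obtain ⟨⟨v, hv⟩, rfl⟩ := Submodule.mkQ_surjective _ z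
    show (Submodule.Quotient.mk _ : Y.H) = Submodule.Quotient.mk _
    congr 1
    apply Subtype.ext
    exact hT v

lemma Iso.he {A : Set ℕ} {X Y : Ob k lam n} (h : Iso A X Y) {L : List (ℕ × ℕ)}
    (hL : ∀ a ∈ L, a.1 ∈ A ∧ a.2 ∈ A) : HE X Y L := (h.cls L hL).hq

lemma HE.refl (X : Ob k lam n) (L : List (ℕ × ℕ)) : HE X X L := HQ.refl _

lemma HE.symm {X Y : Ob k lam n} {L : List (ℕ × ℕ)} (h : HE X Y L) : HE Y X L := HQ.symm h

lemma HE.trans {X Y Z : Ob k lam n} {L : List (ℕ × ℕ)} (h : HE X Y L) (h' : HE Y Z L) :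
    HE X Z L := HQ.trans h h'

lemma HE.tau {X Y : Ob k lam n} {L : List (ℕ × ℕ)} (h : HE X Y L) :
    (X.cls L).tau = (Y.cls L).tau := HQ.tau h

lemma HE.fin {X Y : Ob k lam n} {L : List (ℕ × ℕ)} (h : HE X Y L)
    (hf : Module.Finite k (X.cls L).H) : Module.Finite k (Y.cls L).H := HQ.fin h hf

lemma Iso.flat0 {A : Set ℕ} {X Y : Ob k lam n} (h : Iso A X Y) (hf : X.d * X.d = 0) :
    Y.d * Y.d = 0 := by
  obtain ⟨e, hy, hx, hd, hT⟩ := h
  apply LinearMap.ext; intro v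
  obtain ⟨w, rfl⟩ := e.surjective v
  have := LinearMap.congr_fun hf w
  simp only [Module.End.mul_apply, LinearMap.zero_apply] at this ⊢
  rw [← hd, ← hd, this, map_zero]

lemma Iso.flat {A : Set ℕ} {X Y : Ob k lam n} (h : Iso A X Y) {L : List (ℕ × ℕ)}
    (hL : ∀ a ∈ L, a.1 ∈ A ∧ a.2 ∈ A) (hf : Flat X L) : Flat Y L :=
  (h.cls L hL).flat0 hf

lemma Mor.comp {A : Set ℕ} {X Y Z : Ob k lam n} {f : X.V →ₗ[k] Y.V} {g : Y.V →ₗ[k] Z.V}
    (hf : Mor A X Y f) (hg : Mor A Y Z g) : Mor A X Z (g ∘ₗ f) := by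
  obtain ⟨hy, hx, hd, hT⟩ := hf
  obtain ⟨hy', hx', hd', hT'⟩ := hg
  refine ⟨fun l hl v => ?_, fun l hl v => ?_, fun v => ?_, fun v => ?_⟩
  · simp [hy l hl, hy' l hl]
  · simp [hx l hl, hx' l hl]
  · simp [hd, hd']
  · simp [hT, hT']

/-- A surjective morphism transports flatness. -/
lemma Mor.flat {A : Set ℕ} {X Y : Ob k lam n} {f : X.V →ₗ[k] Y.V} (h : Mor A X Y f)
    (hs : Function.Surjective f) {L : List (ℕ × ℕ)} (hL : ∀ a ∈ L, a.1 ∈ A ∧ a.2 ∈ A)
    (hf : Flat X L) : Flat Y L := by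
  induction L generalizing X Y with
  | nil =>
    obtain ⟨hy, hx, hd, hT⟩ := h
    show Y.d * Y.d = 0
    have hf' : X.d * X.d = 0 := hf
    apply LinearMap.ext; intro v
    obtain ⟨w, rfl⟩ := hs v
    have := LinearMap.congr_fun hf' w
    simp only [Module.End.mul_apply, LinearMap.zero_apply] at this ⊢
    rw [← hd, ← hd, this, map_zero]
  | cons p L ih =>
    refine ih (h.cl (hL p (by simp)).1 (hL p (by simp)).2) ?_
      (fun a ha => hL a (by simp [ha])) hf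
    rintro ⟨v, w⟩
    obtain ⟨v', rfl⟩ := hs v
    obtain ⟨w', rfl⟩ := hs w
    exact ⟨(v', w'), rfl⟩

end ZM
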