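import Pool.Agent.H75.ZM.Ctr

/-!
# Sub-objects with filtered contractible quotient (row ZM Incl)

Proof.  More generally, for an injective `g : Y.V →ₗ X.V` which is a morphism `Mor A Y X g` and
with `Fil A X (range g) ⊤`: induction on `L` with `Mor.cl`, `Fil.cl` and
`range (g.prodMap g) = (range g).prod (range g)`, `⊤.prod ⊤ = ⊤`.  For `L = []`: `X.d X.d = 0`;
`ker Y.d → X.H` is surjective: for a cycle `v`, `d v = 0 ∈ range g`, so by `Fil.acy` there is `w`
with `v - d w ∈ range g`; `v - d w = g v'` with `g (Y.d v') = 0`, so `Y.d v' = 0`.  Kernel: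
if `g v' = X.d w` then by `Fil.acy` (applied to `w`, `d w ∈ range g`) there is `w'` with
`w - d w' = g u`, and `g v' = d w = d (g u) = g (Y.d u)`, so `v' = Y.d u`.  Apply it to the
inclusion `P.subtype` of `X.sub P`.
-/

namespace ZM

variable {k : Type} [Field k] {lam : k} {n : ℕ}

/-- The base case of `he_inj`. -/
lemma incl_base {X Y : Ob k lam n} (g : Y.V →ₗ[k] X.V) (hd : ∀ v, g (Y.d v) = X.d (g v))
    (hT : ∀ v, g (Y.T v) = X.T (g v)) (hi : Function.Injective g) (hdd : X.d * X.d = 0)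
    (hac : ∀ v, X.d v ∈ LinearMap.range g → ∃ w, v - X.d w ∈ LinearMap.range g) : HQ Y X := by
  have hker : ∀ v ∈ LinearMap.ker Y.d, g v ∈ LinearMap.ker X.d := by
    intro v hv
    rw [LinearMap.mem_ker] at hv ⊢
    rw [← hd, hv, map_zero]
  have hd0 : ∀ w, X.d (X.d w) = 0 := fun w => LinearMap.congr_fun hdd w
  let gk : LinearMap.ker Y.d →ₗ[k] LinearMap.ker X.d := g.restrict hker
  have hle : (LinearMap.range Y.d).comap (LinearMap.ker Y.d).subtype ≤
      ((LinearMap.range X.d).comap (LinearMap.ker X.d).subtype).comap gk := by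
    rintro ⟨v, hv⟩ ⟨w, hw⟩
    refine ⟨g w, ?_⟩
    have hw' : Y.d w = v := hw
    rw [← hd, hw']
    rfl
  let F : Y.H →ₗ[k] X.H := Submodule.mapQ _ _ gk hle
  have hinj : Function.Injective F := by
    rw [← LinearMap.ker_eq_bot, eq_bot_iff]
    intro z hz
    obtain ⟨⟨v, hv⟩, rfl⟩ := Submodule.mkQ_surjective _ z
    have hz' : (Submodule.Quotient.mk (gk ⟨v, hv⟩) : X.H) = 0 := hz
    have hz2 := (Submodule.Quotient.mk_eq_zero _).1 hz'
    obtain ⟨w, hw⟩ := hz2
    have hw' : X.d w = g v := hw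
    obtain ⟨w', u, hu⟩ := hac w ⟨v, hw'.symm⟩
    show (Submodule.Quotient.mk (⟨v, hv⟩ : LinearMap.ker Y.d) : Y.H) = 0
    refine (Submodule.Quotient.mk_eq_zero _).2 ⟨u, ?_⟩
    show Y.d u = v
    apply hi
    rw [hd, hu, map_sub, hd0, sub_zero, hw']
  have hsurj : Function.Surjective F := by
    intro z
    obtain ⟨⟨v, hv⟩, rfl⟩ := Submodule.mkQ_surjective _ z
    have hv0 : X.d v = 0 := hv
    obtain ⟨w, v', hv'⟩ := hac v (by rw [hv0]; exact zero_mem _)
    have h1 : v' ∈ LinearMap.ker Y.d := by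
      rw [LinearMap.mem_ker]
      apply hi
      rw [hd, hv', map_sub, hd0, hv0, map_zero, sub_zero]
    refine ⟨Submodule.Quotient.mk ⟨v', h1⟩, ?_⟩
    show (Submodule.Quotient.mk (gk ⟨v', h1⟩) : X.H) = Submodule.Quotient.mk _
    refine (Submodule.Quotient.eq _).2 ⟨-w, ?_⟩
    show X.d (-w) = g v' - v
    rw [hv', map_neg]
    abel
  refine ⟨LinearEquiv.ofBijective F ⟨hinj, hsurj⟩, ?_⟩
  intro z
  obtain ⟨⟨v, hv⟩, rfl⟩ := Submodule.mkQ_surjective _ z
  show (Submodule.Quotient.mk _ : X.H) = Submodule.Quotient.mk _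
  congr 1
  apply Subtype.ext
  exact hT v

lemma incl_range {V W : Type} [AddCommGroup V] [Module k V] [AddCommGroup W] [Module k W]
    (g : V →ₗ[k] W) : LinearMap.range (g.prodMap g) =
      (LinearMap.range g).prod (LinearMap.range g) := by
  ext ⟨a, b⟩
  constructor
  · rintro ⟨⟨v, w⟩, h⟩
    have h1 : g v = a := congrArg Prod.fst h
    have h2 : g w = b := congrArg Prod.snd h
    exact ⟨⟨v, h1⟩, ⟨w, h2⟩⟩
  · rintro ⟨⟨v, h1⟩, ⟨w, h2⟩⟩
    exact ⟨(v, w), Prod.ext h1 h2⟩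

theorem he_inj {A : Set ℕ} {X Y : Ob k lam n} (g : Y.V →ₗ[k] X.V) (hg : Mor A Y X g)
    (hi : Function.Injective g) (hk : Fil A X (LinearMap.range g) ⊤) {L : List (ℕ × ℕ)}
    (hL : ∀ a ∈ L, a.1 ∈ A ∧ a.2 ∈ A) (hfl : Flat X L) : HE Y X L := by
  induction L generalizing X Y with
  | nil =>
    refine incl_base g hg.2.2.1 hg.2.2.2 hi hfl ?_
    intro v hv
    obtain ⟨w, _, hw⟩ := hk.acy hfl v trivial hv
    exact ⟨w, hw⟩
  | cons p L ih =>
    have hp := hL p (by simp)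
    have hc := hk.cl hp.1 hp.2
    have hfil : Fil A (X.cl p.1 p.2) (LinearMap.range (g.prodMap g)) ⊤ := by
      have e2 : (⊤ : Submodule k (X.V × X.V)) = (⊤ : Submodule k X.V).prod ⊤ :=
        Submodule.prod_top.symm
      have e1 := incl_range g
      show Fil A (X.cl p.1 p.2)
        (LinearMap.range (g.prodMap g) : Submodule k (X.V × X.V))
        (⊤ : Submodule k (X.V × X.V))
      rw [e1, e2]
      exact hc
    refine ih (g.prodMap g) (hg.cl hp.1 hp.2) ?_ hfil (fun a ha => hL a (by simp [ha])) hfl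
    rintro ⟨v, w⟩ ⟨v', w'⟩ h
    have h1 : g v = g v' := congrArg Prod.fst h
    have h2 : g w = g w' := congrArg Prod.snd h
    exact Prod.ext (hi h1) (hi h2)

/-- An injective morphism transports flatness backwards. -/
lemma Mor.flat_inj {A : Set ℕ} {X Y : Ob k lam n} {g : Y.V →ₗ[k] X.V} (hg : Mor A Y X g)
    (hi : Function.Injective g) {L : List (ℕ × ℕ)} (hL : ∀ a ∈ L, a.1 ∈ A ∧ a.2 ∈ A)
    (hf : Flat X L) : Flat Y L := by
  induction L generalizing X Y with
  | nil =>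
    have hd := hg.2.2.1
    show Y.d * Y.d = 0
    have hf' : X.d * X.d = 0 := hf
    apply LinearMap.ext; intro v
    apply hi
    have := LinearMap.congr_fun hf' (g v)
    simp only [Module.End.mul_apply, LinearMap.zero_apply] at this ⊢
    rw [hd, hd, this, map_zero]
  | cons p L ih =>
    refine ih (hg.cl (hL p (by simp)).1 (hL p (by simp)).2) ?_
      (fun a ha => hL a (by simp [ha])) hf
    rintro ⟨v, w⟩ ⟨v', w'⟩ h
    have h1 : g v = g v' := congrArg Prod.fst h
    have h2 : g w = g w' := congrArg Prod.snd h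
    exact Prod.ext (hi h1) (hi h2)

theorem he_incl {A : Set ℕ} (X : Ob k lam n) (P : Submodule k X.V)
    (hy : ∀ l, ∀ v ∈ P, X.y l v ∈ P) (hx : ∀ l, ∀ v ∈ P, X.x l v ∈ P)
    (hd : ∀ v ∈ P, X.d v ∈ P) (hT : ∀ v ∈ P, X.T v ∈ P) (hk : Fil A X P ⊤) {L : List (ℕ × ℕ)}
    (hL : ∀ a ∈ L, a.1 ∈ A ∧ a.2 ∈ A) (hfl : Flat X L) : HE (X.sub P hy hx hd hT) X L := by
  have hm : Mor A (X.sub P hy hx hd hT) X P.subtype :=
    ⟨fun _ _ _ => rfl, fun _ _ _ => rfl, fun _ => rfl, fun _ => rfl⟩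
  refine he_inj P.subtype hm P.injective_subtype ?_ hL hfl
  have e : LinearMap.range P.subtype = P := P.range_subtype
  show Fil A X (LinearMap.range P.subtype) ⊤
  rw [e]
  exact hk

end ZM
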