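import Pool.Agent.H75.ZM.Hb

/-!
# The order of the closings does not matter (row ZM Perm)
-/

namespace ZM

variable {k : Type} [Field k] {lam : k} {n : ℕ}

lemma perm_hn_dg {V : Type} [AddCommGroup V] [Module k V] (a b : Module.End k V) (v : V × V) :
    hn n (dg a) (dg b) v = (hn n a b v.1, hn n a b v.2) := by
  refine Prod.ext ?_ ?_
  · exact hn_int (f := LinearMap.fst k V V) (fun _ => rfl) (fun _ => rfl) v
  · exact hn_int (f := LinearMap.snd k V V) (fun _ => rfl) (fun _ => rfl) v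

/-- The exchange map. -/
def perm_e (k V : Type) [Field k] [AddCommGroup V] [Module k V] :
    ((V × V) × (V × V)) ≃ₗ[k] ((V × V) × (V × V)) where
  toFun p := ((p.1.1, p.2.1), (p.1.2, -p.2.2))
  map_add' p q := by
    simp only [Prod.fst_add, Prod.snd_add, Prod.mk_add_mk, neg_add]
  map_smul' c p := by
    simp only [Prod.smul_fst, Prod.smul_snd, RingHom.id_apply, Prod.smul_mk, smul_neg]
  invFun p := ((p.1.1, p.2.1), (p.1.2, -p.2.2))
  left_inv p := by simp
  right_inv p := by simp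

lemma cl_cl (X : Ob k lam n) (p r p' r' : ℕ) :
    Iso Set.univ ((X.cl p r).cl p' r') ((X.cl p' r').cl p r) := by
  refine ⟨perm_e k X.V, ?_, ?_, ?_, ?_⟩
  · rintro l - ⟨⟨v, w⟩, ⟨v', w'⟩⟩
    refine Prod.ext (Prod.ext rfl rfl) (Prod.ext rfl ?_)
    exact (map_neg (X.y l) w').symm
  · rintro l - ⟨⟨v, w⟩, ⟨v', w'⟩⟩
    refine Prod.ext (Prod.ext rfl rfl) (Prod.ext rfl ?_)
    exact (map_neg (X.x l) w').symm
  · rintro ⟨⟨v, w⟩, ⟨v', w'⟩⟩
    have h1 : ∀ (p r : ℕ) (v w : X.V), hn n (dg (X.y p)) (dg (X.x r)) (v, w) =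
        (hn n (X.y p) (X.x r) v, hn n (X.y p) (X.x r) w) := fun p r v w => perm_hn_dg _ _ _
    refine Prod.ext (Prod.ext ?_ ?_) (Prod.ext ?_ ?_)
    · show (X.d v + (X.y p w - X.x r w)) + (X.y p' v' - X.x r' v') =
        (X.d v + (X.y p' v' - X.x r' v')) + (X.y p w - X.x r w)
      abel
    · show ((hn n (dg (X.y p')) (dg (X.x r'))) (v, w)).1 + -(X.d v' + (X.y p w' - X.x r w')) =
        (hn n (X.y p') (X.x r') v + -X.d v') + (X.y p (-w') - X.x r (-w'))
      rw [h1, map_neg, map_neg]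
      simp only
      abel
    · show (hn n (X.y p) (X.x r) v + -X.d w) + (X.y p' w' - X.x r' w') =
        ((hn n (dg (X.y p)) (dg (X.x r))) (v, v')).1 + -(X.d w + (X.y p' (-w') - X.x r' (-w')))
      rw [h1, map_neg, map_neg]
      simp only
      abel
    · show -(((hn n (dg (X.y p')) (dg (X.x r'))) (v, w)).2 +
          -(hn n (X.y p) (X.x r) v' + -X.d w')) =
        ((hn n (dg (X.y p)) (dg (X.x r))) (v, v')).2 +
          -(hn n (X.y p') (X.x r') w + -X.d (-w'))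
      rw [h1, h1, map_neg]
      simp only
      abel
  · rintro ⟨⟨v, w⟩, ⟨v', w'⟩⟩
    refine Prod.ext (Prod.ext rfl rfl) (Prod.ext rfl ?_)
    show -((lam * (lam⁻¹) ^ n) • ((lam * (lam⁻¹) ^ n) • X.T w')) =
      (lam * (lam⁻¹) ^ n) • ((lam * (lam⁻¹) ^ n) • X.T (-w'))
    rw [map_neg, smul_neg, smul_neg]

lemma perm_iso (X : Ob k lam n) {L L' : List (ℕ × ℕ)} (h : L.Perm L') :
    Iso Set.univ (X.cls L) (X.cls L') := by
  induction h generalizing X with
  | nil => exact Iso.refl _ _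
  | cons a _ ih => exact ih (X.cl a.1 a.2)
  | swap a b L =>
    exact Iso.cls (cl_cl X b.1 b.2 a.1 a.2) L fun _ _ => ⟨trivial, trivial⟩
  | trans _ _ ih1 ih2 => exact (ih1 X).trans (ih2 X)

theorem hq_perm (X : Ob k lam n) {L L' : List (ℕ × ℕ)} (h : L.Perm L') :
    HQ (X.cls L) (X.cls L') :=
  (perm_iso X h).hq

theorem flat_perm (X : Ob k lam n) {L L' : List (ℕ × ℕ)} (h : L.Perm L') (hf : Flat X L) :
    Flat X L' :=
  (perm_iso X h).flat0 hf

end ZM
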