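import Pool.Agent.H75.ZM.Sum

/-!
# Scaling, sign change and powers (row ZM Pw)

Proofs.  `scal_cls`: `(X.scal c).cl p r` is isomorphic to `(X.cl p r).scal c` by the identity
(`smul_comm`); the homology of `X.scal c` is that of `X` with `TH` multiplied by `c` (the
underlying space and `d` are the same, so it is literally the same type), `map_smul` for the
trace.  `neg_cls`: `(X.neg).cl p r` is isomorphic to `(X.cl p r).neg` by
`(v, w) ↦ (v, -w)`; `X.neg.H ≃ X.H` since `ker (-d) = ker d` and `range (-d) = range d`.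
`pw_tau`: induction on `r` (generalizing `c`): `X.pw 0 c` has `V = Fin 0 → X.V`, a subsingleton, so
all homologies after closings are subsingletons and the trace is `0`; `X.pw (r + 1) c` is isomorphic
to `(X.neg.scal c).sum (X.pw r (c * lam ^ 2))` by `Fin.consEquiv`-like splitting of a function on
`Fin (r + 1)` into its value at `0` and its restriction to the successors; then `sum_tau`,
`scal_tau`, `neg_he` and `Finset.sum_range_succ'`.
-/

namespace ZM

variable {k : Type} [Field k] {lam : k} {n : ℕ}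

lemma pw_scal_cl (c : k) (X : Ob k lam n) (p r : ℕ) :
    Iso Set.univ ((X.scal c).cl p r) ((X.cl p r).scal c) := by
  refine ⟨LinearEquiv.refl k (X.V × X.V), fun _ _ _ => rfl, fun _ _ _ => rfl, fun _ => rfl, ?_⟩
  rintro ⟨v, w⟩
  show ((c • X.T) v, ((lam * (lam⁻¹) ^ n) • (c • X.T)) w)
    = c • ((X.T v, ((lam * (lam⁻¹) ^ n) • X.T) w) : X.V × X.V)
  rw [Prod.smul_mk, smul_comm]
  rfl

lemma pw_scal_cls (c : k) (X : Ob k lam n) (L : List (ℕ × ℕ)) :
    Iso Set.univ ((X.scal c).cls L) ((X.cls L).scal c) := by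
  induction L generalizing X with
  | nil => exact Iso.refl _ _
  | cons p L ih =>
    exact ((pw_scal_cl c X p.1 p.2).cls L (fun _ _ => ⟨trivial, trivial⟩)).trans
      (ih (X.cl p.1 p.2))

lemma pw_scal_tau0 (c : k) (X : Ob k lam n) : (X.scal c).tau = c * X.tau := by
  have h : ((X.scal c).TH : X.H →ₗ[k] X.H) = c • X.TH := by
    apply LinearMap.ext
    intro z
    obtain ⟨⟨v, hv⟩, rfl⟩ := Submodule.mkQ_surjective _ z
    rfl
  show LinearMap.trace k X.H ((X.scal c).TH : X.H →ₗ[k] X.H) = c * LinearMap.trace k X.H X.TH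
  rw [h, map_smul, smul_eq_mul]

theorem scal_tau (c : k) (X : Ob k lam n) (L : List (ℕ × ℕ)) :
    ((X.scal c).cls L).tau = c * (X.cls L).tau := by
  rw [(pw_scal_cls c X L).hq.tau, pw_scal_tau0]

theorem scal_fin (c : k) (X : Ob k lam n) (L : List (ℕ × ℕ))
    (h : Module.Finite k (X.cls L).H) : Module.Finite k ((X.scal c).cls L).H := by
  exact (pw_scal_cls c X L).symm.hq.fin h

lemma scal_flat (c : k) (X : Ob k lam n) (L : List (ℕ × ℕ)) (h : Flat X L) :
    Flat (X.scal c) L := by
  exact (pw_scal_cls c X L).symm.flat0 h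

lemma pw_neg_cl (X : Ob k lam n) (p r : ℕ) :
    Iso Set.univ (X.neg.cl p r) ((X.cl p r).neg) := by
  have h1 : ∀ (f g : Module.End k X.V) (v w : X.V),
      ((f v, -(g w)) : X.V × X.V) = (f v, g (-w)) := fun f g v w => by rw [map_neg]
  have h2 : ∀ (a b : Module.End k X.V) (v w : X.V),
      ((-(X.d v) + a w, -(b v + -(-(X.d w)))) : X.V × X.V)
      = -(X.d v + a (-w), b v + -(X.d (-w))) := by
    intro a b v w
    rw [Prod.neg_mk, map_neg, map_neg]
    refine Prod.ext ?_ rfl
    show -(X.d v) + a w = -(X.d v + -(a w))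
    abel
  exact ⟨(LinearEquiv.refl k X.V).prodCongr (LinearEquiv.neg k),
    fun l _ q => h1 (X.y l) (X.y l) q.1 q.2, fun l _ q => h1 (X.x l) (X.x l) q.1 q.2,
    fun q => h2 (X.y p - X.x r) (hn n (X.y p) (X.x r)) q.1 q.2,
    fun q => h1 X.T ((lam * (lam⁻¹) ^ n) • X.T) q.1 q.2⟩

lemma pw_neg_cls (X : Ob k lam n) (L : List (ℕ × ℕ)) :
    Iso Set.univ (X.neg.cls L) ((X.cls L).neg) := by
  induction L generalizing X with
  | nil => exact Iso.refl _ _
  | cons p L ih =>
    exact ((pw_neg_cl X p.1 p.2).cls L (fun _ _ => ⟨trivial, trivial⟩)).trans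
      (ih (X.cl p.1 p.2))

lemma pw_neg_hq (X : Ob k lam n) : HQ X.neg X := by
  have hker : ∀ v : X.V, X.neg.d v = 0 → X.d v = 0 :=
    fun v hv => neg_eq_zero.1 (show -(X.d v) = 0 from hv)
  have hker' : ∀ v : X.V, X.d v = 0 → X.neg.d v = 0 := by
    intro v hv
    show -(X.d v) = 0
    rw [hv, neg_zero]
  have key : ∀ u w : X.V, X.neg.d u = w → X.d (-u) = w := by
    intro u w h
    rw [map_neg]
    exact h
  have key' : ∀ u w : X.V, X.d u = w → X.neg.d (-u : X.V) = w := by
    intro u w h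
    show -(X.d (-u)) = w
    rw [map_neg, neg_neg, h]
  let ek : LinearMap.ker X.neg.d ≃ₗ[k] LinearMap.ker X.d :=
    { toFun := fun v => ⟨v.1, LinearMap.mem_ker.2 (hker v.1 (LinearMap.mem_ker.1 v.2))⟩
      map_add' := fun v w => rfl
      map_smul' := fun c v => rfl
      invFun := fun v => ⟨v.1, LinearMap.mem_ker.2 (hker' v.1 (LinearMap.mem_ker.1 v.2))⟩
      left_inv := fun v => rfl
      right_inv := fun v => rfl }
  refine ⟨Submodule.Quotient.equiv _ _ ek ?_, ?_⟩
  · ext ⟨v, hv⟩
    simp only [Submodule.mem_map, Submodule.mem_comap, LinearMap.mem_range, Subtype.exists]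
    constructor
    · rintro ⟨w, hw, ⟨u, hu⟩, h2⟩
      have h3 : w = v := congrArg Subtype.val h2
      exact ⟨(-u : X.V), (key u w hu).trans h3⟩
    · rintro ⟨u, hu⟩
      exact ⟨v, LinearMap.mem_ker.2 (hker' v (LinearMap.mem_ker.1 hv)),
        ⟨(-u : X.V), key' u v hu⟩, rfl⟩
  · intro z
    obtain ⟨⟨v, hv⟩, rfl⟩ := Submodule.mkQ_surjective _ z
    rfl

theorem neg_he (X : Ob k lam n) (L : List (ℕ × ℕ)) : HE X.neg X L := by
  exact (pw_neg_cls X L).hq.trans (pw_neg_hq (X.cls L))

lemma pw_subs (X : Ob k lam n) (L : List (ℕ × ℕ)) (h : Subsingleton X.V) :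
    Subsingleton (X.cls L).V := by
  induction L generalizing X with
  | nil => exact h
  | cons p L ih =>
    refine ih (X.cl p.1 p.2) ?_
    show Subsingleton (X.V × X.V)
    infer_instance

lemma pw_subs_H (X : Ob k lam n) (h : Subsingleton X.V) : Subsingleton X.H := by
  refine ⟨fun a b => ?_⟩
  obtain ⟨a, rfl⟩ := Submodule.mkQ_surjective _ a
  obtain ⟨b, rfl⟩ := Submodule.mkQ_surjective _ b
  congr 1
  exact Subtype.ext (Subsingleton.elim _ _)

lemma pw_zero (X : Ob k lam n) (c : k) (L : List (ℕ × ℕ)) :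
    Subsingleton ((X.pw 0 c).cls L).H := by
  refine pw_subs_H _ (pw_subs _ L ?_)
  show Subsingleton (Fin 0 → X.V)
  infer_instance

lemma pw_succ (X : Ob k lam n) (r : ℕ) (c : k) :
    Iso Set.univ (X.pw (r + 1) c) ((X.neg.scal c).sum (X.pw r (c * lam ^ 2))) := by
  let e : (Fin (r + 1) → X.V) ≃ₗ[k] X.V × (Fin r → X.V) :=
    { toFun := fun v => (v 0, fun i => v i.succ)
      map_add' := fun v w => rfl
      map_smul' := fun c v => rfl
      invFun := fun p => Fin.cons p.1 p.2
      left_inv := fun v => by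
        funext i
        refine Fin.cases ?_ (fun i => ?_) i
        · rfl
        · rfl
      right_inv := fun p => by
        refine Prod.ext ?_ ?_
        · rfl
        · rfl }
  refine ⟨e, fun l _ v => rfl, fun l _ v => rfl, fun v => rfl, fun v => ?_⟩
  refine Prod.ext ?_ ?_
  · show (c * (lam ^ 2) ^ ((0 : Fin (r + 1)) : ℕ)) • X.T (v 0) = c • X.T (v 0)
    simp
  · funext i
    show (c * (lam ^ 2) ^ ((i.succ : Fin (r + 1)) : ℕ)) • X.T (v i.succ)
      = (c * lam ^ 2 * (lam ^ 2) ^ (i : ℕ)) • X.T (v i.succ)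
    congr 1
    rw [Fin.val_succ, pow_succ]
    ring

theorem pw_fin (X : Ob k lam n) (r : ℕ) (c : k) (L : List (ℕ × ℕ))
    (h : Module.Finite k (X.cls L).H) : Module.Finite k ((X.pw r c).cls L).H := by
  induction r generalizing c with
  | zero =>
    have := pw_zero X c L
    infer_instance
  | succ r ih =>
    refine (((pw_succ X r c).symm).cls L (fun _ _ => ⟨trivial, trivial⟩)).hq.fin ?_
    exact sum_fin _ _ L (scal_fin c _ L ((neg_he X L).symm.fin h)) (ih _)

theorem pw_tau (X : Ob k lam n) (r : ℕ) (c : k) (L : List (ℕ × ℕ))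
    (h : Module.Finite k (X.cls L).H) :
    ((X.pw r c).cls L).tau = c * (∑ i ∈ Finset.range r, (lam ^ 2) ^ i) * (X.cls L).tau := by
  induction r generalizing c with
  | zero =>
    have := pw_zero X c L
    rw [Finset.range_zero, Finset.sum_empty, mul_zero, zero_mul]
    have h0 : ((X.pw 0 c).cls L).TH = 0 := LinearMap.ext fun z => Subsingleton.elim _ _
    rw [Ob.tau, h0, map_zero]
  | succ r ih =>
    rw [((pw_succ X r c).cls L (fun _ _ => ⟨trivial, trivial⟩)).hq.tau,
      sum_tau _ _ L (scal_fin c _ L ((neg_he X L).symm.fin h)) (pw_fin X r _ L h),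
      scal_tau, (neg_he X L).tau, ih, Finset.sum_range_succ']
    have h1 : ∑ i ∈ Finset.range r, (lam ^ 2) ^ (i + 1)
        = lam ^ 2 * ∑ i ∈ Finset.range r, (lam ^ 2) ^ i := by
      rw [Finset.mul_sum]
      refine Finset.sum_congr rfl fun i _ => ?_
      rw [pow_succ]
      ring
    rw [h1, pow_zero]
    ring

end ZM
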