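import Pool.Agent.H75.ZM.Hb

/-!
# Direct sums (row ZM Sum)

Proofs.  `sum_cl`: the linear equivalence `((v, v'), (w, w')) ↦ ((v, w), (v', w'))`
(`LinearEquiv.prodProdProdComm`).  `sum_cls`: induction on `L` with `Iso.cls`.  For the homology of
a sum: `(X.sum Y).H ≃ X.H × Y.H` compatibly with `TH` and `X.TH.prodMap Y.TH` (map a class of
`(v, w)` to the classes of `v` and `w`; for instance build the linear map with `Submodule.liftQ`
or `Submodule.mapQ` and show bijectivity).  Then `LinearMap.trace_prodMap'` (or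
`LinearMap.trace_prodMap`) and `LinearMap.trace_conj'`.
-/

namespace ZM

variable {k : Type} [Field k] {lam : k} {n : ℕ}

lemma sum_cl (X Y : Ob k lam n) (p r : ℕ) :
    Iso Set.univ ((X.sum Y).cl p r) ((X.cl p r).sum (Y.cl p r)) := by
  refine ⟨LinearEquiv.prodProdProdComm k X.V Y.V X.V Y.V, fun l _ v => rfl, fun l _ v => rfl,
    fun v => ?_, fun v => rfl⟩
  obtain ⟨⟨v, v'⟩, ⟨w, w'⟩⟩ := v
  have h1 : (hn n ((X.y p).prodMap (Y.y p)) ((X.x r).prodMap (Y.x r)) (v, v')).1 =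
      hn n (X.y p) (X.x r) v :=
    hn_int (f := LinearMap.fst k X.V Y.V) (fun _ => rfl) (fun _ => rfl) (v, v')
  have h2 : (hn n ((X.y p).prodMap (Y.y p)) ((X.x r).prodMap (Y.x r)) (v, v')).2 =
      hn n (Y.y p) (Y.x r) v' :=
    hn_int (f := LinearMap.snd k X.V Y.V) (fun _ => rfl) (fun _ => rfl) (v, v')
  refine Prod.ext (Prod.ext rfl ?_) (Prod.ext rfl ?_)
  · show (hn n ((X.y p).prodMap (Y.y p)) ((X.x r).prodMap (Y.x r)) (v, v')).1 + -X.d w =
      hn n (X.y p) (X.x r) v + -X.d w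
    rw [h1]
  · show (hn n ((X.y p).prodMap (Y.y p)) ((X.x r).prodMap (Y.x r)) (v, v')).2 + -Y.d w' =
      hn n (Y.y p) (Y.x r) v' + -Y.d w'
    rw [h2]

lemma Iso.sum {A : Set ℕ} {X X' Y Y' : Ob k lam n} (h : Iso A X X') (h' : Iso A Y Y') :
    Iso A (X.sum Y) (X'.sum Y') := by
  obtain ⟨e, hy, hx, hd, hT⟩ := h
  obtain ⟨e', hy', hx', hd', hT'⟩ := h'
  exact ⟨e.prodCongr e', fun l hl v => Prod.ext (hy l hl v.1) (hy' l hl v.2),
    fun l hl v => Prod.ext (hx l hl v.1) (hx' l hl v.2),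
    fun v => Prod.ext (hd v.1) (hd' v.2), fun v => Prod.ext (hT v.1) (hT' v.2)⟩

lemma sum_cls (X Y : Ob k lam n) (L : List (ℕ × ℕ)) :
    Iso Set.univ ((X.sum Y).cls L) ((X.cls L).sum (Y.cls L)) := by
  induction L generalizing X Y with
  | nil => exact Iso.refl _ _
  | cons p L ih =>
    exact ((sum_cl X Y p.1 p.2).cls L (fun a _ => ⟨Set.mem_univ _, Set.mem_univ _⟩)).trans
      (ih (X.cl p.1 p.2) (Y.cl p.1 p.2))

/-- The map from cycles of the sum to the product of the homologies. -/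
def sum_f (X Y : Ob k lam n) : LinearMap.ker (X.sum Y).d →ₗ[k] X.H × Y.H where
  toFun z := (X.cla ⟨z.1.1, congrArg Prod.fst z.2⟩, Y.cla ⟨z.1.2, congrArg Prod.snd z.2⟩)
  map_add' z w := by
    refine Prod.ext ?_ ?_
    · exact (X.cla).map_add ⟨z.1.1, congrArg Prod.fst z.2⟩ ⟨w.1.1, congrArg Prod.fst w.2⟩
    · exact (Y.cla).map_add ⟨z.1.2, congrArg Prod.snd z.2⟩ ⟨w.1.2, congrArg Prod.snd w.2⟩
  map_smul' c z := by
    refine Prod.ext ?_ ?_
    · exact (X.cla).map_smul c ⟨z.1.1, congrArg Prod.fst z.2⟩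
    · exact (Y.cla).map_smul c ⟨z.1.2, congrArg Prod.snd z.2⟩

lemma sum_cla_zero (X : Ob k lam n) (v : X.V) (hv : v ∈ LinearMap.ker X.d) :
    X.cla ⟨v, hv⟩ = 0 ↔ ∃ w, X.d w = v := by
  have h := Submodule.Quotient.mk_eq_zero ((LinearMap.range X.d).comap (LinearMap.ker X.d).subtype)
    (x := ⟨v, hv⟩)
  exact h

lemma sum_f_zero (X Y : Ob k lam n) (z : LinearMap.ker (X.sum Y).d) :
    sum_f X Y z = 0 ↔ (X.sum Y).cla z = 0 := by
  obtain ⟨⟨v, w⟩, hz⟩ := z
  rw [sum_cla_zero]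
  constructor
  · intro h
    obtain ⟨a, ha⟩ := (sum_cla_zero X v _).mp (congrArg Prod.fst h)
    obtain ⟨b, hb⟩ := (sum_cla_zero Y w _).mp (congrArg Prod.snd h)
    exact ⟨(a, b), Prod.ext ha hb⟩
  · rintro ⟨⟨a, b⟩, hab⟩
    refine Prod.ext ?_ ?_
    · exact (sum_cla_zero X v _).mpr ⟨a, congrArg Prod.fst hab⟩
    · exact (sum_cla_zero Y w _).mpr ⟨b, congrArg Prod.snd hab⟩

/-- The map from the homology of the sum to the product of the homologies. -/
def sum_g (X Y : Ob k lam n) : (X.sum Y).H →ₗ[k] X.H × Y.H :=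
  Submodule.liftQ _ (sum_f X Y) (by
    intro z hz
    rw [LinearMap.mem_ker, sum_f_zero]
    exact (Submodule.Quotient.mk_eq_zero _).mpr hz)

lemma sum_g_cla (X Y : Ob k lam n) (z : LinearMap.ker (X.sum Y).d) :
    sum_g X Y ((X.sum Y).cla z) = sum_f X Y z := rfl

lemma sum_cla_surj (X : Ob k lam n) (h : X.H) : ∃ z, X.cla z = h :=
  Submodule.mkQ_surjective _ h

lemma sum_g_bij (X Y : Ob k lam n) : Function.Bijective (sum_g X Y) := by
  constructor
  · rw [← LinearMap.ker_eq_bot, LinearMap.ker_eq_bot']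
    intro h hh
    obtain ⟨z, rfl⟩ := sum_cla_surj _ h
    rw [sum_g_cla, sum_f_zero] at hh
    exact hh
  · rintro ⟨a, b⟩
    obtain ⟨⟨v, hv⟩, rfl⟩ := sum_cla_surj _ a
    obtain ⟨⟨w, hw⟩, rfl⟩ := sum_cla_surj _ b
    exact ⟨(X.sum Y).cla ⟨(v, w), Prod.ext hv hw⟩, rfl⟩

lemma sum_TH_cla (X : Ob k lam n) (z : LinearMap.ker X.d) :
    X.TH (X.cla z) = X.cla ⟨X.T z.1, X.T_ker z.1 z.2⟩ := rfl

/-- The homology of a sum. -/
noncomputable def sum_e (X Y : Ob k lam n) : (X.sum Y).H ≃ₗ[k] X.H × Y.H :=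
  LinearEquiv.ofBijective (sum_g X Y) (sum_g_bij X Y)

lemma sum_e_TH (X Y : Ob k lam n) (h : (X.sum Y).H) :
    sum_e X Y ((X.sum Y).TH h) = (X.TH.prodMap Y.TH) (sum_e X Y h) := by
  obtain ⟨z, rfl⟩ := sum_cla_surj _ h
  rfl

lemma sum_tau0 (X Y : Ob k lam n) (hX : Module.Finite k X.H) (hY : Module.Finite k Y.H) :
    (X.sum Y).tau = X.tau + Y.tau := by
  have h1 : (sum_e X Y).conj (X.sum Y).TH = X.TH.prodMap Y.TH := by
    apply LinearMap.ext
    intro v
    rw [LinearEquiv.conj_apply_apply, sum_e_TH, LinearEquiv.apply_symm_apply]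
  have h2 : LinearMap.trace k (X.H × Y.H) (X.TH.prodMap Y.TH) =
      LinearMap.trace k X.H X.TH + LinearMap.trace k Y.H Y.TH :=
    LinearMap.trace_prodMap' _ _
  unfold Ob.tau
  rw [← h2, ← h1, LinearMap.trace_conj']

theorem sum_tau (X Y : Ob k lam n) (L : List (ℕ × ℕ)) (hX : Module.Finite k (X.cls L).H)
    (hY : Module.Finite k (Y.cls L).H) :
    ((X.sum Y).cls L).tau = (X.cls L).tau + (Y.cls L).tau := by
  rw [(sum_cls X Y L).hq.tau, sum_tau0 _ _ hX hY]

theorem sum_fin (X Y : Ob k lam n) (L : List (ℕ × ℕ)) (hX : Module.Finite k (X.cls L).H)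
    (hY : Module.Finite k (Y.cls L).H) : Module.Finite k ((X.sum Y).cls L).H := by
  have h : Module.Finite k ((X.cls L).sum (Y.cls L)).H := by
    have h1 : Module.Finite k ((X.cls L).H × (Y.cls L).H) := inferInstance
    exact Module.Finite.equiv (sum_e (X.cls L) (Y.cls L)).symm
  exact (sum_cls X Y L).hq.symm.fin h

lemma sum_fin_both (X Y : Ob k lam n) (L : List (ℕ × ℕ))
    (h : Module.Finite k ((X.sum Y).cls L).H) : Module.Finite k ((X.cls L).H × (Y.cls L).H) := by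
  have h1 : Module.Finite k ((X.cls L).sum (Y.cls L)).H := (sum_cls X Y L).hq.fin h
  exact Module.Finite.equiv (sum_e (X.cls L) (Y.cls L))

theorem sum_fin_left (X Y : Ob k lam n) (L : List (ℕ × ℕ))
    (h : Module.Finite k ((X.sum Y).cls L).H) : Module.Finite k (X.cls L).H := by
  have h1 := sum_fin_both X Y L h
  exact Module.Finite.of_surjective (LinearMap.fst k (X.cls L).H (Y.cls L).H)
    LinearMap.fst_surjective

theorem sum_fin_right (X Y : Ob k lam n) (L : List (ℕ × ℕ))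
    (h : Module.Finite k ((X.sum Y).cls L).H) : Module.Finite k (Y.cls L).H := by
  have h1 := sum_fin_both X Y L h
  exact Module.Finite.of_surjective (LinearMap.snd k (X.cls L).H (Y.cls L).H)
    LinearMap.snd_surjective

lemma sum_flat (X Y : Ob k lam n) (L : List (ℕ × ℕ)) (hX : Flat X L) (hY : Flat Y L) :
    Flat (X.sum Y) L := by
  refine (sum_cls X Y L).symm.flat0 ?_
  apply LinearMap.ext
  rintro ⟨v, w⟩
  refine Prod.ext ?_ ?_
  · exact LinearMap.congr_fun hX v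
  · exact LinearMap.congr_fun hY w

end ZM
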