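import Pool.Agent.H75.ZM.Ctr

/-!
# Quotients by filtered contractible objects (row ZM Surj)

Proof.  Induction on `L` (generalizing `X`, `Y`, `f`): the step uses `Mor.cl`, `Fil.cl` and
`ker (f.prodMap f) = (ker f).prod (ker f)` (surjectivity of `f.prodMap f` is clear).  For `L = []`:
`X.d X.d = 0`, `f` commutes with `d` and `T`, is surjective, and `K = ker f` is acyclic
(`Fil.acy` with `P = ⊥`, using that `ker f` is stable under `d`).  The map
`ker X.d → ker Y.d → Y.H` is surjective: for `z ∈ ker Y.d`, `z = f v`, `d v ∈ K`,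
`d (d v) = 0`, so `d v = d w` with `w ∈ K`, and `v - w` is a cycle with image `z`.  Its kernel is
`range X.d ∩ ker X.d`: if `f v = Y.d (f u) = f (X.d u)`, then `v - X.d u ∈ K` is a cycle, hence
`= X.d w`.  So `X.H ≃ Y.H`, and the map commutes with `TH`.
-/

namespace ZM

variable {k : Type} [Field k] {lam : k} {n : ℕ}

lemma Surj_ker {X Y : Ob k lam n} (f : X.V →ₗ[k] Y.V) (hd : ∀ v, f (X.d v) = Y.d (f v)) :
    ∀ v ∈ LinearMap.ker X.d, f v ∈ LinearMap.ker Y.d := by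
  intro v hv
  rw [LinearMap.mem_ker] at hv ⊢
  rw [← hd, hv, map_zero]

/-- The map `ker X.d → Y.H`. -/
def Surj_map {X Y : Ob k lam n} (f : X.V →ₗ[k] Y.V) (hd : ∀ v, f (X.d v) = Y.d (f v)) :
    LinearMap.ker X.d →ₗ[k] Y.H :=
  Y.cla ∘ₗ (f.restrict (Surj_ker f hd))

lemma Surj_cla_zero {Y : Ob k lam n} (z : LinearMap.ker Y.d) :
    Y.cla z = 0 ↔ ∃ u, Y.d u = z.1 :=
  (Submodule.Quotient.mk_eq_zero
    ((LinearMap.range Y.d).comap (LinearMap.ker Y.d).subtype) (x := z)).trans Iff.rfl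

lemma Surj_base {A : Set ℕ} {X Y : Ob k lam n} (f : X.V →ₗ[k] Y.V)
    (hd : ∀ v, f (X.d v) = Y.d (f v)) (hT : ∀ v, f (X.T v) = Y.T (f v))
    (hs : Function.Surjective f) (hk : Fil A X ⊥ (LinearMap.ker f))
    (hdd : X.d * X.d = 0) : HQ X Y := by
  have hdd' : ∀ v, X.d (X.d v) = 0 := fun v => LinearMap.congr_fun hdd v
  have hac : ∀ v, f v = 0 → X.d v = 0 → ∃ w, f w = 0 ∧ v = X.d w := by
    intro v hv hdv
    obtain ⟨w, hw, h⟩ := hk.acy hdd v hv (by rw [hdv]; exact Submodule.zero_mem _)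
    exact ⟨w, hw, sub_eq_zero.mp ((Submodule.mem_bot k).mp h)⟩
  have hsurj : Function.Surjective (Surj_map f hd) := by
    intro z
    obtain ⟨⟨z, hz⟩, rfl⟩ := Submodule.mkQ_surjective _ z
    obtain ⟨v, rfl⟩ := hs z
    have hz' : Y.d (f v) = 0 := hz
    obtain ⟨w, hw, h⟩ := hac (X.d v) (by rw [hd, hz']) (hdd' v)
    have hc : X.d (v - w) = 0 := by rw [map_sub, h, sub_self]
    refine ⟨⟨v - w, hc⟩, ?_⟩
    show Y.cla ⟨f (v - w), _⟩ = Y.cla ⟨f v, hz⟩
    congr 1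
    apply Subtype.ext
    show f (v - w) = f v
    rw [map_sub, hw, sub_zero]
  have hker : (LinearMap.range X.d).comap (LinearMap.ker X.d).subtype =
      LinearMap.ker (Surj_map f hd) := by
    ext ⟨v, hv⟩
    have hv' : X.d v = 0 := hv
    rw [LinearMap.mem_ker]
    show (∃ u, X.d u = v) ↔ Y.cla ⟨f v, _⟩ = 0
    rw [Surj_cla_zero]
    constructor
    · rintro ⟨u, rfl⟩
      exact ⟨f u, (hd u).symm⟩
    · rintro ⟨u, hu⟩
      obtain ⟨u, rfl⟩ := hs u
      have hu' : Y.d (f u) = f v := hu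
      obtain ⟨w, hw, h⟩ := hac (v - X.d u) (by rw [map_sub, hd, hu', sub_self])
        (by rw [map_sub, hv', hdd', sub_zero])
      exact ⟨w + u, by rw [map_add, ← h, sub_add_cancel]⟩
  refine ⟨(Submodule.quotEquivOfEq _ _ hker).trans
    ((Surj_map f hd).quotKerEquivOfSurjective hsurj), ?_⟩
  intro z
  obtain ⟨⟨v, hv⟩, rfl⟩ := Submodule.mkQ_surjective _ z
  show Y.cla ⟨f (X.T v), _⟩ = Y.TH (Y.cla ⟨f v, _⟩)
  show Y.cla ⟨f (X.T v), _⟩ = Y.cla ⟨Y.T (f v), _⟩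
  congr 1
  apply Subtype.ext
  exact hT v

theorem he_surj {A : Set ℕ} {X Y : Ob k lam n} (f : X.V →ₗ[k] Y.V) (hf : Mor A X Y f)
    (hs : Function.Surjective f) (hk : Fil A X ⊥ (LinearMap.ker f)) {L : List (ℕ × ℕ)}
    (hL : ∀ a ∈ L, a.1 ∈ A ∧ a.2 ∈ A) (hfl : Flat X L) : HE X Y L := by
  induction L generalizing X Y with
  | nil =>
    obtain ⟨hy, hx, hd, hT⟩ := hf
    exact Surj_base f hd hT hs hk hfl
  | cons p L ih =>
    have h1 := (hL p (by simp)).1
    have h2 := (hL p (by simp)).2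
    refine ih (X := X.cl p.1 p.2) (Y := Y.cl p.1 p.2) (f.prodMap f) (hf.cl h1 h2) ?_ ?_
      (fun a ha => hL a (by simp [ha])) hfl
    · rintro ⟨v, w⟩
      obtain ⟨v', rfl⟩ := hs v
      obtain ⟨w', rfl⟩ := hs w
      exact ⟨(v', w'), rfl⟩
    · have h3 := hk.cl h1 h2
      have e1 : ((⊥ : Submodule k X.V).prod (⊥ : Submodule k X.V)) =
          (⊥ : Submodule k (X.V × X.V)) := Submodule.prod_bot
      have e2 : (LinearMap.ker f).prod (LinearMap.ker f) = LinearMap.ker (f.prodMap f) := by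
        ext ⟨v, w⟩
        simp [Submodule.mem_prod, Prod.ext_iff]
      rw [e1, e2] at h3
      exact h3

end ZM
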