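import Pool.Agent.H75.ZM.Surj
import Pool.Agent.H75.ZM.Pw
import Pool.Agent.H75.ZM.PolL

/-!
# A free circle (row ZM T3)

Proof.  `(X.new m).cl m m` has `V = (ℕ →₀ X.V) × (ℕ →₀ X.V)`, `b = sh - sh = 0` and
`a = hn n sh sh = (n + 1) sh ^ n`.  The map `F (v, w) = (w 0, ..., w (n-1))` to
`X.pw n (lam * (lam⁻¹) ^ n)` is a surjective morphism for the labels `< m` (on the odd part `d` is
`- cw X.d`).  Its kernel `{(v, w) | w i = 0 for i < n}` is contractible with
`h (v, w) = ((n + 1)⁻¹ dr n w, 0)`.  Conclude by `he_surj`, `pw_tau`, and the definition of `qint`.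
-/

namespace ZM

variable {k : Type} [Field k] {lam : k} {n : ℕ}

lemma t3_hn {V : Type} [AddCommGroup V] [Module k V] (a : Module.End k V) :
    hn n a a = ((n : k) + 1) • a ^ n := by
  unfold hn
  have h : ∀ i ∈ Finset.range (n + 1), a ^ i * a ^ (n - i) = a ^ n := by
    intro i hi
    have hi' : i ≤ n := Nat.lt_succ_iff.mp (Finset.mem_range.mp hi)
    rw [← pow_add, Nat.add_sub_cancel' hi']
  rw [Finset.sum_congr rfl h, Finset.sum_const, Finset.card_range, ← Nat.cast_smul_eq_nsmul k,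
    Nat.cast_add, Nat.cast_one]

lemma t3_nop {V : Type} [AddCommGroup V] [Module k V] (p : ℕ) (y : ℕ → Module.End k V) (l : ℕ)
    (h : l < p) : nop V p y l = cw (y l) := by
  unfold nop
  rw [if_neg (Nat.ne_of_lt h)]

lemma t3_nop' {V : Type} [AddCommGroup V] [Module k V] (p : ℕ) (y : ℕ → Module.End k V) :
    nop V p y p = sh := by
  unfold nop
  rw [if_pos rfl]

/-- The map `(v, w) ↦ (w 0, ..., w (n-1))`. -/
noncomputable def t3_F (k : Type) [Field k] (V : Type) [AddCommGroup V] [Module k V] (n : ℕ) :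
    ((ℕ →₀ V) × (ℕ →₀ V)) →ₗ[k] (Fin n → V) where
  toFun p := fun i => p.2 (i : ℕ)
  map_add' p q := by
    funext i
    simp
  map_smul' c p := by
    funext i
    simp

/-- The homotopy. -/
noncomputable def t3_h (k : Type) [Field k] (V : Type) [AddCommGroup V] [Module k V] (n : ℕ) :
    Module.End k ((ℕ →₀ V) × (ℕ →₀ V)) :=
  blk 0 (((n : k) + 1)⁻¹ • dr (k := k) n) 0 0

lemma t3_h_apply (V : Type) [AddCommGroup V] [Module k V] (n : ℕ) (v w : ℕ →₀ V) :
    t3_h k V n (v, w) = (((n : k) + 1)⁻¹ • dr (k := k) n w, 0) := by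
  simp [t3_h]

/-- The differential of `(X.new m).cl m m`. -/
noncomputable def t3_D (X : Ob k lam n) (m : ℕ) : Module.End k ((ℕ →₀ X.V) × (ℕ →₀ X.V)) :=
  blk (cw X.d) (nop X.V m X.y m - nop X.V m X.x m)
    (hn n (nop X.V m X.y m) (nop X.V m X.x m)) (-(cw X.d))

lemma t3_d (X : Ob k lam n) (m : ℕ) (v w : ℕ →₀ X.V) :
    t3_D X m (v, w) =
      (cw X.d v, ((n : k) + 1) • ((sh (k := k)) ^ n) v - cw X.d w) := by
  show blk (cw X.d) (nop X.V m X.y m - nop X.V m X.x m)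
    (hn n (nop X.V m X.y m) (nop X.V m X.x m)) (-(cw X.d)) (v, w) = _
  rw [t3_nop', t3_nop', t3_hn, sub_self]
  refine Prod.ext ?_ ?_
  · show cw X.d v + (0 : Module.End k (ℕ →₀ X.V)) w = cw X.d v
    rw [LinearMap.zero_apply, add_zero]
  · show (((n : k) + 1) • (sh (k := k)) ^ n) v + (-(cw X.d)) w = _
    rw [LinearMap.smul_apply, LinearMap.neg_apply, sub_eq_add_neg]

lemma t3_y {V : Type} [AddCommGroup V] [Module k V] (y : ℕ → Module.End k V) {m l : ℕ}
    (hl : l < m) (v w : ℕ →₀ V) : dg (nop V m y l) (v, w) = (cw (y l) v, cw (y l) w) := by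
  rw [t3_nop _ _ _ hl]
  rfl

lemma t3_m1 {V : Type} [AddCommGroup V] [Module k V] (y : ℕ → Module.End k V) {m l : ℕ}
    (hl : l < m) (p : (ℕ →₀ V) × (ℕ →₀ V)) :
    t3_F k V n (dg (nop V m y l) p) = fun i => y l (t3_F k V n p i) := by
  obtain ⟨v, w⟩ := p
  rw [t3_y y hl]
  funext i
  show cw (y l) w (i : ℕ) = y l (w (i : ℕ))
  rw [cw_coeff]

lemma t3_m2 (X : Ob k lam n) (m : ℕ) (p : (ℕ →₀ X.V) × (ℕ →₀ X.V)) :
    t3_F k X.V n (t3_D X m p) = fun i => - X.d (t3_F k X.V n p i) := by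
  obtain ⟨v, w⟩ := p
  rw [t3_d]
  funext i
  show (((n : k) + 1) • ((sh (k := k)) ^ n) v - cw X.d w) (i : ℕ) = - X.d (w (i : ℕ))
  rw [Finsupp.sub_apply, Finsupp.smul_apply, shp_coeff, if_neg (not_le.mpr i.2), smul_zero,
    zero_sub, cw_coeff]

lemma t3_m3 {V : Type} [AddCommGroup V] [Module k V] (T : Module.End k V) (c lam : k)
    (p : (ℕ →₀ V) × (ℕ →₀ V)) :
    t3_F k V n (pm (wt (lam ^ 2) * cw T) (c • (wt (lam ^ 2) * cw T)) p) =
      fun i : Fin n => (c * (lam ^ 2) ^ (i : ℕ)) • T (t3_F k V n p i) := by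
  obtain ⟨v, w⟩ := p
  funext i
  show (c • (wt (lam ^ 2) * cw T) : Module.End k (ℕ →₀ V)) w (i : ℕ) =
    (c * (lam ^ 2) ^ (i : ℕ)) • T (w (i : ℕ))
  rw [LinearMap.smul_apply, Finsupp.smul_apply, Module.End.mul_apply, wt_coeff, cw_coeff,
    smul_smul]

lemma t3_mor (X : Ob k lam n) (m : ℕ) :
    Mor {l | l < m} ((X.new m).cl m m) (X.pw n (lam * (lam⁻¹) ^ n)) (t3_F k X.V n) :=
  ⟨fun _ hl v => t3_m1 X.y hl v, fun _ hl v => t3_m1 X.x hl v, fun v => t3_m2 X m v,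
    fun v => t3_m3 X.T _ lam v⟩

lemma t3_surj (V : Type) [AddCommGroup V] [Module k V] (n : ℕ) :
    Function.Surjective (t3_F k V n) := by
  classical
  intro g
  refine ⟨(0, ∑ i : Fin n, Finsupp.single (i : ℕ) (g i)), ?_⟩
  funext j
  show (∑ i : Fin n, Finsupp.single (i : ℕ) (g i)) (j : ℕ) = g j
  rw [Finsupp.finsetSum_apply, Finset.sum_eq_single j]
  · rw [Finsupp.single_eq_same]
  · intro i _ hij
    rw [Finsupp.single_apply, if_neg]
    intro h
    exact hij (Fin.ext h)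
  · intro h
    exact absurd (Finset.mem_univ j) h

lemma t3_mem (V : Type) [AddCommGroup V] [Module k V] (n : ℕ) (v w : ℕ →₀ V) :
    (v, w) ∈ LinearMap.ker (t3_F k V n) ↔ ∀ i < n, w i = 0 := by
  rw [LinearMap.mem_ker]
  constructor
  · intro h i hi
    exact congrFun h ⟨i, hi⟩
  · intro h
    funext i
    exact h i i.2

lemma t3_c1 (hn1 : ((n : k) + 1) ≠ 0) (X : Ob k lam n) (m : ℕ)
    (p : (ℕ →₀ X.V) × (ℕ →₀ X.V)) (hp : ∀ i < n, p.2 i = 0) :
    t3_D X m (t3_h k X.V n p) + t3_h k X.V n (t3_D X m p) - p = 0 := by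
  obtain ⟨v, w⟩ := p
  have hvw : ∀ i < n, w i = 0 := hp
  rw [t3_h_apply, t3_d, t3_d, t3_h_apply]
  have e1 : ((n : k) + 1) • ((sh (k := k)) ^ n) (((n : k) + 1)⁻¹ • dr (k := k) n w) = w := by
    rw [map_smul, smul_smul, mul_inv_cancel₀ hn1, one_smul, shp_dr n w hvw]
  have e2 : ((n : k) + 1)⁻¹ • dr (k := k) n (((n : k) + 1) • ((sh (k := k)) ^ n) v - cw X.d w) =
      v - ((n : k) + 1)⁻¹ • cw X.d (dr (k := k) n w) := by
    rw [map_sub, map_smul, dr_shp, dr_cw, smul_sub, smul_smul, inv_mul_cancel₀ hn1, one_smul]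
  rw [e1, e2, map_smul, map_zero, sub_zero]
  refine Prod.ext ?_ ?_
  · show ((n : k) + 1)⁻¹ • cw X.d (dr (k := k) n w) +
      (v - ((n : k) + 1)⁻¹ • cw X.d (dr (k := k) n w)) - v = 0
    abel
  · show w + 0 - w = 0
    abel

lemma t3_c2 {V : Type} [AddCommGroup V] [Module k V] (y : ℕ → Module.End k V) {m l : ℕ}
    (hl : l < m) (p : (ℕ →₀ V) × (ℕ →₀ V)) :
    t3_h k V n (dg (nop V m y l) p) - dg (nop V m y l) (t3_h k V n p) = 0 := by
  obtain ⟨v, w⟩ := p
  rw [t3_y y hl, t3_h_apply, t3_h_apply, t3_y y hl, dr_cw, map_smul, map_zero, sub_self]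

lemma t3_c3 {V : Type} [AddCommGroup V] [Module k V] (p : (ℕ →₀ V) × (ℕ →₀ V)) :
    t3_h k V n p ∈ LinearMap.ker (t3_F k V n) := by
  obtain ⟨v, w⟩ := p
  rw [t3_h_apply, t3_mem]
  intro i _
  rfl

lemma t3_ctr (hn1 : ((n : k) + 1) ≠ 0) (X : Ob k lam n) (m : ℕ) :
    Ctr {l | l < m} ((X.new m).cl m m) ⊥ (LinearMap.ker (t3_F k X.V n)) := by
  have hm := t3_mor X m
  refine ⟨bot_le, ⟨?_, ?_, ?_⟩, ⟨?_, ?_, ?_⟩, t3_h k X.V n, ?_, ?_, ?_, ?_, ?_⟩
  · intro l _ v hv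
    have hv' : v = 0 := (Submodule.mem_bot k).mp hv
    exact (Submodule.mem_bot k).mpr ((congrArg _ hv').trans (map_zero _))
  · intro l _ v hv
    have hv' : v = 0 := (Submodule.mem_bot k).mp hv
    exact (Submodule.mem_bot k).mpr ((congrArg _ hv').trans (map_zero _))
  · intro v hv
    have hv' : v = 0 := (Submodule.mem_bot k).mp hv
    exact (Submodule.mem_bot k).mpr ((congrArg _ hv').trans (map_zero _))
  · intro l hl v hv
    have h1 : t3_F k X.V n v = 0 := hv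
    exact (hm.1 l hl v).trans ((congrArg _ h1).trans (map_zero _))
  · intro l hl v hv
    have h1 : t3_F k X.V n v = 0 := hv
    exact (hm.2.1 l hl v).trans ((congrArg _ h1).trans (map_zero _))
  · intro v hv
    have h1 : t3_F k X.V n v = 0 := hv
    exact (hm.2.2.1 v).trans ((congrArg _ h1).trans (map_zero _))
  · intro v _
    exact t3_c3 v
  · intro v hv
    have hv' : v = 0 := (Submodule.mem_bot k).mp hv
    exact (Submodule.mem_bot k).mpr ((congrArg _ hv').trans (map_zero _))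
  · intro v hv
    exact (Submodule.mem_bot k).mpr (t3_c1 hn1 X m v fun i hi => congrFun hv ⟨i, hi⟩)
  · intro l hl v _
    exact (Submodule.mem_bot k).mpr (t3_c2 X.y hl v)
  · intro l hl v _
    exact (Submodule.mem_bot k).mpr (t3_c2 X.x hl v)

theorem T3 (hn1 : ((n : k) + 1) ≠ 0) (X : Ob k lam n) {m : ℕ} {L : List (ℕ × ℕ)}
    (hL : ∀ a ∈ L, a.1 < m ∧ a.2 < m) (hfl : Flat (X.new m) ((m, m) :: L))
    (hfin : Module.Finite k (X.cls L).H) :
    (((X.new m).cl m m).cls L).tau = qint lam n * (X.cls L).tau := by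
  have h1 : HE ((X.new m).cl m m) (X.pw n (lam * (lam⁻¹) ^ n)) L :=
    he_surj (A := {l | l < m}) (t3_F k X.V n) (t3_mor X m) (t3_surj X.V n)
      (Relation.ReflTransGen.single (t3_ctr hn1 X m)) hL hfl
  rw [h1.tau, pw_tau X n _ L hfin, qint]

end ZM
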