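import Pool.Agent.H75.ZM.T5a
import Pool.Agent.H75.ZM.T3

/-!
# The Markov move for `E j m` (row ZM T5b)

Proof.  `((X.new m).E j m)` is isomorphic to `X.M5 j m` (`Iso.tp`), so consider
`C = (X.M5 j m).cl m m`: elements `((g, f), (g', f'))` (even, odd).  Let `a = X.y j`.
By `M5_ym`, `M5_xm` the operator `b = y m - x m` is `b (g, f) = (a g - u g, 0)`
(`cw a g - sh g`).  Let `A = hn n (y m) (x m)` and `nu (g, f) = Cc (g(a)) + (u - a) f`
(that is `Cc (ev a g) + sh f - cw a f`).  Then `nu (x m z) = u nu z`, `nu (y m z) = u nu z`, so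
`nu (A z) = (n + 1) u ^ n nu z` (`hn_int` and `hn n sh sh = (n+1) sh ^ n`).  Hence if
`A (g, f) = (g*, f*)`, then `f* = Dq a (nu (A (g, f))) = (n+1) (Dq a (u ^ n Cc (g(a))) + u ^ n f)`
(as `Dq a (Cc v) = 0`, `Dq a ((u - a) q) = q`), with coefficients
`f*_i = (n+1) (a ^ (n-1-i) g(a))` for `i < n` (`Dq_shp_Cc`).

Define `F ((g, f), (g', f')) = (f'_i - a ^ (n-1-i) f'_{n-1})_{i < n-1}` in
`X.pw (n-1) (lam * (lam⁻¹) ^ (n-1))`.  It is a surjective morphism for the labels `< m`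
(section: `f' = sum of v_i u^i`); `F` kills `A` of even elements by the formula for `f*`; weights:
the odd part has weight `lam * (lam⁻¹)^n * lam * (lam^2)^i` on `f'_i`.

`ker F` is filtered: `⊥ ≤ F1 ≤ F2 ≤ ker F`, where
`F1`: `g = 0, g' = 0, f'_i = 0 (i < n)`;
`F2`: `g(a) = 0, f'_i = 0 (i < n)`;
(`ker F`: `f'_i = a ^ (n-1-i) f'_{n-1}` for `i < n - 1`.)
`Ctr ⊥ F1`: `h ((g, f), (g', f')) = ((0, (n+1)⁻¹ dr n f'), 0)` (for `(0, f)`: `A (0, f) =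
(0, (n+1) u^n f)`, the first component vanishes because the elements `(0, f)` form a subspace
stable under `y m`, `x m`).
`Ctr F1 F2`: `h ((g, f), (g', f')) = (0, (- Dq a g, 0))`: `b (- Dq a g) = (u - a) Dq a g = g` when
`g(a) = 0`, and `- Dq a (a g' - u g') = g'`; it commutes with `y j = u` on `g` when `g(a) = 0`.
`Ctr F2 (ker F)`: `h ((g, f), (g', f')) = ((Cc ((n+1)⁻¹ f'_{n-1}), 0), 0)`: `h A (g, f)` has first
component `Cc (g(a))`, and `g - Cc (g(a))` vanishes at `a`; `A (Cc v, 0)` with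
`v = (n+1)⁻¹ f'_{n-1}` has odd second component with coefficients `a ^ (n-1-i) f'_{n-1} = f'_i` for
`i < n`; the commutator with `y j` is `Cc (a v) - u (Cc v)`, which vanishes at `a`.
Conclude with `he_surj`, `pw_tau` (`1 ≤ n`).
-/

namespace ZM

variable {k : Type} [Field k] {lam : k} {n : ℕ}

private abbrev t5b_W (V : Type) [AddCommGroup V] : Type :=
  ((ℕ →₀ V) × (ℕ →₀ V)) × ((ℕ →₀ V) × (ℕ →₀ V))

section abs

variable {V : Type} [AddCommGroup V] [Module k V]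

private lemma t5b_hnsh (n : ℕ) (p : ℕ →₀ V) :
    hn n (sh (k := k) (V := V)) (sh (k := k)) p = ((n : k) + 1) • ((sh (k := k)) ^ n) p := by
  have h1 : hn n (sh (k := k) (V := V)) (sh (k := k)) = ((n : k) + 1) • (sh (k := k)) ^ n := by
    unfold hn
    have h2 : ∀ i ∈ Finset.range (n + 1),
        ((sh (k := k) (V := V)) ^ i * (sh (k := k)) ^ (n - i)) = (sh (k := k)) ^ n := by
      intro i hi
      rw [← pow_add, Nat.add_sub_cancel' (Nat.lt_succ_iff.1 (Finset.mem_range.1 hi))]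
    rw [Finset.sum_congr rfl h2, Finset.sum_const, Finset.card_range,
      ← Nat.cast_smul_eq_nsmul k]
    push_cast
    rfl
  rw [h1]
  rfl

private noncomputable def t5b_nu (a : Module.End k V) :
    ((ℕ →₀ V) × (ℕ →₀ V)) →ₗ[k] (ℕ →₀ V) :=
  Cc ∘ₗ ev a ∘ₗ LinearMap.fst k _ _ + (sh - cw a) ∘ₗ LinearMap.snd k _ _

private lemma t5b_nu_apply (a : Module.End k V) (g f : ℕ →₀ V) :
    t5b_nu a (g, f) = Cc (k := k) (ev a g) + (sh (k := k) f - cw a f) := rfl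

private lemma t5b_cwsh (a : Module.End k V) (p : ℕ →₀ V) :
    cw a (sh (k := k) p) = sh (k := k) (cw a p) :=
  LinearMap.congr_fun (cw_sh a).eq p

private lemma t5b_cwshn (a : Module.End k V) (r : ℕ) (p : ℕ →₀ V) :
    cw a (((sh (k := k)) ^ r) p) = ((sh (k := k)) ^ r) (cw a p) :=
  LinearMap.congr_fun ((cw_sh a).pow_right r).eq p

/-- the second component of `A (g, f)` -/
private noncomputable def t5b_q (n : ℕ) (a : Module.End k V) (g f : ℕ →₀ V) : ℕ →₀ V :=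
  ((n : k) + 1) • (Dq a (((sh (k := k)) ^ n) (Cc (k := k) (ev a g))) + ((sh (k := k)) ^ n) f)

private lemma t5b_q_coeff (n : ℕ) (a : Module.End k V) (g f : ℕ →₀ V) (i : ℕ) (hi : i < n) :
    t5b_q n a g f i = ((n : k) + 1) • (a ^ (n - 1 - i)) (ev a g) := by
  unfold t5b_q
  rw [Finsupp.smul_apply, Finsupp.add_apply, Dq_shp_Cc, if_pos hi, shp_coeff,
    if_neg (by omega), add_zero]

private lemma t5b_q_zero (n : ℕ) (a : Module.End k V) (g f : ℕ →₀ V) (h : ev a g = 0) :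
    t5b_q n a g f = ((n : k) + 1) • ((sh (k := k)) ^ n) f := by
  unfold t5b_q
  rw [h, map_zero, map_zero, map_zero, zero_add]

/-- An operator acting diagonally. -/
private def t5b_Op (a : Module.End k V) (s : Module.End k V)
    (Om : Module.End k (t5b_W V)) : Prop :=
  Commute s a ∧ ∃ p : Module.End k (ℕ →₀ V),
    (∀ g f g' f', Om ((g, f), (g', f')) = ((p g, cw s f), (p g', cw s f'))) ∧
    (∀ g, ev a (p g) = s (ev a g)) ∧ ∀ g, ev a g = 0 → Dq a (p g) = p (Dq a g)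

/-- The differential. -/
private def t5b_D (n : ℕ) (a d : Module.End k V) (De : Module.End k (t5b_W V)) : Prop :=
  Commute d a ∧ ∃ G : Module.End k (ℕ →₀ V),
    ∀ g f g' f', De ((g, f), (g', f')) =
      ((cw d g + (cw a g' - sh (k := k) g'), cw d f), (G g - cw d g', t5b_q n a g f - cw d f'))

/-- the map `F` -/
private noncomputable def t5b_F (n : ℕ) (a : Module.End k V) :
    t5b_W V →ₗ[k] (Fin (n - 1) → V) :=
  LinearMap.pi fun i => (Finsupp.lapply (i : ℕ) - (a ^ (n - 1 - (i : ℕ))) ∘ₗ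
    Finsupp.lapply (n - 1)) ∘ₗ (LinearMap.snd k (ℕ →₀ V) (ℕ →₀ V)) ∘ₗ
      (LinearMap.snd k ((ℕ →₀ V) × (ℕ →₀ V)) ((ℕ →₀ V) × (ℕ →₀ V)))

private lemma t5b_F_apply (n : ℕ) (a : Module.End k V) (z z' : (ℕ →₀ V) × (ℕ →₀ V))
    (i : Fin (n - 1)) : t5b_F n a (z, z') i =
      z'.2 (i : ℕ) - (a ^ (n - 1 - (i : ℕ))) (z'.2 (n - 1)) := rfl

private def t5b_F1 (k : Type) [Field k] (V : Type) [AddCommGroup V] [Module k V] (n : ℕ) :
    Submodule k (t5b_W V) where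
  carrier := {v | v.1.1 = 0 ∧ v.2.1 = 0 ∧ ∀ i < n, v.2.2 i = 0}
  add_mem' := by
    rintro v w ⟨h1, h2, h3⟩ ⟨h4, h5, h6⟩
    refine ⟨?_, ?_, fun i hi => ?_⟩
    · show v.1.1 + w.1.1 = 0
      rw [h1, h4, add_zero]
    · show v.2.1 + w.2.1 = 0
      rw [h2, h5, add_zero]
    · show v.2.2 i + w.2.2 i = 0
      rw [h3 i hi, h6 i hi, add_zero]
  zero_mem' := ⟨rfl, rfl, fun i _ => rfl⟩
  smul_mem' := by
    rintro c v ⟨h1, h2, h3⟩
    refine ⟨?_, ?_, fun i hi => ?_⟩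
    · show c • v.1.1 = 0
      rw [h1, smul_zero]
    · show c • v.2.1 = 0
      rw [h2, smul_zero]
    · show c • v.2.2 i = 0
      rw [h3 i hi, smul_zero]

private def t5b_F2 (n : ℕ) (a : Module.End k V) : Submodule k (t5b_W V) where
  carrier := {v | ev a v.1.1 = 0 ∧ ∀ i < n, v.2.2 i = 0}
  add_mem' := by
    rintro v w ⟨h1, h3⟩ ⟨h4, h6⟩
    refine ⟨?_, fun i hi => ?_⟩
    · show ev a (v.1.1 + w.1.1) = 0
      rw [map_add, h1, h4, add_zero]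
    · show v.2.2 i + w.2.2 i = 0
      rw [h3 i hi, h6 i hi, add_zero]
  zero_mem' := ⟨map_zero _, fun i _ => rfl⟩
  smul_mem' := by
    rintro c v ⟨h1, h3⟩
    refine ⟨?_, fun i hi => ?_⟩
    · show ev a (c • v.1.1) = 0
      rw [map_smul, h1, smul_zero]
    · show c • v.2.2 i = 0
      rw [h3 i hi, smul_zero]

private lemma t5b_F1_mk {n : ℕ} (g f g' f' : ℕ →₀ V) :
    (((g, f), (g', f')) : t5b_W V) ∈ t5b_F1 k V n ↔ g = 0 ∧ g' = 0 ∧ ∀ i < n, f' i = 0 :=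
  Iff.rfl

private lemma t5b_F2_mk {n : ℕ} {a : Module.End k V} (g f g' f' : ℕ →₀ V) :
    (((g, f), (g', f')) : t5b_W V) ∈ t5b_F2 n a ↔ ev a g = 0 ∧ ∀ i < n, f' i = 0 := Iff.rfl

/-! the three homotopies -/

private noncomputable def t5b_h1 (c : k) (n : ℕ) : Module.End k (t5b_W V) :=
  LinearMap.prod (LinearMap.prod 0 (c⁻¹ • dr (k := k) n ∘ₗ (LinearMap.snd k (ℕ →₀ V) (ℕ →₀ V)) ∘ₗ
    (LinearMap.snd k ((ℕ →₀ V) × (ℕ →₀ V)) ((ℕ →₀ V) × (ℕ →₀ V))))) 0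

private lemma t5b_h1_apply (c : k) (n : ℕ) (g f g' f' : ℕ →₀ V) :
    t5b_h1 c n ((g, f), (g', f')) = ((0, c⁻¹ • dr (k := k) n f'), (0, 0)) := rfl

private noncomputable def t5b_h2 (a : Module.End k V) : Module.End k (t5b_W V) :=
  LinearMap.prod 0 (LinearMap.prod (-(Dq a ∘ₗ (LinearMap.fst k (ℕ →₀ V) (ℕ →₀ V)) ∘ₗ
    (LinearMap.fst k ((ℕ →₀ V) × (ℕ →₀ V)) ((ℕ →₀ V) × (ℕ →₀ V))))) 0)

private lemma t5b_h2_apply (a : Module.End k V) (g f g' f' : ℕ →₀ V) :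
    t5b_h2 a ((g, f), (g', f')) = ((0, 0), (-Dq a g, 0)) := rfl

private noncomputable def t5b_h3 (c : k) (n : ℕ) : Module.End k (t5b_W V) :=
  LinearMap.prod (LinearMap.prod (Cc (k := k) ∘ₗ (c⁻¹ • Finsupp.lapply (n - 1)) ∘ₗ
    (LinearMap.snd k (ℕ →₀ V) (ℕ →₀ V)) ∘ₗ
    (LinearMap.snd k ((ℕ →₀ V) × (ℕ →₀ V)) ((ℕ →₀ V) × (ℕ →₀ V)))) 0) 0

private lemma t5b_h3_apply (c : k) (n : ℕ) (g f g' f' : ℕ →₀ V) :
    t5b_h3 c n ((g, f), (g', f')) = ((Cc (k := k) (c⁻¹ • f' (n - 1)), 0), (0, 0)) := rfl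

/-! stability -/

private lemma t5b_St1_Op {n : ℕ} {a s : Module.End k V} {Om : Module.End k (t5b_W V)}
    (h : t5b_Op a s Om) : ∀ v ∈ t5b_F1 k V n, Om v ∈ t5b_F1 k V n := by
  rintro ⟨⟨g, f⟩, ⟨g', f'⟩⟩ hv
  obtain ⟨h1, h2, h3⟩ := (t5b_F1_mk g f g' f').1 hv
  obtain ⟨-, p, hp, -, -⟩ := h
  rw [hp, t5b_F1_mk]
  refine ⟨by rw [h1, map_zero], by rw [h2, map_zero], fun i hi => ?_⟩
  rw [cw_coeff, h3 i hi, map_zero]

private lemma t5b_St2_Op {n : ℕ} {a s : Module.End k V} {Om : Module.End k (t5b_W V)}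
    (h : t5b_Op a s Om) : ∀ v ∈ t5b_F2 n a, Om v ∈ t5b_F2 n a := by
  rintro ⟨⟨g, f⟩, ⟨g', f'⟩⟩ hv
  obtain ⟨h1, h3⟩ := (t5b_F2_mk g f g' f').1 hv
  obtain ⟨-, p, hp, hp2, -⟩ := h
  rw [hp, t5b_F2_mk]
  refine ⟨by rw [hp2, h1, map_zero], fun i hi => ?_⟩
  rw [cw_coeff, h3 i hi, map_zero]

private lemma t5b_St1_D {n : ℕ} {a d : Module.End k V} {De : Module.End k (t5b_W V)}
    (h : t5b_D n a d De) : ∀ v ∈ t5b_F1 k V n, De v ∈ t5b_F1 k V n := by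
  rintro ⟨⟨g, f⟩, ⟨g', f'⟩⟩ hv
  obtain ⟨h1, h2, h3⟩ := (t5b_F1_mk g f g' f').1 hv
  obtain ⟨-, G, hG⟩ := h
  rw [hG, t5b_F1_mk]
  refine ⟨?_, ?_, fun i hi => ?_⟩
  · rw [h1, h2, map_zero, map_zero, map_zero, sub_zero, zero_add]
  · rw [h1, h2, map_zero, map_zero, sub_zero]
  · rw [Finsupp.sub_apply, t5b_q_coeff n a g f i hi, h1, map_zero, map_zero, smul_zero, cw_coeff,
      h3 i hi, map_zero, sub_zero]

private lemma t5b_ev_d {a d : Module.End k V} (h : Commute d a) (g : ℕ →₀ V) :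
    ev a (cw d g) = d (ev a g) :=
  ev_cw (fun v => LinearMap.congr_fun h.eq v) g

private lemma t5b_Dq_d {a d : Module.End k V} (h : Commute d a) (g : ℕ →₀ V) :
    Dq a (cw d g) = cw d (Dq a g) :=
  Dq_cw (fun v => LinearMap.congr_fun h.eq v) g

private lemma t5b_ev_sub (a : Module.End k V) (p : ℕ →₀ V) :
    ev a (cw a p - sh (k := k) p) = 0 := by
  have h := ev_sub (k := k) a p
  rw [← neg_sub, map_neg, h, neg_zero]

private lemma t5b_Dq_sub (a : Module.End k V) (p : ℕ →₀ V) :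
    Dq a (cw a p - sh (k := k) p) = -p := by
  have h := Dq_sub (k := k) a p
  rw [← neg_sub, map_neg, h]

private lemma t5b_St2_D {n : ℕ} {a d : Module.End k V} {De : Module.End k (t5b_W V)}
    (h : t5b_D n a d De) : ∀ v ∈ t5b_F2 n a, De v ∈ t5b_F2 n a := by
  rintro ⟨⟨g, f⟩, ⟨g', f'⟩⟩ hv
  obtain ⟨h1, h3⟩ := (t5b_F2_mk g f g' f').1 hv
  obtain ⟨hda, G, hG⟩ := h
  rw [hG, t5b_F2_mk]
  refine ⟨?_, fun i hi => ?_⟩
  · rw [map_add, t5b_ev_d hda, h1, map_zero, t5b_ev_sub, add_zero]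
  · rw [Finsupp.sub_apply, t5b_q_coeff n a g f i hi, h1, map_zero, smul_zero, cw_coeff,
      h3 i hi, map_zero, sub_zero]

/-! `F` is a morphism -/

private lemma t5b_pow {a s : Module.End k V} (h : Commute s a) (r : ℕ) (v : V) :
    (a ^ r) (s v) = s ((a ^ r) v) :=
  LinearMap.congr_fun (h.pow_right r).eq.symm v

private lemma t5b_F_Op {n : ℕ} {a s : Module.End k V} {Om : Module.End k (t5b_W V)}
    (h : t5b_Op a s Om) (v : t5b_W V) (i : Fin (n - 1)) :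
    t5b_F n a (Om v) i = s (t5b_F n a v i) := by
  obtain ⟨⟨g, f⟩, ⟨g', f'⟩⟩ := v
  obtain ⟨hsa, p, hp, -, -⟩ := h
  rw [hp, t5b_F_apply, t5b_F_apply, cw_coeff, cw_coeff, t5b_pow hsa, ← map_sub]

private lemma t5b_F_D {n : ℕ} {a d : Module.End k V} {De : Module.End k (t5b_W V)}
    (h : t5b_D n a d De) (v : t5b_W V) (i : Fin (n - 1)) :
    t5b_F n a (De v) i = -(d (t5b_F n a v i)) := by
  obtain ⟨⟨g, f⟩, ⟨g', f'⟩⟩ := v
  obtain ⟨hda, G, hG⟩ := h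
  have hi := i.2
  rw [hG, t5b_F_apply, t5b_F_apply]
  show (t5b_q n a g f - cw d f') (i : ℕ) -
    (a ^ (n - 1 - (i : ℕ))) ((t5b_q n a g f - cw d f') (n - 1)) = _
  rw [Finsupp.sub_apply, Finsupp.sub_apply, t5b_q_coeff n a g f i (by omega),
    t5b_q_coeff n a g f (n - 1) (by omega), cw_coeff, cw_coeff, Nat.sub_self, pow_zero,
    Module.End.one_apply, map_sub, map_smul, t5b_pow hda, map_sub]
  abel

private lemma t5b_F_surj (n : ℕ) (a : Module.End k V) :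
    Function.Surjective (t5b_F n a) := by
  intro w
  refine ⟨((0, 0), (0, ∑ i : Fin (n - 1), Finsupp.single (i : ℕ) (w i))), ?_⟩
  funext i
  have h1 : ∀ l : ℕ, (∑ i : Fin (n - 1), Finsupp.single (i : ℕ) (w i) : ℕ →₀ V) l =
      if h : l < n - 1 then w ⟨l, h⟩ else 0 := by
    intro l
    rw [Finsupp.finsetSum_apply]
    by_cases h : l < n - 1
    · rw [dif_pos h, Finset.sum_eq_single ⟨l, h⟩]
      · rw [Finsupp.single_eq_same]
      · intro b _ hb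
        rw [Finsupp.single_apply, if_neg]
        intro h2
        exact hb (Fin.ext h2)
      · intro h2
        exact absurd (Finset.mem_univ _) h2
    · rw [dif_neg h]
      refine Finset.sum_eq_zero fun b _ => ?_
      rw [Finsupp.single_apply, if_neg]
      have := b.2
      omega
  rw [t5b_F_apply, h1, h1, dif_pos i.2, dif_neg (by omega), map_zero, sub_zero]

/-! contractions -/

private lemma t5b_c1 {n : ℕ} (hc : ((n : k) + 1) ≠ 0) {a d : Module.End k V}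
    {De : Module.End k (t5b_W V)} (h : t5b_D n a d De) (v : t5b_W V)
    (hv : v ∈ t5b_F1 k V n) :
    De (t5b_h1 ((n : k) + 1) n v) + t5b_h1 ((n : k) + 1) n (De v) - v = 0 := by
  obtain ⟨⟨g, f⟩, ⟨g', f'⟩⟩ := v
  obtain ⟨h1, h2, h3⟩ := (t5b_F1_mk g f g' f').1 hv
  obtain ⟨hda, G, hG⟩ := h
  subst h1
  subst h2
  rw [hG, t5b_h1_apply, t5b_h1_apply, hG, t5b_q_zero n a 0 _ (map_zero _),
    t5b_q_zero n a 0 _ (map_zero _)]
  have e1 : cw d (0 : ℕ →₀ V) + (cw a (0 : ℕ →₀ V) - sh (k := k) (0 : ℕ →₀ V)) = 0 := by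
    rw [map_zero, map_zero, map_zero, sub_zero, zero_add]
  have e2 : G (0 : ℕ →₀ V) - cw d (0 : ℕ →₀ V) = 0 := by
    rw [map_zero, map_zero, sub_zero]
  have e3 : ((n : k) + 1) • ((sh (k := k)) ^ n) (((n : k) + 1)⁻¹ • dr (k := k) n f') -
      cw d (0 : ℕ →₀ V) = f' := by
    rw [map_zero, sub_zero, map_smul, smul_smul, mul_inv_cancel₀ hc, one_smul, shp_dr n f' h3]
  have e4 : ((n : k) + 1)⁻¹ • dr (k := k) n (((n : k) + 1) • ((sh (k := k)) ^ n) f - cw d f') =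
      f - cw d (((n : k) + 1)⁻¹ • dr (k := k) n f') := by
    rw [map_sub, map_smul, dr_shp, smul_sub, smul_smul, inv_mul_cancel₀ hc, one_smul, dr_cw,
      map_smul]
  rw [e1, e2, e3, e4]
  show (((0 : ℕ →₀ V) + 0 - 0, cw d (((n : k) + 1)⁻¹ • dr (k := k) n f') +
    (f - cw d (((n : k) + 1)⁻¹ • dr (k := k) n f')) - f), ((0 : ℕ →₀ V) + 0 - 0, f' + 0 - f')) = _
  refine Prod.ext (Prod.ext ?_ ?_) (Prod.ext ?_ ?_)
  · show (0 : ℕ →₀ V) + 0 - 0 = 0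
    simp
  · show cw d (((n : k) + 1)⁻¹ • dr (k := k) n f') +
      (f - cw d (((n : k) + 1)⁻¹ • dr (k := k) n f')) - f = 0
    abel
  · show (0 : ℕ →₀ V) + 0 - 0 = 0
    simp
  · show f' + 0 - f' = 0
    simp

private lemma t5b_k1 {n : ℕ} {a s : Module.End k V} {Om : Module.End k (t5b_W V)}
    (h : t5b_Op a s Om) (c : k) (v : t5b_W V) :
    t5b_h1 c n (Om v) - Om (t5b_h1 c n v) = 0 := by
  obtain ⟨⟨g, f⟩, ⟨g', f'⟩⟩ := v
  obtain ⟨hsa, p, hp, -, -⟩ := h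
  rw [hp, t5b_h1_apply, t5b_h1_apply, hp, dr_cw, map_zero, map_smul, map_zero, sub_self]

private lemma t5b_c2 {n : ℕ} {a d : Module.End k V}
    {De : Module.End k (t5b_W V)} (h : t5b_D n a d De) (v : t5b_W V)
    (hv : v ∈ t5b_F2 n a) :
    De (t5b_h2 a v) + t5b_h2 a (De v) - v ∈ t5b_F1 k V n := by
  obtain ⟨⟨g, f⟩, ⟨g', f'⟩⟩ := v
  obtain ⟨h1, h3⟩ := (t5b_F2_mk g f g' f').1 hv
  obtain ⟨hda, G, hG⟩ := h
  rw [hG, t5b_h2_apply, t5b_h2_apply, hG, t5b_q_zero n a 0 _ (map_zero _)]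
  have e1 : cw d (0 : ℕ →₀ V) + (cw a (-Dq a g) - sh (k := k) (-Dq a g)) = g := by
    have h2 := sh_Dq (k := k) a g
    rw [h1, map_zero, sub_zero] at h2
    rw [map_zero, zero_add, map_neg, map_neg, sub_neg_eq_add, neg_add_eq_sub]
    exact h2
  have e2 : -Dq a (cw d g + (cw a g' - sh (k := k) g')) = -cw d (Dq a g) + g' := by
    rw [map_add, t5b_Dq_d hda, t5b_Dq_sub, neg_add, neg_neg]
  have e3 : G (0 : ℕ →₀ V) - cw d (-Dq a g) = cw d (Dq a g) := by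
    rw [map_zero, map_neg, zero_sub, neg_neg]
  rw [e1, e2, e3]
  show (((g + 0 - g, cw d (0 : ℕ →₀ V) + 0 - f),
    (cw d (Dq a g) + (-cw d (Dq a g) + g') - g',
      ((n : k) + 1) • ((sh (k := k)) ^ n) (0 : ℕ →₀ V) - cw d (0 : ℕ →₀ V) + 0 - f')) :
        t5b_W V) ∈ t5b_F1 k V n
  rw [t5b_F1_mk]
  refine ⟨by abel, by abel, fun i hi => ?_⟩
  rw [map_zero, map_zero, smul_zero, sub_zero, add_zero, zero_sub, Finsupp.neg_apply, h3 i hi,
    neg_zero]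

private lemma t5b_k2 {n : ℕ} {a s : Module.End k V} {Om : Module.End k (t5b_W V)}
    (h : t5b_Op a s Om) (v : t5b_W V) (hv : v ∈ t5b_F2 n a) :
    t5b_h2 a (Om v) - Om (t5b_h2 a v) = 0 := by
  obtain ⟨⟨g, f⟩, ⟨g', f'⟩⟩ := v
  obtain ⟨h1, h3⟩ := (t5b_F2_mk g f g' f').1 hv
  obtain ⟨hsa, p, hp, -, hp3⟩ := h
  rw [hp, t5b_h2_apply, t5b_h2_apply, hp, hp3 g h1, map_zero, map_neg, map_zero, sub_self]

private lemma t5b_c3 {n : ℕ} (hn : 1 ≤ n) (hc : ((n : k) + 1) ≠ 0) {a d : Module.End k V}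
    {De : Module.End k (t5b_W V)} (h : t5b_D n a d De) (v : t5b_W V)
    (hv : t5b_F n a v = 0) :
    De (t5b_h3 ((n : k) + 1) n v) + t5b_h3 ((n : k) + 1) n (De v) - v ∈ t5b_F2 n a := by
  obtain ⟨⟨g, f⟩, ⟨g', f'⟩⟩ := v
  obtain ⟨hda, G, hG⟩ := h
  have hker : ∀ i < n, (a ^ (n - 1 - i)) (f' (n - 1)) = f' i := by
    intro i hi
    by_cases h1 : i < n - 1
    · have h2 := congrFun hv ⟨i, h1⟩
      rw [t5b_F_apply] at h2
      exact (sub_eq_zero.1 h2).symm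
    · have h2 : i = n - 1 := by omega
      rw [h2, Nat.sub_self, pow_zero, Module.End.one_apply]
  have e0 : (t5b_q n a g f - cw d f') (n - 1) = ((n : k) + 1) • ev a g - d (f' (n - 1)) := by
    rw [Finsupp.sub_apply, t5b_q_coeff n a g f (n - 1) (by omega), cw_coeff, Nat.sub_self,
      pow_zero, Module.End.one_apply]
  have e1 : ((n : k) + 1)⁻¹ • (((n : k) + 1) • ev a g - d (f' (n - 1))) =
      ev a g - d (((n : k) + 1)⁻¹ • f' (n - 1)) := by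
    rw [smul_sub, smul_smul, inv_mul_cancel₀ hc, one_smul, map_smul]
  rw [hG, t5b_h3_apply, t5b_h3_apply, hG, e0, e1]
  show (((cw d (Cc (k := k) (((n : k) + 1)⁻¹ • f' (n - 1))) +
      (cw a (0 : ℕ →₀ V) - sh (k := k) (0 : ℕ →₀ V)) +
      Cc (k := k) (ev a g - d (((n : k) + 1)⁻¹ • f' (n - 1))) - g,
      cw d (0 : ℕ →₀ V) + 0 - f),
    (G (Cc (k := k) (((n : k) + 1)⁻¹ • f' (n - 1))) - cw d (0 : ℕ →₀ V) + 0 - g',
      t5b_q n a (Cc (k := k) (((n : k) + 1)⁻¹ • f' (n - 1))) 0 - cw d (0 : ℕ →₀ V) + 0 - f')) :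
        t5b_W V) ∈ t5b_F2 n a
  rw [t5b_F2_mk]
  refine ⟨?_, fun i hi => ?_⟩
  · rw [map_zero, map_zero, sub_zero, add_zero, cw_Cc, map_sub, map_add, ev_Cc, ev_Cc]
    abel
  · rw [map_zero, sub_zero, add_zero, Finsupp.sub_apply, t5b_q_coeff n a _ _ i hi, ev_Cc,
      map_smul, smul_smul, mul_inv_cancel₀ hc, one_smul, hker i hi, sub_self]

private lemma t5b_k3 {n : ℕ} {a s : Module.End k V} {Om : Module.End k (t5b_W V)}
    (h : t5b_Op a s Om) (c : k) (v : t5b_W V) :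
    t5b_h3 c n (Om v) - Om (t5b_h3 c n v) ∈ t5b_F2 n a := by
  obtain ⟨⟨g, f⟩, ⟨g', f'⟩⟩ := v
  obtain ⟨hsa, p, hp, hp2, -⟩ := h
  rw [hp, t5b_h3_apply, t5b_h3_apply, hp]
  show (((Cc (k := k) (c⁻¹ • (cw s f') (n - 1)) - p (Cc (k := k) (c⁻¹ • f' (n - 1))),
    0 - cw s (0 : ℕ →₀ V)), (0 - p 0, 0 - cw s (0 : ℕ →₀ V))) : t5b_W V) ∈ t5b_F2 n a
  rw [t5b_F2_mk]
  refine ⟨?_, fun i hi => ?_⟩
  · rw [map_sub, ev_Cc, hp2, ev_Cc, cw_coeff, map_smul, sub_self]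
  · rw [map_zero, sub_zero]
    rfl

end abs

/-! ### the object -/

private lemma t5b_A (X : Ob k lam n) {j m : ℕ} (hj : j ≠ m) (g f : ℕ →₀ X.V) :
    hn n ((X.M5 j m).y m) ((X.M5 j m).x m) ((g, f) : (ℕ →₀ X.V) × (ℕ →₀ X.V)) =
      ((hn n (cw (X.y j)) (sh (k := k)) g, t5b_q n (X.y j) g f) :
        (ℕ →₀ X.V) × (ℕ →₀ X.V)) := by
  obtain ⟨z, hz⟩ : ∃ z : (ℕ →₀ X.V) × (ℕ →₀ X.V),
    z = hn n ((X.M5 j m).y m) ((X.M5 j m).x m) ((g, f) : (ℕ →₀ X.V) × (ℕ →₀ X.V)) := ⟨_, rfl⟩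
  have hy : ∀ v : (ℕ →₀ X.V) × (ℕ →₀ X.V), (X.M5 j m).y m v =
      ((cw (X.y j) v.1, sh (k := k) v.2 + Cc (k := k) (ev (X.y j) v.1)) :
        (ℕ →₀ X.V) × (ℕ →₀ X.V)) := fun v => M5_ym X hj v.1 v.2
  have hx : ∀ v : (ℕ →₀ X.V) × (ℕ →₀ X.V), (X.M5 j m).x m v =
      ((sh (k := k) v.1, sh (k := k) v.2 + Cc (k := k) (ev (X.y j) v.1)) :
        (ℕ →₀ X.V) × (ℕ →₀ X.V)) := fun v => M5_xm X hj v.1 v.2
  have h1 : z.1 = hn n (cw (X.y j)) (sh (k := k)) g := by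
    rw [hz]
    exact hn_int (n := n) (V := (X.M5 j m).V) (W := ℕ →₀ X.V)
      (f := (LinearMap.fst k (ℕ →₀ X.V) (ℕ →₀ X.V)))
      (a := (X.M5 j m).y m) (a' := (X.M5 j m).x m) (b := cw (X.y j)) (b' := sh (k := k))
      (fun v => congrArg Prod.fst (hy v)) (fun v => congrArg Prod.fst (hx v)) (g, f)
  have hnu : ∀ p q : ℕ →₀ X.V, ev (X.y j) p = (X.y j) (ev (X.y j) q) → ∀ r : ℕ →₀ X.V,
      t5b_nu (X.y j) (p, sh (k := k) r + Cc (k := k) (ev (X.y j) q)) =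
        sh (k := k) (t5b_nu (X.y j) (q, r)) := by
    intro p q hpq r
    rw [t5b_nu_apply, t5b_nu_apply, hpq, map_add, map_add, map_add, map_sub, t5b_cwsh, cw_Cc]
    abel
  have h2 : t5b_nu (X.y j) z = ((n : k) + 1) • ((sh (k := k)) ^ n) (t5b_nu (X.y j) (g, f)) := by
    rw [hz, ← t5b_hnsh]
    refine hn_int (n := n) (V := (X.M5 j m).V) (W := ℕ →₀ X.V)
      (f := t5b_nu (X.y j))
      (a := (X.M5 j m).y m) (a' := (X.M5 j m).x m) (b := sh (k := k)) (b' := sh (k := k))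
      ?_ ?_ (g, f)
    · intro v
      refine Eq.trans (congrArg (t5b_nu (X.y j)) (hy v)) ?_
      exact hnu _ v.1 (ev_cw (fun _ => rfl) v.1) v.2
    · intro v
      refine Eq.trans (congrArg (t5b_nu (X.y j)) (hx v)) ?_
      exact hnu _ v.1 (ev_sh _ _) v.2
  have h3 : z.2 = Dq (X.y j) (t5b_nu (X.y j) z) := by
    obtain ⟨z1, z2⟩ := z
    rw [t5b_nu_apply, map_add, Dq_Cc, zero_add, Dq_sub]
  have h4 : z.2 = t5b_q n (X.y j) g f := by
    rw [h3, h2, t5b_nu_apply, map_smul, map_add, map_add, map_sub, ← t5b_cwshn]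
    have h5 : ((sh (k := k) (V := X.V)) ^ n) (sh (k := k) f) =
        sh (k := k) (((sh (k := k)) ^ n) f) := by
      have h6 : (sh (k := k) (V := X.V)) ^ n * sh (k := k) = sh (k := k) * (sh (k := k)) ^ n := by
        rw [← pow_succ, pow_succ']
      exact LinearMap.congr_fun h6 f
    rw [h5, Dq_sub]
    rfl
  rw [← hz]
  exact Prod.ext h1 h4

private lemma t5b_absD {V : Type} [AddCommGroup V] [Module k V] (n : ℕ) (a d : Module.End k V)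
    (hda : Commute d a) (Yd Ym Xm A : Module.End k ((ℕ →₀ V) × (ℕ →₀ V)))
    (H : Module.End k (ℕ →₀ V))
    (h1 : ∀ g f, Yd (g, f) = (cw d g, cw d f))
    (h2 : ∀ g f, Ym (g, f) = (cw a g, sh (k := k) f + Cc (k := k) (ev a g)))
    (h3 : ∀ g f, Xm (g, f) = (sh (k := k) g, sh (k := k) f + Cc (k := k) (ev a g)))
    (hA : ∀ g f, A (g, f) = (H g, t5b_q n a g f)) :
    t5b_D n a d (blk Yd (Ym - Xm) A (-Yd)) := by
  refine ⟨hda, H, fun g f g' f' => ?_⟩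
  rw [blk_apply]
  show (Yd (g, f) + (Ym (g', f') - Xm (g', f')), A (g, f) + -(Yd (g', f'))) = _
  rw [h1, h1, h2, h3, hA, Prod.mk_sub_mk, Prod.mk_add_mk, Prod.neg_mk, Prod.mk_add_mk, sub_self,
    add_zero, ← sub_eq_add_neg, ← sub_eq_add_neg]

private lemma t5b_isD (X : Ob k lam n) {j m : ℕ} (hj : j ≠ m) :
    t5b_D n (X.y j) X.d ((X.M5 j m).cl m m).d :=
  t5b_absD n (X.y j) X.d (X.hdy j) (X.M5 j m).d ((X.M5 j m).y m) ((X.M5 j m).x m)
    (hn n ((X.M5 j m).y m) ((X.M5 j m).x m)) (hn n (cw (X.y j)) (sh (k := k)))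
    (M5_d X) (M5_ym X hj) (M5_xm X hj) (t5b_A X hj)

private lemma t5b_absOp {V : Type} [AddCommGroup V] [Module k V] (a s : Module.End k V)
    (hsa : Commute s a) (B : Module.End k ((ℕ →₀ V) × (ℕ →₀ V)))
    (p : Module.End k (ℕ →₀ V))
    (h1 : ∀ g f, B (g, f) = (p g, cw s f))
    (h2 : ∀ g, ev a (p g) = s (ev a g))
    (h3 : ∀ g, ev a g = 0 → Dq a (p g) = p (Dq a g)) :
    t5b_Op a s (dg B) := by
  refine ⟨hsa, p, fun g f g' f' => ?_, h2, h3⟩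
  rw [dg_apply]
  show (B (g, f), B (g', f')) = _
  rw [h1, h1]

private lemma t5b_isY (X : Ob k lam n) {j m l : ℕ} (hj : j < m) (hl : l < m) :
    t5b_Op (X.y j) (X.y l) (((X.M5 j m).cl m m).y l) := by
  by_cases h : l = j
  · subst h
    exact t5b_absOp (X.y l) (X.y l) (X.hyy l l) ((X.M5 l m).y l) (sh (k := k))
      (M5_yj X (by omega)) (fun g => ev_sh _ _)
      (fun g hg => by rw [Dq_sh, hg, map_zero, add_zero])
  · exact t5b_absOp (X.y j) (X.y l) (X.hyy l j) ((X.M5 j m).y l) (cw (X.y l))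
      (M5_y X h (by omega)) (fun g => t5b_ev_d (X.hyy l j) g)
      (fun g _ => t5b_Dq_d (X.hyy l j) g)

private lemma t5b_isX (X : Ob k lam n) {j m l : ℕ} (hl : l < m) :
    t5b_Op (X.y j) (X.x l) (((X.M5 j m).cl m m).x l) :=
  t5b_absOp (X.y j) (X.x l) (X.hxy l j) ((X.M5 j m).x l) (cw (X.x l))
      (M5_x X (by omega)) (fun g => t5b_ev_d (X.hxy l j) g)
      (fun g _ => t5b_Dq_d (X.hxy l j) g)

private lemma t5b_absT {V : Type} [AddCommGroup V] [Module k V] (n : ℕ) (hn : 1 ≤ n)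
    (lam : k) (hl : lam ≠ 0) (a T : Module.End k V)
    (hT : ∀ r : ℕ, T * a ^ r = (lam ^ 2) ^ r • (a ^ r * T))
    (B : Module.End k ((ℕ →₀ V) × (ℕ →₀ V)))
    (h1 : ∀ g f, B (g, f) = (lam⁻¹ • wt (lam ^ 2) (cw T g), lam • wt (lam ^ 2) (cw T f)))
    (v : t5b_W V) (i : Fin (n - 1)) :
    t5b_F n a (pm B ((lam * (lam⁻¹) ^ n) • B) v) i =
      (lam * (lam⁻¹) ^ (n - 1) * (lam ^ 2) ^ (i : ℕ)) • T (t5b_F n a v i) := by
  obtain ⟨⟨g, f⟩, ⟨g', f'⟩⟩ := v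
  have hi := i.2
  have e2 : ∀ i : ℕ, ((lam * (lam⁻¹) ^ n) • (lam • wt (lam ^ 2) (cw T f')) : ℕ →₀ V) i =
      (lam * (lam⁻¹) ^ (n - 1) * (lam ^ 2) ^ i) • T (f' i) := by
    intro i
    rw [Finsupp.smul_apply, Finsupp.smul_apply, wt_coeff, cw_coeff, smul_smul, smul_smul]
    congr 1
    obtain ⟨r, rfl⟩ : ∃ r, n = r + 1 := ⟨n - 1, by omega⟩
    rw [Nat.add_sub_cancel, pow_succ]
    field_simp
  have e3 : T ((a ^ (n - 1 - (i : ℕ))) (f' (n - 1))) =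
      (lam ^ 2) ^ (n - 1 - (i : ℕ)) • (a ^ (n - 1 - (i : ℕ))) (T (f' (n - 1))) :=
    LinearMap.congr_fun (hT (n - 1 - (i : ℕ))) (f' (n - 1))
  rw [pm_apply]
  show t5b_F n a (B (g, f), (lam * (lam⁻¹) ^ n) • B (g', f')) i = _
  rw [h1, h1, t5b_F_apply, t5b_F_apply]
  show ((lam * (lam⁻¹) ^ n) • (lam • wt (lam ^ 2) (cw T f')) : ℕ →₀ V) (i : ℕ) -
    (a ^ (n - 1 - (i : ℕ))) (((lam * (lam⁻¹) ^ n) • (lam • wt (lam ^ 2) (cw T f')) :
      ℕ →₀ V) (n - 1)) = _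
  rw [e2, e2, map_sub, e3, map_smul, smul_sub, smul_smul, mul_assoc (lam * (lam⁻¹) ^ (n - 1)),
    ← pow_add, Nat.add_sub_cancel' (by omega : (i : ℕ) ≤ n - 1)]

private lemma t5b_T (X : Ob k lam n) (hn : 1 ≤ n) {j m : ℕ} (v : t5b_W X.V)
    (i : Fin (n - 1)) :
    t5b_F n (X.y j) (((X.M5 j m).cl m m).T v) i =
      (lam * (lam⁻¹) ^ (n - 1) * (lam ^ 2) ^ (i : ℕ)) • X.T (t5b_F n (X.y j) v i) :=
  t5b_absT n hn lam X.ne (X.y j) X.T (fun r => T_pow_y X r j) (X.M5 j m).T (M5_T X) v i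

theorem T5 (hn : 1 ≤ n) (hn1 : ((n : k) + 1) ≠ 0) (X : Ob k lam n) {m j : ℕ} (hj : j < m)
    {L : List (ℕ × ℕ)} (hL : ∀ a ∈ L, a.1 < m ∧ a.2 < m)
    (hfl : Flat ((X.new m).E j m) ((m, m) :: L)) (hfin : Module.Finite k (X.cls L).H) :
    ((((X.new m).E j m).cl m m).cls L).tau = qint lam (n - 1) * (X.cls L).tau := by
  have hjm : j ≠ m := by omega
  have hiso : Iso Set.univ ((X.new m).E j m) (X.M5 j m) := Iso.tp _ _ _
  have hL' : ∀ a ∈ ((m, m) :: L : List (ℕ × ℕ)), a.1 ∈ (Set.univ : Set ℕ) ∧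
      a.2 ∈ (Set.univ : Set ℕ) := fun a _ => ⟨Set.mem_univ _, Set.mem_univ _⟩
  have h1 : ((((X.new m).E j m).cl m m).cls L).tau = (((X.M5 j m).cl m m).cls L).tau :=
    HE.tau (L := (m, m) :: L) (hiso.he hL')
  have hfl' : Flat ((X.M5 j m).cl m m) L := hiso.flat hL' hfl
  have hD := t5b_isD X hjm
  have hY : ∀ l ∈ {l : ℕ | l < m}, t5b_Op (X.y j) (X.y l) (((X.M5 j m).cl m m).y l) :=
    fun l hl => t5b_isY X hj hl
  have hX : ∀ l ∈ {l : ℕ | l < m}, t5b_Op (X.y j) (X.x l) (((X.M5 j m).cl m m).x l) :=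
    fun l hl => t5b_isX X hl
  let Fm : ((X.M5 j m).cl m m).V →ₗ[k] (X.pw (n - 1) (lam * (lam⁻¹) ^ (n - 1))).V :=
    t5b_F n (X.y j)
  have hmor : Mor {l : ℕ | l < m} ((X.M5 j m).cl m m)
      (X.pw (n - 1) (lam * (lam⁻¹) ^ (n - 1))) Fm := by
    refine ⟨fun l hl v => ?_, fun l hl v => ?_, fun v => ?_, fun v => ?_⟩
    · funext i
      exact t5b_F_Op (hY l hl) v i
    · funext i
      exact t5b_F_Op (hX l hl) v i
    · funext i
      exact t5b_F_D hD v i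
    · funext i
      exact t5b_T X hn v i
  have hsurj : Function.Surjective Fm := t5b_F_surj n (X.y j)
  -- stability
  have st0 : St {l : ℕ | l < m} ((X.M5 j m).cl m m) ⊥ := by
    refine ⟨fun l _ v hv => ?_, fun l _ v hv => ?_, fun v hv => ?_⟩
    · rw [Submodule.mem_bot] at hv ⊢
      rw [hv, map_zero]
    · rw [Submodule.mem_bot] at hv ⊢
      rw [hv, map_zero]
    · rw [Submodule.mem_bot] at hv ⊢
      rw [hv, map_zero]
  have st1 : St {l : ℕ | l < m} ((X.M5 j m).cl m m) (t5b_F1 k X.V n) :=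
    ⟨fun l hl => t5b_St1_Op (hY l hl), fun l hl => t5b_St1_Op (hX l hl), t5b_St1_D hD⟩
  have st2 : St {l : ℕ | l < m} ((X.M5 j m).cl m m) (t5b_F2 n (X.y j)) :=
    ⟨fun l hl => t5b_St2_Op (hY l hl), fun l hl => t5b_St2_Op (hX l hl), t5b_St2_D hD⟩
  have st3 : St {l : ℕ | l < m} ((X.M5 j m).cl m m) (LinearMap.ker Fm) := by
    refine ⟨fun l hl v hv => ?_, fun l hl v hv => ?_, fun v hv => ?_⟩
    · rw [LinearMap.mem_ker] at hv ⊢
      rw [hmor.1 l hl, hv, map_zero]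
    · rw [LinearMap.mem_ker] at hv ⊢
      rw [hmor.2.1 l hl, hv, map_zero]
    · rw [LinearMap.mem_ker] at hv ⊢
      rw [hmor.2.2.1, hv, map_zero]
  have c1 : Ctr {l : ℕ | l < m} ((X.M5 j m).cl m m) ⊥ (t5b_F1 k X.V n) := by
    refine ⟨bot_le, st0, st1, t5b_h1 ((n : k) + 1) n, ?_, ?_, ?_, ?_, ?_⟩
    · rintro ⟨⟨g, f⟩, ⟨g', f'⟩⟩ _
      exact ⟨rfl, rfl, fun i _ => rfl⟩
    · intro v hv
      rw [Submodule.mem_bot] at hv ⊢
      rw [hv, map_zero]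
    · intro v hv
      rw [Submodule.mem_bot]
      exact t5b_c1 hn1 hD v hv
    · intro l hl v _
      rw [Submodule.mem_bot]
      exact t5b_k1 (hY l hl) _ v
    · intro l hl v _
      rw [Submodule.mem_bot]
      exact t5b_k1 (hX l hl) _ v
  have c2 : Ctr {l : ℕ | l < m} ((X.M5 j m).cl m m) (t5b_F1 k X.V n)
      (t5b_F2 n (X.y j)) := by
    refine ⟨?_, st1, st2, t5b_h2 (X.y j), ?_, ?_, ?_, ?_, ?_⟩
    · rintro ⟨⟨g, f⟩, ⟨g', f'⟩⟩ hv
      obtain ⟨h1, h2, h3⟩ := (t5b_F1_mk g f g' f').1 hv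
      exact (t5b_F2_mk g f g' f').2 ⟨by rw [h1, map_zero], h3⟩
    · rintro ⟨⟨g, f⟩, ⟨g', f'⟩⟩ _
      exact ⟨map_zero _, fun i _ => rfl⟩
    · rintro ⟨⟨g, f⟩, ⟨g', f'⟩⟩ hv
      obtain ⟨h1, h2, h3⟩ := (t5b_F1_mk g f g' f').1 hv
      refine (t5b_F1_mk (0 : ℕ →₀ X.V) 0 (-Dq (X.y j) g) 0).2 ⟨rfl, ?_, fun i _ => rfl⟩
      rw [h1, map_zero, neg_zero]
    · intro v hv
      exact t5b_c2 hD v hv
    · intro l hl v hv
      have h2 := t5b_k2 (hY l hl) v hv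
      exact (congrArg (· ∈ t5b_F1 k X.V n) h2).mpr (zero_mem _)
    · intro l hl v hv
      have h2 := t5b_k2 (hX l hl) v hv
      exact (congrArg (· ∈ t5b_F1 k X.V n) h2).mpr (zero_mem _)
  have c3 : Ctr {l : ℕ | l < m} ((X.M5 j m).cl m m) (t5b_F2 n (X.y j))
      (LinearMap.ker Fm) := by
    refine ⟨?_, st2, st3, t5b_h3 ((n : k) + 1) n, ?_, ?_, ?_, ?_, ?_⟩
    · rintro ⟨⟨g, f⟩, ⟨g', f'⟩⟩ hv
      obtain ⟨h1, h3⟩ := (t5b_F2_mk g f g' f').1 hv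
      rw [LinearMap.mem_ker]
      funext i
      have hi := i.2
      show f' (i : ℕ) - (X.y j ^ (n - 1 - (i : ℕ))) (f' (n - 1)) = 0
      rw [h3 i (by omega), h3 (n - 1) (by omega), map_zero, sub_zero]
    · rintro ⟨⟨g, f⟩, ⟨g', f'⟩⟩ _
      rw [LinearMap.mem_ker]
      funext i
      show (0 : X.V) - (X.y j ^ (n - 1 - (i : ℕ))) 0 = 0
      rw [map_zero, sub_zero]
    · rintro ⟨⟨g, f⟩, ⟨g', f'⟩⟩ hv
      obtain ⟨h1, h3⟩ := (t5b_F2_mk g f g' f').1 hv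
      refine (t5b_F2_mk (Cc (k := k) (((n : k) + 1)⁻¹ • f' (n - 1))) 0 0 0).2
        ⟨?_, fun i _ => rfl⟩
      rw [ev_Cc, h3 (n - 1) (by omega), smul_zero]
    · intro v hv
      exact t5b_c3 hn hn1 hD v hv
    · intro l hl v hv
      exact t5b_k3 (hY l hl) _ v
    · intro l hl v hv
      exact t5b_k3 (hX l hl) _ v
  have hfil : Fil {l : ℕ | l < m} ((X.M5 j m).cl m m) ⊥ (LinearMap.ker Fm) :=
    ((Relation.ReflTransGen.single c1).tail c2).tail c3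
  have hhe := he_surj Fm hmor hsurj hfil (L := L) (fun a ha => hL a ha) hfl'
  rw [h1, hhe.tau, pw_tau X (n - 1) _ L hfin]
  rfl

end ZM
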