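import Pool.Agent.H75.ZM.T6d

/-!
# The antiparallel square (row ZM T6e)

Proof.  `((X.new m).E j m).E i m` is isomorphic to `X.M6 i j m` (`M6_iso`), so its closing at `m` is
isomorphic, for the labels `< m`, to `T6C X i j m` (`Iso.cl`, `Iso.cut`); `T6_inj`, `sum_tau`,
`T6_chi`, `pw_tau`, `pw_fin`; flatness by `Iso.flat`, `Mor.flat_inj` (for `Submodule.subtype`);
finiteness of the homology of `T6Y` from the one of `X.S i j` by `HE.fin`.
-/

namespace ZM

variable {k : Type} [Field k] {lam : k} {n : ℕ}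

theorem T6 (hn : 2 ≤ n) (hn1 : ((n : k) + 1) ≠ 0) (X : Ob k lam n) {m i j : ℕ} (hi : i < m)
    (hj : j < m) (hij : i ≠ j) {L : List (ℕ × ℕ)} (hL : ∀ a ∈ L, a.1 < m ∧ a.2 < m)
    (hfl : Flat (((X.new m).E j m).E i m) ((m, m) :: L)) (hfin : Module.Finite k (X.cls L).H)
    (hfin' : Module.Finite k ((X.S i j).cls L).H) :
    (((((X.new m).E j m).E i m).cl m m).cls L).tau =
      qint lam (n - 2) * (X.cls L).tau + ((X.S i j).cls L).tau := by
  have hA : ∀ a ∈ L, a.1 ∈ {l : ℕ | l < m} ∧ a.2 ∈ {l : ℕ | l < m} := hL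
  have hiso : Iso {l : ℕ | l < m} ((((X.new m).E j m).E i m).cl m m) (T6C X i j m) :=
    (((M6_iso X (ne_of_lt hi)).cl (Set.mem_univ m) (Set.mem_univ m)).mono
      (Set.subset_univ _)).trans (Iso.cut _ m)
  have hflC : Flat (T6C X i j m) L := hiso.flat hA hfl
  have hmor : Mor {l : ℕ | l < m} (T6Y X hi hj hij) (T6C X i j m) (T6K X i j).subtype :=
    ⟨fun _ _ _ => rfl, fun _ _ _ => rfl, fun _ => rfl, fun _ => rfl⟩
  have hflY : Flat (T6Y X hi hj hij) L :=
    hmor.flat_inj (Submodule.subtype_injective _) hA hflC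
  have h1 := T6_inj X hn hn1 hi hj hij hL hflC
  have h2 := T6_chi X hn1 hi hj hij hL hflY
  have hfY : Module.Finite k ((T6Y X hi hj hij).cls L).H := h2.symm.fin hfin'
  have hfP := pw_fin X (n - 2) (lam * (lam⁻¹) ^ (n - 2)) L hfin
  have h3 : (((((X.new m).E j m).E i m).cl m m).cls L).tau = ((T6C X i j m).cls L).tau :=
    (hiso.he hA).tau
  rw [h3, ← h1.tau, sum_tau _ _ _ hfY hfP, pw_tau _ _ _ _ hfin, h2.tau]
  unfold qint
  ring

end ZM
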