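import Pool.Agent.H75.ZM.Tri2
import Pool.Agent.H75.ZM.Comm

/-!
# The triangle relation (row ZM Tri3)

Proof.  By `E_symm` and functoriality (`Iso.E`), `((X.E i j).E j l).E i j` is isomorphic to
`((X.E i j).E l j).E i j`, hence to `(X.F3 l i j).sum (X.E i j)` (`tri_split`), and
`((X.E j l).E i j).E j l` is isomorphic to `((X.E l j).E i j).E l j`, hence to
`(X.F3 i l j).sum (X.E l j)`.  By `F3_symm` and `sum_tau` both sides of the claim are
`tau F3 + tau (X.E i j) + tau (X.E j l)`.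
-/

namespace ZM

variable {k : Type} [Field k] {lam : k} {n : ℕ}

theorem tri_tau (X : Ob k lam n) {i j l : ℕ} (h1 : i ≠ j) (h2 : i ≠ l) (h3 : j ≠ l)
    (L : List (ℕ × ℕ)) (hf1 : Module.Finite k ((((X.E i j).E j l).E i j).cls L).H)
    (hf2 : Module.Finite k ((((X.E j l).E i j).E j l).cls L).H) :
    ((((X.E i j).E j l).E i j).cls L).tau + ((X.E j l).cls L).tau =
      ((((X.E j l).E i j).E j l).cls L).tau + ((X.E i j).cls L).tau := by
  have hL : ∀ a ∈ L, a.1 ∈ (Set.univ : Set ℕ) ∧ a.2 ∈ (Set.univ : Set ℕ) :=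
    fun a _ => ⟨Set.mem_univ _, Set.mem_univ _⟩
  have i1 : Iso Set.univ (((X.E i j).E j l).E i j) ((X.F3 l i j).sum (X.E i j)) :=
    ((E_symm (X.E i j) h3).E (Set.mem_univ _) (Set.mem_univ _)).trans (tri_split X h1 h2 h3)
  have i2 : Iso Set.univ (((X.E j l).E i j).E j l) ((X.F3 i l j).sum (X.E l j)) := by
    have e1 : Iso Set.univ (((X.E j l).E i j).E j l) (((X.E l j).E i j).E j l) :=
      ((E_symm X h3).E (Set.mem_univ _) (Set.mem_univ _)).E (Set.mem_univ _) (Set.mem_univ _)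
    have e2 : Iso Set.univ (((X.E l j).E i j).E j l) (((X.E l j).E i j).E l j) :=
      E_symm _ h3
    exact (e1.trans e2).trans (tri_split X h3.symm h2.symm h1.symm)
  have i3 : Iso Set.univ (X.F3 l i j) (X.F3 i l j) := F3_symm X h2.symm h3.symm h1
  have i4 : Iso Set.univ (X.E j l) (X.E l j) := E_symm X h3
  have f1 := (i1.he hL).fin hf1
  have f2 := (i2.he hL).fin hf2
  rw [(i1.he hL).tau, (i2.he hL).tau, (i4.he hL).tau,
    sum_tau _ _ L (sum_fin_left _ _ L f1) (sum_fin_right _ _ L f1),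
    sum_tau _ _ L (sum_fin_left _ _ L f2) (sum_fin_right _ _ L f2), (i3.he hL).tau]
  ring

end ZM
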