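import Pool.Agent.H75.ZM.Cyc
import Pool.Agent.H75.ZM.Fin3
import Pool.Agent.H75.ZM.T5b
import Pool.Agent.H75.ZM.T6e
import Pool.Agent.H75.ZM.E2
import Pool.Agent.H75.ZM.Tri3

/-!
# The trace system (row ZM Sys)

Proof.  `tr = trw n hne`.  Each relation at the head of the word is an isomorphism of objects (or one
of the theorems `E2_tau`, `tri_tau`) applied to `X = word w (base m)`, with `fin_word` for the
finiteness.  `add`, `addS`, `addE`, `addEE`: `base (m+1) = (base m).new m`, `clist (m+1) =
(m, m) :: clist m`, `word w ((base m).new m)` is isomorphic to `(word w (base m)).new m`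
(`word_new`), then `T3`, `T4`, `T5`, `T6` with flatness from `flat_clist` (transported by
`Iso.flat`).  `one`: the homology of the unit is `k` and `T = 1`.
Note that `word (a :: b :: w) X = (word (b :: w) X).app a`.
-/

namespace ZM

variable {k : Type} [Field k] {lam : k} {n : ℕ}

lemma sys_clist_lt (m : ℕ) : ∀ a ∈ clist m, a.1 < m ∧ a.2 < m := by
  induction m with
  | zero => intro a ha; exact absurd ha (by simp [clist])
  | succ m ih =>
    intro a ha
    rcases List.mem_cons.mp ha with h | h
    · subst h; exact ⟨Nat.lt_succ_self m, Nat.lt_succ_self m⟩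
    · exact ⟨(ih a h).1.trans (Nat.lt_succ_self m), (ih a h).2.trans (Nat.lt_succ_self m)⟩

lemma sys_tau {X Y : Ob k lam n} (h : Iso Set.univ X Y) (L : List (ℕ × ℕ)) :
    (X.cls L).tau = (Y.cls L).tau :=
  (h.he (L := L) fun _ _ => ⟨Set.mem_univ _, Set.mem_univ _⟩).tau

lemma sys_flat {X Y : Ob k lam n} (h : Iso Set.univ X Y) {L : List (ℕ × ℕ)} (hf : Flat X L) :
    Flat Y L :=
  h.flat (fun _ _ => ⟨Set.mem_univ _, Set.mem_univ _⟩) hf

lemma sys_ltok {m : ℕ} {a : Lt} (h : a.ok m) : a.ok (m + 1) := by
  cases a with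
  | E i j => exact ⟨Nat.lt_succ_of_lt h.1, Nat.lt_succ_of_lt h.2.1, h.2.2⟩
  | S i j => exact ⟨Nat.lt_succ_of_lt h.1, Nat.lt_succ_of_lt h.2⟩

lemma sys_ok {m : ℕ} {w : List Lt} (h : Ok m w) : Ok (m + 1) w := fun a ha => sys_ltok (h a ha)

lemma sys_ok_cons {m : ℕ} {a : Lt} {w : List Lt} (ha : a.ok m) (h : Ok m w) : Ok m (a :: w) := by
  intro b hb
  rcases List.mem_cons.mp hb with h' | h'
  · subst h'; exact ha
  · exact h b h'

lemma sys_new (hne : lam ≠ 0) {m : ℕ} {w : List Lt} (hw : Ok m w) :
    Iso Set.univ (word w (base n hne (m + 1))) ((word w (base n hne m)).new m) :=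
  word_new (base n hne m) (le_refl m) hw

lemma sys_unit (hne : lam ≠ 0) : (Ob.unit n hne : Ob k lam n).tau = 1 := by
  have hTH : (Ob.unit n hne : Ob k lam n).TH = 1 := by
    apply LinearMap.ext
    intro z
    obtain ⟨v, rfl⟩ := Submodule.mkQ_surjective _ z
    rfl
  have e1 : (LinearMap.ker (Ob.unit n hne : Ob k lam n).d) = ⊤ := LinearMap.ker_zero
  have e2 : (LinearMap.range (Ob.unit n hne : Ob k lam n).d).comap
      (LinearMap.ker (Ob.unit n hne : Ob k lam n).d).subtype = ⊥ := by
    have : LinearMap.range (Ob.unit n hne : Ob k lam n).d = ⊥ := LinearMap.range_zero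
    rw [this, ← LinearMap.ker, Submodule.ker_subtype]
  have e : (Ob.unit n hne : Ob k lam n).H ≃ₗ[k] k :=
    (Submodule.quotEquivOfEqBot _ e2).trans (LinearEquiv.ofTop _ e1)
  have hf : Module.finrank k (Ob.unit n hne : Ob k lam n).H = 1 := by
    rw [e.finrank_eq, Module.finrank_self]
  haveI : Module.Finite k (Ob.unit n hne : Ob k lam n).H := Module.Finite.equiv e.symm
  rw [Ob.tau, hTH, LinearMap.trace_one, hf, Nat.cast_one]

theorem traceSys (k : Type) [Field k] (lam : k) (n : ℕ) (hne : lam ≠ 0) (hn : 2 ≤ n)
    (hn1 : ((n : k) + 1) ≠ 0) : ∃ S : TraceSys k lam n, S.tr = trw n hne := by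
  refine ⟨{ tr := trw n hne
            one := ?_
            cyc := ?_
            ss := ?_
            sl := ?_
            ee := ?_
            es := ?_
            esym := ?_
            ssym := ?_
            e2 := ?_
            tri := ?_
            add := ?_
            addS := ?_
            addE := ?_
            addEE := ?_ }, rfl⟩
  · exact sys_unit hne
  · intro m u v hu hv
    exact trw_cyc hne hu hv
  · intro m i j w hi hj hw
    exact sys_tau (S_invol (word w (base n hne m)) i j) (clist m)
  · intro m i j a w hi hj ha hw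
    exact sys_tau (app_S (word w (base n hne m)) a i j) (clist m)
  · intro m i j a b w hi hj ha hb hij hab hia hib hja hjb hw
    exact sys_tau (E_E (word w (base n hne m)) hia hib hja hjb) (clist m)
  · intro m i j w hi hj hij hw
    exact sys_tau (E_S (word w (base n hne m)) hij) (clist m)
  · intro m i j w hi hj hij hw
    exact sys_tau (E_symm (word w (base n hne m)) hij) (clist m)
  · intro m i j w hi hj hw
    exact sys_tau (S_symm (word w (base n hne m)) i j) (clist m)
  · intro m i j w hi hj hij hw
    exact E2_tau (word w (base n hne m)) hij (clist m) (fin_word hn1 hne m (.E i j :: w))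
  · intro m i j l w hi hj hl hij hil hjl hw
    exact tri_tau (word w (base n hne m)) hij hil hjl (clist m)
      (fin_word hn1 hne m (.E i j :: .E j l :: .E i j :: w))
      (fin_word hn1 hne m (.E j l :: .E i j :: .E j l :: w))
  · intro m w hw
    have hI := sys_new (n := n) hne hw
    have hfl : Flat ((word w (base n hne m)).new m) ((m, m) :: clist m) :=
      sys_flat hI (flat_clist hne (sys_ok hw))
    have h1 : trw n hne (m + 1) w =
        (((word w (base n hne m)).new m).cls ((m, m) :: clist m)).tau := sys_tau hI (clist (m + 1))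
    rw [h1]
    exact T3 hn1 (word w (base n hne m)) (sys_clist_lt m) hfl (fin_word hn1 hne m w)
  · intro m j w hj hw
    have hI : Iso Set.univ (word (.S j m :: w) (base n hne (m + 1)))
        (((word w (base n hne m)).new m).S j m) :=
      (sys_new (n := n) hne hw).S (Set.mem_univ _) (Set.mem_univ _)
    have hok : Ok (m + 1) (.S j m :: w) :=
      sys_ok_cons ⟨Nat.lt_succ_of_lt hj, Nat.lt_succ_self m⟩ (sys_ok hw)
    have hfl : Flat (((word w (base n hne m)).new m).S j m) ((m, m) :: clist m) :=
      sys_flat hI (flat_clist hne hok)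
    have h1 : trw n hne (m + 1) (.S j m :: w) =
        ((((word w (base n hne m)).new m).S j m).cls ((m, m) :: clist m)).tau :=
      sys_tau hI (clist (m + 1))
    rw [h1]
    exact (T4 (word w (base n hne m)) hj (sys_clist_lt m) hfl).tau
  · intro m j w hj hw
    have hI : Iso Set.univ (word (.E j m :: w) (base n hne (m + 1)))
        (((word w (base n hne m)).new m).E j m) :=
      (sys_new (n := n) hne hw).E (Set.mem_univ _) (Set.mem_univ _)
    have hok : Ok (m + 1) (.E j m :: w) :=
      sys_ok_cons ⟨Nat.lt_succ_of_lt hj, Nat.lt_succ_self m, hj.ne⟩ (sys_ok hw)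
    have hfl : Flat (((word w (base n hne m)).new m).E j m) ((m, m) :: clist m) :=
      sys_flat hI (flat_clist hne hok)
    have h1 : trw n hne (m + 1) (.E j m :: w) =
        ((((word w (base n hne m)).new m).E j m).cls ((m, m) :: clist m)).tau :=
      sys_tau hI (clist (m + 1))
    rw [h1]
    exact T5 (by omega) hn1 (word w (base n hne m)) hj (sys_clist_lt m) hfl
      (fin_word hn1 hne m w)
  · intro m i j w hi hj hij hw
    have hI : Iso Set.univ (word (.E i m :: .E j m :: w) (base n hne (m + 1)))
        ((((word w (base n hne m)).new m).E j m).E i m) :=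
      ((sys_new (n := n) hne hw).E (Set.mem_univ _) (Set.mem_univ _)).E (Set.mem_univ _)
        (Set.mem_univ _)
    have hok : Ok (m + 1) (.E i m :: .E j m :: w) :=
      sys_ok_cons ⟨Nat.lt_succ_of_lt hi, Nat.lt_succ_self m, hi.ne⟩
        (sys_ok_cons ⟨Nat.lt_succ_of_lt hj, Nat.lt_succ_self m, hj.ne⟩ (sys_ok hw))
    have hfl : Flat ((((word w (base n hne m)).new m).E j m).E i m) ((m, m) :: clist m) :=
      sys_flat hI (flat_clist hne hok)
    have h1 : trw n hne (m + 1) (.E i m :: .E j m :: w) =
        (((((word w (base n hne m)).new m).E j m).E i m).cls ((m, m) :: clist m)).tau :=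
      sys_tau hI (clist (m + 1))
    rw [h1]
    exact T6 hn hn1 (word w (base n hne m)) hi hj hij (sys_clist_lt m) hfl
      (fin_word hn1 hne m w) (fin_word hn1 hne m (.S i j :: w))

end ZM
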