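import Pool.Agent.H75.ZM.PolL
import Pool.Agent.H75.ZM.IsoE

/-!
# Coordinates for `(X.new m).E j m` (row ZM T5a)

In `(X.new m).E j m` an element is `f0(u) + f1(u) Y`, with `(Y - a)(Y - u) = 0`, `a = X.y j`.
The new coordinates are `(g(Y), f(u))` standing for `g(Y) + (u - Y) f(u)`; on the second summand
`Y` acts as `a`.  `e5 a (f0, f1) = (f0 + u f1, Dq a f0 + a Dq a f1)`, with inverse
`(g, f) ↦ (Cc (g(a)) - a Dq a g + u f, Dq a g - f)`:
`f0 + u f1 = Cc (g(a)) + (u - a) Dq a g = g`, and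
`Dq a (f0 + a f1) = Dq a (Cc (g(a)) + (u - a) f) = f`; conversely with
`g = f0 + u f1`, `Dq a g = Dq a f0 + u Dq a f1 + Cc (f1(a))`, so
`Dq a g - f = (u - a) Dq a f1 + Cc (f1(a)) = f1`, and `g - u f1 = f0`.
The formulas for the operators of `X.M5 j m`: apply `e5` to the operators of `(X.new m).E j m`.
It is enough to check that `e5` intertwines (for instance `e5 (Y (f0, f1)) = (sh g, cw a f)`), then
conclude with `LinearEquiv.conj_apply_apply`.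
-/

namespace ZM

variable {k : Type} [Field k] {lam : k} {n : ℕ} {V : Type} [AddCommGroup V] [Module k V]

/-- The coordinates `(f0, f1) ↦ (f0 + u f1, Dq a f0 + a Dq a f1)`. -/
noncomputable def e5fun (a : Module.End k V) :
    ((ℕ →₀ V) × (ℕ →₀ V)) →ₗ[k] ((ℕ →₀ V) × (ℕ →₀ V)) :=
  LinearMap.prod (LinearMap.fst k _ _ + sh ∘ₗ LinearMap.snd k _ _)
    (Dq a ∘ₗ LinearMap.fst k _ _ + cw a ∘ₗ Dq a ∘ₗ LinearMap.snd k _ _)

/-- The inverse coordinates. -/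
noncomputable def e5inv (a : Module.End k V) :
    ((ℕ →₀ V) × (ℕ →₀ V)) →ₗ[k] ((ℕ →₀ V) × (ℕ →₀ V)) :=
  LinearMap.prod
    (Cc ∘ₗ ev a ∘ₗ LinearMap.fst k _ _ - cw a ∘ₗ Dq a ∘ₗ LinearMap.fst k _ _ +
      sh ∘ₗ LinearMap.snd k _ _)
    (Dq a ∘ₗ LinearMap.fst k _ _ - LinearMap.snd k _ _)

lemma t5a_cwsh (f : Module.End k V) (p : ℕ →₀ V) :
    cw f (sh (k := k) p) = sh (k := k) (cw f p) :=
  LinearMap.congr_fun (cw_sh f).eq p

lemma t5a_Dqcw {a b : Module.End k V} (h : Commute b a) (p : ℕ →₀ V) :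
    Dq a (cw b p) = cw b (Dq a p) :=
  Dq_cw (fun v => LinearMap.congr_fun h.eq v) p

lemma t5a_cwcomm {a b : Module.End k V} (h : Commute a b) (p : ℕ →₀ V) :
    cw a (cw b p) = cw b (cw a p) := by
  rw [cw_cw, cw_cw, h.eq]

lemma t5a_fun (a : Module.End k V) (f0 f1 : ℕ →₀ V) :
    e5fun a (f0, f1) = (f0 + sh (k := k) f1, Dq a f0 + cw a (Dq a f1)) := rfl

lemma t5a_inv (a : Module.End k V) (g f : ℕ →₀ V) :
    e5inv a (g, f) = (Cc (k := k) (ev a g) - cw a (Dq a g) + sh (k := k) f, Dq a g - f) := rfl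

lemma e5_left (a : Module.End k V) (p : (ℕ →₀ V) × (ℕ →₀ V)) :
    e5inv a (e5fun a p) = p := by
  obtain ⟨f0, f1⟩ := p
  rw [t5a_fun, t5a_inv]
  have h0 := sh_Dq a f0
  have h1 := sh_Dq a f1
  refine Prod.ext ?_ ?_
  · show Cc (k := k) (ev a (f0 + sh (k := k) f1)) - cw a (Dq a (f0 + sh (k := k) f1)) +
      sh (k := k) (Dq a f0 + cw a (Dq a f1)) = f0
    rw [map_add (ev a), map_add (Cc (k := k)), ev_sh, map_add (Dq a), Dq_sh, map_add (cw a),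
      map_add (cw a), cw_Cc, map_add (sh (k := k)), t5a_cwsh]
    have e : f0 = sh (k := k) (Dq a f0) - cw a (Dq a f0) + Cc (k := k) (ev a f0) := by
      rw [h0]; abel
    conv_rhs => rw [e]
    abel
  · show Dq a (f0 + sh (k := k) f1) - (Dq a f0 + cw a (Dq a f1)) = f1
    rw [map_add (Dq a), Dq_sh]
    have e : f1 = sh (k := k) (Dq a f1) - cw a (Dq a f1) + Cc (k := k) (ev a f1) := by
      rw [h1]; abel
    conv_rhs => rw [e]
    abel

lemma e5_right (a : Module.End k V) (p : (ℕ →₀ V) × (ℕ →₀ V)) :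
    e5fun a (e5inv a p) = p := by
  obtain ⟨g, f⟩ := p
  rw [t5a_inv, t5a_fun]
  have h0 := sh_Dq a g
  have h1 := sh_Dq a f
  refine Prod.ext ?_ ?_
  · show Cc (k := k) (ev a g) - cw a (Dq a g) + sh (k := k) f + sh (k := k) (Dq a g - f) = g
    rw [map_sub (sh (k := k))]
    have e : g = sh (k := k) (Dq a g) - cw a (Dq a g) + Cc (k := k) (ev a g) := by
      rw [h0]; abel
    conv_rhs => rw [e]
    abel
  · show Dq a (Cc (k := k) (ev a g) - cw a (Dq a g) + sh (k := k) f) + cw a (Dq a (Dq a g - f)) = f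
    rw [map_add (Dq a), map_sub (Dq a), Dq_Cc, t5a_Dqcw (Commute.refl a), Dq_sh, map_sub (Dq a),
      map_sub (cw a)]
    have e : f = sh (k := k) (Dq a f) - cw a (Dq a f) + Cc (k := k) (ev a f) := by
      rw [h1]; abel
    conv_rhs => rw [e]
    abel

/-- The coordinate change. -/
noncomputable def e5 (a : Module.End k V) :
    ((ℕ →₀ V) × (ℕ →₀ V)) ≃ₗ[k] ((ℕ →₀ V) × (ℕ →₀ V)) :=
  { e5fun a with
    invFun := e5inv a
    left_inv := e5_left a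
    right_inv := e5_right a }

/-- `(X.new m).E j m` in the new coordinates. -/
noncomputable def Ob.M5 (X : Ob k lam n) (j m : ℕ) : Ob k lam n :=
  ((X.new m).E j m).tp (W := (ℕ →₀ X.V) × (ℕ →₀ X.V)) (e5 (X.y j))

variable (X : Ob k lam n) {j m : ℕ}

/-- An operator of `(X.new m).E j m` in the new coordinates. -/
lemma t5a_conj (a : Module.End k V) (A : Module.End k ((ℕ →₀ V) × (ℕ →₀ V)))
    (B : ((ℕ →₀ V) × (ℕ →₀ V)) → ((ℕ →₀ V) × (ℕ →₀ V)))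
    (h : ∀ f0 f1 : ℕ →₀ V, e5fun a (A (f0, f1)) = B (e5fun a (f0, f1)))
    (q : (ℕ →₀ V) × (ℕ →₀ V)) : (e5 a).conj A q = B q := by
  rw [LinearEquiv.conj_apply_apply]
  show e5fun a (A (e5inv a q)) = B q
  have h2 := h (e5inv a q).1 (e5inv a q).2
  rw [Prod.mk.eta] at h2
  rw [h2, e5_right]

lemma t5a_newy_self : (X.new m).y m = sh (k := k) := if_pos rfl

lemma t5a_newy {l : ℕ} (h : l ≠ m) : (X.new m).y l = cw (X.y l) := if_neg h

lemma t5a_newx_self : (X.new m).x m = sh (k := k) := if_pos rfl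

lemma t5a_newx {l : ℕ} (h : l ≠ m) : (X.new m).x l = cw (X.x l) := if_neg h

/-- Coefficientwise operators commuting with `a`. -/
lemma t5a_diag (a b : Module.End k V) (h : Commute b a) (f0 f1 : ℕ →₀ V) :
    e5fun a (cw b f0, cw b f1) =
      (cw b (e5fun a (f0, f1)).1, cw b (e5fun a (f0, f1)).2) := by
  rw [t5a_fun, t5a_fun]
  refine Prod.ext ?_ ?_
  · show cw b f0 + sh (k := k) (cw b f1) = cw b (f0 + sh (k := k) f1)
    rw [map_add (cw b), t5a_cwsh]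
  · show Dq a (cw b f0) + cw a (Dq a (cw b f1)) = cw b (Dq a f0 + cw a (Dq a f1))
    rw [map_add (cw b), t5a_Dqcw h, t5a_Dqcw h, t5a_cwcomm h]

lemma M5_yj (hj : j ≠ m) (g f : ℕ →₀ X.V) :
    (X.M5 j m).y j ((g, f) : (ℕ →₀ X.V) × (ℕ →₀ X.V)) =
      ((sh (k := k) g, cw (X.y j) f) : (ℕ →₀ X.V) × (ℕ →₀ X.V)) := by
  have hA : ((X.new m).E j m).y j = thOp (cw (X.y j)) (sh (k := k)) := by
    show (X.new m).yE j m j = _
    unfold Ob.yE
    rw [if_pos rfl, t5a_newy X hj, t5a_newy_self]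
    rfl
  show (e5 (X.y j)).conj (((X.new m).E j m).y j) (g, f) = _
  rw [hA]
  refine t5a_conj (X.y j) _ (fun q => (sh (k := k) q.1, cw (X.y j) q.2)) ?_ (g, f)
  intro f0 f1
  have e1 : thOp (cw (X.y j)) (sh (k := k)) (f0, f1) =
      ((-(cw (X.y j) (sh (k := k) f1)), f0 + (cw (X.y j) f1 + sh (k := k) f1)) :
        (ℕ →₀ X.V) × (ℕ →₀ X.V)) := by
    simp [thOp]
  rw [e1, t5a_fun, t5a_fun]
  refine Prod.ext ?_ ?_
  · show -(cw (X.y j) (sh (k := k) f1)) + sh (k := k) (f0 + (cw (X.y j) f1 + sh (k := k) f1)) =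
      sh (k := k) (f0 + sh (k := k) f1)
    simp only [map_add, t5a_cwsh]
    abel
  · show Dq (X.y j) (-(cw (X.y j) (sh (k := k) f1))) +
      cw (X.y j) (Dq (X.y j) (f0 + (cw (X.y j) f1 + sh (k := k) f1))) =
      cw (X.y j) (Dq (X.y j) f0 + cw (X.y j) (Dq (X.y j) f1))
    simp only [map_add, map_neg, t5a_Dqcw (Commute.refl (X.y j)), Dq_sh]
    abel

lemma M5_ym (hj : j ≠ m) (g f : ℕ →₀ X.V) :
    (X.M5 j m).y m ((g, f) : (ℕ →₀ X.V) × (ℕ →₀ X.V)) =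
      ((cw (X.y j) g, sh (k := k) f + Cc (k := k) (ev (X.y j) g)) :
        (ℕ →₀ X.V) × (ℕ →₀ X.V)) := by
  have hA : ((X.new m).E j m).y m = (dg (cw (X.y j) + sh (k := k)) -
      thOp (cw (X.y j)) (sh (k := k)) : Module.End k ((ℕ →₀ X.V) × (ℕ →₀ X.V))) := by
    show (X.new m).yE j m m = _
    unfold Ob.yE
    rw [if_neg hj.symm, if_pos rfl, t5a_newy X hj, t5a_newy_self]
    rfl
  show (e5 (X.y j)).conj (((X.new m).E j m).y m) (g, f) = _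
  rw [hA]
  refine t5a_conj (X.y j) (dg (cw (X.y j) + sh (k := k)) - thOp (cw (X.y j)) (sh (k := k)) :
      Module.End k ((ℕ →₀ X.V) × (ℕ →₀ X.V)))
    (fun q => (cw (X.y j) q.1, sh (k := k) q.2 + Cc (k := k) (ev (X.y j) q.1))) ?_ (g, f)
  intro f0 f1
  have e1 : (dg (cw (X.y j) + sh (k := k)) - thOp (cw (X.y j)) (sh (k := k)) :
      Module.End k ((ℕ →₀ X.V) × (ℕ →₀ X.V))) (f0, f1) =
      ((cw (X.y j) f0 + sh (k := k) f0 + cw (X.y j) (sh (k := k) f1), -f0) :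
        (ℕ →₀ X.V) × (ℕ →₀ X.V)) := by
    simp [thOp]
  rw [e1, t5a_fun, t5a_fun]
  refine Prod.ext ?_ ?_
  · show cw (X.y j) f0 + sh (k := k) f0 + cw (X.y j) (sh (k := k) f1) + sh (k := k) (-f0) =
      cw (X.y j) (f0 + sh (k := k) f1)
    simp only [map_add, map_neg]
    abel
  · show Dq (X.y j) (cw (X.y j) f0 + sh (k := k) f0 + cw (X.y j) (sh (k := k) f1)) +
      cw (X.y j) (Dq (X.y j) (-f0)) =
      sh (k := k) (Dq (X.y j) f0 + cw (X.y j) (Dq (X.y j) f1)) +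
        Cc (k := k) (ev (X.y j) (f0 + sh (k := k) f1))
    have hev : ev (X.y j) (cw (X.y j) f1) = (X.y j) (ev (X.y j) f1) :=
      ev_cw (fun v => rfl) f1
    simp only [map_add, map_neg, t5a_Dqcw (Commute.refl (X.y j)), Dq_sh, ev_sh, t5a_cwsh, hev]
    abel

lemma M5_y {l : ℕ} (hl : l ≠ j) (hl' : l ≠ m) (g f : ℕ →₀ X.V) :
    (X.M5 j m).y l ((g, f) : (ℕ →₀ X.V) × (ℕ →₀ X.V)) =
      ((cw (X.y l) g, cw (X.y l) f) : (ℕ →₀ X.V) × (ℕ →₀ X.V)) := by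
  have hA : ((X.new m).E j m).y l = dg (cw (X.y l)) := by
    show (X.new m).yE j m l = _
    unfold Ob.yE
    rw [if_neg hl, if_neg hl', t5a_newy X hl']
    rfl
  show (e5 (X.y j)).conj (((X.new m).E j m).y l) (g, f) = _
  rw [hA]
  refine t5a_conj (X.y j) (dg (cw (X.y l))) (fun q => (cw (X.y l) q.1, cw (X.y l) q.2)) ?_ (g, f)
  intro f0 f1
  rw [dg_apply]
  exact t5a_diag (X.y j) (X.y l) (X.hyy l j) f0 f1

lemma M5_xm (hj : j ≠ m) (g f : ℕ →₀ X.V) :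
    (X.M5 j m).x m ((g, f) : (ℕ →₀ X.V) × (ℕ →₀ X.V)) =
      ((sh (k := k) g, sh (k := k) f + Cc (k := k) (ev (X.y j) g)) :
        (ℕ →₀ X.V) × (ℕ →₀ X.V)) := by
  have hA : ((X.new m).E j m).x m = dg (sh (k := k)) := by
    show dg ((X.new m).x m) = _
    rw [t5a_newx_self]
    rfl
  show (e5 (X.y j)).conj (((X.new m).E j m).x m) (g, f) = _
  rw [hA]
  refine t5a_conj (X.y j) _
    (fun q => (sh (k := k) q.1, sh (k := k) q.2 + Cc (k := k) (ev (X.y j) q.1))) ?_ (g, f)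
  intro f0 f1
  rw [dg_apply, t5a_fun, t5a_fun]
  refine Prod.ext ?_ ?_
  · show sh (k := k) f0 + sh (k := k) (sh (k := k) f1) = sh (k := k) (f0 + sh (k := k) f1)
    rw [map_add]
  · show Dq (X.y j) (sh (k := k) f0) + cw (X.y j) (Dq (X.y j) (sh (k := k) f1)) =
      sh (k := k) (Dq (X.y j) f0 + cw (X.y j) (Dq (X.y j) f1)) +
        Cc (k := k) (ev (X.y j) (f0 + sh (k := k) f1))
    simp only [map_add, Dq_sh, ev_sh, cw_Cc, t5a_cwsh]
    abel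

lemma M5_x {l : ℕ} (hl : l ≠ m) (g f : ℕ →₀ X.V) :
    (X.M5 j m).x l ((g, f) : (ℕ →₀ X.V) × (ℕ →₀ X.V)) =
      ((cw (X.x l) g, cw (X.x l) f) : (ℕ →₀ X.V) × (ℕ →₀ X.V)) := by
  have hA : ((X.new m).E j m).x l = dg (cw (X.x l)) := by
    show dg ((X.new m).x l) = _
    rw [t5a_newx X hl]
    rfl
  show (e5 (X.y j)).conj (((X.new m).E j m).x l) (g, f) = _
  rw [hA]
  refine t5a_conj (X.y j) (dg (cw (X.x l))) (fun q => (cw (X.x l) q.1, cw (X.x l) q.2)) ?_ (g, f)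
  intro f0 f1
  rw [dg_apply]
  exact t5a_diag (X.y j) (X.x l) (X.hxy l j) f0 f1

lemma M5_d (g f : ℕ →₀ X.V) :
    (X.M5 j m).d ((g, f) : (ℕ →₀ X.V) × (ℕ →₀ X.V)) =
      ((cw X.d g, cw X.d f) : (ℕ →₀ X.V) × (ℕ →₀ X.V)) := by
  show (e5 (X.y j)).conj (dg (cw X.d)) (g, f) = _
  refine t5a_conj (X.y j) (dg (cw X.d)) (fun q => (cw X.d q.1, cw X.d q.2)) ?_ (g, f)
  intro f0 f1
  rw [dg_apply]
  exact t5a_diag (X.y j) X.d (X.hdy j) f0 f1

lemma M5_T (g f : ℕ →₀ X.V) :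
    (X.M5 j m).T ((g, f) : (ℕ →₀ X.V) × (ℕ →₀ X.V)) =
      ((lam⁻¹ • wt (lam ^ 2) (cw X.T g), lam • wt (lam ^ 2) (cw X.T f)) :
        (ℕ →₀ X.V) × (ℕ →₀ X.V)) := by
  have hl := X.ne
  have hc : ∀ p : ℕ →₀ X.V, cw X.T (cw (X.y j) p) = lam ^ 2 • cw (X.y j) (cw X.T p) := by
    intro p
    rw [cw_cw, X.hTy, cw_smul, LinearMap.smul_apply, cw_cw]
  show (e5 (X.y j)).conj (pm (lam⁻¹ • (wt (lam ^ 2) * cw X.T))
    (lam • (wt (lam ^ 2) * cw X.T))) (g, f) = _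
  refine t5a_conj (X.y j) _
    (fun q => (lam⁻¹ • wt (lam ^ 2) (cw X.T q.1), lam • wt (lam ^ 2) (cw X.T q.2))) ?_ (g, f)
  intro f0 f1
  rw [pm_apply, t5a_fun]
  show e5fun (X.y j) (lam⁻¹ • wt (lam ^ 2) (cw X.T f0), lam • wt (lam ^ 2) (cw X.T f1)) = _
  rw [t5a_fun]
  refine Prod.ext ?_ ?_
  · show lam⁻¹ • wt (lam ^ 2) (cw X.T f0) + sh (k := k) (lam • wt (lam ^ 2) (cw X.T f1)) =
      lam⁻¹ • wt (lam ^ 2) (cw X.T (f0 + sh (k := k) f1))
    rw [map_add (cw X.T), map_add (wt (lam ^ 2)), t5a_cwsh, wt_sh', smul_add, smul_smul, map_smul]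
    have e : lam⁻¹ * lam ^ 2 = lam := by field_simp
    rw [e]
  · show Dq (X.y j) (lam⁻¹ • wt (lam ^ 2) (cw X.T f0)) +
      cw (X.y j) (Dq (X.y j) (lam • wt (lam ^ 2) (cw X.T f1))) =
      lam • wt (lam ^ 2) (cw X.T (Dq (X.y j) f0 + cw (X.y j) (Dq (X.y j) f1)))
    rw [map_smul (Dq (X.y j)), map_smul (Dq (X.y j)), Dq_wt (X.hTy j), Dq_wt (X.hTy j),
      map_smul (cw (X.y j)), map_smul (cw (X.y j)), map_add (cw X.T), map_add (wt (lam ^ 2)), hc,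
      map_smul (wt (lam ^ 2)), wt_cw' (lam ^ 2) (X.y j), smul_add, smul_smul, smul_smul]
    have e : lam⁻¹ * lam ^ 2 = lam := by field_simp
    rw [e]

end ZM
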