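import Pool.Agent.H75.ZM.T5a

/-!
# Coordinates for `((X.new m).E j m).E i m` (row ZM T6a)

Let `a = X.y j`, `b = X.y i`.  `X.M6 i j m` is `(X.M5 j m).E i m` transported along
`((g0, f0), (g1, f1)) ↦ (g0, g1, e5 b (f0, f1))`; its elements are `(F0, F1, g, f)`.
The operators (as computed in the paper proof):
`y j (F0, F1, g, f) = (u F0, u F1, a g, a f)`,
`y i (F0, F1, g, f) = (- a b F1, F0 + (a + b) F1, u g + (u - b) Cc (F1(a)), b f)`,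
`x m (F0, F1, g, f) = (u F0, u F1, u g + Cc (F0(a)) + u Cc (F1(a)), u f + Cc (g(b)))`,
`y m = x m + (a + b) - y i - y j`, that is `(y m - x m) (F0, F1, g, f) =
((a + b) F0 - u F0 + a b F1, - u F1 - F0, (b - u) (g + Cc (F1(a))), 0)`.
The other operators and `d` act coefficientwise, and
`T (F0, F1, g, f) = (lam^-2 W F0, W F1, W g, lam^2 W f)`, `W = wt (lam ^ 2) (cw X.T ..)`.

Derivation: `(X.M5 j m).E i m` has `y i ((g0,f0),(g1,f1)) = (- b y' z1, z0 + (b + y') z1)`,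
`z0 = (g0, f0)`, `z1 = (g1, f1)`, `y' = (X.M5 j m).y m`: `y' (g, f) = (a g, u f + Cc (g(a)))`.  So
the new `f0, f1` are `- b (u f1 + Cc (g1(a)))` and `f0 + b f1 + u f1 + Cc (g1(a))`; apply
`e5 b (f0, f1) = (f0 + u f1, Dq b (f0 + b f1))` (`Dq b` commutes with `b`).
-/

namespace ZM

variable {k : Type} [Field k] {lam : k} {n : ℕ} {V : Type} [AddCommGroup V] [Module k V]

/-- Four polynomials. -/
abbrev P4 (V : Type) [AddCommGroup V] : Type := (ℕ →₀ V) × (ℕ →₀ V) × (ℕ →₀ V) × (ℕ →₀ V)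

/-- The coordinate change. -/
noncomputable def e6 (b : Module.End k V) :
    (((ℕ →₀ V) × (ℕ →₀ V)) × ((ℕ →₀ V) × (ℕ →₀ V))) ≃ₗ[k] P4 V :=
  ((LinearEquiv.prodProdProdComm k (ℕ →₀ V) (ℕ →₀ V) (ℕ →₀ V) (ℕ →₀ V)).trans
    ((LinearEquiv.refl k _).prodCongr (e5 b))).trans
    (LinearEquiv.prodAssoc k (ℕ →₀ V) (ℕ →₀ V) ((ℕ →₀ V) × (ℕ →₀ V)))

/-- `((X.new m).E j m).E i m` in the new coordinates. -/
noncomputable def Ob.M6 (X : Ob k lam n) (i j m : ℕ) : Ob k lam n :=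
  ((X.M5 j m).E i m).tp (W := P4 X.V) (e6 (X.y i))

variable (X : Ob k lam n) {i j m : ℕ}

lemma t6a_cw_add (a b : Module.End k V) (p : ℕ →₀ V) : cw (a + b) p = cw a p + cw b p := by
  induction p using Finsupp.induction_linear with
  | zero => simp
  | add f g hf hg => rw [map_add, map_add, map_add, hf, hg]; abel
  | single i v => simp

lemma t6a_cw_comm {a b : Module.End k V} (h : Commute a b) (p : ℕ →₀ V) :
    cw a (cw b p) = cw b (cw a p) := by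
  rw [cw_cw, cw_cw, h.eq]

lemma t6a_cw_sh (a : Module.End k V) (p : ℕ →₀ V) :
    cw a (sh (k := k) p) = sh (k := k) (cw a p) :=
  LinearMap.congr_fun (cw_sh a).eq p

lemma t6a_Dq_cw {a b : Module.End k V} (h : Commute a b) (p : ℕ →₀ V) :
    Dq b (cw a p) = cw a (Dq b p) :=
  Dq_cw (fun v => LinearMap.congr_fun h.eq v) p

lemma t6a_ev_cw (a : Module.End k V) (p : ℕ →₀ V) : ev a (cw a p) = a (ev a p) :=
  ev_cw (fun _ => rfl) p

lemma t6a_e6 (b : Module.End k V) (g0 f0 g1 f1 : ℕ →₀ V) :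
    e6 b ((g0, f0), (g1, f1)) =
      ((g0, g1, f0 + sh (k := k) f1, Dq b f0 + cw b (Dq b f1)) : P4 V) := rfl

lemma t6a_surj (b : Module.End k V) (g f : ℕ →₀ V) :
    ∃ f0 f1 : ℕ →₀ V, g = f0 + sh (k := k) f1 ∧ f = Dq b f0 + cw b (Dq b f1) := by
  obtain ⟨⟨f0, f1⟩, h⟩ := (e5 b).surjective (g, f)
  exact ⟨f0, f1, (congrArg Prod.fst h).symm, (congrArg Prod.snd h).symm⟩

lemma t6a_key {A : Type} [AddCommGroup A] [Module k A] {B : Type} [AddCommGroup B] [Module k B]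
    (e : A ≃ₗ[k] B) (f : Module.End k A) (z z' : A) (h : f z = z') : e.conj f (e z) = e z' := by
  rw [LinearEquiv.conj_apply_apply, LinearEquiv.symm_apply_apply, h]

lemma t6a_yEi (Y : Ob k lam n) (i m : ℕ) (z0 z1 : Y.V) :
    (Y.E i m).y i ((z0, z1) : Y.V × Y.V) =
      ((-(Y.y i (Y.y m z1)), z0 + (Y.y i z1 + Y.y m z1)) : Y.V × Y.V) := by
  show Y.yE i m i (z0, z1) = _
  unfold Ob.yE
  rw [if_pos rfl]
  simp [thOp, Module.End.mul_apply]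

lemma t6a_yEm (Y : Ob k lam n) {i m : ℕ} (hi : i ≠ m) (z0 z1 : Y.V) :
    (Y.E i m).y m ((z0, z1) : Y.V × Y.V) =
      ((Y.y i z0 + Y.y m z0 + Y.y i (Y.y m z1), -z0) : Y.V × Y.V) := by
  show Y.yE i m m (z0, z1) = _
  unfold Ob.yE
  rw [if_neg hi.symm, if_pos rfl]
  simp [thOp, Module.End.mul_apply]

lemma t6a_yEl (Y : Ob k lam n) {i m l : ℕ} (hl : l ≠ i) (hl' : l ≠ m) (z0 z1 : Y.V) :
    (Y.E i m).y l ((z0, z1) : Y.V × Y.V) = ((Y.y l z0, Y.y l z1) : Y.V × Y.V) := by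
  show Y.yE i m l (z0, z1) = _
  unfold Ob.yE
  rw [if_neg hl, if_neg hl']
  simp

lemma M6_iso (hi : i ≠ m) : Iso Set.univ (((X.new m).E j m).E i m) (X.M6 i j m) := by
  have h1 : Iso Set.univ ((X.new m).E j m) (X.M5 j m) := Iso.tp _ _ _
  have h2 := h1.E (i := i) (j := m) (Set.mem_univ _) (Set.mem_univ _)
  exact h2.trans (Iso.tp _ _ _)

lemma M6_yj (hi : i ≠ m) (hj : j ≠ m) (hij : i ≠ j) (F0 F1 g f : ℕ →₀ X.V) :
    (X.M6 i j m).y j ((F0, F1, g, f) : P4 X.V) =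
      ((sh (k := k) F0, sh (k := k) F1, cw (X.y j) g, cw (X.y j) f) : P4 X.V) := by
  obtain ⟨f0, f1, rfl, rfl⟩ := t6a_surj (X.y i) g f
  refine (t6a_key (e6 (X.y i)) (((X.M5 j m).E i m).y j) ((F0, f0), (F1, f1))
      (((sh (k := k) F0, cw (X.y j) f0), (sh (k := k) F1, cw (X.y j) f1)) :
      ((ℕ →₀ X.V) × (ℕ →₀ X.V)) × ((ℕ →₀ X.V) × (ℕ →₀ X.V)))
      (by
      refine (t6a_yEl (X.M5 j m) hij.symm hj (F0, f0) (F1, f1)).trans ?_
      rw [M5_yj X hj, M5_yj X hj]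
      rfl)).trans ?_
  have hc := X.hyy j i
  refine (t6a_e6 _ _ _ _ _).trans ?_
  rw [t6a_Dq_cw hc, t6a_Dq_cw hc, t6a_cw_comm hc.symm, map_add, map_add, t6a_cw_sh]

lemma M6_yi (hi : i ≠ m) (hj : j ≠ m) (hij : i ≠ j) (F0 F1 g f : ℕ →₀ X.V) :
    (X.M6 i j m).y i ((F0, F1, g, f) : P4 X.V) =
      ((- cw (X.y j * X.y i) F1, F0 + cw (X.y j + X.y i) F1,
        sh (k := k) g + sh (k := k) (Cc (k := k) (ev (X.y j) F1)) -
          cw (X.y i) (Cc (k := k) (ev (X.y j) F1)),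
        cw (X.y i) f) : P4 X.V) := by
  obtain ⟨f0, f1, rfl, rfl⟩ := t6a_surj (X.y i) g f
  refine (t6a_key (e6 (X.y i)) (((X.M5 j m).E i m).y i) ((F0, f0), (F1, f1))
      (((-(cw (X.y i) (cw (X.y j) F1)),
        -(cw (X.y i) (sh (k := k) f1 + Cc (k := k) (ev (X.y j) F1)))),
      (F0 + (cw (X.y i) F1 + cw (X.y j) F1),
        f0 + (cw (X.y i) f1 + (sh (k := k) f1 + Cc (k := k) (ev (X.y j) F1))))) :
      ((ℕ →₀ X.V) × (ℕ →₀ X.V)) × ((ℕ →₀ X.V) × (ℕ →₀ X.V)))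
      (by
      refine (t6a_yEi (X.M5 j m) i m (F0, f0) (F1, f1)).trans ?_
      rw [M5_ym X hj, M5_y X hij hi, M5_y X hij hi]
      rfl)).trans ?_
  have hc := X.hyy j i
  refine (t6a_e6 _ _ _ _ _).trans ?_
  refine Prod.ext ?_ (Prod.ext ?_ (Prod.ext ?_ ?_))
  · show -(cw (X.y i) (cw (X.y j) F1)) = - cw (X.y j * X.y i) F1
    rw [cw_cw, hc.eq]
  · show F0 + (cw (X.y i) F1 + cw (X.y j) F1) = F0 + cw (X.y j + X.y i) F1
    rw [t6a_cw_add]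
    abel
  · show -(cw (X.y i) (sh (k := k) f1 + Cc (k := k) (ev (X.y j) F1))) +
      sh (k := k) (f0 + (cw (X.y i) f1 + (sh (k := k) f1 + Cc (k := k) (ev (X.y j) F1)))) =
      sh (k := k) (f0 + sh (k := k) f1) + sh (k := k) (Cc (k := k) (ev (X.y j) F1)) -
          cw (X.y i) (Cc (k := k) (ev (X.y j) F1))
    simp only [map_add, t6a_cw_sh]
    abel
  · show Dq (X.y i) (-(cw (X.y i) (sh (k := k) f1 + Cc (k := k) (ev (X.y j) F1)))) +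
      cw (X.y i) (Dq (X.y i)
        (f0 + (cw (X.y i) f1 + (sh (k := k) f1 + Cc (k := k) (ev (X.y j) F1))))) =
      cw (X.y i) (Dq (X.y i) f0 + cw (X.y i) (Dq (X.y i) f1))
    simp only [map_add, map_neg, t6a_Dq_cw (Commute.refl (X.y i))]
    abel

lemma M6_xm (hi : i ≠ m) (hj : j ≠ m) (hij : i ≠ j) (F0 F1 g f : ℕ →₀ X.V) :
    (X.M6 i j m).x m ((F0, F1, g, f) : P4 X.V) =
      ((sh (k := k) F0, sh (k := k) F1,
        sh (k := k) g + Cc (k := k) (ev (X.y j) F0) + sh (k := k) (Cc (k := k) (ev (X.y j) F1)),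
        sh (k := k) f + Cc (k := k) (ev (X.y i) g)) : P4 X.V) := by
  obtain ⟨f0, f1, rfl, rfl⟩ := t6a_surj (X.y i) g f
  refine (t6a_key (e6 (X.y i)) (((X.M5 j m).E i m).x m) ((F0, f0), (F1, f1))
      (((sh (k := k) F0, sh (k := k) f0 + Cc (k := k) (ev (X.y j) F0)),
      (sh (k := k) F1, sh (k := k) f1 + Cc (k := k) (ev (X.y j) F1))) :
      ((ℕ →₀ X.V) × (ℕ →₀ X.V)) × ((ℕ →₀ X.V) × (ℕ →₀ X.V)))
      (Prod.ext (M5_xm X hj F0 f0) (M5_xm X hj F1 f1))).trans ?_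
  refine (t6a_e6 _ _ _ _ _).trans ?_
  refine Prod.ext rfl (Prod.ext rfl (Prod.ext ?_ ?_))
  · show sh (k := k) f0 + Cc (k := k) (ev (X.y j) F0) +
      sh (k := k) (sh (k := k) f1 + Cc (k := k) (ev (X.y j) F1)) =
      sh (k := k) (f0 + sh (k := k) f1) + Cc (k := k) (ev (X.y j) F0) +
        sh (k := k) (Cc (k := k) (ev (X.y j) F1))
    simp only [map_add]
    abel
  · show Dq (X.y i) (sh (k := k) f0 + Cc (k := k) (ev (X.y j) F0)) +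
      cw (X.y i) (Dq (X.y i) (sh (k := k) f1 + Cc (k := k) (ev (X.y j) F1))) =
      sh (k := k) (Dq (X.y i) f0 + cw (X.y i) (Dq (X.y i) f1)) +
        Cc (k := k) (ev (X.y i) (f0 + sh (k := k) f1))
    rw [map_add (Dq (X.y i)), map_add (Dq (X.y i)), Dq_Cc, Dq_Cc, Dq_sh, Dq_sh, add_zero, add_zero,
      map_add (cw (X.y i)), t6a_cw_sh, cw_Cc, map_add (ev (X.y i)), ev_sh,
      map_add (Cc (k := k)), map_add (sh (k := k))]
    abel

lemma M6_b (hi : i ≠ m) (hj : j ≠ m) (hij : i ≠ j) (F0 F1 g f : ℕ →₀ X.V) :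
    (X.M6 i j m).y m ((F0, F1, g, f) : P4 X.V) - (X.M6 i j m).x m ((F0, F1, g, f) : P4 X.V) =
      ((cw (X.y j + X.y i) F0 - sh (k := k) F0 + cw (X.y j * X.y i) F1,
        - sh (k := k) F1 - F0,
        cw (X.y i) (g + Cc (k := k) (ev (X.y j) F1)) -
          sh (k := k) (g + Cc (k := k) (ev (X.y j) F1)),
        0) : P4 X.V) := by
  have hx := M6_xm X hi hj hij F0 F1 g f
  obtain ⟨f0, f1, rfl, rfl⟩ := t6a_surj (X.y i) g f
  have hc := X.hyy j i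
  have hy : (X.M6 i j m).y m ((F0, F1, f0 + sh (k := k) f1,
      Dq (X.y i) f0 + cw (X.y i) (Dq (X.y i) f1)) : P4 X.V) =
      ((cw (X.y i) F0 + cw (X.y j) F0 + cw (X.y i) (cw (X.y j) F1), -F0,
        (cw (X.y i) f0 + (sh (k := k) f0 + Cc (k := k) (ev (X.y j) F0)) +
          cw (X.y i) (sh (k := k) f1 + Cc (k := k) (ev (X.y j) F1))) + sh (k := k) (-f0),
        Dq (X.y i) (cw (X.y i) f0 + (sh (k := k) f0 + Cc (k := k) (ev (X.y j) F0)) +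
          cw (X.y i) (sh (k := k) f1 + Cc (k := k) (ev (X.y j) F1))) +
          cw (X.y i) (Dq (X.y i) (-f0))) : P4 X.V) := by
    refine (t6a_key (e6 (X.y i)) (((X.M5 j m).E i m).y m) ((F0, f0), (F1, f1))
      (((cw (X.y i) F0 + cw (X.y j) F0 + cw (X.y i) (cw (X.y j) F1),
          cw (X.y i) f0 + (sh (k := k) f0 + Cc (k := k) (ev (X.y j) F0)) +
          cw (X.y i) (sh (k := k) f1 + Cc (k := k) (ev (X.y j) F1))),
        (-F0, -f0)) :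
      ((ℕ →₀ X.V) × (ℕ →₀ X.V)) × ((ℕ →₀ X.V) × (ℕ →₀ X.V)))
      (by
        refine (t6a_yEm (X.M5 j m) hi (F0, f0) (F1, f1)).trans ?_
        rw [M5_ym X hj, M5_ym X hj, M5_y X hij hi, M5_y X hij hi]
        rfl)).trans ?_
    exact t6a_e6 _ _ _ _ _
  rw [hx, hy]
  refine Prod.ext ?_ (Prod.ext ?_ (Prod.ext ?_ ?_))
  · show cw (X.y i) F0 + cw (X.y j) F0 + cw (X.y i) (cw (X.y j) F1) - sh (k := k) F0 =
      cw (X.y j + X.y i) F0 - sh (k := k) F0 + cw (X.y j * X.y i) F1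
    rw [t6a_cw_add, cw_cw, hc.eq]
    abel
  · show -F0 - sh (k := k) F1 = - sh (k := k) F1 - F0
    abel
  · show ((cw (X.y i) f0 + (sh (k := k) f0 + Cc (k := k) (ev (X.y j) F0)) +
          cw (X.y i) (sh (k := k) f1 + Cc (k := k) (ev (X.y j) F1))) + sh (k := k) (-f0)) -
        (sh (k := k) (f0 + sh (k := k) f1) + Cc (k := k) (ev (X.y j) F0) +
          sh (k := k) (Cc (k := k) (ev (X.y j) F1))) =
        cw (X.y i) ((f0 + sh (k := k) f1) + Cc (k := k) (ev (X.y j) F1)) -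
          sh (k := k) ((f0 + sh (k := k) f1) + Cc (k := k) (ev (X.y j) F1))
    simp only [map_add, map_neg]
    abel
  · show (Dq (X.y i) (cw (X.y i) f0 + (sh (k := k) f0 + Cc (k := k) (ev (X.y j) F0)) +
          cw (X.y i) (sh (k := k) f1 + Cc (k := k) (ev (X.y j) F1))) +
          cw (X.y i) (Dq (X.y i) (-f0))) -
        (sh (k := k) (Dq (X.y i) f0 + cw (X.y i) (Dq (X.y i) f1)) +
          Cc (k := k) (ev (X.y i) (f0 + sh (k := k) f1))) = 0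
    have he : ∀ q : ℕ →₀ X.V, ev (X.y i) (cw (X.y i) q) = X.y i (ev (X.y i) q) :=
      fun q => ev_cw (fun _ => rfl) q
    simp only [map_add, map_neg, t6a_Dq_cw (Commute.refl (X.y i)), Dq_Cc, Dq_sh, ev_sh, he,
      t6a_cw_sh, cw_Cc]
    abel

lemma M6_y {l : ℕ} (hl : l ≠ i) (hl' : l ≠ j) (hl'' : l ≠ m) (F0 F1 g f : ℕ →₀ X.V) :
    (X.M6 i j m).y l ((F0, F1, g, f) : P4 X.V) =
      ((cw (X.y l) F0, cw (X.y l) F1, cw (X.y l) g, cw (X.y l) f) : P4 X.V) := by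
  obtain ⟨f0, f1, rfl, rfl⟩ := t6a_surj (X.y i) g f
  refine (t6a_key (e6 (X.y i)) (((X.M5 j m).E i m).y l) ((F0, f0), (F1, f1))
      (((cw (X.y l) F0, cw (X.y l) f0), (cw (X.y l) F1, cw (X.y l) f1)) :
      ((ℕ →₀ X.V) × (ℕ →₀ X.V)) × ((ℕ →₀ X.V) × (ℕ →₀ X.V)))
      (by
      refine (t6a_yEl (X.M5 j m) hl hl'' (F0, f0) (F1, f1)).trans ?_
      rw [M5_y X hl' hl'', M5_y X hl' hl'']
      rfl)).trans ?_
  have hc := X.hyy l i
  refine (t6a_e6 _ _ _ _ _).trans ?_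
  rw [t6a_Dq_cw hc, t6a_Dq_cw hc, t6a_cw_comm hc.symm, map_add, map_add, t6a_cw_sh]

lemma M6_x {l : ℕ} (hl : l ≠ m) (F0 F1 g f : ℕ →₀ X.V) :
    (X.M6 i j m).x l ((F0, F1, g, f) : P4 X.V) =
      ((cw (X.x l) F0, cw (X.x l) F1, cw (X.x l) g, cw (X.x l) f) : P4 X.V) := by
  obtain ⟨f0, f1, rfl, rfl⟩ := t6a_surj (X.y i) g f
  refine (t6a_key (e6 (X.y i)) (((X.M5 j m).E i m).x l) ((F0, f0), (F1, f1))
      (((cw (X.x l) F0, cw (X.x l) f0), (cw (X.x l) F1, cw (X.x l) f1)) :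
      ((ℕ →₀ X.V) × (ℕ →₀ X.V)) × ((ℕ →₀ X.V) × (ℕ →₀ X.V)))
      (Prod.ext (M5_x X (j := j) (m := m) hl F0 f0) (M5_x X (j := j) (m := m) hl F1 f1))).trans ?_
  have hc := X.hxy l i
  refine (t6a_e6 _ _ _ _ _).trans ?_
  rw [t6a_Dq_cw hc, t6a_Dq_cw hc, t6a_cw_comm hc.symm, map_add, map_add, t6a_cw_sh]

lemma M6_d (F0 F1 g f : ℕ →₀ X.V) :
    (X.M6 i j m).d ((F0, F1, g, f) : P4 X.V) =
      ((cw X.d F0, cw X.d F1, cw X.d g, cw X.d f) : P4 X.V) := by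
  obtain ⟨f0, f1, rfl, rfl⟩ := t6a_surj (X.y i) g f
  refine (t6a_key (e6 (X.y i)) (((X.M5 j m).E i m).d) ((F0, f0), (F1, f1))
      (((cw X.d F0, cw X.d f0), (cw X.d F1, cw X.d f1)) :
      ((ℕ →₀ X.V) × (ℕ →₀ X.V)) × ((ℕ →₀ X.V) × (ℕ →₀ X.V)))
      (Prod.ext (M5_d X (j := j) (m := m) F0 f0) (M5_d X (j := j) (m := m) F1 f1))).trans ?_
  have hc := X.hdy i
  refine (t6a_e6 _ _ _ _ _).trans ?_
  rw [t6a_Dq_cw hc, t6a_Dq_cw hc, t6a_cw_comm hc.symm, map_add, map_add, t6a_cw_sh]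

lemma M6_T (F0 F1 g f : ℕ →₀ X.V) :
    (X.M6 i j m).T ((F0, F1, g, f) : P4 X.V) =
      ((lam⁻¹ • lam⁻¹ • wt (lam ^ 2) (cw X.T F0), wt (lam ^ 2) (cw X.T F1),
        wt (lam ^ 2) (cw X.T g), lam ^ 2 • wt (lam ^ 2) (cw X.T f)) : P4 X.V) := by
  have hl := X.ne
  obtain ⟨f0, f1, rfl, rfl⟩ := t6a_surj (X.y i) g f
  refine (t6a_key (e6 (X.y i)) (((X.M5 j m).E i m).T) ((F0, f0), (F1, f1))
      (((lam⁻¹ • lam⁻¹ • wt (lam ^ 2) (cw X.T F0), lam⁻¹ • lam • wt (lam ^ 2) (cw X.T f0)),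
      (lam • lam⁻¹ • wt (lam ^ 2) (cw X.T F1), lam • lam • wt (lam ^ 2) (cw X.T f1))) :
      ((ℕ →₀ X.V) × (ℕ →₀ X.V)) × ((ℕ →₀ X.V) × (ℕ →₀ X.V)))
      (by
      refine Prod.ext ?_ ?_
      · exact congrArg (fun z : (ℕ →₀ X.V) × (ℕ →₀ X.V) => lam⁻¹ • z) (M5_T X (j := j) (m := m) F0 f0)
      · exact congrArg (fun z : (ℕ →₀ X.V) × (ℕ →₀ X.V) => lam • z) (M5_T X (j := j) (m := m) F1 f1))).trans ?_
  refine (t6a_e6 _ _ _ _ _).trans ?_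
  have h1 : ∀ z : ℕ →₀ X.V, lam⁻¹ • lam • z = z := fun z => by
    rw [smul_smul, inv_mul_cancel₀ hl, one_smul]
  have h2 : ∀ z : ℕ →₀ X.V, lam • lam⁻¹ • z = z := fun z => by
    rw [smul_smul, mul_inv_cancel₀ hl, one_smul]
  have h3 : ∀ z : ℕ →₀ X.V, lam • lam • z = lam ^ 2 • z := fun z => by
    rw [smul_smul, pow_two]
  have hsh : ∀ z : ℕ →₀ X.V, wt (lam ^ 2) (cw X.T (sh (k := k) z)) =
      lam ^ 2 • sh (k := k) (wt (lam ^ 2) (cw X.T z)) := fun z => by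
    rw [t6a_cw_sh, wt_sh']
  have hcw : ∀ z : ℕ →₀ X.V, wt (lam ^ 2) (cw X.T (cw (X.y i) z)) =
      lam ^ 2 • cw (X.y i) (wt (lam ^ 2) (cw X.T z)) := fun z => by
    rw [cw_cw, X.hTy, cw_smul, LinearMap.smul_apply, map_smul, ← cw_cw, wt_cw']
  refine Prod.ext rfl (Prod.ext ?_ (Prod.ext ?_ ?_))
  · show lam • lam⁻¹ • wt (lam ^ 2) (cw X.T F1) = wt (lam ^ 2) (cw X.T F1)
    rw [h2]
  · show lam⁻¹ • lam • wt (lam ^ 2) (cw X.T f0) +
      sh (k := k) (lam • lam • wt (lam ^ 2) (cw X.T f1)) =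
      wt (lam ^ 2) (cw X.T (f0 + sh (k := k) f1))
    rw [h1, h3, map_add, map_add, hsh, map_smul]
  · show Dq (X.y i) (lam⁻¹ • lam • wt (lam ^ 2) (cw X.T f0)) +
      cw (X.y i) (Dq (X.y i) (lam • lam • wt (lam ^ 2) (cw X.T f1))) =
      lam ^ 2 • wt (lam ^ 2) (cw X.T (Dq (X.y i) f0 + cw (X.y i) (Dq (X.y i) f1)))
    rw [h1, h3, map_smul, map_smul, Dq_wt (X.hTy i), Dq_wt (X.hTy i), map_add, map_add, hcw,
      map_smul, smul_add]

end ZM
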