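import Pool.Agent.H75.ZM.T6a

/-!
# The operator `A = hn n (y m) (x m)` on `X.M6 i j m` (row ZM T6b)

Let `a = X.y j`, `b = X.y i`, `Z = X.M6 i j m`, `z = (F0, F1, g, f)`,
`eps z = F0(a) + b F1(a)`, `mu z = g(b)`, and
`nu z = Cc (eps z) + (u - a) Cc (mu z) + (u - a) (u - b) f`.
(1) `nu (x m z) = u nu z`: by `M6_xm`, `eps (x m z) = a eps z`,
`mu (x m z) = b mu z + eps z` (`ev_sh`, `ev_Cc`), the last component is `u f + Cc (mu z)`; so
`nu (x m z) = Cc (a eps) + (u - a) Cc (b mu + eps) + (u - a)(u - b)(u f + Cc mu)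
= Cc (a eps) + (u - a) Cc eps + (u - a) [Cc (b mu) + (u - b) Cc mu] + u (u - a)(u - b) f
= u Cc eps + (u - a) u Cc mu + u (u - a)(u - b) f`.
(2) `nu ((y m - x m) z) = 0`: by `M6_b`, `eps` becomes
`(a+b) F0(a) - a F0(a) + a b F1(a) + b (- a F1(a) - F0(a)) = 0`, `mu` becomes
`b (..) - b (..) = 0`, the last component is `0`.
So `nu (A z) = hn n sh sh (nu z) = (n + 1) u ^ n nu z`.
(3) `Dq b (Dq a (nu z)) =` last component of `z` (`Dq_Cc`, `Dq_sub`), and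
`Dq a (u ^ n (u - a) q) = u ^ n q`, so the last component of `A z` is
`(n + 1) (Dq b (Dq a (u ^ n Cc (eps z))) + Dq b (u ^ n Cc (mu z)) + u ^ n f)`.
(4) `A (0, 0, 0, f) = (0, 0, 0, (n + 1) u ^ n f)`: by `M6_xm`, `M6_b` both `y m` and `x m` map
`(0, 0, 0, f)` to `(0, 0, 0, u f)`.
-/

namespace ZM

variable {k : Type} [Field k] {lam : k} {n : ℕ}

/-- `F0(a) + b F1(a)`. -/
noncomputable def Ob.eps (X : Ob k lam n) (i j : ℕ) : P4 X.V →ₗ[k] X.V :=
  ev (X.y j) ∘ₗ LinearMap.fst k _ _ +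
    X.y i ∘ₗ ev (X.y j) ∘ₗ LinearMap.fst k _ _ ∘ₗ LinearMap.snd k _ _

/-- `g(b)`. -/
noncomputable def Ob.mu (X : Ob k lam n) (i : ℕ) : P4 X.V →ₗ[k] X.V :=
  ev (X.y i) ∘ₗ LinearMap.fst k _ _ ∘ₗ LinearMap.snd k _ _ ∘ₗ LinearMap.snd k _ _

/-- The last polynomial. -/
noncomputable def lst {V : Type} [AddCommGroup V] [Module k V] : P4 V →ₗ[k] (ℕ →₀ V) :=
  LinearMap.snd k _ _ ∘ₗ LinearMap.snd k _ _ ∘ₗ LinearMap.snd k _ _

section Aux

variable {V : Type} [AddCommGroup V] [Module k V]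

/-- Multiplication by `u - a`. -/
noncomputable def t6b_U (a : Module.End k V) : Module.End k (ℕ →₀ V) := sh (k := k) - cw a

lemma t6b_U_apply (a : Module.End k V) (p : ℕ →₀ V) :
    t6b_U a p = sh (k := k) p - cw a p := rfl

lemma t6b_sh_cw (a : Module.End k V) (p : ℕ →₀ V) :
    sh (k := k) (cw a p) = cw a (sh (k := k) p) :=
  (LinearMap.congr_fun (cw_sh a).eq p).symm

lemma t6b_U_sh (a : Module.End k V) (p : ℕ →₀ V) :
    t6b_U a (sh (k := k) p) = sh (k := k) (t6b_U a p) := by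
  rw [t6b_U_apply, t6b_U_apply, map_sub, t6b_sh_cw]

lemma t6b_U_shp (a : Module.End k V) (r : ℕ) (p : ℕ →₀ V) :
    t6b_U a (((sh (k := k)) ^ r) p) = ((sh (k := k)) ^ r) (t6b_U a p) := by
  induction r generalizing p with
  | zero => simp
  | succ r ih =>
    rw [pow_succ, Module.End.mul_apply, Module.End.mul_apply, ih, t6b_U_sh]

lemma t6b_Dq_U (a : Module.End k V) (p : ℕ →₀ V) : Dq a (t6b_U a p) = p := by
  rw [t6b_U_apply]
  exact Dq_sub a p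

lemma t6b_U_Cc (a : Module.End k V) (v : V) :
    t6b_U a (Cc (k := k) v) = sh (k := k) (Cc (k := k) v) - Cc (k := k) (a v) := by
  rw [t6b_U_apply, cw_Cc]

lemma t6b_hn (p : ℕ →₀ V) :
    hn n (sh (k := k) (V := V)) (sh (k := k) (V := V)) p =
      ((n : k) + 1) • ((sh (k := k)) ^ n) p := by
  have h : hn n (sh (k := k) (V := V)) (sh (k := k) (V := V)) =
      ((n : k) + 1) • ((sh (k := k) (V := V)) ^ n) := by
    unfold hn
    have h1 : ∀ i ∈ Finset.range (n + 1), (sh (k := k) (V := V)) ^ i *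
        (sh (k := k) (V := V)) ^ (n - i) = (sh (k := k) (V := V)) ^ n := by
      intro i hi
      rw [← pow_add, Nat.add_sub_cancel' (Nat.lt_succ_iff.mp (Finset.mem_range.mp hi))]
    rw [Finset.sum_congr rfl h1, Finset.sum_const, Finset.card_range]
    apply LinearMap.ext
    intro v
    rw [LinearMap.smul_apply, LinearMap.smul_apply, ← Nat.cast_smul_eq_nsmul k]
    push_cast
    rfl
  rw [h, LinearMap.smul_apply]

end Aux

section Aux2

variable (X : Ob k lam n) {i j m : ℕ}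

lemma t6b_eps (F0 F1 g f : ℕ →₀ X.V) :
    X.eps i j ((F0, F1, g, f) : P4 X.V) = ev (X.y j) F0 + X.y i (ev (X.y j) F1) := rfl

lemma t6b_mu (F0 F1 g f : ℕ →₀ X.V) :
    X.mu i ((F0, F1, g, f) : P4 X.V) = ev (X.y i) g := rfl

lemma t6b_lst (F0 F1 g f : ℕ →₀ X.V) :
    lst (k := k) ((F0, F1, g, f) : P4 X.V) = f := rfl

lemma t6b_yy (v : X.V) : X.y i (X.y j v) = X.y j (X.y i v) :=
  LinearMap.congr_fun (X.hyy i j).eq v

lemma t6b_eps_x (hi : i ≠ m) (hj : j ≠ m) (hij : i ≠ j) (z : P4 X.V) :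
    X.eps i j ((X.M6 i j m).x m z : P4 X.V) = X.y j (X.eps i j z) := by
  obtain ⟨F0, F1, g, f⟩ := z
  rw [M6_xm X hi hj hij, t6b_eps, t6b_eps, ev_sh, ev_sh, map_add, t6b_yy]

lemma t6b_mu_x (hi : i ≠ m) (hj : j ≠ m) (hij : i ≠ j) (z : P4 X.V) :
    X.mu i ((X.M6 i j m).x m z : P4 X.V) = X.y i (X.mu i z) + X.eps i j z := by
  obtain ⟨F0, F1, g, f⟩ := z
  rw [M6_xm X hi hj hij, t6b_mu, t6b_mu, t6b_eps, map_add, map_add, ev_sh, ev_sh, ev_Cc, ev_Cc,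
    add_assoc]

lemma t6b_lst_x (hi : i ≠ m) (hj : j ≠ m) (hij : i ≠ j) (z : P4 X.V) :
    lst (k := k) ((X.M6 i j m).x m z : P4 X.V) =
      sh (k := k) (lst (k := k) z) + Cc (k := k) (X.mu i z) := by
  obtain ⟨F0, F1, g, f⟩ := z
  rw [M6_xm X hi hj hij, t6b_lst, t6b_lst, t6b_mu]

/-- The combination `nu`. -/
noncomputable def t6b_nu (i j : ℕ) : P4 X.V →ₗ[k] (ℕ →₀ X.V) :=
  Cc ∘ₗ X.eps i j + t6b_U (X.y j) ∘ₗ Cc ∘ₗ X.mu i +
    t6b_U (X.y j) ∘ₗ t6b_U (X.y i) ∘ₗ lst (k := k)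

lemma t6b_nu_apply (z : P4 X.V) : t6b_nu X i j z =
    Cc (k := k) (X.eps i j z) + t6b_U (X.y j) (Cc (k := k) (X.mu i z)) +
      t6b_U (X.y j) (t6b_U (X.y i) (lst (k := k) z)) := rfl

lemma t6b_nu_x (hi : i ≠ m) (hj : j ≠ m) (hij : i ≠ j) (z : P4 X.V) :
    t6b_nu X i j ((X.M6 i j m).x m z : P4 X.V) = sh (k := k) (t6b_nu X i j z) := by
  rw [t6b_nu_apply, t6b_nu_apply, t6b_eps_x X hi hj hij, t6b_mu_x X hi hj hij,
    t6b_lst_x X hi hj hij]
  simp only [map_add, t6b_U_sh, t6b_U_Cc, map_sub]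
  abel

lemma t6b_b0 (hi : i ≠ m) (hj : j ≠ m) (hij : i ≠ j) (z : P4 X.V) :
    X.eps i j (((X.M6 i j m).y m z - (X.M6 i j m).x m z : (X.M6 i j m).V) : P4 X.V) = 0 ∧
      X.mu i (((X.M6 i j m).y m z - (X.M6 i j m).x m z : (X.M6 i j m).V) : P4 X.V) = 0 ∧
      lst (k := k) (((X.M6 i j m).y m z - (X.M6 i j m).x m z : (X.M6 i j m).V) : P4 X.V) = 0 := by
  obtain ⟨F0, F1, g, f⟩ := z
  have hb := M6_b X hi hj hij F0 F1 g f
  rw [hb]
  refine ⟨?_, ?_, rfl⟩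
  · rw [t6b_eps, map_add, map_sub, map_sub, map_neg, ev_sh, ev_sh,
      ev_cw (a := X.y j) (b := X.y j) (f := X.y j + X.y i) (fun v => by
        rw [LinearMap.add_apply, LinearMap.add_apply, map_add, t6b_yy X (i := i) (j := j)]),
      ev_cw (a := X.y j) (b := X.y j) (f := X.y j * X.y i) (fun v => by
        rw [Module.End.mul_apply, Module.End.mul_apply, t6b_yy X (i := i) (j := j)]),
      map_sub, map_neg, LinearMap.add_apply, Module.End.mul_apply, t6b_yy X (i := i) (j := j)]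
    abel
  · rw [t6b_mu, map_sub, ev_sh, ev_cw (a := X.y i) (b := X.y i) (f := X.y i) (fun v => rfl),
      sub_self]

lemma t6b_nu_y (hi : i ≠ m) (hj : j ≠ m) (hij : i ≠ j) (z : P4 X.V) :
    t6b_nu X i j ((X.M6 i j m).y m z : P4 X.V) = sh (k := k) (t6b_nu X i j z) := by
  obtain ⟨h1, h2, h3⟩ := t6b_b0 X hi hj hij z
  have h4 : t6b_nu X i j (((X.M6 i j m).y m z - (X.M6 i j m).x m z : (X.M6 i j m).V) : P4 X.V) =
      0 := by
    rw [t6b_nu_apply, h1, h2, h3]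
    simp only [map_zero, add_zero]
  have h5 : t6b_nu X i j (((X.M6 i j m).y m z - (X.M6 i j m).x m z : (X.M6 i j m).V) : P4 X.V) =
      t6b_nu X i j ((X.M6 i j m).y m z : P4 X.V) - t6b_nu X i j ((X.M6 i j m).x m z : P4 X.V) :=
    map_sub (t6b_nu X i j) _ _
  rw [h4, t6b_nu_x X hi hj hij] at h5
  exact (sub_eq_zero.mp h5.symm)

lemma t6b_nu_A (hi : i ≠ m) (hj : j ≠ m) (hij : i ≠ j) (z : P4 X.V) :
    t6b_nu X i j ((hn n ((X.M6 i j m).y m) ((X.M6 i j m).x m) : Module.End k (X.M6 i j m).V) z :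
      P4 X.V) = ((n : k) + 1) • ((sh (k := k)) ^ n) (t6b_nu X i j z) := by
  have h := hn_int (n := n) (k := k) (V := (X.M6 i j m).V) (W := ℕ →₀ X.V)
    (f := (t6b_nu X i j : P4 X.V →ₗ[k] (ℕ →₀ X.V)))
    (a := (X.M6 i j m).y m) (a' := (X.M6 i j m).x m) (b := sh (k := k)) (b' := sh (k := k))
    (fun v => t6b_nu_y X hi hj hij v) (fun v => t6b_nu_x X hi hj hij v) z
  rw [t6b_hn] at h
  exact h

lemma t6b_Dq_nu (z : P4 X.V) :
    Dq (X.y i) (Dq (X.y j) (t6b_nu X i j z)) = lst (k := k) z := by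
  rw [t6b_nu_apply]
  simp only [map_add, Dq_Cc, t6b_Dq_U, zero_add]

end Aux2

theorem M6_A (X : Ob k lam n) {i j m : ℕ} (hi : i ≠ m) (hj : j ≠ m) (hij : i ≠ j)
    (z : P4 X.V) :
    lst (k := k) ((hn n ((X.M6 i j m).y m) ((X.M6 i j m).x m) : Module.End k (X.M6 i j m).V) z :
      P4 X.V) =
      ((n : k) + 1) • (Dq (X.y i) (Dq (X.y j) (((sh (k := k)) ^ n) (Cc (k := k) (X.eps i j z)))) +
        Dq (X.y i) (((sh (k := k)) ^ n) (Cc (k := k) (X.mu i z))) +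
          ((sh (k := k)) ^ n) (lst (k := k) z)) := by
  have h1 := t6b_nu_A X hi hj hij z
  have h2 := t6b_Dq_nu X (i := i) (j := j)
    ((hn n ((X.M6 i j m).y m) ((X.M6 i j m).x m) : Module.End k (X.M6 i j m).V) z : P4 X.V)
  rw [h1] at h2
  refine h2.symm.trans ?_
  rw [t6b_nu_apply, map_smul, map_smul, map_add, map_add, ← t6b_U_shp, ← t6b_U_shp, map_add,
    map_add, t6b_Dq_U, t6b_Dq_U, map_add, map_add, ← t6b_U_shp, t6b_Dq_U]

theorem M6_A0 (X : Ob k lam n) {i j m : ℕ} (hi : i ≠ m) (hj : j ≠ m) (hij : i ≠ j)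
    (f : ℕ →₀ X.V) :
    ((hn n ((X.M6 i j m).y m) ((X.M6 i j m).x m) : Module.End k (X.M6 i j m).V)
      ((0, 0, 0, f) : P4 X.V) : P4 X.V) =
      (0, 0, 0, ((n : k) + 1) • ((sh (k := k)) ^ n) f) := by
  let inc : (ℕ →₀ X.V) →ₗ[k] P4 X.V :=
    { toFun := fun f => (0, 0, 0, f)
      map_add' := fun f g => by simp
      map_smul' := fun c f => by simp }
  have hx : ∀ f : ℕ →₀ X.V, inc (sh (k := k) f) = (X.M6 i j m).x m (inc f) := by
    intro f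
    refine Eq.trans ?_ (M6_xm X hi hj hij 0 0 0 f).symm
    simp [inc]
  have hy : ∀ f : ℕ →₀ X.V, inc (sh (k := k) f) = (X.M6 i j m).y m (inc f) := by
    intro f
    have hb := M6_b X hi hj hij 0 0 0 f
    have h0 : ((X.M6 i j m).y m ((0, 0, 0, f) : P4 X.V) -
        (X.M6 i j m).x m ((0, 0, 0, f) : P4 X.V) : (X.M6 i j m).V) = 0 := by
      refine hb.trans ?_
      simp only [map_zero, add_zero, sub_zero, neg_zero]
      rfl
    exact (hx f).trans (sub_eq_zero.mp h0).symm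
  have h := hn_int (n := n) (k := k) (V := ℕ →₀ X.V) (W := (X.M6 i j m).V) (f := inc)
    (a := sh (k := k)) (a' := sh (k := k)) (b := (X.M6 i j m).y m) (b' := (X.M6 i j m).x m)
    hy hx f
  rw [t6b_hn] at h
  exact h.symm

/-- `b = y m - x m` kills `eps`, `mu` and the last component. -/
theorem M6_b0 (X : Ob k lam n) {i j m : ℕ} (hi : i ≠ m) (hj : j ≠ m) (hij : i ≠ j)
    (z : P4 X.V) :
    X.eps i j (((X.M6 i j m).y m z - (X.M6 i j m).x m z : (X.M6 i j m).V) : P4 X.V) = 0 ∧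
      X.mu i (((X.M6 i j m).y m z - (X.M6 i j m).x m z : (X.M6 i j m).V) : P4 X.V) = 0 ∧
      lst (k := k) (((X.M6 i j m).y m z - (X.M6 i j m).x m z : (X.M6 i j m).V) : P4 X.V) = 0 := by
  exact t6b_b0 X hi hj hij z

end ZM
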