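import Pool.Agent.H75.ZM.T6b
import Pool.Agent.H75.ZM.Incl
import Pool.Agent.H75.ZM.Pw

/-!
# The splitting (row ZM T6c)

`C = T6C X i j m` is the closing of `X.M6 i j m` at `m` (with the labels `≥ m` forgotten); its
elements are `(z, z')` (even, odd), `z = (F0, F1, g, f)`, `z' = (F0', F1', g', f')`.
`K = T6K X i j`: `eps z = 0`, `mu z = 0`, `f'_i = 0` for `i < n`.

Stability of `K`: under `y l`, `x l` (`l < m`) by `M6_y`, ... (`eps (y j z) = a eps z`,
`eps (y i z) = - a b F1(a) + b F0(a) + b (a + b) F1(a) = b eps z`,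
`mu (y j z) = a mu z`, `mu (y i z) = b mu z + (b - b) F1(a) = b mu z`); under `d`: even part
`d z + (y m - x m) z'` (`M6_b0`), odd part `A z - d z'` whose last component has vanishing
coefficients below `n` by `M6_A`; under `T`: `ev_wt`.

`T6_inj`: let `Q = X.pw (n-2) (lam * (lam⁻¹) ^ (n-2))`, `s : Q → C`,
`s v = (0, (0, 0, 0, sum v_i u^i))`; it is a morphism (labels `< m`; `y i`, `y j` act on
`(0, 0, 0, f)` by `b`, `a`; weights `lam ^ 2 * (lam * (lam⁻¹) ^ n) = lam * (lam⁻¹) ^ (n-2)`).  The map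
`(kk, v) ↦ kk + s v` from `(T6Y ..).sum Q` to `C` is an injective morphism.  Its range `R` satisfies
`Ctr R ⊤` with
`h (z, z') = ((n+1)⁻¹ (Cc v0, 0, Cc v1, 0), 0)`, `v1 = f'_{n-1}`, `v0 = f'_{n-2} - b f'_{n-1}`:
* `h` kills the odd parts of `K` and of `s Q`.
* `d h + h d - 1` on `(z, z')`.  Even part: `h` of the odd part `A z - d z'`; by `M6_A`,
`Dq_shp_Cc`, `Dq_Dq_shp_Cc` the coefficients of `lst (A z)` are, at `n-1`: `(n+1) mu z`, at `n-2`:
`(n+1) (b mu z + eps z)`, so the even part is `(Cc (eps z), 0, Cc (mu z), 0) - z` (the terms with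
`d` cancel), whose `eps` and `mu` vanish.  Odd part: `A (h ..) - z'`, whose last component has for
`i < n` the coefficient `hn (n-2-i) a b v0 + a-free term b^(n-1-i) v1 - f'_i`, which is `0` for
`i = n-1, n-2`; subtracting a suitable `s v` (`v_i` minus these coefficients) one gets an element
of `K`.
* Commutators with `y j`: `(Cc (a v0) - u Cc v0, 0, 0, 0)`, `eps = 0`; with `y i`:
`(Cc (b v0), - Cc v0, Cc (b v1) - u Cc v1, 0)` (up to the factor), `eps = b v0 - b v0 = 0`, `mu = 0`;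
with the others `0`.
-/

namespace ZM

variable {k : Type} [Field k] {lam : k} {n : ℕ}

/-- The closing of `X.M6 i j m` at `m`. -/
noncomputable def T6C (X : Ob k lam n) (i j m : ℕ) : Ob k lam n :=
  ((X.M6 i j m).cl m m).cut m

/-- The subspace `K`. -/
noncomputable def T6K (X : Ob k lam n) (i j : ℕ) : Submodule k (P4 X.V × P4 X.V) where
  carrier := {z | X.eps i j z.1 = 0 ∧ X.mu i z.1 = 0 ∧ ∀ l < n, lst (k := k) z.2 l = 0}
  add_mem' := by
    rintro z w ⟨h1, h2, h3⟩ ⟨h1', h2', h3'⟩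
    refine ⟨?_, ?_, fun l hl => ?_⟩
    · rw [Prod.fst_add, map_add, h1, h1', add_zero]
    · rw [Prod.fst_add, map_add, h2, h2', add_zero]
    · rw [Prod.snd_add, map_add, Finsupp.add_apply, h3 l hl, h3' l hl, add_zero]
  zero_mem' := by
    refine ⟨?_, ?_, fun l _ => ?_⟩ <;> simp
  smul_mem' := by
    rintro c z ⟨h1, h2, h3⟩
    refine ⟨?_, ?_, fun l hl => ?_⟩
    · rw [Prod.smul_fst, map_smul, h1, smul_zero]
    · rw [Prod.smul_fst, map_smul, h2, smul_zero]
    · rw [Prod.smul_snd, map_smul, Finsupp.smul_apply, h3 l hl, smul_zero]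

variable (X : Ob k lam n) {i j m : ℕ}

/-- the operators of `X.M6 i j m`, on `P4 X.V` -/
private noncomputable def t6c_Y (X : Ob k lam n) (i j m l : ℕ) : Module.End k (P4 X.V) :=
  (X.M6 i j m).y l

private noncomputable def t6c_X (X : Ob k lam n) (i j m l : ℕ) : Module.End k (P4 X.V) :=
  (X.M6 i j m).x l

private noncomputable def t6c_D (X : Ob k lam n) (i j m : ℕ) : Module.End k (P4 X.V) :=
  (X.M6 i j m).d

private noncomputable def t6c_W (X : Ob k lam n) (i j m : ℕ) : Module.End k (P4 X.V) :=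
  (X.M6 i j m).T

private noncomputable def t6c_H (X : Ob k lam n) (i j m : ℕ) : Module.End k (P4 X.V) :=
  (hn n ((X.M6 i j m).y m) ((X.M6 i j m).x m) : Module.End k (X.M6 i j m).V)

private lemma t6c_eps (z : P4 X.V) :
    X.eps i j z = ev (X.y j) z.1 + X.y i (ev (X.y j) z.2.1) := rfl

private lemma t6c_mu (z : P4 X.V) : X.mu i z = ev (X.y i) z.2.2.1 := rfl

private lemma t6c_lst (z : P4 X.V) : lst (k := k) z = z.2.2.2 := rfl

private lemma t6c_cwev {f g : Module.End k X.V} (h : Commute f g) (p : ℕ →₀ X.V) :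
    ev g (cw f p) = f (ev g p) :=
  ev_cw (fun v => LinearMap.congr_fun h.eq v) p

private lemma t6c_cw {f : Module.End k X.V} (hb : Commute f (X.y i)) (ha : Commute f (X.y j))
    (F0 F1 g h : ℕ →₀ X.V) :
    X.eps i j ((cw f F0, cw f F1, cw f g, cw f h) : P4 X.V) = f (X.eps i j ((F0, F1, g, h) : P4 X.V)) ∧
      X.mu i ((cw f F0, cw f F1, cw f g, cw f h) : P4 X.V) = f (X.mu i ((F0, F1, g, h) : P4 X.V)) ∧
      lst (k := k) ((cw f F0, cw f F1, cw f g, cw f h) : P4 X.V) =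
        cw f (lst (k := k) ((F0, F1, g, h) : P4 X.V)) := by
  refine ⟨?_, ?_, rfl⟩
  · rw [t6c_eps, t6c_eps, t6c_cwev X ha, t6c_cwev X ha, map_add]
    congr 1
    exact (LinearMap.congr_fun hb.eq (ev (X.y j) F1)).symm
  · rw [t6c_mu, t6c_mu]
    exact t6c_cwev X hb g

private lemma t6c_y (hi : i ≠ m) (hj : j ≠ m) (hij : i ≠ j) {l : ℕ} (hl : l ≠ m) (z : P4 X.V) :
    X.eps i j (t6c_Y X i j m l z) = X.y l (X.eps i j z) ∧
      X.mu i (t6c_Y X i j m l z) = X.y l (X.mu i z) ∧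
      lst (k := k) (t6c_Y X i j m l z) =
        cw (X.y l) (lst (k := k) z) := by
  obtain ⟨F0, F1, g, f⟩ := z
  have hba : ∀ v, X.y i (X.y j v) = X.y j (X.y i v) := fun v =>
    LinearMap.congr_fun (X.hyy i j).eq v
  by_cases hlj : l = j
  · rw [hlj]
    have e := M6_yj X hi hj hij F0 F1 g f
    refine ⟨(congrArg (X.eps i j) e).trans ?_, (congrArg (X.mu i) e).trans ?_,
      (congrArg (lst (k := k)) e).trans rfl⟩
    · rw [t6c_eps, t6c_eps, map_add, ev_sh, ev_sh, hba]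
    · rw [t6c_mu, t6c_mu]
      exact t6c_cwev X (X.hyy j i) g
  · by_cases hli : l = i
    · rw [hli]
      have e := M6_yi X hi hj hij F0 F1 g f
      refine ⟨(congrArg (X.eps i j) e).trans ?_, (congrArg (X.mu i) e).trans ?_,
        (congrArg (lst (k := k)) e).trans rfl⟩
      · have e1 : ev (X.y j) (cw (X.y j * X.y i) F1) = (X.y j * X.y i) (ev (X.y j) F1) :=
          t6c_cwev X ((Commute.refl (X.y j)).mul_left (X.hyy i j)) F1
        have e2 : ev (X.y j) (cw (X.y j + X.y i) F1) = (X.y j + X.y i) (ev (X.y j) F1) :=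
          t6c_cwev X ((Commute.refl (X.y j)).add_left (X.hyy i j)) F1
        show ev (X.y j) (- cw (X.y j * X.y i) F1) +
          X.y i (ev (X.y j) (F0 + cw (X.y j + X.y i) F1)) =
          X.y i (ev (X.y j) F0 + X.y i (ev (X.y j) F1))
        simp only [map_neg, e1, map_add, e2, Module.End.mul_apply, LinearMap.add_apply, hba]
        abel
      · show ev (X.y i) (sh (k := k) g + sh (k := k) (Cc (k := k) (ev (X.y j) F1)) -
          cw (X.y i) (Cc (k := k) (ev (X.y j) F1))) = X.y i (ev (X.y i) g)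
        rw [map_sub, map_add, ev_sh, ev_sh, ev_Cc, t6c_cwev X (Commute.refl (X.y i)), ev_Cc]
        abel
    · have e := M6_y X hli hlj hl F0 F1 g f
      have h := t6c_cw X (X.hyy l i) (X.hyy l j) F0 F1 g f
      exact ⟨(congrArg (X.eps i j) e).trans h.1, (congrArg (X.mu i) e).trans h.2.1,
        (congrArg (lst (k := k)) e).trans h.2.2⟩

private lemma t6c_x {l : ℕ} (hl : l ≠ m) (z : P4 X.V) :
    X.eps i j (t6c_X X i j m l z) = X.x l (X.eps i j z) ∧
      X.mu i (t6c_X X i j m l z) = X.x l (X.mu i z) ∧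
      lst (k := k) (t6c_X X i j m l z) =
        cw (X.x l) (lst (k := k) z) := by
  obtain ⟨F0, F1, g, f⟩ := z
  have e := M6_x X hl F0 F1 g f (i := i) (j := j)
  have h := t6c_cw X (X.hxy l i) (X.hxy l j) F0 F1 g f
  exact ⟨(congrArg (X.eps i j) e).trans h.1, (congrArg (X.mu i) e).trans h.2.1,
    (congrArg (lst (k := k)) e).trans h.2.2⟩

private lemma t6c_d (z : P4 X.V) :
    X.eps i j (t6c_D X i j m z) = X.d (X.eps i j z) ∧
      X.mu i (t6c_D X i j m z) = X.d (X.mu i z) ∧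
      lst (k := k) (t6c_D X i j m z) =
        cw X.d (lst (k := k) z) := by
  obtain ⟨F0, F1, g, f⟩ := z
  have e := M6_d X F0 F1 g f (i := i) (j := j) (m := m)
  have h := t6c_cw X (X.hdy i) (X.hdy j) F0 F1 g f
  exact ⟨(congrArg (X.eps i j) e).trans h.1, (congrArg (X.mu i) e).trans h.2.1,
    (congrArg (lst (k := k)) e).trans h.2.2⟩

private lemma t6c_T (z : P4 X.V) :
    X.eps i j (t6c_W X i j m z) =
      lam⁻¹ • lam⁻¹ • X.T (X.eps i j z) ∧
      X.mu i (t6c_W X i j m z) = X.T (X.mu i z) ∧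
      lst (k := k) (t6c_W X i j m z) =
        lam ^ 2 • wt (lam ^ 2) (cw X.T (lst (k := k) z)) := by
  obtain ⟨F0, F1, g, f⟩ := z
  have e := M6_T X F0 F1 g f (i := i) (j := j) (m := m)
  refine ⟨(congrArg (X.eps i j) e).trans ?_, (congrArg (X.mu i) e).trans ?_,
    (congrArg (lst (k := k)) e).trans rfl⟩
  · have h := LinearMap.congr_fun (X.hTy i) (ev (X.y j) F1)
    rw [Module.End.mul_apply, LinearMap.smul_apply, Module.End.mul_apply] at h
    show ev (X.y j) (lam⁻¹ • lam⁻¹ • wt (lam ^ 2) (cw X.T F0)) +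
      X.y i (ev (X.y j) (wt (lam ^ 2) (cw X.T F1))) =
      lam⁻¹ • lam⁻¹ • X.T (ev (X.y j) F0 + X.y i (ev (X.y j) F1))
    have hl := X.ne
    have e1 : lam⁻¹ * (lam⁻¹ * lam ^ 2) = 1 := by
      field_simp
    rw [map_smul, map_smul, ev_wt (X.hTy j), ev_wt (X.hTy j), map_add, h, smul_add, smul_add,
      smul_smul lam⁻¹ (lam ^ 2), smul_smul lam⁻¹ (lam⁻¹ * lam ^ 2), e1, one_smul]
  · exact ev_wt (X.hTy i) g

lemma T6K_y (hi : i < m) (hj : j < m) (hij : i ≠ j) :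
    ∀ l, ∀ v ∈ T6K X i j, (T6C X i j m).y l v ∈ T6K X i j := by
  intro l v hv
  obtain ⟨h1, h2, h3⟩ := hv
  by_cases hl : l < m
  · have e : (T6C X i j m).y l v = (t6c_Y X i j m l v.1, t6c_Y X i j m l v.2) := by
      show (if l < m then ((X.M6 i j m).cl m m).y l else 0) v = _
      rw [if_pos hl]
      rfl
    rw [e]
    have ha := t6c_y X (Nat.ne_of_lt hi) (Nat.ne_of_lt hj) hij (Nat.ne_of_lt hl) v.1
    have hb := t6c_y X (Nat.ne_of_lt hi) (Nat.ne_of_lt hj) hij (Nat.ne_of_lt hl) v.2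
    refine ⟨?_, ?_, fun t ht => ?_⟩
    · exact ha.1.trans (by rw [h1, map_zero])
    · exact ha.2.1.trans (by rw [h2, map_zero])
    · refine (DFunLike.congr_fun hb.2.2 t).trans ?_
      rw [cw_coeff, h3 t ht, map_zero]
  · have e : (T6C X i j m).y l v = 0 := by
      show (if l < m then ((X.M6 i j m).cl m m).y l else 0) v = 0
      rw [if_neg hl]
      rfl
    rw [e]
    exact (T6K X i j).zero_mem

lemma T6K_x (hi : i < m) (hj : j < m) (hij : i ≠ j) :
    ∀ l, ∀ v ∈ T6K X i j, (T6C X i j m).x l v ∈ T6K X i j := by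
  intro l v hv
  obtain ⟨h1, h2, h3⟩ := hv
  by_cases hl : l < m
  · have e : (T6C X i j m).x l v = (t6c_X X i j m l v.1, t6c_X X i j m l v.2) := by
      show (if l < m then ((X.M6 i j m).cl m m).x l else 0) v = _
      rw [if_pos hl]
      rfl
    rw [e]
    have ha := t6c_x X (i := i) (j := j) (Nat.ne_of_lt hl) v.1
    have hb := t6c_x X (i := i) (j := j) (Nat.ne_of_lt hl) v.2
    refine ⟨?_, ?_, fun t ht => ?_⟩
    · exact ha.1.trans (by rw [h1, map_zero])
    · exact ha.2.1.trans (by rw [h2, map_zero])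
    · refine (DFunLike.congr_fun hb.2.2 t).trans ?_
      rw [cw_coeff, h3 t ht, map_zero]
  · have e : (T6C X i j m).x l v = 0 := by
      show (if l < m then ((X.M6 i j m).cl m m).x l else 0) v = 0
      rw [if_neg hl]
      rfl
    rw [e]
    exact (T6K X i j).zero_mem

private lemma t6c_Cd (v : P4 X.V × P4 X.V) : (T6C X i j m).d v =
    (t6c_D X i j m v.1 + (t6c_Y X i j m m v.2 - t6c_X X i j m m v.2),
      t6c_H X i j m v.1 - t6c_D X i j m v.2) := by
  refine Prod.ext rfl ?_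
  exact (sub_eq_add_neg (t6c_H X i j m v.1) (t6c_D X i j m v.2)).symm

/-- coefficients of the last component of `A z` -/
private lemma t6c_A (hi : i ≠ m) (hj : j ≠ m) (hij : i ≠ j) (z : P4 X.V) (t : ℕ) :
    lst (k := k) (t6c_H X i j m z) t =
      ((n : k) + 1) • ((if t + 2 ≤ n then hn (n - 2 - t) (X.y j) (X.y i) (X.eps i j z) else 0) +
        (if t < n then (X.y i ^ (n - 1 - t)) (X.mu i z) else 0) +
          (if n ≤ t then (lst (k := k) z) (t - n) else 0)) := by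
  refine (DFunLike.congr_fun (M6_A X hi hj hij z) t).trans ?_
  rw [Finsupp.smul_apply, Finsupp.add_apply, Finsupp.add_apply, Dq_Dq_shp_Cc (X.hyy j i),
    Dq_shp_Cc, shp_coeff]

private lemma t6c_b0 (hi : i ≠ m) (hj : j ≠ m) (hij : i ≠ j) (z : P4 X.V) :
    X.eps i j (t6c_Y X i j m m z - t6c_X X i j m m z) = 0 ∧
      X.mu i (t6c_Y X i j m m z - t6c_X X i j m m z) = 0 ∧
      lst (k := k) (t6c_Y X i j m m z - t6c_X X i j m m z) = 0 := M6_b0 X hi hj hij z

lemma T6K_d (hi : i < m) (hj : j < m) (hij : i ≠ j) :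
    ∀ v ∈ T6K X i j, (T6C X i j m).d v ∈ T6K X i j := by
  intro v hv
  obtain ⟨h1, h2, h3⟩ := hv
  have hb := t6c_b0 X (Nat.ne_of_lt hi) (Nat.ne_of_lt hj) hij v.2
  have hd := t6c_d X (i := i) (j := j) (m := m) v.1
  have hd2 := t6c_d X (i := i) (j := j) (m := m) v.2
  rw [t6c_Cd]
  refine ⟨?_, ?_, fun t ht => ?_⟩
  · refine (map_add (X.eps i j) _ _).trans ?_
    rw [hd.1, hb.1, h1, map_zero, add_zero]
  · refine (map_add (X.mu i) _ _).trans ?_
    rw [hd.2.1, hb.2.1, h2, map_zero, add_zero]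
  · refine (DFunLike.congr_fun (map_sub (lst (k := k) (V := X.V)) (t6c_H X i j m v.1)
      (t6c_D X i j m v.2)) t).trans ?_
    rw [Finsupp.sub_apply, t6c_A X (Nat.ne_of_lt hi) (Nat.ne_of_lt hj) hij, h1, h2, hd2.2.2,
      cw_coeff, h3 t ht, map_zero, map_zero, map_zero, if_neg (Nat.not_le.2 ht)]
    simp

lemma T6K_T (hi : i < m) (hj : j < m) (hij : i ≠ j) :
    ∀ v ∈ T6K X i j, (T6C X i j m).T v ∈ T6K X i j := by
  intro v hv
  obtain ⟨h1, h2, h3⟩ := hv
  have ha := t6c_T X (i := i) (j := j) (m := m) v.1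
  have hb := t6c_T X (i := i) (j := j) (m := m) v.2
  refine ⟨?_, ?_, fun t ht => ?_⟩
  · exact ha.1.trans (by rw [h1, map_zero, smul_zero, smul_zero])
  · exact ha.2.1.trans (by rw [h2, map_zero])
  · have e : lst (k := k) ((T6C X i j m).T v).2 =
        (lam * (lam⁻¹) ^ n) • lst (k := k) (t6c_W X i j m v.2) :=
      map_smul (lst (k := k) (V := X.V)) (lam * (lam⁻¹) ^ n) (t6c_W X i j m v.2)
    rw [e, hb.2.2, Finsupp.smul_apply, Finsupp.smul_apply, wt_coeff, cw_coeff, h3 t ht, map_zero,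
      smul_zero, smul_zero, smul_zero]

/-- The sub-object `K`. -/
noncomputable def T6Y (hi : i < m) (hj : j < m) (hij : i ≠ j) : Ob k lam n :=
  (T6C X i j m).sub (T6K X i j) (T6K_y X hi hj hij) (T6K_x X hi hj hij) (T6K_d X hi hj hij)
    (T6K_T X hi hj hij)

private lemma t6c_Cy {l : ℕ} (hl : l < m) (v : P4 X.V × P4 X.V) :
    (T6C X i j m).y l v = (t6c_Y X i j m l v.1, t6c_Y X i j m l v.2) := by
  show (if l < m then ((X.M6 i j m).cl m m).y l else 0) v = _
  rw [if_pos hl]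
  rfl

private lemma t6c_Cx {l : ℕ} (hl : l < m) (v : P4 X.V × P4 X.V) :
    (T6C X i j m).x l v = (t6c_X X i j m l v.1, t6c_X X i j m l v.2) := by
  show (if l < m then ((X.M6 i j m).cl m m).x l else 0) v = _
  rw [if_pos hl]
  rfl

/-- a vector of coefficients as a polynomial -/
private noncomputable def t6c_s (X : Ob k lam n) (r : ℕ) : (Fin r → X.V) →ₗ[k] (ℕ →₀ X.V) :=
  ∑ t : Fin r, (Finsupp.lsingle (t : ℕ)).comp (LinearMap.proj t)

private lemma t6c_s_lt (r : ℕ) (v : Fin r → X.V) (t : Fin r) : t6c_s X r v t = v t := by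
  classical
  rw [t6c_s, LinearMap.sum_apply, Finsupp.finset_sum_apply, Finset.sum_eq_single t]
  · rw [LinearMap.comp_apply, Finsupp.lsingle_apply, LinearMap.proj_apply, Finsupp.single_eq_same]
  · intro t' _ h
    rw [LinearMap.comp_apply, Finsupp.lsingle_apply, LinearMap.proj_apply,
      Finsupp.single_eq_of_ne]
    intro e
    exact h (Fin.ext e.symm)
  · intro h
    exact absurd (Finset.mem_univ t) h

private lemma t6c_s_ge (r : ℕ) (v : Fin r → X.V) (t : ℕ) (ht : r ≤ t) : t6c_s X r v t = 0 := by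
  classical
  rw [t6c_s, LinearMap.sum_apply, Finsupp.finset_sum_apply]
  apply Finset.sum_eq_zero
  intro t' _
  rw [LinearMap.comp_apply, Finsupp.lsingle_apply, LinearMap.proj_apply, Finsupp.single_eq_of_ne]
  intro e
  have := t'.2
  omega

private lemma t6c_s_ext (r : ℕ) {p : ℕ →₀ X.V} {v : Fin r → X.V}
    (h : ∀ t : Fin r, p t = v t) (h' : ∀ t, r ≤ t → p t = 0) : p = t6c_s X r v := by
  ext1 t
  by_cases ht : t < r
  · exact (h ⟨t, ht⟩).trans (t6c_s_lt X r v ⟨t, ht⟩).symm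
  · rw [h' t (Nat.le_of_not_lt ht), t6c_s_ge X r v t (Nat.le_of_not_lt ht)]

private lemma t6c_s_cw (r : ℕ) (f : Module.End k X.V) (v : Fin r → X.V) :
    cw f (t6c_s X r v) = t6c_s X r (fun t => f (v t)) := by
  apply t6c_s_ext
  · intro t
    rw [cw_coeff, t6c_s_lt]
  · intro t ht
    rw [cw_coeff, t6c_s_ge X r v t ht, map_zero]

private noncomputable def t6c_S (X : Ob k lam n) (r : ℕ) :
    (Fin r → X.V) →ₗ[k] (P4 X.V × P4 X.V) :=
  LinearMap.prod 0 (LinearMap.prod 0 (LinearMap.prod 0 (LinearMap.prod 0 (t6c_s X r))))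

private lemma t6c_S_apply (r : ℕ) (v : Fin r → X.V) :
    t6c_S X r v = (0, (0, 0, 0, t6c_s X r v)) := rfl

private lemma t6c_Y0 (hi : i ≠ m) (hj : j ≠ m) (hij : i ≠ j) {l : ℕ} (hl : l ≠ m)
    (f : ℕ →₀ X.V) : t6c_Y X i j m l (0, 0, 0, f) = (0, 0, 0, cw (X.y l) f) := by
  by_cases hlj : l = j
  · rw [hlj]
    refine (M6_yj X hi hj hij 0 0 0 f).trans ?_
    rw [map_zero, map_zero]
  · by_cases hli : l = i
    · rw [hli]
      refine (M6_yi X hi hj hij 0 0 0 f).trans ?_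
      simp only [map_zero, neg_zero, add_zero, sub_zero]
    · refine (M6_y X hli hlj hl 0 0 0 f).trans ?_
      rw [map_zero]

private lemma t6c_X0 {l : ℕ} (hl : l ≠ m)
    (f : ℕ →₀ X.V) : t6c_X X i j m l (0, 0, 0, f) = (0, 0, 0, cw (X.x l) f) := by
  refine (M6_x X hl 0 0 0 f).trans ?_
  rw [map_zero]

private lemma t6c_D0 (f : ℕ →₀ X.V) : t6c_D X i j m (0, 0, 0, f) = (0, 0, 0, cw X.d f) := by
  refine (M6_d X 0 0 0 f).trans ?_
  rw [map_zero]

private lemma t6c_W0 (f : ℕ →₀ X.V) : t6c_W X i j m (0, 0, 0, f) =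
    (0, 0, 0, lam ^ 2 • wt (lam ^ 2) (cw X.T f)) := by
  refine (M6_T X 0 0 0 f).trans ?_
  simp only [map_zero, smul_zero]

private lemma t6c_B0 (hi : i ≠ m) (hj : j ≠ m) (hij : i ≠ j) (f : ℕ →₀ X.V) :
    t6c_Y X i j m m (0, 0, 0, f) - t6c_X X i j m m (0, 0, 0, f) = 0 := by
  refine (M6_b X hi hj hij 0 0 0 f).trans ?_
  simp only [map_zero, neg_zero, add_zero, sub_zero]
  rfl

private lemma t6c_pow {c : k} (hc : c ≠ 0) {N : ℕ} (hN : 2 ≤ N) :
    (c⁻¹) ^ N * c ^ 2 = (c⁻¹) ^ (N - 2) := by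
  obtain ⟨q, rfl⟩ : ∃ q, N = q + 2 := ⟨N - 2, by omega⟩
  rw [Nat.add_sub_cancel, pow_add, mul_assoc, inv_pow c 2, inv_mul_cancel₀ (pow_ne_zero 2 hc),
    mul_one]

private lemma t6c_wt0 (hn : 2 ≤ n) (v : Fin (n - 2) → X.V) :
    (lam * (lam⁻¹) ^ n) • (lam ^ 2 • wt (lam ^ 2) (cw X.T (t6c_s X (n - 2) v))) =
      t6c_s X (n - 2) (fun t => (lam * (lam⁻¹) ^ (n - 2) * (lam ^ 2) ^ (t : ℕ)) • X.T (v t)) := by
  apply t6c_s_ext
  · intro t
    rw [Finsupp.smul_apply, Finsupp.smul_apply, wt_coeff, cw_coeff, t6c_s_lt, smul_smul, smul_smul]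
    congr 1
    rw [← t6c_pow X.ne hn]
    ring
  · intro t ht
    rw [Finsupp.smul_apply, Finsupp.smul_apply, wt_coeff, cw_coeff, t6c_s_ge X _ v t ht, map_zero,
      smul_zero, smul_zero, smul_zero]

private noncomputable def t6c_v1 (X : Ob k lam n) : P4 X.V →ₗ[k] X.V :=
  Finsupp.lapply (n - 1) ∘ₗ lst (k := k)

private noncomputable def t6c_v0 (X : Ob k lam n) (i : ℕ) : P4 X.V →ₗ[k] X.V :=
  Finsupp.lapply (n - 2) ∘ₗ lst (k := k) - X.y i ∘ₗ t6c_v1 X

private noncomputable def t6c_w (X : Ob k lam n) (i : ℕ) : P4 X.V →ₗ[k] P4 X.V :=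
  ((n : k) + 1)⁻¹ • LinearMap.prod (Cc ∘ₗ t6c_v0 X i)
    (LinearMap.prod 0 (LinearMap.prod (Cc ∘ₗ t6c_v1 X) 0))

private lemma t6c_v1_apply (z : P4 X.V) : t6c_v1 X z = lst (k := k) z (n - 1) := rfl

private lemma t6c_v0_apply (z : P4 X.V) :
    t6c_v0 X i z = lst (k := k) z (n - 2) - X.y i (lst (k := k) z (n - 1)) := rfl

private lemma t6c_w_eps (z : P4 X.V) :
    X.eps i j (t6c_w X i z) = ((n : k) + 1)⁻¹ • t6c_v0 X i z := by
  have e : t6c_w X i z = ((n : k) + 1)⁻¹ •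
    ((Cc (k := k) (t6c_v0 X i z), 0, Cc (k := k) (t6c_v1 X z), 0) : P4 X.V) := rfl
  rw [e, map_smul, t6c_eps]
  show ((n : k) + 1)⁻¹ • (ev (X.y j) (Cc (k := k) (t6c_v0 X i z)) +
    X.y i (ev (X.y j) (0 : ℕ →₀ X.V))) = _
  rw [ev_Cc, map_zero, map_zero, add_zero]

private lemma t6c_w_mu (z : P4 X.V) :
    X.mu i (t6c_w X i z) = ((n : k) + 1)⁻¹ • t6c_v1 X z := by
  have e : t6c_w X i z = ((n : k) + 1)⁻¹ •
    ((Cc (k := k) (t6c_v0 X i z), 0, Cc (k := k) (t6c_v1 X z), 0) : P4 X.V) := rfl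
  rw [e, map_smul, t6c_mu]
  show ((n : k) + 1)⁻¹ • (ev (X.y i) (Cc (k := k) (t6c_v1 X z))) = _
  rw [ev_Cc]

private lemma t6c_A1 (hn : 2 ≤ n) (hi : i ≠ m) (hj : j ≠ m) (hij : i ≠ j) (z : P4 X.V) :
    lst (k := k) (t6c_H X i j m z) (n - 1) = ((n : k) + 1) • X.mu i z := by
  rw [t6c_A X hi hj hij, if_neg (by omega), if_pos (by omega), if_neg (by omega), Nat.sub_self,
    pow_zero, Module.End.one_apply, zero_add, add_zero]

private lemma t6c_A2 (hn : 2 ≤ n) (hi : i ≠ m) (hj : j ≠ m) (hij : i ≠ j) (z : P4 X.V) :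
    lst (k := k) (t6c_H X i j m z) (n - 2) =
      ((n : k) + 1) • (X.eps i j z + X.y i (X.mu i z)) := by
  have e1 : n - 1 - (n - 2) = 1 := by omega
  rw [t6c_A X hi hj hij, if_pos (by omega), if_pos (by omega), if_neg (by omega), Nat.sub_self,
    e1, pow_one, add_zero]
  congr 2
  simp [ZM.hn]

/-- an operator acting coefficientwise on the invariants commutes with the homotopy up to `K` -/
private lemma t6c_comm {P : Module.End k (P4 X.V)} {q : Module.End k X.V}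
    (h : ∀ z, X.eps i j (P z) = q (X.eps i j z) ∧ X.mu i (P z) = q (X.mu i z) ∧
      lst (k := k) (P z) = cw q (lst (k := k) z)) (hq : Commute q (X.y i)) (z : P4 X.V) :
    X.eps i j (t6c_w X i (P z) - P (t6c_w X i z)) = 0 ∧
      X.mu i (t6c_w X i (P z) - P (t6c_w X i z)) = 0 := by
  have h1 : t6c_v1 X (P z) = q (t6c_v1 X z) := by
    rw [t6c_v1_apply, t6c_v1_apply, (h z).2.2, cw_coeff]
  have h0 : t6c_v0 X i (P z) = q (t6c_v0 X i z) := by
    rw [t6c_v0_apply, t6c_v0_apply, (h z).2.2, cw_coeff, cw_coeff, map_sub]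
    congr 1
    exact (LinearMap.congr_fun hq.eq _).symm
  constructor
  · rw [map_sub, (h _).1, t6c_w_eps, t6c_w_eps, h0, map_smul, sub_self]
  · rw [map_sub, (h _).2.1, t6c_w_mu, t6c_w_mu, h1, map_smul, sub_self]

private lemma t6c_mem (hn : 2 ≤ n) (p : P4 X.V × P4 X.V) (h1 : X.eps i j p.1 = 0)
    (h2 : X.mu i p.1 = 0) (h3 : lst (k := k) p.2 (n - 2) = 0) (h4 : lst (k := k) p.2 (n - 1) = 0) :
    ∃ (kk : T6K X i j) (v : Fin (n - 2) → X.V), kk.1 + t6c_S X (n - 2) v = p := by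
  let v : Fin (n - 2) → X.V := fun t => lst (k := k) p.2 t
  refine ⟨⟨p - t6c_S X (n - 2) v, ?_, ?_, fun t ht => ?_⟩, v, sub_add_cancel _ _⟩
  · show X.eps i j (p.1 - 0) = 0
    rw [sub_zero, h1]
  · show X.mu i (p.1 - 0) = 0
    rw [sub_zero, h2]
  · show (lst (k := k) p.2 - t6c_s X (n - 2) v) t = 0
    rw [Finsupp.sub_apply]
    by_cases h : t < n - 2
    · rw [t6c_s_lt X (n - 2) v ⟨t, h⟩, sub_eq_zero]
    · rw [t6c_s_ge X (n - 2) v t (Nat.le_of_not_lt h), sub_zero]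
      by_cases h5 : t = n - 2
      · rw [h5, h3]
      · have h6 : t = n - 1 := by omega
        rw [h6, h4]

private noncomputable def t6c_CD (X : Ob k lam n) (i j m : ℕ) :
    Module.End k (P4 X.V × P4 X.V) := (T6C X i j m).d

private noncomputable def t6c_CY (X : Ob k lam n) (i j m l : ℕ) :
    Module.End k (P4 X.V × P4 X.V) := (T6C X i j m).y l

private noncomputable def t6c_CX (X : Ob k lam n) (i j m l : ℕ) :
    Module.End k (P4 X.V × P4 X.V) := (T6C X i j m).x l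

/-- the injective map -/
private noncomputable def t6c_g (X : Ob k lam n) (i j r : ℕ) :
    (T6K X i j × (Fin r → X.V)) →ₗ[k] (P4 X.V × P4 X.V) :=
  LinearMap.coprod (T6K X i j).subtype (t6c_S X r)

private lemma t6c_g_apply (r : ℕ) (p : T6K X i j × (Fin r → X.V)) :
    t6c_g X i j r p = p.1.1 + t6c_S X r p.2 := rfl

private lemma t6c_mor (hn : 2 ≤ n) (hi : i < m) (hj : j < m) (hij : i ≠ j) :
    Mor {l | l < m} ((T6Y X hi hj hij).sum (X.pw (n - 2) (lam * (lam⁻¹) ^ (n - 2))))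
      (T6C X i j m) (t6c_g X i j (n - 2)) := by
  have hi' := Nat.ne_of_lt hi
  have hj' := Nat.ne_of_lt hj
  refine ⟨?_, ?_, ?_, ?_⟩
  · intro l hl p
    have hl' : l < m := hl
    have e : (T6C X i j m).y l (t6c_S X (n - 2) p.2) =
        t6c_S X (n - 2) (fun t => X.y l (p.2 t)) := by
      rw [t6c_Cy X hl', t6c_S_apply, t6c_S_apply, ← t6c_s_cw]
      show (t6c_Y X i j m l 0, t6c_Y X i j m l (0, 0, 0, t6c_s X (n - 2) p.2)) = _
      rw [map_zero, t6c_Y0 X hi' hj' hij (Nat.ne_of_lt hl')]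
    have e2 := map_add ((T6C X i j m).y l) p.1.1 (t6c_S X (n - 2) p.2)
    rw [e] at e2
    exact e2.symm
  · intro l hl p
    have hl' : l < m := hl
    have e : (T6C X i j m).x l (t6c_S X (n - 2) p.2) =
        t6c_S X (n - 2) (fun t => X.x l (p.2 t)) := by
      rw [t6c_Cx X hl', t6c_S_apply, t6c_S_apply, ← t6c_s_cw]
      show (t6c_X X i j m l 0, t6c_X X i j m l (0, 0, 0, t6c_s X (n - 2) p.2)) = _
      rw [map_zero, t6c_X0 X (Nat.ne_of_lt hl')]
    have e2 := map_add ((T6C X i j m).x l) p.1.1 (t6c_S X (n - 2) p.2)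
    rw [e] at e2
    exact e2.symm
  · intro p
    have e : (T6C X i j m).d (t6c_S X (n - 2) p.2) =
        t6c_S X (n - 2) (fun t => -(X.d (p.2 t))) := by
      have e3 : (fun t => -(X.d (p.2 t))) = -(fun t => X.d (p.2 t)) := rfl
      rw [t6c_Cd, e3, map_neg, t6c_S_apply, t6c_S_apply, ← t6c_s_cw]
      show (t6c_D X i j m 0 + (t6c_Y X i j m m (0, 0, 0, t6c_s X (n - 2) p.2) -
        t6c_X X i j m m (0, 0, 0, t6c_s X (n - 2) p.2)),
        t6c_H X i j m 0 - t6c_D X i j m (0, 0, 0, t6c_s X (n - 2) p.2)) = _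
      rw [map_zero, map_zero, t6c_B0 X hi' hj' hij, t6c_D0, add_zero, zero_sub]
      refine Prod.ext ?_ rfl
      exact neg_zero.symm
    have e2 := map_add (T6C X i j m).d p.1.1 (t6c_S X (n - 2) p.2)
    rw [e] at e2
    exact e2.symm
  · intro p
    have e : (T6C X i j m).T (t6c_S X (n - 2) p.2) = t6c_S X (n - 2)
        (fun t => (lam * (lam⁻¹) ^ (n - 2) * (lam ^ 2) ^ (t : ℕ)) • X.T (p.2 t)) := by
      show (t6c_W X i j m 0, (lam * (lam⁻¹) ^ n) •
        t6c_W X i j m (0, 0, 0, t6c_s X (n - 2) p.2)) = _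
      rw [map_zero, t6c_W0, t6c_S_apply, ← t6c_wt0 X hn]
      refine Prod.ext rfl ?_
      refine Prod.ext (smul_zero _) ?_
      refine Prod.ext (smul_zero _) ?_
      exact Prod.ext (smul_zero _) rfl
    have e2 := map_add (T6C X i j m).T p.1.1 (t6c_S X (n - 2) p.2)
    rw [e] at e2
    exact e2.symm

private lemma t6c_inj : Function.Injective (t6c_g X i j (n - 2)) := by
  rw [← LinearMap.ker_eq_bot, LinearMap.ker_eq_bot']
  rintro ⟨kk, v⟩ h
  rw [t6c_g_apply] at h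
  have h1 : v = 0 := by
    funext t
    have h2 := kk.2.2.2 (t : ℕ) (by have := t.2; omega)
    have h3 : (kk.1.2 + ((0, 0, 0, t6c_s X (n - 2) v) : P4 X.V)) = 0 := congrArg Prod.snd h
    have h4 : (lst (k := k) kk.1.2 + t6c_s X (n - 2) v) (t : ℕ) = 0 := by
      have h5 := congrArg (lst (k := k)) h3
      rw [map_add, map_zero] at h5
      exact DFunLike.congr_fun h5 (t : ℕ)
    rw [Finsupp.add_apply, h2, zero_add, t6c_s_lt] at h4
    exact h4
  rw [h1] at h ⊢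
  rw [map_zero, add_zero] at h
  have h6 : kk = 0 := Subtype.ext h
  rw [h6]
  rfl

private lemma t6c_fil (hn : 2 ≤ n) (hn1 : ((n : k) + 1) ≠ 0) (hi : i < m) (hj : j < m)
    (hij : i ≠ j) :
    Fil {l | l < m} (T6C X i j m) (LinearMap.range (t6c_g X i j (n - 2))) ⊤ := by
  have hi' := Nat.ne_of_lt hi
  have hj' := Nat.ne_of_lt hj
  have hmor := t6c_mor X hn hi hj hij
  have hmem : ∀ p : P4 X.V × P4 X.V, X.eps i j p.1 = 0 → X.mu i p.1 = 0 →
      lst (k := k) p.2 (n - 2) = 0 → lst (k := k) p.2 (n - 1) = 0 →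
      p ∈ LinearMap.range (t6c_g X i j (n - 2)) := by
    intro p h1 h2 h3 h4
    obtain ⟨kk, v, h⟩ := t6c_mem X hn p h1 h2 h3 h4
    exact ⟨(kk, v), h⟩
  have hc : ((n : k) + 1) * ((n : k) + 1)⁻¹ = 1 := mul_inv_cancel₀ hn1
  have hc' : ((n : k) + 1)⁻¹ * ((n : k) + 1) = 1 := inv_mul_cancel₀ hn1
  refine Relation.ReflTransGen.single ⟨le_top, ⟨?_, ?_, ?_⟩, ⟨fun _ _ _ _ => Submodule.mem_top,
    fun _ _ _ _ => Submodule.mem_top, fun _ _ => Submodule.mem_top⟩,
    (LinearMap.inl k (P4 X.V) (P4 X.V) ∘ₗ t6c_w X i ∘ₗ LinearMap.snd k (P4 X.V) (P4 X.V) :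
      Module.End k (P4 X.V × P4 X.V)), fun _ _ => Submodule.mem_top, ?_, ?_, ?_, ?_⟩
  · rintro l hl _ ⟨p, rfl⟩
    exact ⟨_, hmor.1 l hl p⟩
  · rintro l hl _ ⟨p, rfl⟩
    exact ⟨_, hmor.2.1 l hl p⟩
  · rintro _ ⟨p, rfl⟩
    exact ⟨_, hmor.2.2.1 p⟩
  · rintro _ ⟨p, rfl⟩
    have e : t6c_w X i (t6c_g X i j (n - 2) p).2 = 0 := by
      have h1 : ∀ t, n - 2 ≤ t → t < n → lst (k := k) (t6c_g X i j (n - 2) p).2 t = 0 := by
        intro t ht ht'
        show (lst (k := k) p.1.1.2 + t6c_s X (n - 2) p.2) t = 0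
        rw [Finsupp.add_apply, p.1.2.2.2 t ht', t6c_s_ge X _ _ t ht, add_zero]
      have h2 : t6c_v1 X (t6c_g X i j (n - 2) p).2 = 0 := h1 _ (by omega) (by omega)
      have h3 : t6c_v0 X i (t6c_g X i j (n - 2) p).2 = 0 := by
        rw [t6c_v0_apply, h1 _ (by omega) (by omega), h1 _ (by omega) (by omega), map_zero,
          sub_zero]
      have e : t6c_w X i (t6c_g X i j (n - 2) p).2 = ((n : k) + 1)⁻¹ •
        ((Cc (k := k) (t6c_v0 X i (t6c_g X i j (n - 2) p).2), 0,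
          Cc (k := k) (t6c_v1 X (t6c_g X i j (n - 2) p).2), 0) : P4 X.V) := rfl
      rw [e, h2, h3, map_zero]
      exact smul_zero _
    have e2 : ((LinearMap.inl k (P4 X.V) (P4 X.V) ∘ₗ t6c_w X i ∘ₗ
        LinearMap.snd k (P4 X.V) (P4 X.V) : Module.End k (P4 X.V × P4 X.V))
        (t6c_g X i j (n - 2) p)) = 0 := by
      show (t6c_w X i (t6c_g X i j (n - 2) p).2, (0 : P4 X.V)) = 0
      rw [e]
      rfl
    have e3 : ((LinearMap.inl k (P4 X.V) (P4 X.V) ∘ₗ t6c_w X i ∘ₗ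
        LinearMap.snd k (P4 X.V) (P4 X.V) : Module.End k (P4 X.V × P4 X.V))
        (t6c_g X i j (n - 2) p)) ∈ LinearMap.range (t6c_g X i j (n - 2)) := by
      rw [e2]
      exact Submodule.zero_mem _
    exact e3
  · intro v' _
    obtain ⟨v, hvv⟩ : ∃ v : P4 X.V × P4 X.V, v = v' := ⟨v', rfl⟩
    rw [← hvv]
    have e0 : t6c_CD X i j m ((t6c_w X i v.2, (0 : P4 X.V)) : P4 X.V × P4 X.V) =
        (t6c_D X i j m (t6c_w X i v.2), t6c_H X i j m (t6c_w X i v.2)) := by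
      refine (t6c_Cd X _).trans ?_
      show (t6c_D X i j m (t6c_w X i v.2) + (t6c_Y X i j m m 0 - t6c_X X i j m m 0),
        t6c_H X i j m (t6c_w X i v.2) - t6c_D X i j m 0) = _
      rw [map_zero, map_zero, map_zero, sub_zero, sub_zero, add_zero]
    have e1 : t6c_CD X i j m v = (t6c_D X i j m v.1 + (t6c_Y X i j m m v.2 - t6c_X X i j m m v.2),
      t6c_H X i j m v.1 - t6c_D X i j m v.2) := t6c_Cd X v
    have key : t6c_CD X i j m ((t6c_w X i v.2, (0 : P4 X.V)) : P4 X.V × P4 X.V) +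
        ((t6c_w X i (t6c_CD X i j m v).2, (0 : P4 X.V)) : P4 X.V × P4 X.V) - v ∈
        LinearMap.range (t6c_g X i j (n - 2)) := by
      rw [e0, e1]
      have hv1 : t6c_v1 X (t6c_H X i j m v.1 - t6c_D X i j m v.2) =
          ((n : k) + 1) • X.mu i v.1 - X.d (t6c_v1 X v.2) := by
        rw [map_sub, t6c_v1_apply, t6c_A1 X hn hi' hj' hij, t6c_v1_apply, (t6c_d X v.2).2.2,
          cw_coeff, t6c_v1_apply]
      have hv0 : t6c_v0 X i (t6c_H X i j m v.1 - t6c_D X i j m v.2) =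
          ((n : k) + 1) • X.eps i j v.1 - X.d (t6c_v0 X i v.2) := by
        have hq := LinearMap.congr_fun (X.hdy i).eq (lst (k := k) v.2 (n - 1))
        rw [Module.End.mul_apply, Module.End.mul_apply] at hq
        rw [map_sub, t6c_v0_apply, t6c_A1 X hn hi' hj' hij, t6c_A2 X hn hi' hj' hij, t6c_v0_apply,
          (t6c_d X v.2).2.2, cw_coeff, cw_coeff, t6c_v0_apply, map_sub, hq, map_smul, smul_add]
        abel
      refine hmem _ ?_ ?_ ?_ ?_
      · show X.eps i j (t6c_D X i j m (t6c_w X i v.2) +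
          t6c_w X i (t6c_H X i j m v.1 - t6c_D X i j m v.2) - v.1) = 0
        rw [map_sub, map_add, (t6c_d X _).1, t6c_w_eps, t6c_w_eps, hv0, map_smul, smul_sub,
          smul_smul, hc', one_smul]
        abel
      · show X.mu i (t6c_D X i j m (t6c_w X i v.2) +
          t6c_w X i (t6c_H X i j m v.1 - t6c_D X i j m v.2) - v.1) = 0
        rw [map_sub, map_add, (t6c_d X (i := i) (j := j) _).2.1, t6c_w_mu, t6c_w_mu, hv1, map_smul,
          smul_sub, smul_smul, hc', one_smul]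
        abel
      · show lst (k := k) (t6c_H X i j m (t6c_w X i v.2) + 0 - v.2) (n - 2) = 0
        rw [add_zero, map_sub, Finsupp.sub_apply, t6c_A2 X hn hi' hj' hij, t6c_w_eps, t6c_w_mu,
          map_smul, smul_add, smul_smul, smul_smul, hc, one_smul, one_smul, t6c_v0_apply,
          t6c_v1_apply]
        abel
      · show lst (k := k) (t6c_H X i j m (t6c_w X i v.2) + 0 - v.2) (n - 1) = 0
        rw [add_zero, map_sub, Finsupp.sub_apply, t6c_A1 X hn hi' hj' hij, t6c_w_mu, smul_smul, hc,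
          one_smul, t6c_v1_apply, sub_self]
    exact key
  · intro l hl v' _
    obtain ⟨v, hvv⟩ : ∃ v : P4 X.V × P4 X.V, v = v' := ⟨v', rfl⟩
    rw [← hvv]
    have hl' : l < m := hl
    have key : ((t6c_w X i (t6c_CY X i j m l v).2, (0 : P4 X.V)) : P4 X.V × P4 X.V) -
        t6c_CY X i j m l ((t6c_w X i v.2, (0 : P4 X.V)) : P4 X.V × P4 X.V) ∈
        LinearMap.range (t6c_g X i j (n - 2)) := by
      have f1 : ∀ u, t6c_CY X i j m l u = (t6c_Y X i j m l u.1, t6c_Y X i j m l u.2) :=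
        fun u => t6c_Cy X hl' u
      rw [f1, f1]
      have h := t6c_comm X (fun z => t6c_y X hi' hj' hij (Nat.ne_of_lt hl') z) (X.hyy l i) v.2
      have hz : ∀ t, lst (k := k) ((0 : P4 X.V) - t6c_Y X i j m l 0) t = 0 := by
        intro t
        rw [map_zero, sub_zero, map_zero]
        rfl
      exact hmem _ h.1 h.2 (hz _) (hz _)
    exact key
  · intro l hl v' _
    obtain ⟨v, hvv⟩ : ∃ v : P4 X.V × P4 X.V, v = v' := ⟨v', rfl⟩
    rw [← hvv]
    have hl' : l < m := hl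
    have key : ((t6c_w X i (t6c_CX X i j m l v).2, (0 : P4 X.V)) : P4 X.V × P4 X.V) -
        t6c_CX X i j m l ((t6c_w X i v.2, (0 : P4 X.V)) : P4 X.V × P4 X.V) ∈
        LinearMap.range (t6c_g X i j (n - 2)) := by
      have f1 : ∀ u, t6c_CX X i j m l u = (t6c_X X i j m l u.1, t6c_X X i j m l u.2) :=
        fun u => t6c_Cx X hl' u
      rw [f1, f1]
      have h := t6c_comm X (i := i) (j := j)
        (fun z => t6c_x X (i := i) (j := j) (Nat.ne_of_lt hl') z) (X.hxy l i) v.2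
      have hz : ∀ t, lst (k := k) ((0 : P4 X.V) - t6c_X X i j m l 0) t = 0 := by
        intro t
        rw [map_zero, sub_zero, map_zero]
        rfl
      exact hmem _ h.1 h.2 (hz _) (hz _)
    exact key

theorem T6_inj (hn : 2 ≤ n) (hn1 : ((n : k) + 1) ≠ 0) (hi : i < m) (hj : j < m) (hij : i ≠ j)
    {L : List (ℕ × ℕ)} (hL : ∀ a ∈ L, a.1 < m ∧ a.2 < m) (hfl : Flat (T6C X i j m) L) :
    HE ((T6Y X hi hj hij).sum (X.pw (n - 2) (lam * (lam⁻¹) ^ (n - 2)))) (T6C X i j m) L := by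
  exact he_inj (A := {l | l < m}) (t6c_g X i j (n - 2)) (t6c_mor X hn hi hj hij)
    (t6c_inj X) (t6c_fil X hn hn1 hi hj hij) (fun a ha => hL a ha) hfl

end ZM
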