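import Pool.Agent.H75.ZM.T6c
import Pool.Agent.H75.ZM.Surj
import Pool.Agent.H75.ZM.PolL

/-!
# The exchange of strands inside the closed square (row ZM T6d)

Proof.  Let `a = X.y j`, `b = X.y i`, `Y = T6Y X ..` (elements `(z, z')`, `z = (F0, F1, g, f)`).
`chi (z, z') = F1(a) - (Dq a F0)(b) - a (Dq a F1)(b)` in `(X.S i j).V = X.V`, where
`(X.S i j).y j = b`, `(X.S i j).y i = a`.
Morphism (labels `< m`): with `E0 = F0(a)`, `E1 = F1(a)`, `D0 = (Dq a F0)(b)`, `D1 = (Dq a F1)(b)`: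
`y j z`: `E1` becomes `a E1`, `(Dq a (u F))(b) = b D + E`, so `chi` becomes
`a E1 - (b D0 + E0) - a (b D1 + E1) = b chi - (E0 + b E1) = b chi` on `K`.
`y i z`: `F0' = - a b F1`, `F1' = F0 + (a + b) F1`: `chi = E0 + (a+b) E1 + a b D1 - a D0 -
a (a + b) D1 = E0 + (a + b) E1 - a D0 - a^2 D1 = a chi + (E0 + b E1) = a chi` on `K`.
`d`: even part of `d (z, z')` is `d z + (y m - x m) z'`, and `chi ((y m - x m) z') = 0` for all `z'`
(`F0'' = (a+b) F0' - u F0' + a b F1'`, `F1'' = - u F1' - F0'`).  `T`: weights `lam^-2` on `F0`, `1` on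
`F1`; `(Dq a F0)(b)` gets `lam ^ 2` more.
Surjective: `chi ((Cc (a v) - u Cc v, 0, 0, 0), 0) = v`.
`Ctr ⊥ (ker chi)` with
`h (z, z') = ((0, 0, 0, (n+1)⁻¹ dr n f'), (G1, G0', G2, 0))`-like: the odd part is `c⁻¹ z`, with
`c⁻¹ (P0, P1, q, f) = (F0, F1, g, 0)`, `F1 = Dq b (Dq a (P0 + (a + b) P1 - u P1))`,
`F0 = - P1 - u F1`, `g = - Dq b q - Cc (F1(a))`.
Let `c = y m - x m` (`M6_b`).  (1) for all `z'`, `c⁻¹ (c z') = (F0', F1', g', 0)`: the argument of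
the `Dq`s is `(u - a)(u - b) F1'`.  (2) for `z ∈ K`, `chi z = 0`: `c (c⁻¹ z) = (F0, F1, g, 0)`:
let `H = F0 + (a+b) F1 - u F1`; `H(a) = E0 + b E1 = 0` and
`(Dq a H)(b) = D0 + (a+b) D1 - (b D1 + E1) = - chi = 0`, so `(u-a)(u-b) Dq b (Dq a H) = H`
(`sh_Dq` twice), which gives the first two components; third: `- (b - u) Dq b g = g` as `g(b) = 0`.
(3) `c⁻¹` commutes on `K ∩ ker chi` with the operators because `c` does and `c⁻¹ c = 1` on elements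
with last component `0`.
Then `d h + h d = 1` on `ker chi` (use `M6_A`: for `z ∈ K` the last component of `A z` is
`(n+1) u^n f`, `M6_A0`, `dr_shp`, `shp_dr`).  Conclude by `he_surj`.
-/

namespace ZM

section T6dAux

variable {k : Type} [Field k] {V : Type} [AddCommGroup V] [Module k V]

/-- The second component of the partial inverse of `y m - x m`. -/
noncomputable def t6d_F (a b : Module.End k V) : P4 V →ₗ[k] (ℕ →₀ V) :=
  Dq b ∘ₗ Dq a ∘ₗ (LinearMap.fst k _ _ + cw (a + b) ∘ₗ LinearMap.fst k _ _ ∘ₗ LinearMap.snd k _ _ -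
    sh (k := k) ∘ₗ LinearMap.fst k _ _ ∘ₗ LinearMap.snd k _ _)

/-- The partial inverse of `y m - x m`. -/
noncomputable def t6d_ci (a b : Module.End k V) : P4 V →ₗ[k] P4 V :=
  LinearMap.prod (-(LinearMap.fst k _ _ ∘ₗ LinearMap.snd k _ _) - sh (k := k) ∘ₗ t6d_F a b)
    (LinearMap.prod (t6d_F a b)
      (LinearMap.prod (-(Dq b ∘ₗ LinearMap.fst k _ _ ∘ₗ LinearMap.snd k _ _ ∘ₗ
          LinearMap.snd k _ _) - Cc (k := k) ∘ₗ ev a ∘ₗ t6d_F a b) 0))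

lemma t6d_F_apply (a b : Module.End k V) (F0 F1 g f : ℕ →₀ V) :
    t6d_F a b ((F0, F1, g, f) : P4 V) = Dq b (Dq a (F0 + cw (a + b) F1 - sh (k := k) F1)) := rfl

lemma t6d_ci_apply (a b : Module.End k V) (F0 F1 g f : ℕ →₀ V) :
    t6d_ci a b ((F0, F1, g, f) : P4 V) =
      ((-F1 - sh (k := k) (t6d_F a b ((F0, F1, g, f) : P4 V)), t6d_F a b ((F0, F1, g, f) : P4 V),
        -(Dq b g) - Cc (k := k) (ev a (t6d_F a b ((F0, F1, g, f) : P4 V))), 0) : P4 V) := rfl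

/-- The exchange map. -/
noncomputable def t6d_chi (a b : Module.End k V) : P4 V →ₗ[k] V :=
  ev a ∘ₗ LinearMap.fst k _ _ ∘ₗ LinearMap.snd k _ _ - ev b ∘ₗ Dq a ∘ₗ LinearMap.fst k _ _ -
    a ∘ₗ ev b ∘ₗ Dq a ∘ₗ LinearMap.fst k _ _ ∘ₗ LinearMap.snd k _ _

lemma t6d_chi_apply (a b : Module.End k V) (F0 F1 g f : ℕ →₀ V) :
    t6d_chi a b ((F0, F1, g, f) : P4 V) = ev a F1 - ev b (Dq a F0) - a (ev b (Dq a F1)) := rfl

lemma t6d_cadd (f g : Module.End k V) (p : ℕ →₀ V) : cw (f + g) p = cw f p + cw g p := by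
  ext i
  simp [cw_coeff]

lemma t6d_cmul (f g : Module.End k V) (p : ℕ →₀ V) : cw (f * g) p = cw f (cw g p) := by
  rw [cw_cw]

lemma t6d_csh (f : Module.End k V) (p : ℕ →₀ V) :
    cw f (sh (k := k) p) = sh (k := k) (cw f p) := LinearMap.congr_fun (cw_sh f).eq p

/-- The polynomials `(F0, F1, g)` of `(y m - x m) (F0, F1, g, f)`. -/
noncomputable def t6d_c (a b : Module.End k V) (F0 F1 g : ℕ →₀ V) : P4 V :=
  (cw (a + b) F0 - sh (k := k) F0 + cw (a * b) F1,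
        - sh (k := k) F1 - F0,
        cw b (g + Cc (k := k) (ev a F1)) -
          sh (k := k) (g + Cc (k := k) (ev a F1)),
        0)

lemma t6d_ci_c (a b : Module.End k V) (F0 F1 g : ℕ →₀ V) :
    t6d_ci a b (t6d_c a b F0 F1 g) = ((F0, F1, g, 0) : P4 V) := by
  have h1 : t6d_F a b (t6d_c a b F0 F1 g) = F1 := by
    rw [t6d_c, t6d_F_apply]
    have e : cw (a + b) F0 - sh (k := k) F0 + cw (a * b) F1 +
        cw (a + b) (- sh (k := k) F1 - F0) - sh (k := k) (- sh (k := k) F1 - F0) =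
        sh (k := k) (sh (k := k) F1 - cw b F1) - cw a (sh (k := k) F1 - cw b F1) := by
      simp only [t6d_cadd, t6d_cmul, map_sub, map_neg, map_add, t6d_csh]
      abel
    rw [e, Dq_sub, Dq_sub]
  rw [t6d_c] at h1 ⊢
  rw [t6d_ci_apply, h1]
  refine Prod.ext ?_ (Prod.ext rfl (Prod.ext ?_ rfl))
  · show -(- sh (k := k) F1 - F0) - sh (k := k) F1 = F0
    abel
  · show -(Dq b (cw b (g + Cc (k := k) (ev a F1)) - sh (k := k) (g + Cc (k := k) (ev a F1)))) -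
      Cc (k := k) (ev a F1) = g
    rw [← map_neg, neg_sub, Dq_sub]
    abel

lemma t6d_c_ci {a b : Module.End k V} (hab : Commute a b) (F0 F1 g f : ℕ →₀ V)
    (he : ev a F0 + b (ev a F1) = 0) (hm : ev b g = 0)
    (hc : t6d_chi a b ((F0, F1, g, f) : P4 V) = 0) :
    t6d_c a b (-F1 - sh (k := k) (t6d_F a b ((F0, F1, g, f) : P4 V)))
      (t6d_F a b ((F0, F1, g, f) : P4 V))
      (-(Dq b g) - Cc (k := k) (ev a (t6d_F a b ((F0, F1, g, f) : P4 V)))) =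
      ((F0, F1, g, 0) : P4 V) := by
  set H := F0 + cw (a + b) F1 - sh (k := k) F1 with hH
  have hF : t6d_F a b ((F0, F1, g, f) : P4 V) = Dq b (Dq a H) := rfl
  rw [t6d_chi_apply] at hc
  have c1 : ∀ v, a (a v) = a (a v) := fun _ => rfl
  have c2 : ∀ v, b (a v) = a (b v) := fun v => (LinearMap.congr_fun hab.eq v).symm
  have c3 : ∀ v, b (b v) = b (b v) := fun _ => rfl
  have c4 : ∀ v, a (b v) = b (a v) := fun v => LinearMap.congr_fun hab.eq v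
  have h1 : ev a H = 0 := by
    rw [hH, map_sub, map_add, t6d_cadd, map_add, ev_cw c1, ev_cw c2, ev_sh, ← he]
    abel
  have h2 : ev b (Dq a H) = 0 := by
    rw [hH, map_sub, map_add, t6d_cadd, map_add, Dq_cw c1, Dq_cw c2, Dq_sh, map_sub, map_add,
      map_add, map_add, ev_cw c4, ev_cw c3, ev_sh, ev_Cc]
    rw [← neg_eq_zero, ← hc]
    abel
  have h3 : sh (k := k) (Dq b (Dq a H)) - cw b (Dq b (Dq a H)) = Dq a H := by
    rw [sh_Dq, h2, map_zero, sub_zero]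
  have h4 : sh (k := k) (Dq a H) - cw a (Dq a H) = H := by
    rw [sh_Dq, h1, map_zero, sub_zero]
  obtain ⟨Q, hQ⟩ : ∃ Q, Q = Dq b (Dq a H) := ⟨_, rfl⟩
  rw [hF, ← hQ, t6d_c]
  rw [← hQ] at h3
  have h5 : sh (k := k) (sh (k := k) Q) - sh (k := k) (cw b Q) -
      (sh (k := k) (cw a Q) - cw a (cw b Q)) = H := by
    rw [← h4, ← h3]
    simp only [map_sub, t6d_csh]
  have h6 : F0 = H - cw (a + b) F1 + sh (k := k) F1 := by rw [hH]; abel
  clear_value H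
  refine Prod.ext ?_ (Prod.ext ?_ (Prod.ext ?_ rfl))
  · show cw (a + b) (-F1 - sh (k := k) Q) -
      sh (k := k) (-F1 - sh (k := k) Q) + cw (a * b) Q = F0
    rw [h6, ← h5]
    simp only [t6d_cadd, t6d_cmul, map_sub, map_neg, map_add, t6d_csh]
    abel
  · show - sh (k := k) Q - (-F1 - sh (k := k) Q) = F1
    abel
  · show cw b (-(Dq b g) - Cc (k := k) (ev a Q) + Cc (k := k) (ev a Q)) -
      sh (k := k) (-(Dq b g) - Cc (k := k) (ev a Q) + Cc (k := k) (ev a Q)) = g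
    rw [sub_add_cancel, map_neg, map_neg, sub_neg_eq_add, neg_add_eq_sub, sh_Dq, hm, map_zero,
      sub_zero]

lemma t6d_ci_cw {a b A : Module.End k V} (ha : Commute A a) (hb : Commute A b)
    (F0 F1 g f : ℕ →₀ V) :
    t6d_ci a b ((cw A F0, cw A F1, cw A g, cw A f) : P4 V) =
      ((cw A (t6d_ci a b ((F0, F1, g, f) : P4 V)).1, cw A (t6d_ci a b ((F0, F1, g, f) : P4 V)).2.1,
        cw A (t6d_ci a b ((F0, F1, g, f) : P4 V)).2.2.1, 0) : P4 V) := by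
  have c1 : ∀ v, A (a v) = a (A v) := fun v => LinearMap.congr_fun ha.eq v
  have c2 : ∀ v, A (b v) = b (A v) := fun v => LinearMap.congr_fun hb.eq v
  have hF : t6d_F a b ((cw A F0, cw A F1, cw A g, cw A f) : P4 V) =
      cw A (t6d_F a b ((F0, F1, g, f) : P4 V)) := by
    rw [t6d_F_apply, t6d_F_apply, ← Dq_cw c2, ← Dq_cw c1]
    congr 2
    rw [map_sub, map_add, t6d_csh, ← t6d_cmul, ← t6d_cmul, (ha.add_right hb).eq]
  rw [t6d_ci_apply, t6d_ci_apply, hF]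
  refine Prod.ext ?_ (Prod.ext rfl (Prod.ext ?_ rfl))
  · show -cw A F1 - sh (k := k) (cw A (t6d_F a b ((F0, F1, g, f) : P4 V))) =
      cw A (-F1 - sh (k := k) (t6d_F a b ((F0, F1, g, f) : P4 V)))
    rw [map_sub, map_neg, t6d_csh]
  · show -(Dq b (cw A g)) - Cc (k := k) (ev a (cw A (t6d_F a b ((F0, F1, g, f) : P4 V)))) =
      cw A (-(Dq b g) - Cc (k := k) (ev a (t6d_F a b ((F0, F1, g, f) : P4 V))))
    rw [map_sub, map_neg, cw_Cc, Dq_cw c2, ev_cw c1]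

lemma t6d_chi_cw {a b A : Module.End k V} (ha : Commute A a) (hb : Commute A b)
    (F0 F1 g f : ℕ →₀ V) :
    t6d_chi a b ((cw A F0, cw A F1, cw A g, cw A f) : P4 V) =
      A (t6d_chi a b ((F0, F1, g, f) : P4 V)) := by
  have c1 : ∀ v, A (a v) = a (A v) := fun v => LinearMap.congr_fun ha.eq v
  have c2 : ∀ v, A (b v) = b (A v) := fun v => LinearMap.congr_fun hb.eq v
  rw [t6d_chi_apply, t6d_chi_apply, Dq_cw c1, Dq_cw c1, ev_cw c1, ev_cw c2, ev_cw c2, map_sub,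
    map_sub, c1]

lemma t6d_chi_c {a b : Module.End k V} (hab : Commute a b) (F0 F1 g : ℕ →₀ V) :
    t6d_chi a b (t6d_c a b F0 F1 g) = 0 := by
  have c1 : ∀ v, a (a v) = a (a v) := fun _ => rfl
  have c2 : ∀ v, b (a v) = a (b v) := fun v => (LinearMap.congr_fun hab.eq v).symm
  have c3 : ∀ v, b (b v) = b (b v) := fun _ => rfl
  have c4 : ∀ v, a (b v) = b (a v) := fun v => LinearMap.congr_fun hab.eq v
  rw [t6d_c, t6d_chi_apply]
  simp only [t6d_cadd, t6d_cmul, map_sub, map_neg, map_add, Dq_cw c1, Dq_cw c2, Dq_sh, ev_sh,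
    ev_Cc, ev_cw c4, ev_cw c3, c4]
  abel

lemma t6d_chi_T {a b T : Module.End k V} {lam : k} (hl : lam ≠ 0)
    (ha : T * a = lam ^ 2 • (a * T)) (hb : T * b = lam ^ 2 • (b * T)) (F0 F1 g f : ℕ →₀ V)
    (G : ℕ →₀ V) :
    t6d_chi a b ((lam⁻¹ • lam⁻¹ • wt (lam ^ 2) (cw T F0), wt (lam ^ 2) (cw T F1), g, f) : P4 V) =
      T (t6d_chi a b ((F0, F1, G, G) : P4 V)) := by
  rw [t6d_chi_apply, t6d_chi_apply]
  simp only [map_smul, Dq_wt ha, ev_wt ha, ev_wt hb, map_sub]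
  have h1 : T (a (ev b (Dq a F1))) = lam ^ 2 • a (T (ev b (Dq a F1))) := LinearMap.congr_fun ha _
  rw [h1, smul_smul, smul_smul]
  congr 2
  rw [show lam⁻¹ * lam⁻¹ * lam ^ 2 = 1 by field_simp, one_smul]

end T6dAux

section T6dMain

variable {k : Type} [Field k] {lam : k} {n : ℕ} (X : Ob k lam n) {i j m : ℕ}

/-- The operator `y l` of `M6`. -/
noncomputable def t6d_Y (i j m l : ℕ) : Module.End k (P4 X.V) := (X.M6 i j m).y l

/-- The operator `x l` of `M6`. -/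
noncomputable def t6d_X (i j m l : ℕ) : Module.End k (P4 X.V) := (X.M6 i j m).x l

/-- The operator `d` of `M6`. -/
noncomputable def t6d_D (i j m : ℕ) : Module.End k (P4 X.V) := (X.M6 i j m).d

/-- The operator `hn` of `M6`. -/
noncomputable def t6d_A (i j m : ℕ) : Module.End k (P4 X.V) :=
  hn n ((X.M6 i j m).y m) ((X.M6 i j m).x m)

lemma t6d_YY (l l' : ℕ) : Commute (t6d_Y X i j m l) (t6d_Y X i j m l') := (X.M6 i j m).hyy l l'

lemma t6d_XY (l l' : ℕ) : Commute (t6d_X X i j m l) (t6d_Y X i j m l') := (X.M6 i j m).hxy l l'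

lemma t6d_Yj (hi : i ≠ m) (hj : j ≠ m) (hij : i ≠ j) (F0 F1 g f : ℕ →₀ X.V) :
    t6d_Y X i j m j ((F0, F1, g, f) : P4 X.V) =
      ((sh (k := k) F0, sh (k := k) F1, cw (X.y j) g, cw (X.y j) f) : P4 X.V) :=
  M6_yj X hi hj hij F0 F1 g f

lemma t6d_Yi (hi : i ≠ m) (hj : j ≠ m) (hij : i ≠ j) (F0 F1 g f : ℕ →₀ X.V) :
    t6d_Y X i j m i ((F0, F1, g, f) : P4 X.V) =
      ((- cw (X.y j * X.y i) F1, F0 + cw (X.y j + X.y i) F1,
        sh (k := k) g + sh (k := k) (Cc (k := k) (ev (X.y j) F1)) -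
          cw (X.y i) (Cc (k := k) (ev (X.y j) F1)),
        cw (X.y i) f) : P4 X.V) :=
  M6_yi X hi hj hij F0 F1 g f

lemma t6d_Yl {l : ℕ} (hl : l ≠ i) (hl' : l ≠ j) (hl'' : l ≠ m) (F0 F1 g f : ℕ →₀ X.V) :
    t6d_Y X i j m l ((F0, F1, g, f) : P4 X.V) =
      ((cw (X.y l) F0, cw (X.y l) F1, cw (X.y l) g, cw (X.y l) f) : P4 X.V) :=
  M6_y X hl hl' hl'' F0 F1 g f

lemma t6d_Xl {l : ℕ} (hl : l ≠ m) (F0 F1 g f : ℕ →₀ X.V) :
    t6d_X X i j m l ((F0, F1, g, f) : P4 X.V) =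
      ((cw (X.x l) F0, cw (X.x l) F1, cw (X.x l) g, cw (X.x l) f) : P4 X.V) :=
  M6_x X hl F0 F1 g f

lemma t6d_Dl (F0 F1 g f : ℕ →₀ X.V) :
    t6d_D X i j m ((F0, F1, g, f) : P4 X.V) =
      ((cw X.d F0, cw X.d F1, cw X.d g, cw X.d f) : P4 X.V) :=
  M6_d X F0 F1 g f

lemma t6d_b (hi : i ≠ m) (hj : j ≠ m) (hij : i ≠ j) (F0 F1 g f : ℕ →₀ X.V) :
    t6d_Y X i j m m ((F0, F1, g, f) : P4 X.V) - t6d_X X i j m m ((F0, F1, g, f) : P4 X.V) =
      t6d_c (X.y j) (X.y i) F0 F1 g := M6_b X hi hj hij F0 F1 g f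

lemma t6d_eps (F0 F1 g f : ℕ →₀ X.V) :
    X.eps i j ((F0, F1, g, f) : P4 X.V) = ev (X.y j) F0 + X.y i (ev (X.y j) F1) := rfl

lemma t6d_mu (F0 F1 g f : ℕ →₀ X.V) :
    X.mu i ((F0, F1, g, f) : P4 X.V) = ev (X.y i) g := rfl

lemma t6d_chi_yj (hi : i ≠ m) (hj : j ≠ m) (hij : i ≠ j) (z : P4 X.V)
    (hz : X.eps i j z = 0) :
    t6d_chi (X.y j) (X.y i) (t6d_Y X i j m j z) =
      X.y i (t6d_chi (X.y j) (X.y i) z) := by
  obtain ⟨F0, F1, g, f⟩ := z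
  have hab := X.hyy j i
  have c1 : ∀ v, X.y i (X.y j v) = X.y j (X.y i v) := fun v => (LinearMap.congr_fun hab.eq v).symm
  rw [t6d_eps] at hz
  rw [t6d_Yj X hi hj hij, t6d_chi_apply, t6d_chi_apply]
  simp only [map_sub, map_add, Dq_sh, ev_sh, ev_Cc, c1]
  rw [← sub_eq_zero, ← neg_eq_zero, ← hz]
  abel

lemma t6d_chi_yi (hi : i ≠ m) (hj : j ≠ m) (hij : i ≠ j) (z : P4 X.V)
    (hz : X.eps i j z = 0) :
    t6d_chi (X.y j) (X.y i) (t6d_Y X i j m i z) =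
      X.y j (t6d_chi (X.y j) (X.y i) z) := by
  obtain ⟨F0, F1, g, f⟩ := z
  have hab := X.hyy j i
  have c1 : ∀ v, X.y j (X.y j v) = X.y j (X.y j v) := fun _ => rfl
  have c2 : ∀ v, X.y i (X.y j v) = X.y j (X.y i v) :=
    fun v => (LinearMap.congr_fun hab.eq v).symm
  have c3 : ∀ v, X.y i (X.y i v) = X.y i (X.y i v) := fun _ => rfl
  have c4 : ∀ v, X.y j (X.y i v) = X.y i (X.y j v) := fun v => LinearMap.congr_fun hab.eq v
  rw [t6d_eps] at hz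
  rw [t6d_Yi X hi hj hij, t6d_chi_apply, t6d_chi_apply]
  simp only [t6d_cadd, t6d_cmul, map_sub, map_neg, map_add, Dq_cw c1, Dq_cw c2, ev_cw c1,
    ev_cw c2, ev_cw c4, ev_cw c3]
  rw [← sub_eq_zero, ← hz]
  abel

lemma t6d_Cy {l : ℕ} (hl : l < m) (z : P4 X.V × P4 X.V) :
    (T6C X i j m).y l z = ((t6d_Y X i j m l z.1, t6d_Y X i j m l z.2) : P4 X.V × P4 X.V) := by
  show (if l < m then dg ((X.M6 i j m).y l) else 0) z = _
  rw [if_pos hl]
  rfl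

lemma t6d_Cx {l : ℕ} (hl : l < m) (z : P4 X.V × P4 X.V) :
    (T6C X i j m).x l z = ((t6d_X X i j m l z.1, t6d_X X i j m l z.2) : P4 X.V × P4 X.V) := by
  show (if l < m then dg ((X.M6 i j m).x l) else 0) z = _
  rw [if_pos hl]
  rfl

lemma t6d_Cd (z : P4 X.V × P4 X.V) :
    (T6C X i j m).d z =
      ((t6d_D X i j m z.1 + (t6d_Y X i j m m z.2 - t6d_X X i j m m z.2),
        t6d_A X i j m z.1 + - t6d_D X i j m z.2) : P4 X.V × P4 X.V) := rfl

/-- The homotopy. -/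
noncomputable def t6d_h (n : ℕ) (a b : Module.End k X.V) : Module.End k (P4 X.V × P4 X.V) :=
  LinearMap.prod (LinearMap.prod 0 (LinearMap.prod 0 (LinearMap.prod 0
    (((n : k) + 1)⁻¹ • (dr (k := k) n ∘ₗ lst (k := k) ∘ₗ LinearMap.snd k _ _)))))
    (t6d_ci a b ∘ₗ LinearMap.fst k _ _)

lemma t6d_h_apply (a b : Module.End k X.V) (z : P4 X.V × P4 X.V) :
    t6d_h X n a b z =
      (((0, 0, 0, ((n : k) + 1)⁻¹ • dr (k := k) n (lst (k := k) z.2)) : P4 X.V),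
        t6d_ci a b z.1) := rfl

/-- The operators `y i`, `y j` commute with the partial inverse on `K`. -/
lemma t6d_ci_op (hi : i ≠ m) (hj : j ≠ m) (hij : i ≠ j) {l : ℕ} (F0 F1 g f : ℕ →₀ X.V)
    (he : X.eps i j ((F0, F1, g, f) : P4 X.V) = 0) (hm : X.mu i ((F0, F1, g, f) : P4 X.V) = 0)
    (hc : t6d_chi (X.y j) (X.y i) ((F0, F1, g, f) : P4 X.V) = 0)
    (h0 : ∀ f : ℕ →₀ X.V, ∃ f' : ℕ →₀ X.V,
      t6d_Y X i j m l ((0, 0, 0, f) : P4 X.V) = ((0, 0, 0, f') : P4 X.V))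
    (h1 : ∀ F0 F1 g : ℕ →₀ X.V,
      (t6d_Y X i j m l ((F0, F1, g, 0) : P4 X.V)).2.2.2 = 0) :
    t6d_ci (X.y j) (X.y i) (t6d_Y X i j m l ((F0, F1, g, f) : P4 X.V)) =
      t6d_Y X i j m l (t6d_ci (X.y j) (X.y i) ((F0, F1, g, f) : P4 X.V)) := by
  have hab : Commute (X.y j) (X.y i) := X.hyy j i
  have e1 := t6d_c_ci hab F0 F1 g f he hm hc
  have e2 := t6d_ci_apply (X.y j) (X.y i) F0 F1 g f
  obtain ⟨G0, hG0⟩ : ∃ G0, G0 = -F1 - sh (k := k) (t6d_F (X.y j) (X.y i)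
    ((F0, F1, g, f) : P4 X.V)) := ⟨_, rfl⟩
  obtain ⟨G1, hG1⟩ : ∃ G1, G1 = t6d_F (X.y j) (X.y i) ((F0, F1, g, f) : P4 X.V) := ⟨_, rfl⟩
  rw [← hG0, ← hG1] at e1 e2
  obtain ⟨G2, hG2⟩ : ∃ G2, G2 = -(Dq (X.y i) g) - Cc (k := k) (ev (X.y j) G1) := ⟨_, rfl⟩
  rw [← hG2] at e1 e2
  rw [← t6d_b X hi hj hij G0 G1 G2 0] at e1
  obtain ⟨f', hf'⟩ := h0 f
  have e3 : ((F0, F1, g, f) : P4 X.V) = ((F0, F1, g, 0) : P4 X.V) + ((0, 0, 0, f) : P4 X.V) := by
    simp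
  have e4 : t6d_Y X i j m l ((F0, F1, g, f) : P4 X.V) =
      (t6d_Y X i j m m (t6d_Y X i j m l ((G0, G1, G2, 0) : P4 X.V)) -
        t6d_X X i j m m (t6d_Y X i j m l ((G0, G1, G2, 0) : P4 X.V))) +
        ((0, 0, 0, f') : P4 X.V) := by
    have e6 := LinearMap.congr_fun (t6d_YY X (i := i) (j := j) (m := m) l m).eq
      ((G0, G1, G2, 0) : P4 X.V)
    have e7 := LinearMap.congr_fun (t6d_XY X (i := i) (j := j) (m := m) m l).eq
      ((G0, G1, G2, 0) : P4 X.V)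
    simp only [Module.End.mul_apply] at e6 e7
    rw [e3, map_add, hf', ← e1, map_sub, e6, e7]
  rw [e2, e4, map_add]
  have e9 : t6d_ci (X.y j) (X.y i) ((0, 0, 0, f') : P4 X.V) = 0 := by
    rw [t6d_ci_apply, t6d_F_apply]
    simp
  rw [e9, add_zero]
  have e10 := h1 G0 G1 G2
  obtain ⟨w, hw⟩ : ∃ w : P4 X.V, w = t6d_Y X i j m l ((G0, G1, G2, 0) : P4 X.V) := ⟨_, rfl⟩
  rw [← hw] at e10 ⊢
  obtain ⟨w0, w1, w2, w3⟩ := w
  have e11 : w3 = 0 := e10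
  subst e11
  rw [t6d_b X hi hj hij w0 w1 w2 0, t6d_ci_c]

lemma t6d_even (O : Module.End k (P4 X.V)) (B : Module.End k X.V)
    (h1 : ∀ z : P4 X.V, lst (k := k) (O z) = cw B (lst (k := k) z))
    (h2 : ∀ f : ℕ →₀ X.V, O ((0, 0, 0, f) : P4 X.V) = ((0, 0, 0, cw B f) : P4 X.V)) (n : ℕ)
    (z : P4 X.V) :
    ((0, 0, 0, ((n : k) + 1)⁻¹ • dr (k := k) n (lst (k := k) (O z))) : P4 X.V) =
      O ((0, 0, 0, ((n : k) + 1)⁻¹ • dr (k := k) n (lst (k := k) z)) : P4 X.V) := by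
  rw [h1, h2, dr_cw, map_smul]

lemma t6d_hom (hn1 : ((n : k) + 1) ≠ 0) (hi : i ≠ m) (hj : j ≠ m) (hij : i ≠ j) (z z' : P4 X.V)
    (he : X.eps i j z = 0) (hm : X.mu i z = 0) (hl : ∀ l < n, lst (k := k) z' l = 0)
    (hc : t6d_chi (X.y j) (X.y i) z = 0) (q : ℕ →₀ X.V)
    (hq : q = ((n : k) + 1)⁻¹ • dr (k := k) n (lst (k := k) z')) :
    ((t6d_D X i j m ((0, 0, 0, q) : P4 X.V) +
      (t6d_Y X i j m m (t6d_ci (X.y j) (X.y i) z) - t6d_X X i j m m (t6d_ci (X.y j) (X.y i) z)),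
      t6d_A X i j m ((0, 0, 0, q) : P4 X.V) + - t6d_D X i j m (t6d_ci (X.y j) (X.y i) z)) :
        P4 X.V × P4 X.V) +
      (((0, 0, 0, ((n : k) + 1)⁻¹ • dr (k := k) n (lst (k := k) (t6d_A X i j m z +
        - t6d_D X i j m z'))) : P4 X.V), t6d_ci (X.y j) (X.y i) (t6d_D X i j m z +
          (t6d_Y X i j m m z' - t6d_X X i j m m z'))) = (z, z') := by
  have hab : Commute (X.y j) (X.y i) := X.hyy j i
  have hA : lst (k := k) (t6d_A X i j m z) = ((n : k) + 1) • ((sh (k := k)) ^ n) (lst (k := k) z) := by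
    have h := M6_A X hi hj hij z
    rw [he, hm] at h
    simp only [map_zero, zero_add] at h
    exact h
  have hA0 : t6d_A X i j m ((0, 0, 0, q) : P4 X.V) =
      ((0, 0, 0, ((n : k) + 1) • ((sh (k := k)) ^ n) q) : P4 X.V) := M6_A0 X hi hj hij q
  obtain ⟨F0, F1, g, f⟩ := z
  obtain ⟨F0', F1', g', f'⟩ := z'
  have e1 := t6d_c_ci hab F0 F1 g f he hm hc
  have hl' : ∀ l < n, f' l = 0 := hl
  have hq' : q = ((n : k) + 1)⁻¹ • dr (k := k) n f' := hq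
  have hAl : lst (k := k) (t6d_A X i j m ((F0, F1, g, f) : P4 X.V)) =
    ((n : k) + 1) • ((sh (k := k)) ^ n) f := hA
  refine Prod.ext ?_ ?_
  · show t6d_D X i j m ((0, 0, 0, q) : P4 X.V) +
      (t6d_Y X i j m m (t6d_ci (X.y j) (X.y i) ((F0, F1, g, f) : P4 X.V)) -
        t6d_X X i j m m (t6d_ci (X.y j) (X.y i) ((F0, F1, g, f) : P4 X.V))) +
        ((0, 0, 0, ((n : k) + 1)⁻¹ • dr (k := k) n (lst (k := k)
          (t6d_A X i j m ((F0, F1, g, f) : P4 X.V) +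
        - t6d_D X i j m ((F0', F1', g', f') : P4 X.V)))) : P4 X.V) = ((F0, F1, g, f) : P4 X.V)
    rw [t6d_ci_apply, t6d_b X hi hj hij, e1, t6d_Dl, t6d_Dl, map_add, hAl, map_neg]
    have e2 : lst (k := k) ((cw X.d F0', cw X.d F1', cw X.d g', cw X.d f') : P4 X.V) =
      cw X.d f' := rfl
    rw [e2, map_add, map_smul, dr_shp, map_neg, dr_cw, smul_add, smul_smul, inv_mul_cancel₀ hn1,
      one_smul, smul_neg, hq', map_smul]
    refine Prod.ext ?_ (Prod.ext ?_ (Prod.ext ?_ ?_))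
    · show cw X.d 0 + F0 + 0 = F0
      simp
    · show cw X.d 0 + F1 + 0 = F1
      simp
    · show cw X.d 0 + g + 0 = g
      simp
    · show ((n : k) + 1)⁻¹ • cw X.d (dr (k := k) n f') + 0 +
        (f + -(((n : k) + 1)⁻¹ • cw X.d (dr (k := k) n f'))) = f
      abel
  · show t6d_A X i j m ((0, 0, 0, q) : P4 X.V) +
      - t6d_D X i j m (t6d_ci (X.y j) (X.y i) ((F0, F1, g, f) : P4 X.V)) +
      t6d_ci (X.y j) (X.y i) (t6d_D X i j m ((F0, F1, g, f) : P4 X.V) +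
          (t6d_Y X i j m m ((F0', F1', g', f') : P4 X.V) -
            t6d_X X i j m m ((F0', F1', g', f') : P4 X.V))) = ((F0', F1', g', f') : P4 X.V)
    rw [hA0, hq', map_smul, smul_smul, mul_inv_cancel₀ hn1, one_smul, shp_dr _ _ hl', map_add,
      t6d_b X hi hj hij, t6d_ci_c, t6d_Dl X F0 F1 g f, t6d_ci_cw (X.hdy j) (X.hdy i)]
    obtain ⟨w, hw⟩ : ∃ w, w = t6d_ci (X.y j) (X.y i) ((F0, F1, g, f) : P4 X.V) := ⟨_, rfl⟩
    have hw0 : w.2.2.2 = 0 := by rw [hw]; rfl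
    rw [← hw]
    obtain ⟨w0, w1, w2, w3⟩ := w
    have hw1 : w3 = 0 := hw0
    subst hw1
    rw [t6d_Dl]
    refine Prod.ext ?_ (Prod.ext ?_ (Prod.ext ?_ ?_))
    · show 0 + -(cw X.d w0) + (cw X.d w0 + F0') = F0'
      abel
    · show 0 + -(cw X.d w1) + (cw X.d w1 + F1') = F1'
      abel
    · show 0 + -(cw X.d w2) + (cw X.d w2 + g') = g'
      abel
    · show f' + -(cw X.d 0) + (0 + 0) = f'
      simp

/-- The homotopy commutes with the tops. -/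
lemma t6d_h_y (hi : i ≠ m) (hj : j ≠ m) (hij : i ≠ j) {l : ℕ} (hl : l ≠ m) (z z' : P4 X.V)
    (he : X.eps i j z = 0) (hm : X.mu i z = 0)
    (hc : t6d_chi (X.y j) (X.y i) z = 0) :
    t6d_h X n (X.y j) (X.y i) (t6d_Y X i j m l z, t6d_Y X i j m l z') =
      (t6d_Y X i j m l (t6d_h X n (X.y j) (X.y i) (z, z')).1,
        t6d_Y X i j m l (t6d_h X n (X.y j) (X.y i) (z, z')).2) := by
  rw [t6d_h_apply, t6d_h_apply]
  obtain ⟨F0, F1, g, f⟩ := z
  by_cases h1 : l = j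
  · subst h1
    refine Prod.ext ?_ ?_
    · refine t6d_even X _ (X.y l) ?_ ?_ n z'
      · rintro ⟨G0, G1, G2, G3⟩
        rw [t6d_Yj X hi hj hij]
        rfl
      · intro q
        rw [t6d_Yj X hi hj hij, map_zero, map_zero]
    · refine t6d_ci_op X hi hj hij F0 F1 g f he hm hc ?_ ?_
      · intro q
        refine ⟨cw (X.y l) q, ?_⟩
        rw [t6d_Yj X hi hj hij, map_zero, map_zero]
      · intro G0 G1 G2
        rw [t6d_Yj X hi hj hij]
        exact map_zero _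
  by_cases h2 : l = i
  · subst h2
    refine Prod.ext ?_ ?_
    · refine t6d_even X _ (X.y l) ?_ ?_ n z'
      · rintro ⟨G0, G1, G2, G3⟩
        rw [t6d_Yi X hi hj hij]
        rfl
      · intro q
        rw [t6d_Yi X hi hj hij]
        simp
    · refine t6d_ci_op X hi hj hij F0 F1 g f he hm hc ?_ ?_
      · intro q
        refine ⟨cw (X.y l) q, ?_⟩
        rw [t6d_Yi X hi hj hij]
        simp
      · intro G0 G1 G2
        rw [t6d_Yi X hi hj hij]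
        exact map_zero _
  refine Prod.ext ?_ ?_
  · refine t6d_even X _ (X.y l) ?_ ?_ n z'
    · rintro ⟨G0, G1, G2, G3⟩
      rw [t6d_Yl X h2 h1 hl]
      rfl
    · intro q
      rw [t6d_Yl X h2 h1 hl, map_zero]
  · show t6d_ci (X.y j) (X.y i) (t6d_Y X i j m l ((F0, F1, g, f) : P4 X.V)) =
      t6d_Y X i j m l (t6d_ci (X.y j) (X.y i) ((F0, F1, g, f) : P4 X.V))
    rw [t6d_Yl X h2 h1 hl, t6d_ci_cw (X.hyy l j) (X.hyy l i), t6d_ci_apply, t6d_Yl X h2 h1 hl,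
      map_zero]

/-- The homotopy commutes with the bottoms. -/
lemma t6d_h_x {l : ℕ} (hl : l ≠ m) (z z' : P4 X.V) :
    t6d_h X n (X.y j) (X.y i) (t6d_X X i j m l z, t6d_X X i j m l z') =
      (t6d_X X i j m l (t6d_h X n (X.y j) (X.y i) (z, z')).1,
        t6d_X X i j m l (t6d_h X n (X.y j) (X.y i) (z, z')).2) := by
  rw [t6d_h_apply, t6d_h_apply]
  obtain ⟨F0, F1, g, f⟩ := z
  refine Prod.ext ?_ ?_
  · refine t6d_even X _ (X.x l) ?_ ?_ n z'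
    · rintro ⟨G0, G1, G2, G3⟩
      rw [t6d_Xl X hl]
      rfl
    · intro q
      rw [t6d_Xl X hl, map_zero]
  · show t6d_ci (X.y j) (X.y i) (t6d_X X i j m l ((F0, F1, g, f) : P4 X.V)) =
      t6d_X X i j m l (t6d_ci (X.y j) (X.y i) ((F0, F1, g, f) : P4 X.V))
    rw [t6d_Xl X hl, t6d_ci_cw (X.hxy l j) (X.hxy l i), t6d_ci_apply, t6d_Xl X hl,
      map_zero]

end T6dMain

variable {k : Type} [Field k] {lam : k} {n : ℕ}

theorem T6_chi (X : Ob k lam n) {i j m : ℕ} (hn1 : ((n : k) + 1) ≠ 0) (hi : i < m) (hj : j < m)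
    (hij : i ≠ j) {L : List (ℕ × ℕ)} (hL : ∀ a ∈ L, a.1 < m ∧ a.2 < m)
    (hfl : Flat (T6Y X hi hj hij) L) : HE (T6Y X hi hj hij) (X.S i j) L := by
  have hi' : i ≠ m := hi.ne
  have hj' : j ≠ m := hj.ne
  have hab : Commute (X.y j) (X.y i) := X.hyy j i
  let f : (T6Y X hi hj hij).V →ₗ[k] (X.S i j).V :=
    (t6d_chi (X.y j) (X.y i) ∘ₗ LinearMap.fst k (P4 X.V) (P4 X.V) ∘ₗ (T6K X i j).subtype :
      (T6K X i j) →ₗ[k] X.V)
  have hMor : Mor {l | l < m} (T6Y X hi hj hij) (X.S i j) f := by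
    refine ⟨?_, ?_, ?_, ?_⟩
    · intro l hl v
      have hl' : l < m := hl
      obtain ⟨w, hw⟩ : ∃ w : T6K X i j, w = v := ⟨v, rfl⟩
      subst hw
      have e := congrArg (fun w : P4 X.V × P4 X.V => t6d_chi (X.y j) (X.y i) w.1)
        (t6d_Cy X (i := i) (j := j) hl' w.1)
      refine Eq.trans e ?_
      obtain ⟨⟨⟨F0, F1, g, q⟩, z'⟩, hz⟩ := w
      show t6d_chi (X.y j) (X.y i) (t6d_Y X i j m l ((F0, F1, g, q) : P4 X.V)) =
          X.y (Equiv.swap i j l) (t6d_chi (X.y j) (X.y i) ((F0, F1, g, q) : P4 X.V))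
      by_cases h1 : l = j
      · subst h1
        rw [Equiv.swap_apply_right]
        exact t6d_chi_yj X hi' hj' hij _ hz.1
      by_cases h2 : l = i
      · subst h2
        rw [Equiv.swap_apply_left]
        exact t6d_chi_yi X hi' hj' hij _ hz.1
      rw [Equiv.swap_apply_of_ne_of_ne h2 h1, t6d_Yl X h2 h1 hl'.ne,
        t6d_chi_cw (X.hyy l j) (X.hyy l i)]
    · intro l hl v
      have hl' : l < m := hl
      obtain ⟨w, hw⟩ : ∃ w : T6K X i j, w = v := ⟨v, rfl⟩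
      subst hw
      have e := congrArg (fun w : P4 X.V × P4 X.V => t6d_chi (X.y j) (X.y i) w.1)
        (t6d_Cx X (i := i) (j := j) hl' w.1)
      refine Eq.trans e ?_
      obtain ⟨⟨⟨F0, F1, g, q⟩, z'⟩, hz⟩ := w
      show t6d_chi (X.y j) (X.y i) (t6d_X X i j m l ((F0, F1, g, q) : P4 X.V)) =
          X.x l (t6d_chi (X.y j) (X.y i) ((F0, F1, g, q) : P4 X.V))
      rw [t6d_Xl X hl'.ne, t6d_chi_cw (X.hxy l j) (X.hxy l i)]
    · intro v
      obtain ⟨w, hw⟩ : ∃ w : T6K X i j, w = v := ⟨v, rfl⟩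
      subst hw
      obtain ⟨⟨⟨F0, F1, g, q⟩, ⟨F0', F1', g', q'⟩⟩, hz⟩ := w
      show t6d_chi (X.y j) (X.y i) (t6d_D X i j m ((F0, F1, g, q) : P4 X.V) +
        (t6d_Y X i j m m ((F0', F1', g', q') : P4 X.V) -
          t6d_X X i j m m ((F0', F1', g', q') : P4 X.V))) =
          X.d (t6d_chi (X.y j) (X.y i) ((F0, F1, g, q) : P4 X.V))
      rw [map_add, t6d_b X hi' hj' hij, t6d_chi_c hab, add_zero, t6d_Dl,
        t6d_chi_cw (X.hdy j) (X.hdy i)]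
    · intro v
      obtain ⟨w, hw⟩ : ∃ w : T6K X i j, w = v := ⟨v, rfl⟩
      subst hw
      obtain ⟨⟨⟨F0, F1, g, q⟩, ⟨F0', F1', g', q'⟩⟩, hz⟩ := w
      show t6d_chi (X.y j) (X.y i) ((X.M6 i j m).T ((F0, F1, g, q) : P4 X.V) : P4 X.V) =
          X.T (t6d_chi (X.y j) (X.y i) ((F0, F1, g, q) : P4 X.V))
      have e : ((X.M6 i j m).T ((F0, F1, g, q) : P4 X.V) : P4 X.V) = _ :=
        M6_T X F0 F1 g q
      have e2 : t6d_chi (X.y j) (X.y i) ((F0, F1, g, q) : P4 X.V) =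
        t6d_chi (X.y j) (X.y i) ((F0, F1, 0, 0) : P4 X.V) := rfl
      rw [e2, ← t6d_chi_T X.ne (X.hTy j) (X.hTy i)]
      exact congrArg _ e
  have hS : Function.Surjective f := by
    intro v
    obtain ⟨w, hw⟩ : ∃ w : X.V, w = v := ⟨v, rfl⟩
    subst hw
    have hmem : ((((Cc (k := k) (X.y j w) - sh (k := k) (Cc (k := k) w), 0, 0, 0) : P4 X.V),
      (0 : P4 X.V)) : P4 X.V × P4 X.V) ∈ T6K X i j := by
      refine ⟨?_, ?_, ?_⟩
      · show X.eps i j ((Cc (k := k) (X.y j w) - sh (k := k) (Cc (k := k) w), 0, 0, 0) : P4 X.V) = 0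
        rw [t6d_eps, map_sub, ev_Cc, ev_sh, ev_Cc]
        simp
      · show X.mu i ((Cc (k := k) (X.y j w) - sh (k := k) (Cc (k := k) w), 0, 0, 0) : P4 X.V) = 0
        rw [t6d_mu, map_zero]
      · intro l _
        rfl
    refine ⟨(⟨_, hmem⟩ : T6K X i j), ?_⟩
    show t6d_chi (X.y j) (X.y i) ((Cc (k := k) (X.y j w) - sh (k := k) (Cc (k := k) w),
        0, 0, 0) : P4 X.V) = w
    rw [t6d_chi_apply, map_sub, Dq_Cc, Dq_sh, Dq_Cc]
    simp
  have hSt : St {l | l < m} (T6Y X hi hj hij) (LinearMap.ker f) := by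
    refine ⟨fun l hl v hv => ?_, fun l hl v hv => ?_, fun v hv => ?_⟩
    · rw [LinearMap.mem_ker] at hv ⊢
      rw [hMor.1 l hl, hv, map_zero]
    · rw [LinearMap.mem_ker] at hv ⊢
      rw [hMor.2.1 l hl, hv, map_zero]
    · rw [LinearMap.mem_ker] at hv ⊢
      rw [hMor.2.2.1, hv, map_zero]
  have hSt0 : St {l | l < m} (T6Y X hi hj hij) ⊥ := by
    refine ⟨fun l hl v hv => ?_, fun l hl v hv => ?_, fun v hv => ?_⟩
    all_goals
      rw [Submodule.mem_bot] at hv ⊢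
      rw [hv, map_zero]
  have hK : ∀ z, t6d_h X n (X.y j) (X.y i) z ∈ T6K X i j := by
    intro z
    refine ⟨?_, ?_, fun l _ => rfl⟩
    · show ev (X.y j) 0 + X.y i (ev (X.y j) 0) = 0
      simp
    · show ev (X.y i) 0 = 0
      simp
  let h : Module.End k (T6Y X hi hj hij).V :=
    ((t6d_h X n (X.y j) (X.y i)).restrict (fun z _ => hK z) : (T6K X i j) →ₗ[k] (T6K X i j))
  refine he_surj (A := {l | l < m}) f hMor hS (Relation.ReflTransGen.single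
    ⟨bot_le, hSt0, hSt, h, ?_, ?_, ?_, ?_, ?_⟩) hL hfl
  · intro v _
    rw [LinearMap.mem_ker]
    show ev (X.y j) 0 - ev (X.y i) (Dq (X.y j) 0) - X.y j (ev (X.y i) (Dq (X.y j) 0)) = 0
    simp
  · intro v hv
    rw [Submodule.mem_bot] at hv ⊢
    rw [hv, map_zero]
  · intro v hv
    rw [Submodule.mem_bot, sub_eq_zero]
    rw [LinearMap.mem_ker] at hv
    obtain ⟨w, hw⟩ : ∃ w : T6K X i j, w = v := ⟨v, rfl⟩
    subst hw
    apply Subtype.ext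
    exact t6d_hom X hn1 hi' hj' hij w.1.1 w.1.2 w.2.1 w.2.2.1 w.2.2.2 hv _ rfl
  · intro l hl v hv
    rw [Submodule.mem_bot, sub_eq_zero]
    rw [LinearMap.mem_ker] at hv
    obtain ⟨w, hw⟩ : ∃ w : T6K X i j, w = v := ⟨v, rfl⟩
    subst hw
    have hl' : l < m := hl
    apply Subtype.ext
    refine Eq.trans (congrArg (t6d_h X n (X.y j) (X.y i))
      (t6d_Cy X (i := i) (j := j) hl' w.1)) ?_
    refine Eq.trans ?_ (t6d_Cy X (i := i) (j := j) hl' (t6d_h X n (X.y j) (X.y i) w.1)).symm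
    exact t6d_h_y X hi' hj' hij hl'.ne w.1.1 w.1.2 w.2.1 w.2.2.1 hv
  · intro l hl v hv
    rw [Submodule.mem_bot, sub_eq_zero]
    obtain ⟨w, hw⟩ : ∃ w : T6K X i j, w = v := ⟨v, rfl⟩
    subst hw
    have hl' : l < m := hl
    apply Subtype.ext
    refine Eq.trans (congrArg (t6d_h X n (X.y j) (X.y i))
      (t6d_Cx X (i := i) (j := j) hl' w.1)) ?_
    refine Eq.trans ?_ (t6d_Cx X (i := i) (j := j) hl' (t6d_h X n (X.y j) (X.y i) w.1)).symm
    exact t6d_h_x X hl'.ne w.1.1 w.1.2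

end ZM
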