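import Pool.Agent.H75.ZM.Sum

/-!
# The triangle, first part (row ZM Tri1)

`X.F3 p q r`: the polynomials in the roots `phi` (new top `p`) and `psi` (new top `q`) of the
polynomial with roots `y p, y q, y r`: `V = (V x V x V) x (V x V x V)`, an element is
`p0 + p1 phi + p2 phi^2 + (q0 + q1 phi + q2 phi^2) psi`, `phi^3 = e1 phi^2 - e2 phi + e3`,
`psi^2 = (e1 - phi) psi - (e2 - phi (e1 - phi))`; the new top `r` is `e1 - phi - psi`.

`tri_split`: let `a = X.y i`, `b = X.y j`, `c = X.y l`.  In `((X.E i j).E l j).E i j` let `theta` be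
the first root (`theta^2 = (a+b) theta - a b`), `phi` the second, root of
`(t - c)(t - (a + b - theta))`, `psi` the third, root of `(t - theta)(t - (a + b - theta + c - phi))`;
the tops are: `l`: `phi`, `i`: `psi`, `j`: `e1 - phi - psi`.  The map from `(X.F3 l i j).sum (X.E i j)`,
`((p, q), (w0, w1)) ↦ p(phi) + q(phi) psi + g (w0 + w1 psi)`, `g = phi - (a + b - theta)`, is an
isomorphism: `phi^2 = - c (a+b) + c theta + e1 phi - theta phi`, so on the coordinates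
`(1, theta, phi, theta phi)` it is
`(p0, p1, p2, w) ↦ (p0 - c (a+b) p2 - (a+b) w, c p2 + w, p1 + e1 p2 + w, - p2)` (for both powers of
`psi`), with inverse `p2 = - u3`, `w = u1 + c u3`, `p1 = u2 + (a + b) u3 - u1`,
`p0 = u0 + (a+b) u1`.
It intertwines `phi`: `phi g = c g`, and `phi * (theta phi) = (c theta + a b) phi - a b c`;
it intertwines `psi`: `theta + (e1 - theta - phi) = e1 - phi`,
`theta (e1 - theta - phi) = a b + theta (c - phi) = e2 - phi (e1 - phi)`, and on `g`, where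
`phi = c`: `psi^2 = (a + b) psi - a b`.  Weights: `F3` has
`T (p, q) = (lam^-3 T p0, lam^-1 T p1, lam T p2; lam^-1 T q0, lam T q1, lam^3 T q2)`.
-/

namespace ZM

variable {k : Type} [Field k] {lam : k} {n : ℕ}

section

variable {V : Type} [AddCommGroup V] [Module k V]

/-- Multiplication by `phi` on `V x V x V`. -/
def phiOp (e1 e2 e3 : Module.End k V) : Module.End k (V × V × V) where
  toFun p := (e3 p.2.2, p.1 - e2 p.2.2, p.2.1 + e1 p.2.2)
  map_add' p q := by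
    simp only [Prod.fst_add, Prod.snd_add, map_add, Prod.mk_add_mk, Prod.mk.injEq]
    exact ⟨trivial, by abel, by abel⟩
  map_smul' c p := by
    simp only [Prod.smul_fst, Prod.smul_snd, map_smul, RingHom.id_apply, Prod.smul_mk, smul_add,
      smul_sub]

/-- The diagonal operator on `V x V x V`. -/
def dg3 (A : Module.End k V) : Module.End k (V × V × V) := A.prodMap (A.prodMap A)

/-- The diagonal operator with three entries. -/
def pm3 (A B C : Module.End k V) : Module.End k (V × V × V) := A.prodMap (B.prodMap C)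

end


section

variable {V : Type} [AddCommGroup V] [Module k V]

lemma tri1_ext3 {W : Type} [AddCommGroup W] [Module k W] {f g : (V × V × V) →ₗ[k] W}
    (h : ∀ a b c, f (a, b, c) = g (a, b, c)) : f = g := by
  apply LinearMap.ext
  rintro ⟨a, b, c⟩
  exact h a b c

@[simp] lemma tri1_phi_apply (e1 e2 e3 : Module.End k V) (a b c : V) :
    phiOp e1 e2 e3 (a, b, c) = (e3 c, a - e2 c, b + e1 c) := rfl

@[simp] lemma tri1_dg3_apply (A : Module.End k V) (a b c : V) :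
    dg3 A (a, b, c) = (A a, A b, A c) := rfl

@[simp] lemma tri1_pm3_apply (A B C : Module.End k V) (a b c : V) :
    pm3 A B C (a, b, c) = (A a, B b, C c) := rfl

lemma tri1_cv {A B : Module.End k V} (h : Commute A B) (v : V) : A (B v) = B (A v) :=
  LinearMap.congr_fun h.eq v

lemma tri1_dg3_comm {A B : Module.End k V} (h : Commute A B) : Commute (dg3 A) (dg3 B) := by
  apply tri1_ext3
  intro a b c
  simp only [Module.End.mul_apply, tri1_dg3_apply, tri1_cv h]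

lemma tri1_phi_comm {e1 e2 e3 A : Module.End k V} (h1 : Commute e1 A) (h2 : Commute e2 A)
    (h3 : Commute e3 A) : Commute (phiOp e1 e2 e3) (dg3 A) := by
  apply tri1_ext3
  intro a b c
  simp only [Module.End.mul_apply, tri1_dg3_apply, tri1_phi_apply, tri1_cv h1, tri1_cv h2,
    tri1_cv h3, map_sub, map_add]

lemma tri1_blk_comm {B D A : Module.End k V} (h1 : Commute B A) (h2 : Commute D A) :
    Commute (blk 0 (-B) 1 D) (dg A) := by
  show _ * _ = _ * _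
  simp only [dg_blk, blk_mul, mul_zero, zero_mul, add_zero, zero_add, mul_one, one_mul, neg_mul,
    mul_neg, h1.eq, h2.eq, neg_zero]

lemma tri1_dg3_mul (A B : Module.End k V) : dg3 A * dg3 B = dg3 (A * B) := rfl

end

/-- The operators of `X.F3 p q r`. -/
def Ob.yF (X : Ob k lam n) (p q r l : ℕ) :
    Module.End k ((X.V × X.V × X.V) × (X.V × X.V × X.V)) :=
  let e1 := X.y p + X.y q + X.y r
  let e2 := X.y p * X.y q + X.y p * X.y r + X.y q * X.y r
  let e3 := X.y p * X.y q * X.y r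
  let phi := phiOp e1 e2 e3
  let psi := blk 0 (-(dg3 e2 - phi * (dg3 e1 - phi))) 1 (dg3 e1 - phi)
  if l = p then dg phi else if l = q then psi
  else if l = r then dg (dg3 e1) - dg phi - psi else dg (dg3 (X.y l))


section

variable (X : Ob k lam n) (p q r : ℕ)

/-- `e1`. -/
def tri1_E1 : Module.End k X.V := X.y p + X.y q + X.y r

/-- `e2`. -/
def tri1_E2 : Module.End k X.V := X.y p * X.y q + X.y p * X.y r + X.y q * X.y r

/-- `e3`. -/
def tri1_E3 : Module.End k X.V := X.y p * X.y q * X.y r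

/-- `phi`. -/
def tri1_Ph : Module.End k (X.V × X.V × X.V) :=
  phiOp (tri1_E1 X p q r) (tri1_E2 X p q r) (tri1_E3 X p q r)

/-- `psi`. -/
def tri1_Ps : Module.End k ((X.V × X.V × X.V) × (X.V × X.V × X.V)) :=
  blk 0 (-(dg3 (tri1_E2 X p q r) - tri1_Ph X p q r * (dg3 (tri1_E1 X p q r) - tri1_Ph X p q r))) 1
    (dg3 (tri1_E1 X p q r) - tri1_Ph X p q r)

lemma tri1_yF (l : ℕ) : X.yF p q r l = if l = p then dg (tri1_Ph X p q r) else
    if l = q then tri1_Ps X p q r else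
    if l = r then dg (dg3 (tri1_E1 X p q r)) - dg (tri1_Ph X p q r) - tri1_Ps X p q r
    else dg (dg3 (X.y l)) := rfl

lemma tri1_e1 {A : Module.End k X.V} (h : ∀ t, Commute A (X.y t)) :
    Commute (tri1_E1 X p q r) A :=
  (((h p).add_right (h q)).add_right (h r)).symm

lemma tri1_e2 {A : Module.End k X.V} (h : ∀ t, Commute A (X.y t)) :
    Commute (tri1_E2 X p q r) A :=
  ((((h p).mul_right (h q)).add_right ((h p).mul_right (h r))).add_right
    ((h q).mul_right (h r))).symm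

lemma tri1_e3 {A : Module.End k X.V} (h : ∀ t, Commute A (X.y t)) :
    Commute (tri1_E3 X p q r) A :=
  (((h p).mul_right (h q)).mul_right (h r)).symm

lemma tri1_yF_of {B : Module.End k ((X.V × X.V × X.V) × (X.V × X.V × X.V))} (l : ℕ)
    (h1 : Commute (dg (tri1_Ph X p q r)) B) (h2 : Commute (tri1_Ps X p q r) B)
    (h3 : Commute (dg (dg3 (tri1_E1 X p q r))) B)
    (h4 : ∀ t, Commute (dg (dg3 (X.y t))) B) : Commute (X.yF p q r l) B := by
  rw [tri1_yF]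
  split_ifs
  exacts [h1, h2, (h3.sub_left h1).sub_left h2, h4 l]

lemma tri1_ph_dg3 {A : Module.End k X.V} (h : ∀ t, Commute A (X.y t)) :
    Commute (tri1_Ph X p q r) (dg3 A) :=
  tri1_phi_comm (tri1_e1 X p q r h) (tri1_e2 X p q r h) (tri1_e3 X p q r h)

lemma tri1_ps_dg {A : Module.End k (X.V × X.V × X.V)} (h1 : Commute (dg3 (tri1_E1 X p q r)) A)
    (h2 : Commute (dg3 (tri1_E2 X p q r)) A) (h : Commute (tri1_Ph X p q r) A) :
    Commute (tri1_Ps X p q r) (dg A) :=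
  tri1_blk_comm (h2.sub_left (h.mul_left (h1.sub_left h))) (h1.sub_left h)

lemma tri1_ps_dg3 {A : Module.End k X.V} (h : ∀ t, Commute A (X.y t)) :
    Commute (tri1_Ps X p q r) (dg (dg3 A)) :=
  tri1_ps_dg X p q r (tri1_dg3_comm (tri1_e1 X p q r h)) (tri1_dg3_comm (tri1_e2 X p q r h))
    (tri1_ph_dg3 X p q r h)

lemma tri1_dg_yF {A : Module.End k X.V} (h : ∀ t, Commute A (X.y t)) (l : ℕ) :
    Commute (X.yF p q r l) (dg (dg3 A)) :=
  tri1_yF_of X p q r l (dg_comm (tri1_ph_dg3 X p q r h)) (tri1_ps_dg3 X p q r h)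
    (dg_comm (tri1_dg3_comm (tri1_e1 X p q r h))) fun t => dg_comm (tri1_dg3_comm (h t).symm)

lemma tri1_e1y (t : ℕ) : Commute (tri1_E1 X p q r) (X.y t) :=
  tri1_e1 X p q r fun s => X.hyy t s

lemma tri1_e2y (t : ℕ) : Commute (tri1_E2 X p q r) (X.y t) :=
  tri1_e2 X p q r fun s => X.hyy t s

lemma tri1_e1_ph : Commute (dg3 (tri1_E1 X p q r)) (tri1_Ph X p q r) :=
  (tri1_ph_dg3 X p q r fun t => tri1_e1y X p q r t).symm

lemma tri1_e2_ph : Commute (dg3 (tri1_E2 X p q r)) (tri1_Ph X p q r) :=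
  (tri1_ph_dg3 X p q r fun t => tri1_e2y X p q r t).symm

lemma tri1_ps_ph : Commute (tri1_Ps X p q r) (dg (tri1_Ph X p q r)) :=
  tri1_ps_dg X p q r (tri1_e1_ph X p q r) (tri1_e2_ph X p q r) (Commute.refl _)

lemma tri1_ph_yF (l : ℕ) : Commute (X.yF p q r l) (dg (tri1_Ph X p q r)) :=
  tri1_yF_of X p q r l (Commute.refl _) (tri1_ps_ph X p q r)
    (dg_comm (tri1_e1_ph X p q r)) fun t => dg_comm (tri1_ph_dg3 X p q r fun s => X.hyy t s).symm

lemma tri1_ps_yF (l : ℕ) : Commute (X.yF p q r l) (tri1_Ps X p q r) :=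
  tri1_yF_of X p q r l (tri1_ps_ph X p q r).symm (Commute.refl _)
    (tri1_ps_dg3 X p q r fun t => tri1_e1y X p q r t).symm
    fun t => (tri1_ps_dg3 X p q r fun s => X.hyy t s).symm

lemma tri1_yF_yF (l m : ℕ) : Commute (X.yF p q r l) (X.yF p q r m) :=
  tri1_yF_of X p q r l (tri1_ph_yF X p q r m).symm (tri1_ps_yF X p q r m).symm
    (tri1_dg_yF X p q r (fun t => tri1_e1y X p q r t) m).symm
    fun t => (tri1_dg_yF X p q r (fun s => X.hyy t s) m).symm

/-! ### the grading operator -/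

/-- The first block of `T`. -/
def tri1_tau : Module.End k (X.V × X.V × X.V) :=
  pm3 ((lam⁻¹) ^ 3 • X.T) (lam⁻¹ • X.T) (lam • X.T)

lemma tri1_T : pm (pm3 ((lam⁻¹) ^ 3 • X.T) (lam⁻¹ • X.T) (lam • X.T))
    (pm3 (lam⁻¹ • X.T) (lam • X.T) (lam ^ 3 • X.T)) =
    pm (tri1_tau X) (lam ^ 2 • tri1_tau X) := by
  have hl := X.ne
  have e1 : lam ^ 2 * (lam⁻¹) ^ 3 = lam⁻¹ := by field_simp
  have e2 : lam ^ 2 * lam⁻¹ = lam := by field_simp
  have e3 : lam ^ 2 * lam = lam ^ 3 := by ring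
  congr 1
  apply tri1_ext3
  intro a b c
  simp only [tri1_tau, tri1_pm3_apply, LinearMap.smul_apply, Prod.smul_mk, smul_smul, e1, e2, e3]

lemma tri1_tau_dg3 {A : Module.End k X.V} {c : k} (h : X.T * A = c • (A * X.T)) :
    tri1_tau X * dg3 A = c • (dg3 A * tri1_tau X) := by
  have h' : ∀ v, X.T (A v) = c • A (X.T v) := LinearMap.congr_fun h
  apply tri1_ext3
  intro a b d
  simp only [tri1_tau, Module.End.mul_apply, tri1_pm3_apply, tri1_dg3_apply, LinearMap.smul_apply,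
    Prod.smul_mk, h', map_smul, smul_smul, mul_comm c]

lemma tri1_TE1 : X.T * tri1_E1 X p q r = lam ^ 2 • (tri1_E1 X p q r * X.T) := by
  simp only [tri1_E1, mul_add, add_mul, smul_add, X.hTy]

lemma tri1_Tyy (p q : ℕ) : X.T * (X.y p * X.y q) = (lam ^ 2) ^ 2 • ((X.y p * X.y q) * X.T) := by
  rw [← mul_assoc, X.hTy, smul_mul_assoc, mul_assoc, X.hTy, mul_smul_comm, smul_smul,
    ← mul_assoc, sq (lam ^ 2)]

lemma tri1_TE2 : X.T * tri1_E2 X p q r = (lam ^ 2) ^ 2 • (tri1_E2 X p q r * X.T) := by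
  simp only [tri1_E2, mul_add, add_mul, smul_add, tri1_Tyy]

lemma tri1_TE3 : X.T * tri1_E3 X p q r = (lam ^ 2) ^ 3 • (tri1_E3 X p q r * X.T) := by
  rw [tri1_E3, ← mul_assoc, tri1_Tyy, smul_mul_assoc, mul_assoc, X.hTy, mul_smul_comm, smul_smul,
    ← mul_assoc, ← pow_succ]

lemma tri1_tau_ph : tri1_tau X * tri1_Ph X p q r = lam ^ 2 • (tri1_Ph X p q r * tri1_tau X) := by
  have hl := X.ne
  have h1 : ∀ v, X.T (tri1_E1 X p q r v) = lam ^ 2 • tri1_E1 X p q r (X.T v) :=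
    LinearMap.congr_fun (tri1_TE1 X p q r)
  have h2 : ∀ v, X.T (tri1_E2 X p q r v) = (lam ^ 2) ^ 2 • tri1_E2 X p q r (X.T v) :=
    LinearMap.congr_fun (tri1_TE2 X p q r)
  have h3 : ∀ v, X.T (tri1_E3 X p q r v) = (lam ^ 2) ^ 3 • tri1_E3 X p q r (X.T v) :=
    LinearMap.congr_fun (tri1_TE3 X p q r)
  apply tri1_ext3
  intro a b c
  simp only [tri1_tau, tri1_Ph, Module.End.mul_apply, tri1_pm3_apply, tri1_phi_apply,
    LinearMap.smul_apply, Prod.smul_mk, map_smul, map_add, map_sub, smul_add, smul_sub, smul_smul,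
    h1, h2, h3]
  refine Prod.ext ?_ (Prod.ext ?_ ?_)
  · congr 1
    field_simp
  · congr 2
    field_simp
  · congr 2
    field_simp

lemma tri1_T_dg {τ A : Module.End k (X.V × X.V × X.V)} {c : k} (h : τ * A = c • (A * τ)) :
    pm τ (lam ^ 2 • τ) * dg A = c • (dg A * pm τ (lam ^ 2 • τ)) := by
  rw [pm_blk, dg_blk, blk_mul, blk_mul, blk_smul]
  congr 1
  · simp only [mul_zero, add_zero, h]
  · simp
  · simp
  · simp only [mul_zero, add_zero, zero_mul, zero_add, smul_mul_assoc, mul_smul_comm, h,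
      smul_smul]
    rw [mul_comm]

lemma tri1_T_ps : pm (tri1_tau X) (lam ^ 2 • tri1_tau X) * tri1_Ps X p q r =
    lam ^ 2 • (tri1_Ps X p q r * pm (tri1_tau X) (lam ^ 2 • tri1_tau X)) := by
  have h1 := tri1_tau_ph X p q r
  have h2 := tri1_tau_dg3 X (tri1_TE1 X p q r)
  have h3 := tri1_tau_dg3 X (tri1_TE2 X p q r)
  have h4 : tri1_tau X * (dg3 (tri1_E1 X p q r) - tri1_Ph X p q r) =
      lam ^ 2 • ((dg3 (tri1_E1 X p q r) - tri1_Ph X p q r) * tri1_tau X) := by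
    rw [mul_sub, h1, h2, sub_mul, smul_sub]
  have h5 : tri1_tau X * (dg3 (tri1_E2 X p q r) -
      tri1_Ph X p q r * (dg3 (tri1_E1 X p q r) - tri1_Ph X p q r)) =
      (lam ^ 2) ^ 2 • ((dg3 (tri1_E2 X p q r) -
      tri1_Ph X p q r * (dg3 (tri1_E1 X p q r) - tri1_Ph X p q r)) * tri1_tau X) := by
    rw [mul_sub, h3, ← mul_assoc, h1, smul_mul_assoc, mul_assoc, h4, mul_smul_comm, smul_smul,
      sub_mul (dg3 (tri1_E2 X p q r)), smul_sub, ← sq, ← mul_assoc]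
  rw [pm_blk, tri1_Ps, blk_mul, blk_mul, blk_smul]
  congr 1
  · simp
  · simp only [zero_mul, mul_zero, add_zero, zero_add, mul_smul_comm, smul_smul, ← sq (lam ^ 2)]
    have h6 : ∀ B : Module.End k (X.V × X.V × X.V),
        tri1_tau X * B = (lam ^ 2) ^ 2 • (B * tri1_tau X) →
        tri1_tau X * (-B) = (lam ^ 2) ^ 2 • ((-B) * tri1_tau X) := by
      intro B hB
      apply LinearMap.ext
      intro v
      have hv := LinearMap.congr_fun hB v
      simp only [Module.End.mul_apply, LinearMap.smul_apply, LinearMap.neg_apply, map_neg,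
        smul_neg] at hv ⊢
      rw [hv]
    exact h6 _ h5
  · simp only [mul_zero, add_zero, zero_add, zero_mul, mul_one, one_mul]
  · simp only [mul_zero, add_zero, zero_add, zero_mul, mul_one, one_mul, smul_mul_assoc, h4,
      mul_smul_comm]

lemma tri1_T_yF (l : ℕ) : pm (tri1_tau X) (lam ^ 2 • tri1_tau X) * X.yF p q r l =
    lam ^ 2 • (X.yF p q r l * pm (tri1_tau X) (lam ^ 2 • tri1_tau X)) := by
  have h1 := tri1_T_dg X (tri1_tau_ph X p q r)
  have h2 := tri1_T_ps X p q r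
  have h3 := tri1_T_dg X (tri1_tau_dg3 X (tri1_TE1 X p q r))
  rw [tri1_yF]
  split_ifs
  · exact h1
  · exact h2
  · rw [mul_sub, mul_sub, h1, h2, h3, sub_mul, sub_mul, smul_sub, smul_sub]
  · exact tri1_T_dg X (tri1_tau_dg3 X (X.hTy l))

end

/-- The object `F3`. -/
def Ob.F3 (X : Ob k lam n) (p q r : ℕ) : Ob k lam n where
  V := (X.V × X.V × X.V) × (X.V × X.V × X.V)
  y l := X.yF p q r l
  x l := dg (dg3 (X.x l))
  d := dg (dg3 X.d)
  T := pm (pm3 ((lam⁻¹) ^ 3 • X.T) (lam⁻¹ • X.T) (lam • X.T))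
    (pm3 (lam⁻¹ • X.T) (lam • X.T) (lam ^ 3 • X.T))
  hyy i j := tri1_yF_yF X p q r i j
  hxx i j := dg_comm (tri1_dg3_comm (X.hxx i j))
  hxy i j := (tri1_dg_yF X p q r (fun t => X.hxy i t) j).symm
  hdy i := (tri1_dg_yF X p q r (fun t => X.hdy t) i).symm
  hdx i := dg_comm (tri1_dg3_comm (X.hdx i))
  hTy i := by rw [tri1_T]; exact tri1_T_yF X p q r i
  hTx i := by rw [tri1_T]; exact tri1_T_dg X (tri1_tau_dg3 X (X.hTx i))
  hTd := by rw [tri1_T]; exact tri1_T_dg X (tri1_tau_dg3 X X.hTd)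
  ne := X.ne

section

/-- The operators of `X` other than `T`. -/
def tri1_ops (X : Ob k lam n) : Set (Module.End k X.V) := Set.range X.y ∪ Set.range X.x ∪ {X.d}

lemma tri1_ops_comm (X : Ob k lam n) : ∀ a ∈ tri1_ops X, ∀ b ∈ tri1_ops X, a * b = b * a := by
  rintro a ((⟨i, rfl⟩ | ⟨i, rfl⟩) | rfl) b ((⟨j, rfl⟩ | ⟨j, rfl⟩) | rfl)
  · exact (X.hyy i j).eq
  · exact (X.hxy j i).symm.eq
  · exact (X.hdy i).symm.eq
  · exact (X.hxy i j).eq
  · exact (X.hxx i j).eq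
  · exact (X.hdx i).symm.eq
  · exact (X.hdy j).eq
  · exact (X.hdx j).eq
  · rfl

/-- The commutative ring of operators. -/
abbrev tri1_R (X : Ob k lam n) : Subalgebra k (Module.End k X.V) := Algebra.adjoin k (tri1_ops X)

instance tri1_cr (X : Ob k lam n) : CommRing (tri1_R X) :=
  Algebra.adjoinCommRingOfComm k (tri1_ops_comm X)

/-- The element `y i`. -/
def tri1_ry (X : Ob k lam n) (i : ℕ) : tri1_R X :=
  ⟨X.y i, Algebra.subset_adjoin (Or.inl (Or.inl ⟨i, rfl⟩))⟩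

/-- The element `x i`. -/
def tri1_rx (X : Ob k lam n) (i : ℕ) : tri1_R X :=
  ⟨X.x i, Algebra.subset_adjoin (Or.inl (Or.inr ⟨i, rfl⟩))⟩

/-- The element `d`. -/
def tri1_rd (X : Ob k lam n) : tri1_R X := ⟨X.d, Algebra.subset_adjoin (Or.inr rfl)⟩

lemma tri1_y_smul (X : Ob k lam n) (i : ℕ) (v : X.V) : X.y i v = tri1_ry X i • v := rfl

lemma tri1_x_smul (X : Ob k lam n) (i : ℕ) (v : X.V) : X.x i v = tri1_rx X i • v := rfl

lemma tri1_d_smul (X : Ob k lam n) (v : X.V) : X.d v = tri1_rd X • v := rfl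

end

section

variable {V : Type} [AddCommGroup V] [Module k V]

@[simp] lemma tri1_thOp_apply (p q : Module.End k V) (v w : V) :
    thOp p q (v, w) = (-(p (q w)), v + (p w + q w)) := by
  simp [thOp, blk_apply, Module.End.mul_apply]

lemma tri1_dgp (A : Module.End k V) (v w : V) : dg A (v, w) = (A v, A w) := rfl

lemma tri1_yE1 (X : Ob k lam n) (i j : ℕ) : X.yE i j i = thOp (X.y i) (X.y j) := by
  simp [Ob.yE]

lemma tri1_yE2 (X : Ob k lam n) {i j : ℕ} (h : i ≠ j) :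
    X.yE i j j = dg (X.y i + X.y j) - thOp (X.y i) (X.y j) := by
  simp [Ob.yE, h.symm]

lemma tri1_yE3 (X : Ob k lam n) {i j l : ℕ} (h : l ≠ i) (h' : l ≠ j) :
    X.yE i j l = dg (X.y l) := by
  simp [Ob.yE, h, h']

end

section

variable (X : Ob k lam n) {i j l : ℕ}

/-- The splitting. -/
def tri1_eq (i j l : ℕ) : (((X.V × X.V) × (X.V × X.V)) × ((X.V × X.V) × (X.V × X.V))) ≃ₗ[k]
    (((X.V × X.V × X.V) × (X.V × X.V × X.V)) × (X.V × X.V)) where
  toFun z := (((z.1.1.1 + (X.y i z.1.1.2 + X.y j z.1.1.2),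
      z.1.2.1 + (X.y i z.1.2.2 + X.y j z.1.2.2) - z.1.1.2, -z.1.2.2),
      (z.2.1.1 + (X.y i z.2.1.2 + X.y j z.2.1.2),
      z.2.2.1 + (X.y i z.2.2.2 + X.y j z.2.2.2) - z.2.1.2, -z.2.2.2)),
      (z.1.1.2 + X.y l z.1.2.2, z.2.1.2 + X.y l z.2.2.2))
  invFun p := (((p.1.1.1 - X.y l (X.y i p.1.1.2.2 + X.y j p.1.1.2.2) - (X.y i p.2.1 + X.y j p.2.1),
      X.y l p.1.1.2.2 + p.2.1),
      (p.1.1.2.1 + (X.y i p.1.1.2.2 + X.y j p.1.1.2.2 + X.y l p.1.1.2.2) + p.2.1, -p.1.1.2.2)),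
      ((p.1.2.1 - X.y l (X.y i p.1.2.2.2 + X.y j p.1.2.2.2) - (X.y i p.2.2 + X.y j p.2.2),
      X.y l p.1.2.2.2 + p.2.2),
      (p.1.2.2.1 + (X.y i p.1.2.2.2 + X.y j p.1.2.2.2 + X.y l p.1.2.2.2) + p.2.2, -p.1.2.2.2)))
  map_add' z w := by
    simp only [tri1_y_smul]
    refine Prod.ext (Prod.ext (Prod.ext ?_ (Prod.ext ?_ ?_)) (Prod.ext ?_ (Prod.ext ?_ ?_)))
      (Prod.ext ?_ ?_)
    all_goals simp only [Prod.fst_add, Prod.snd_add]; module
  map_smul' c z := by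
    simp only [tri1_y_smul]
    refine Prod.ext (Prod.ext (Prod.ext ?_ (Prod.ext ?_ ?_)) (Prod.ext ?_ (Prod.ext ?_ ?_)))
      (Prod.ext ?_ ?_)
    all_goals simp only [Prod.smul_fst, Prod.smul_snd, RingHom.id_apply]; module
  left_inv z := by
    simp only [tri1_y_smul]
    refine Prod.ext (Prod.ext (Prod.ext ?_ ?_) (Prod.ext ?_ ?_))
      (Prod.ext (Prod.ext ?_ ?_) (Prod.ext ?_ ?_))
    all_goals module
  right_inv z := by
    simp only [tri1_y_smul]
    refine Prod.ext (Prod.ext (Prod.ext ?_ (Prod.ext ?_ ?_)) (Prod.ext ?_ (Prod.ext ?_ ?_)))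
      (Prod.ext ?_ ?_)
    all_goals module

end

section

variable (X : Ob k lam n) (i j l : ℕ)

/-- The first root on the second level. -/
def tri1_th : Module.End k ((X.V × X.V) × (X.V × X.V)) := dg (thOp (X.y i) (X.y j))

/-- The second root. -/
def tri1_fi : Module.End k ((X.V × X.V) × (X.V × X.V)) :=
  thOp (dg (X.y l)) (dg (X.y i + X.y j) - thOp (X.y i) (X.y j))

/-- The second top on the second level. -/
def tri1_se : Module.End k ((X.V × X.V) × (X.V × X.V)) :=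
  dg (dg (X.y l) + (dg (X.y i + X.y j) - thOp (X.y i) (X.y j))) -
    thOp (dg (X.y l)) (dg (X.y i + X.y j) - thOp (X.y i) (X.y j))

lemma tri1_th_apply (u0 u1 u2 u3 : X.V) : tri1_th X i j ((u0, u1), (u2, u3)) =
    ((-(X.y i (X.y j u1)), u0 + (X.y i u1 + X.y j u1)),
      (-(X.y i (X.y j u3)), u2 + (X.y i u3 + X.y j u3))) := by
  simp only [tri1_th, tri1_thOp_apply, tri1_dgp]

lemma tri1_fi_apply (u0 u1 u2 u3 : X.V) : tri1_fi X i j l ((u0, u1), (u2, u3)) =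
    (-(X.y l (X.y i u2 + X.y j u2 - -(X.y i (X.y j u3))),
      X.y l (X.y i u3 + X.y j u3 - (u2 + (X.y i u3 + X.y j u3)))),
    (u0 + (X.y l u2 + (X.y i u2 + X.y j u2 - -(X.y i (X.y j u3)))),
      u1 + (X.y l u3 + (X.y i u3 + X.y j u3 - (u2 + (X.y i u3 + X.y j u3)))))) := by
  simp only [tri1_fi, tri1_thOp_apply, tri1_dgp, LinearMap.sub_apply, LinearMap.add_apply,
    Prod.mk_sub_mk, Prod.mk_add_mk]

lemma tri1_se_apply (u0 u1 u2 u3 : X.V) : tri1_se X i j l ((u0, u1), (u2, u3)) =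
    ((X.y l u0 + (X.y i u0 + X.y j u0 - -(X.y i (X.y j u1))),
      X.y l u1 + (X.y i u1 + X.y j u1 - (u0 + (X.y i u1 + X.y j u1)))),
     (X.y l u2 + (X.y i u2 + X.y j u2 - -(X.y i (X.y j u3))),
      X.y l u3 + (X.y i u3 + X.y j u3 - (u2 + (X.y i u3 + X.y j u3))))) -
    tri1_fi X i j l ((u0, u1), (u2, u3)) := by
  simp only [tri1_fi, tri1_se, tri1_thOp_apply, tri1_dgp, LinearMap.sub_apply, LinearMap.add_apply,
    Prod.mk_sub_mk, Prod.mk_add_mk]

lemma tri1_Ph_apply (p q r : ℕ) (a b c : X.V) : tri1_Ph X p q r (a, b, c) =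
    (X.y p (X.y q (X.y r c)), a - (X.y p (X.y q c) + X.y p (X.y r c) + X.y q (X.y r c)),
      b + (X.y p c + X.y q c + X.y r c)) := by
  simp only [tri1_Ph, tri1_phi_apply, tri1_E1, tri1_E2, tri1_E3, LinearMap.add_apply,
    Module.End.mul_apply]

lemma tri1_Ps_apply (p q r : ℕ) (v w : X.V × X.V × X.V) : tri1_Ps X p q r (v, w) =
    (-(dg3 (tri1_E2 X p q r) w -
      tri1_Ph X p q r (dg3 (tri1_E1 X p q r) w - tri1_Ph X p q r w)),
      v + (dg3 (tri1_E1 X p q r) w - tri1_Ph X p q r w)) := by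
  simp [tri1_Ps, blk_apply, Module.End.mul_apply]

lemma tri1_dE1 (p q r : ℕ) (a b c : X.V) : dg3 (tri1_E1 X p q r) (a, b, c) =
    (X.y p a + X.y q a + X.y r a, X.y p b + X.y q b + X.y r b, X.y p c + X.y q c + X.y r c) := rfl

lemma tri1_dE2 (p q r : ℕ) (a b c : X.V) : dg3 (tri1_E2 X p q r) (a, b, c) =
    (X.y p (X.y q a) + X.y p (X.y r a) + X.y q (X.y r a),
      X.y p (X.y q b) + X.y p (X.y r b) + X.y q (X.y r b),
      X.y p (X.y q c) + X.y p (X.y r c) + X.y q (X.y r c)) := rfl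

lemma tri1_eq_apply (u0 u1 u2 u3 u4 u5 u6 u7 : X.V) :
    tri1_eq X i j l (((u0, u1), (u2, u3)), ((u4, u5), (u6, u7))) =
    (((u0 + (X.y i u1 + X.y j u1), u2 + (X.y i u3 + X.y j u3) - u1, -u3),
      (u4 + (X.y i u5 + X.y j u5), u6 + (X.y i u7 + X.y j u7) - u5, -u7)),
      (u1 + X.y l u3, u5 + X.y l u7)) := rfl

lemma tri1_i1 (u0 u1 u2 u3 u4 u5 u6 u7 : X.V) :
    tri1_eq X i j l (thOp (tri1_th X i j) (tri1_se X i j l)
      (((u0, u1), (u2, u3)), ((u4, u5), (u6, u7)))) =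
      ((tri1_Ps X l i j).prodMap (thOp (X.y i) (X.y j)))
        (tri1_eq X i j l (((u0, u1), (u2, u3)), ((u4, u5), (u6, u7)))) := by
  simp only [tri1_eq_apply, LinearMap.prodMap_apply, tri1_thOp_apply, tri1_th_apply, tri1_se_apply,
    tri1_fi_apply, tri1_Ps_apply, tri1_Ph_apply, tri1_dE1, tri1_dE2, Prod.mk_sub_mk,
    Prod.mk_add_mk, Prod.neg_mk, tri1_y_smul]
  refine Prod.ext (Prod.ext (Prod.ext ?_ (Prod.ext ?_ ?_)) (Prod.ext ?_ (Prod.ext ?_ ?_)))
      (Prod.ext ?_ ?_)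
  all_goals module

lemma tri1_i2 (u0 u1 u2 u3 u4 u5 u6 u7 : X.V) :
    tri1_eq X i j l (dg (tri1_fi X i j l)
      (((u0, u1), (u2, u3)), ((u4, u5), (u6, u7)))) =
      ((dg (tri1_Ph X l i j)).prodMap (dg (X.y l)))
        (tri1_eq X i j l (((u0, u1), (u2, u3)), ((u4, u5), (u6, u7)))) := by
  simp only [tri1_eq_apply, LinearMap.prodMap_apply, tri1_dgp, tri1_fi_apply,
    tri1_Ph_apply, Prod.mk_sub_mk,
    Prod.mk_add_mk, Prod.neg_mk, tri1_y_smul]
  refine Prod.ext (Prod.ext (Prod.ext ?_ (Prod.ext ?_ ?_)) (Prod.ext ?_ (Prod.ext ?_ ?_)))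
      (Prod.ext ?_ ?_)
  all_goals module

lemma tri1_i3 (D : Module.End k X.V) (s : tri1_R X) (hD : ∀ v, D v = s • v)
    (u0 u1 u2 u3 u4 u5 u6 u7 : X.V) :
    tri1_eq X i j l (dg (dg (dg D)) (((u0, u1), (u2, u3)), ((u4, u5), (u6, u7)))) =
      ((dg (dg3 D)).prodMap (dg D))
        (tri1_eq X i j l (((u0, u1), (u2, u3)), ((u4, u5), (u6, u7)))) := by
  simp only [tri1_eq_apply, LinearMap.prodMap_apply, tri1_dgp, tri1_dg3_apply, tri1_y_smul, hD]
  refine Prod.ext (Prod.ext (Prod.ext ?_ (Prod.ext ?_ ?_)) (Prod.ext ?_ (Prod.ext ?_ ?_)))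
      (Prod.ext ?_ ?_)
  all_goals module

lemma tri1_i4 (u0 u1 u2 u3 u4 u5 u6 u7 : X.V) :
    tri1_eq X i j l ((dg (tri1_th X i j + tri1_se X i j l) -
      thOp (tri1_th X i j) (tri1_se X i j l))
      (((u0, u1), (u2, u3)), ((u4, u5), (u6, u7)))) =
      ((dg (dg3 (tri1_E1 X l i j)) - dg (tri1_Ph X l i j) - tri1_Ps X l i j).prodMap
        (dg (X.y i + X.y j) - thOp (X.y i) (X.y j)))
        (tri1_eq X i j l (((u0, u1), (u2, u3)), ((u4, u5), (u6, u7)))) := by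
  have h0 := tri1_i1 X i j l u0 u1 u2 u3 u4 u5 u6 u7
  have h1 : tri1_eq X i j l (dg (tri1_th X i j + tri1_se X i j l)
      (((u0, u1), (u2, u3)), ((u4, u5), (u6, u7)))) =
      ((dg (dg3 (tri1_E1 X l i j)) - dg (tri1_Ph X l i j)).prodMap
        (dg (X.y i + X.y j)))
        (tri1_eq X i j l (((u0, u1), (u2, u3)), ((u4, u5), (u6, u7)))) := by
    simp only [tri1_eq_apply, LinearMap.prodMap_apply, tri1_dgp, LinearMap.sub_apply,
      LinearMap.add_apply, tri1_th_apply, tri1_se_apply,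
      tri1_fi_apply, tri1_Ph_apply, tri1_dE1, Prod.mk_sub_mk,
      Prod.mk_add_mk, Prod.neg_mk, tri1_y_smul]
    refine Prod.ext (Prod.ext (Prod.ext ?_ (Prod.ext ?_ ?_)) (Prod.ext ?_ (Prod.ext ?_ ?_)))
        (Prod.ext ?_ ?_)
    all_goals module
  rw [LinearMap.sub_apply, map_sub, h0, h1]
  rfl

lemma tri1_i5 (u0 u1 u2 u3 u4 u5 u6 u7 : X.V) :
    tri1_eq X i j l (pm (lam⁻¹ • pm (lam⁻¹ • pm (lam⁻¹ • X.T) (lam • X.T))
        (lam • pm (lam⁻¹ • X.T) (lam • X.T)))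
      (lam • pm (lam⁻¹ • pm (lam⁻¹ • X.T) (lam • X.T))
        (lam • pm (lam⁻¹ • X.T) (lam • X.T)))
      (((u0, u1), (u2, u3)), ((u4, u5), (u6, u7)))) =
      ((pm (pm3 ((lam⁻¹) ^ 3 • X.T) (lam⁻¹ • X.T) (lam • X.T))
    (pm3 (lam⁻¹ • X.T) (lam • X.T) (lam ^ 3 • X.T))).prodMap (pm (lam⁻¹ • X.T) (lam • X.T)))
        (tri1_eq X i j l (((u0, u1), (u2, u3)), ((u4, u5), (u6, u7)))) := by
  have hl := X.ne
  have hT : ∀ t v, X.T (X.y t v) = lam ^ 2 • X.y t (X.T v) := fun t v =>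
    LinearMap.congr_fun (X.hTy t) v
  have m1 : lam⁻¹ * (lam⁻¹ * lam⁻¹) = lam⁻¹ ^ 3 := by ring
  have m2 : lam⁻¹ * (lam⁻¹ * lam) = lam⁻¹ := by field_simp
  have m3 : lam⁻¹ ^ 3 * lam ^ 2 = lam⁻¹ := by field_simp
  have m4 : lam⁻¹ * (lam * lam⁻¹) = lam⁻¹ := by field_simp
  have m5 : lam⁻¹ * (lam * lam) = lam := by field_simp
  have m6 : lam⁻¹ * lam ^ 2 = lam := by field_simp
  have m7 : lam * (lam⁻¹ * lam⁻¹) = lam⁻¹ := by field_simp
  have m8 : lam * (lam⁻¹ * lam) = lam := by field_simp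
  have m9 : lam * (lam * lam⁻¹) = lam := by field_simp
  have m10 : lam * (lam * lam) = lam ^ 3 := by ring
  have m11 : lam * lam ^ 2 = lam ^ 3 := by ring
  simp only [tri1_eq_apply, LinearMap.prodMap_apply, pm_apply, tri1_pm3_apply, LinearMap.smul_apply,
    Prod.smul_mk, map_add, map_sub, map_neg, map_smul, hT, smul_smul]
  refine Prod.ext (Prod.ext (Prod.ext ?_ (Prod.ext ?_ ?_)) (Prod.ext ?_ (Prod.ext ?_ ?_)))
      (Prod.ext ?_ ?_)
  all_goals simp only [m1, m2, m3, m4, m5, m6, m7, m8, m9, m10, m11]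

end

theorem tri_split (X : Ob k lam n) {i j l : ℕ} (h1 : i ≠ j) (h2 : i ≠ l) (h3 : j ≠ l) :
    Iso Set.univ (((X.E i j).E l j).E i j) ((X.F3 l i j).sum (X.E i j)) := by
  have ei : ((X.E i j).E l j).y i = tri1_th X i j := by
    show (X.E i j).yE l j i = _
    rw [tri1_yE3 _ h2 h1]
    show dg (X.yE i j i) = _
    rw [tri1_yE1]
    rfl
  have el : ((X.E i j).E l j).y l = tri1_fi X i j l := by
    show (X.E i j).yE l j l = _
    rw [tri1_yE1]
    show thOp (X.yE i j l) (X.yE i j j) = _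
    rw [tri1_yE2 _ h1, tri1_yE3 _ h2.symm h3.symm]
    rfl
  have ej : ((X.E i j).E l j).y j = tri1_se X i j l := by
    show (X.E i j).yE l j j = _
    rw [tri1_yE2 _ h3.symm]
    show dg (X.yE i j l + X.yE i j j) - thOp (X.yE i j l) (X.yE i j j) = _
    rw [tri1_yE2 _ h1, tri1_yE3 _ h2.symm h3.symm]
    rfl
  refine ⟨tri1_eq X i j l, fun m _ v => ?_, fun m _ v => ?_, fun v => ?_, fun v => ?_⟩
  · obtain ⟨⟨⟨u0, u1⟩, ⟨u2, u3⟩⟩, ⟨⟨u4, u5⟩, ⟨u6, u7⟩⟩⟩ := v
    by_cases hi : m = i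
    · subst hi
      have e1 : (((X.E m j).E l j).E m j).y m = thOp (tri1_th X m j) (tri1_se X m j l) := by
        show ((X.E m j).E l j).yE m j m = _
        rw [tri1_yE1, ei, ej]
        rfl
      have e2 : ((X.F3 l m j).sum (X.E m j)).y m =
          (tri1_Ps X l m j).prodMap (thOp (X.y m) (X.y j)) := by
        show (X.yF l m j m).prodMap (X.yE m j m) = _
        rw [tri1_yE1, tri1_yF, if_neg h2, if_pos rfl]
      rw [e1, e2]
      exact tri1_i1 X m j l u0 u1 u2 u3 u4 u5 u6 u7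
    by_cases hj : m = j
    · subst hj
      have e1 : (((X.E i m).E l m).E i m).y m = dg (tri1_th X i m + tri1_se X i m l) -
          thOp (tri1_th X i m) (tri1_se X i m l) := by
        show ((X.E i m).E l m).yE i m m = _
        rw [tri1_yE2 _ h1, ei, ej]
        rfl
      have e2 : ((X.F3 l i m).sum (X.E i m)).y m =
          (dg (dg3 (tri1_E1 X l i m)) - dg (tri1_Ph X l i m) - tri1_Ps X l i m).prodMap
            (dg (X.y i + X.y m) - thOp (X.y i) (X.y m)) := by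
        show (X.yF l i m m).prodMap (X.yE i m m) = _
        rw [tri1_yE2 _ h1, tri1_yF, if_neg h3, if_neg h1.symm, if_pos rfl]
      rw [e1, e2]
      exact tri1_i4 X i m l u0 u1 u2 u3 u4 u5 u6 u7
    by_cases hl : m = l
    · subst hl
      have e1 : (((X.E i j).E m j).E i j).y m = dg (tri1_fi X i j m) := by
        show ((X.E i j).E m j).yE i j m = _
        rw [tri1_yE3 _ h2.symm h3.symm, el]
        rfl
      have e2 : ((X.F3 m i j).sum (X.E i j)).y m =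
          (dg (tri1_Ph X m i j)).prodMap (dg (X.y m)) := by
        show (X.yF m i j m).prodMap (X.yE i j m) = _
        rw [tri1_yE3 _ h2.symm h3.symm, tri1_yF, if_pos rfl]
      rw [e1, e2]
      exact tri1_i2 X i j m u0 u1 u2 u3 u4 u5 u6 u7
    · have e1 : (((X.E i j).E l j).E i j).y m = dg (dg (dg (X.y m))) := by
        show ((X.E i j).E l j).yE i j m = _
        rw [tri1_yE3 _ hi hj]
        show dg ((X.E i j).yE l j m) = _
        rw [tri1_yE3 _ hl hj]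
        show dg (dg (X.yE i j m)) = _
        rw [tri1_yE3 _ hi hj]
      have e2 : ((X.F3 l i j).sum (X.E i j)).y m =
          (dg (dg3 (X.y m))).prodMap (dg (X.y m)) := by
        show (X.yF l i j m).prodMap (X.yE i j m) = _
        rw [tri1_yE3 _ hi hj, tri1_yF, if_neg hl, if_neg hi, if_neg hj]
      rw [e1, e2]
      exact tri1_i3 X i j l (X.y m) (tri1_ry X m) (fun v => rfl) u0 u1 u2 u3 u4 u5 u6 u7
  · obtain ⟨⟨⟨u0, u1⟩, ⟨u2, u3⟩⟩, ⟨⟨u4, u5⟩, ⟨u6, u7⟩⟩⟩ := v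
    exact tri1_i3 X i j l (X.x m) (tri1_rx X m) (fun v => rfl) u0 u1 u2 u3 u4 u5 u6 u7
  · obtain ⟨⟨⟨u0, u1⟩, ⟨u2, u3⟩⟩, ⟨⟨u4, u5⟩, ⟨u6, u7⟩⟩⟩ := v
    exact tri1_i3 X i j l X.d (tri1_rd X) (fun v => rfl) u0 u1 u2 u3 u4 u5 u6 u7
  · obtain ⟨⟨⟨u0, u1⟩, ⟨u2, u3⟩⟩, ⟨⟨u4, u5⟩, ⟨u6, u7⟩⟩⟩ := v
    exact tri1_i5 X i j l u0 u1 u2 u3 u4 u5 u6 u7

end ZM
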