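import Pool.Agent.H75.ZM.Tri1

/-!
# The triangle, symmetry of `F3` (row ZM Tri2)

Proof.  In `X.F3 p q r` write `z` for the top `p` (`phi`) and `x` for the top `q` (`psi`); in
`X.F3 q p r` the roles are exchanged.  Change of basis from
`1, z, z^2, x, z x, z^2 x` to `1, x, x^2, z, x z, x^2 z`:
`z^2 = - x^2 - x z + e1 (x + z) - e2` and `z^2 x = - e3 + e1 x z - x^2 z`
(both hold in either object: `x^2 + x z + z^2 - e1 (x + z) + e2 = 0`, and
`x^3 = e1 x^2 - e2 x + e3`).  So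
`(p0, p1, p2; q0, q1, q2)` (meaning `p0 + p1 z + p2 z^2 + (q0 + q1 z + q2 z^2) x`) is mapped to
`1: p0 - e2 p2 - e3 q2`, `x: e1 p2 + q0`, `x^2: - p2`; `z: p1 + e1 p2`, `x z: - p2 + q1 + e1 q2`,
`x^2 z: - q2`, that is to `(p0 - e2 p2 - e3 q2, e1 p2 + q0, - p2; p1 + e1 p2, - p2 + q1 + e1 q2, - q2)`.
The same formula gives the inverse.  Check that it intertwines `z` and `x` (then also the top `r`),
the other operators and `T`.
-/

namespace ZM

variable {k : Type} [Field k] {lam : k} {n : ℕ}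

section

variable {V : Type} [AddCommGroup V] [Module k V]

/-- The change of basis. -/
def tri2_f (e1 e2 e3 : Module.End k V) : Module.End k ((V × V × V) × (V × V × V)) where
  toFun v := ((v.1.1 - e2 v.1.2.2 - e3 v.2.2.2, e1 v.1.2.2 + v.2.1, -v.1.2.2),
    (v.1.2.1 + e1 v.1.2.2, -v.1.2.2 + v.2.2.1 + e1 v.2.2.2, -v.2.2.2))
  map_add' p q := by
    simp only [Prod.fst_add, Prod.snd_add, map_add, Prod.mk_add_mk, Prod.mk.injEq]
    refine ⟨⟨by abel, by abel, by abel⟩, by abel, by abel, by abel⟩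
  map_smul' c p := by
    simp only [Prod.smul_fst, Prod.smul_snd, map_smul, RingHom.id_apply, Prod.smul_mk, smul_add,
      smul_sub, smul_neg]

theorem tri2_f_apply (e1 e2 e3 : Module.End k V) (p0 p1 p2 q0 q1 q2 : V) :
    tri2_f e1 e2 e3 ((p0, p1, p2), (q0, q1, q2)) =
      ((p0 - e2 p2 - e3 q2, e1 p2 + q0, -p2), (p1 + e1 p2, -p2 + q1 + e1 q2, -q2)) := rfl

theorem tri2_invol (e1 e2 e3 : Module.End k V) (v : (V × V × V) × (V × V × V)) :
    tri2_f e1 e2 e3 (tri2_f e1 e2 e3 v) = v := by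
  obtain ⟨⟨p0, p1, p2⟩, ⟨q0, q1, q2⟩⟩ := v
  rw [tri2_f_apply, tri2_f_apply]
  simp only [map_neg, Prod.mk.injEq]
  refine ⟨⟨by abel, by abel, by abel⟩, by abel, by abel, by abel⟩

theorem tri2_phi_apply (e1 e2 e3 : Module.End k V) (p0 p1 p2 : V) :
    phiOp e1 e2 e3 (p0, p1, p2) = (e3 p2, p0 - e2 p2, p1 + e1 p2) := rfl

theorem tri2_dg3_apply (A : Module.End k V) (p0 p1 p2 : V) :
    dg3 A (p0, p1, p2) = (A p0, A p1, A p2) := rfl

theorem tri2_pm3_apply (A B C : Module.End k V) (p0 p1 p2 : V) :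
    pm3 A B C (p0, p1, p2) = (A p0, B p1, C p2) := rfl

theorem tri2_psi_apply (e1 e2 e3 : Module.End k V) (p0 p1 p2 q0 q1 q2 : V) :
    blk 0 (-(dg3 e2 - phiOp e1 e2 e3 * (dg3 e1 - phiOp e1 e2 e3))) 1 (dg3 e1 - phiOp e1 e2 e3)
      ((p0, p1, p2), (q0, q1, q2)) =
    ((-(e2 q0) - e3 q1, e1 q0 - e3 q2, -(q0)), (p0 + e1 q0 - e3 q2, p1 + e1 q1 - q0 + e2 q2, p2 - q1)) := by
  rw [blk_apply]
  simp only [LinearMap.neg_apply, LinearMap.sub_apply, Module.End.mul_apply, LinearMap.zero_apply,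
    tri2_phi_apply, tri2_dg3_apply, Prod.mk_sub_mk, Module.End.one_apply, Prod.mk_add_mk,
    Prod.neg_mk, zero_add, Prod.mk.injEq, map_add, map_sub]
  refine ⟨⟨by abel, by abel, by abel⟩, by abel, by abel, by abel⟩

theorem tri2_phi (e1 e2 e3 : Module.End k V) (v : (V × V × V) × (V × V × V)) :
    tri2_f e1 e2 e3 (dg (phiOp e1 e2 e3) v) =
      blk 0 (-(dg3 e2 - phiOp e1 e2 e3 * (dg3 e1 - phiOp e1 e2 e3))) 1 (dg3 e1 - phiOp e1 e2 e3)
        (tri2_f e1 e2 e3 v) := by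
  obtain ⟨⟨p0, p1, p2⟩, ⟨q0, q1, q2⟩⟩ := v
  rw [tri2_f_apply, tri2_psi_apply e1 e2 e3, dg_apply]
  simp only [tri2_phi_apply]
  rw [tri2_f_apply]
  simp only [map_add, map_neg, Prod.mk.injEq]
  split_ands
  all_goals first | trivial | abel

theorem tri2_psi (e1 e2 e3 : Module.End k V) (v : (V × V × V) × (V × V × V)) :
    tri2_f e1 e2 e3 (blk 0 (-(dg3 e2 - phiOp e1 e2 e3 * (dg3 e1 - phiOp e1 e2 e3))) 1
      (dg3 e1 - phiOp e1 e2 e3) v) = dg (phiOp e1 e2 e3) (tri2_f e1 e2 e3 v) := by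
  have h := tri2_phi e1 e2 e3 (tri2_f e1 e2 e3 v)
  rw [tri2_invol] at h
  rw [← h, tri2_invol]

theorem tri2_diag (e1 e2 e3 A : Module.End k V) (h1 : ∀ v, e1 (A v) = A (e1 v))
    (h2 : ∀ v, e2 (A v) = A (e2 v)) (h3 : ∀ v, e3 (A v) = A (e3 v))
    (v : (V × V × V) × (V × V × V)) :
    tri2_f e1 e2 e3 (dg (dg3 A) v) = dg (dg3 A) (tri2_f e1 e2 e3 v) := by
  obtain ⟨⟨p0, p1, p2⟩, ⟨q0, q1, q2⟩⟩ := v
  rw [tri2_f_apply, dg_apply, dg_apply]
  simp only [tri2_dg3_apply]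
  rw [tri2_f_apply]
  simp only [tri2_dg3_apply, map_add, map_sub, map_neg, h1, h2, h3]

theorem tri2_T (e1 e2 e3 T : Module.End k V) {lam : k} (hl : lam ≠ 0)
    (h1 : ∀ v, T (e1 v) = lam ^ 2 • e1 (T v))
    (h2 : ∀ v, T (e2 v) = lam ^ 4 • e2 (T v)) (h3 : ∀ v, T (e3 v) = lam ^ 6 • e3 (T v))
    (v : (V × V × V) × (V × V × V)) :
    tri2_f e1 e2 e3 (pm (pm3 ((lam⁻¹) ^ 3 • T) (lam⁻¹ • T) (lam • T))
      (pm3 (lam⁻¹ • T) (lam • T) (lam ^ 3 • T)) v) =
    pm (pm3 ((lam⁻¹) ^ 3 • T) (lam⁻¹ • T) (lam • T))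
      (pm3 (lam⁻¹ • T) (lam • T) (lam ^ 3 • T)) (tri2_f e1 e2 e3 v) := by
  obtain ⟨⟨p0, p1, p2⟩, ⟨q0, q1, q2⟩⟩ := v
  rw [tri2_f_apply, pm_apply, pm_apply]
  simp only [tri2_pm3_apply]
  rw [tri2_f_apply]
  have a1 : (lam⁻¹) ^ 3 * lam ^ 4 = lam := by field_simp
  have a2 : (lam⁻¹) ^ 3 * lam ^ 6 = lam ^ 3 := by field_simp
  have a3 : lam⁻¹ * lam ^ 2 = lam := by field_simp
  have a4 : lam * lam ^ 2 = lam ^ 3 := by ring
  simp only [tri2_pm3_apply, LinearMap.smul_apply, map_add, map_sub, map_neg, map_smul, h1, h2, h3,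
    smul_smul, a1, a2, a3, a4]

/-- The change of basis as an equivalence. -/
def tri2_e (e1 e2 e3 : Module.End k V) :
    ((V × V × V) × (V × V × V)) ≃ₗ[k] ((V × V × V) × (V × V × V)) :=
  LinearEquiv.ofInvolutive (tri2_f e1 e2 e3) (tri2_invol e1 e2 e3)

end

theorem F3_symm (X : Ob k lam n) {p q r : ℕ} (h1 : p ≠ q) (h2 : p ≠ r) (h3 : q ≠ r) :
    Iso Set.univ (X.F3 p q r) (X.F3 q p r) := by
  set e1 := X.y p + X.y q + X.y r with he1
  set e2 := X.y p * X.y q + X.y p * X.y r + X.y q * X.y r with he2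
  set e3 := X.y p * X.y q * X.y r with he3
  have f1 : X.y q + X.y p + X.y r = e1 := by rw [he1, add_comm (X.y q)]
  have f2 : X.y q * X.y p + X.y q * X.y r + X.y p * X.y r = e2 := by
    rw [he2, (X.hyy q p).eq]
    abel
  have f3 : X.y q * X.y p * X.y r = e3 := by rw [he3, (X.hyy q p).eq]
  have c1 : ∀ A : Module.End k X.V, (∀ t, Commute A (X.y t)) → Commute e1 A := fun A hA =>
    (((hA p).add_right (hA q)).add_right (hA r)).symm
  have c2 : ∀ A : Module.End k X.V, (∀ t, Commute A (X.y t)) → Commute e2 A := fun A hA =>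
    ((((hA p).mul_right (hA q)).add_right ((hA p).mul_right (hA r))).add_right
      ((hA q).mul_right (hA r))).symm
  have c3 : ∀ A : Module.End k X.V, (∀ t, Commute A (X.y t)) → Commute e3 A := fun A hA =>
    (((hA p).mul_right (hA q)).mul_right (hA r)).symm
  have g : ∀ {A B : Module.End k X.V}, Commute A B → ∀ v, A (B v) = B (A v) := fun h v =>
    LinearMap.congr_fun h.eq v
  have hy1 : ∀ t, Commute e1 (X.y t) := fun t => c1 _ fun s => X.hyy t s
  have hy2 : ∀ t, Commute e2 (X.y t) := fun t => c2 _ fun s => X.hyy t s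
  have hy3 : ∀ t, Commute e3 (X.y t) := fun t => c3 _ fun s => X.hyy t s
  have yl : ∀ l v, tri2_f e1 e2 e3 (X.yF p q r l v) = X.yF q p r l (tri2_f e1 e2 e3 v) := by
    intro l v
    unfold Ob.yF
    simp only [f1, f2, f3]
    rw [← he1, ← he2, ← he3]
    by_cases hp : l = p
    · subst hp
      rw [if_pos rfl, if_neg h1, if_pos rfl]
      exact tri2_phi e1 e2 e3 v
    · rw [if_neg hp]
      by_cases hq : l = q
      · subst hq
        rw [if_pos rfl, if_pos rfl]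
        exact tri2_psi e1 e2 e3 v
      · rw [if_neg hq, if_neg hq, if_neg hp]
        by_cases hr : l = r
        · rw [if_pos hr]
          simp only [LinearMap.sub_apply, map_sub]
          rw [tri2_psi e1 e2 e3 v, tri2_phi e1 e2 e3 v,
            tri2_diag e1 e2 e3 e1 (fun _ => rfl) (g (c2 _ hy1)) (g (c3 _ hy1))]
          abel
        · rw [if_neg hr]
          exact tri2_diag e1 e2 e3 (X.y l) (g (hy1 l)) (g (hy2 l)) (g (hy3 l)) v
  have T1 : ∀ t v, X.T (X.y t v) = lam ^ 2 • X.y t (X.T v) := fun t v =>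
    LinearMap.congr_fun (X.hTy t) v
  have T1' : ∀ v, X.T (e1 v) = lam ^ 2 • e1 (X.T v) := by
    intro v
    simp only [he1, LinearMap.add_apply, map_add, T1, smul_add]
  have T2' : ∀ v, X.T (e2 v) = lam ^ 4 • e2 (X.T v) := by
    intro v
    have a : lam ^ 2 * lam ^ 2 = lam ^ 4 := by ring
    simp only [he2, LinearMap.add_apply, Module.End.mul_apply, map_add, T1, map_smul, smul_smul, a,
      smul_add]
  have T3' : ∀ v, X.T (e3 v) = lam ^ 6 • e3 (X.T v) := by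
    intro v
    have a : lam ^ 2 * (lam ^ 2 * lam ^ 2) = lam ^ 6 := by ring
    simp only [he3, Module.End.mul_apply, T1, map_smul, smul_smul, a]
  refine ⟨tri2_e e1 e2 e3, fun l _ v => yl l v, fun l _ v => ?_, fun v => ?_, fun v => ?_⟩
  · exact tri2_diag e1 e2 e3 (X.x l) (g (c1 _ fun t => X.hxy l t)) (g (c2 _ fun t => X.hxy l t))
      (g (c3 _ fun t => X.hxy l t)) v
  · exact tri2_diag e1 e2 e3 X.d (g (c1 _ fun t => X.hdy t)) (g (c2 _ fun t => X.hdy t))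
      (g (c3 _ fun t => X.hdy t)) v
  · exact tri2_T e1 e2 e3 X.T X.ne T1' T2' T3' v

end ZM
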