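import Pool.Agent.H75.ZM.ConL
import Pool.Agent.H75.ZM.Comm
import Pool.Agent.H75.ZM.Flt

/-!
# Unrolling (row ZM Unroll)

`dlist m s = (clist s).map fun a => (a.1, m + a.2)`, that is `(s-1, m+s-1), ..., (0, m)`, and
`elist m = (clist m).map fun a => (m + a.1, a.2)`.

Proof of `unroll_step`, by induction on `s`.  `s = 0`: trivial.  Step: `news (X.upd m (s+1)) m (s+1)`
is `Z.new (m + s)` with `Z = news (X.upd m (s+1)) m s`.  By `con_new` (with `q = m + s`, `t = s`) and
`Con.word` (the letters of `u` shifted by `m` do not touch the top `s < m`) and `con_he`, the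
closing `(s, m + s)` of `word u' (Z.new (m+s))` can be replaced by `word u' (Z.upd1 (m+s) s)`, and
`Z.upd1 (m+s) s` is isomorphic to `news (X.upd m s) m s` by the identity map: by induction
`(news Y m s).upd1 q t` is isomorphic to `news (Y.upd1 q t) m s` for `q, t` outside
`m, ..., m + s - 1`, and `(X.upd m (s+1)).upd1 (m+s) s` to `X.upd m s`.

Proof of `unroll`.  `base (m + m) = news (base m) m m` (induction, `Nat.add_assoc`);
`word (u' ++ v) = word u' (word v _)` (`List.foldr_append`), and `word v (news (base m) m m)` is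
isomorphic to `news X m m` with `X = word v (base m)` (`word_news`), which is isomorphic to
`news (X.upd m m) m m` (`X.upd m m` is `X`).  By `unroll_step` with `s = m` the homology is the one
of `(word u' (X.upd m 0)).cls (elist m)`, and
`(word u' (X.upd m 0)).rel (m + ·) id` is isomorphic to `word u X` for the labels `< m`
(induction on `u`; the identity map), so by `cls_rel` and `rel_hq` we get
`(word u X).cls (clist m)`.
Flatness: `flat_word` with the list `dlist m m ++ elist m`, whose tops and bottoms are permutations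
of `List.range (m + m)`.
-/

namespace ZM

variable {k : Type} [Field k] {lam : k} {n : ℕ}

/-- The list `(s-1, m+s-1), ..., (0, m)`. -/
def dlist (m s : ℕ) : List (ℕ × ℕ) := (clist s).map fun a => (a.1, m + a.2)

/-- The list `(m + (m-1), m-1), ..., (m, 0)`. -/
def elist (m : ℕ) : List (ℕ × ℕ) := (clist m).map fun a => (m + a.1, a.2)

lemma unroll_clist_fst (m : ℕ) : ((clist m).map Prod.fst).Perm (List.range m) := by
  induction m with
  | zero => simp [clist]
  | succ m ih =>
    rw [List.range_succ, clist, List.map_cons]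
    exact (List.Perm.cons m ih).trans (List.perm_append_singleton m _).symm

lemma unroll_clist_snd (m : ℕ) : ((clist m).map Prod.snd).Perm (List.range m) := by
  induction m with
  | zero => simp [clist]
  | succ m ih =>
    rw [List.range_succ, clist, List.map_cons]
    exact (List.Perm.cons m ih).trans (List.perm_append_singleton m _).symm

lemma dlist_perm (m : ℕ) :
    ((dlist m m ++ elist m).map Prod.fst).Perm (List.range (m + m)) ∧
      ((dlist m m ++ elist m).map Prod.snd).Perm (List.range (m + m)) := by
  have h1 := unroll_clist_fst m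
  have h2 := unroll_clist_snd m
  have h3 : ((clist m).map fun a => m + a.1).Perm ((List.range m).map (m + ·)) := by
    have := h1.map (m + ·)
    rwa [List.map_map] at this
  have h4 : ((clist m).map fun a => m + a.2).Perm ((List.range m).map (m + ·)) := by
    have := h2.map (m + ·)
    rwa [List.map_map] at this
  constructor
  · rw [List.range_add, List.map_append, dlist, elist, List.map_map, List.map_map]
    exact h1.append h3
  · rw [List.range_add, List.map_append, dlist, elist, List.map_map, List.map_map]
    exact (h4.append h2).trans List.perm_append_comm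

lemma unroll_upd1_new (Z : Ob k lam n) {p q t : ℕ} (hq : q ≠ p) (ht : t ≠ p) :
    Iso Set.univ ((Z.new p).upd1 q t) ((Z.upd1 q t).new p) := by
  have hy : ∀ l, ((Z.new p).upd1 q t).y l = ((Z.upd1 q t).new p).y l := by
    intro l
    show (if l = q then nop Z.V p Z.y t else nop Z.V p Z.y l) =
      nop Z.V p (fun l => if l = q then Z.y t else Z.y l) l
    unfold nop
    by_cases h1 : l = q
    · subst h1
      simp [hq, ht]
    · simp [h1]
  have hx : ∀ l, ((Z.new p).upd1 q t).x l = ((Z.upd1 q t).new p).x l := by
    intro l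
    show (if l = q then nop Z.V p Z.y t else nop Z.V p Z.x l) =
      nop Z.V p (fun l => if l = q then Z.y t else Z.x l) l
    unfold nop
    by_cases h1 : l = q
    · subst h1
      simp [hq, ht]
    · simp [h1]
  exact ⟨LinearEquiv.refl k _, fun l _ v => LinearMap.congr_fun (hy l) v,
    fun l _ v => LinearMap.congr_fun (hx l) v, fun _ => rfl, fun _ => rfl⟩

lemma unroll_upd1_news (Y : Ob k lam n) {m q t : ℕ} (s : ℕ) (hq : ∀ i < s, q ≠ m + i)
    (ht : ∀ i < s, t ≠ m + i) :
    Iso Set.univ ((news Y m s).upd1 q t) (news (Y.upd1 q t) m s) := by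
  induction s with
  | zero => exact Iso.refl _ _
  | succ s ih =>
    have h1 := ih (fun i hi => hq i (by omega)) (fun i hi => ht i (by omega))
    have h2 : Iso (Set.univ) (((news Y m s).upd1 q t).new (m + s))
        ((news (Y.upd1 q t) m s).new (m + s)) :=
      (h1.new (m + s)).mono (fun l _ => Or.inr trivial)
    exact (unroll_upd1_new (news Y m s) (hq s (by omega)) (ht s (by omega))).trans h2

lemma unroll_upd_step (X : Ob k lam n) {m s : ℕ} (hs : s + 1 ≤ m) :
    Iso Set.univ ((X.upd m (s + 1)).upd1 (m + s) s) (X.upd m s) := by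
  have hy : ∀ l, ((X.upd m (s + 1)).upd1 (m + s) s).y l = (X.upd m s).y l := by
    intro l
    show (if l = m + s then (if m + (s + 1) ≤ s ∧ s < 2 * m then X.y (s - m) else X.y s)
      else (if m + (s + 1) ≤ l ∧ l < 2 * m then X.y (l - m) else X.y l)) =
      if m + s ≤ l ∧ l < 2 * m then X.y (l - m) else X.y l
    by_cases h1 : l = m + s
    · subst h1
      rw [if_pos rfl, if_neg (by omega), if_pos (by omega), Nat.add_sub_cancel_left]
    · rw [if_neg h1]
      by_cases h2 : m + s ≤ l ∧ l < 2 * m
      · rw [if_pos h2, if_pos (by omega)]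
      · rw [if_neg h2, if_neg (by omega)]
  have hx : ∀ l, ((X.upd m (s + 1)).upd1 (m + s) s).x l = (X.upd m s).x l := by
    intro l
    show (if l = m + s then (if m + (s + 1) ≤ s ∧ s < 2 * m then X.y (s - m) else X.y s)
      else (if m + (s + 1) ≤ l ∧ l < 2 * m then X.y (l - m) else X.x l)) =
      if m + s ≤ l ∧ l < 2 * m then X.y (l - m) else X.x l
    by_cases h1 : l = m + s
    · subst h1
      rw [if_pos rfl, if_neg (by omega), if_pos (by omega), Nat.add_sub_cancel_left]
    · rw [if_neg h1]
      by_cases h2 : m + s ≤ l ∧ l < 2 * m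
      · rw [if_pos h2, if_pos (by omega)]
      · rw [if_neg h2, if_neg (by omega)]
  exact ⟨LinearEquiv.refl k _, fun l _ v => LinearMap.congr_fun (hy l) v,
    fun l _ v => LinearMap.congr_fun (hx l) v, fun _ => rfl, fun _ => rfl⟩

lemma unroll_upd_top (X : Ob k lam n) (m : ℕ) : Iso Set.univ X (X.upd m m) := by
  have hy : ∀ l, X.y l = (X.upd m m).y l := by
    intro l
    show X.y l = if m + m ≤ l ∧ l < 2 * m then X.y (l - m) else X.y l
    rw [if_neg (by omega)]
  have hx : ∀ l, X.x l = (X.upd m m).x l := by
    intro l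
    show X.x l = if m + m ≤ l ∧ l < 2 * m then X.y (l - m) else X.x l
    rw [if_neg (by omega)]
  exact ⟨LinearEquiv.refl k _, fun l _ v => LinearMap.congr_fun (hy l) v,
    fun l _ v => LinearMap.congr_fun (hx l) v, fun _ => rfl, fun _ => rfl⟩

lemma unroll_upd_rel (X : Ob k lam n) (m : ℕ) :
    Iso {l | l < m} ((X.upd m 0).rel (m + ·) id) X := by
  have hy : ∀ l, l < m → ((X.upd m 0).rel (m + ·) id).y l = X.y l := by
    intro l hl
    show (if m + 0 ≤ m + l ∧ m + l < 2 * m then X.y (m + l - m) else X.y (m + l)) = X.y l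
    rw [if_pos (by omega), Nat.add_sub_cancel_left]
  have hx : ∀ l, l < m → ((X.upd m 0).rel (m + ·) id).x l = X.x l := by
    intro l hl
    show (if m + 0 ≤ l ∧ l < 2 * m then X.y (l - m) else X.x l) = X.x l
    rw [if_neg (by omega)]
  exact ⟨LinearEquiv.refl k _, fun l hl v => LinearMap.congr_fun (hy l hl) v,
    fun l hl v => LinearMap.congr_fun (hx l hl) v, fun _ => rfl, fun _ => rfl⟩

theorem unroll_step (X : Ob k lam n) {m : ℕ} {u : List Lt} (hu : Ok m u) (s : ℕ) (hs : s ≤ m)
    (L : List (ℕ × ℕ))
    (hfl : Flat (word (u.map (Lt.map (m + ·))) (news (X.upd m s) m s)) (dlist m s ++ L)) :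
    HQ ((word (u.map (Lt.map (m + ·))) (news (X.upd m s) m s)).cls (dlist m s ++ L))
      ((word (u.map (Lt.map (m + ·))) (X.upd m 0)).cls L) := by
  induction s with
  | zero => exact HQ.refl _
  | succ s ih =>
    have hqt : m + s ≠ s := by omega
    have hcon := con_new (news (X.upd m (s + 1)) m s) hqt
    obtain ⟨f', hf'⟩ := hcon.word (w := u.map (Lt.map (m + ·))) (by
      intro a ha
      obtain ⟨b, hb, rfl⟩ := List.mem_map.mp ha
      cases b with
      | E i j =>
        exact ⟨show m + i ≠ s by omega, show m + j ≠ s by omega⟩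
      | S i j =>
        exact ⟨show m + i ≠ s by omega, show m + j ≠ s by omega⟩)
    have hd : dlist m (s + 1) ++ L = (s, m + s) :: (dlist m s ++ L) := rfl
    rw [hd] at hfl ⊢
    obtain ⟨h1, h2⟩ := con_he hf' hfl
    have h3 : Iso Set.univ ((news (X.upd m (s + 1)) m s).upd1 (m + s) s)
        (news (X.upd m s) m s) :=
      (unroll_upd1_news _ s (fun i hi => by omega) (fun i hi => by omega)).trans
        ((unroll_upd_step X hs).news m s)
    have h4 := h3.wordU (u.map (Lt.map (m + ·)))
    have h5 := h4.he (L := dlist m s ++ L) (fun a _ => ⟨trivial, trivial⟩)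
    have h6 := h4.flat (L := dlist m s ++ L) (fun a _ => ⟨trivial, trivial⟩) h2
    exact (HQ.trans h1 h5).trans (ih (by omega) h6)

lemma unroll_base (hne : lam ≠ 0) (m s : ℕ) :
    base n hne (m + s) = news (base n hne m) m s := by
  induction s with
  | zero => rfl
  | succ s ih =>
    show (base n hne (m + s)).new (m + s) = (news (base n hne m) m s).new (m + s)
    rw [ih]

lemma unroll_word_append (u v : List Lt) (X : Ob k lam n) :
    word (u ++ v) X = word u (word v X) := by
  unfold word
  rw [List.foldr_append]

lemma unroll_ok {m : ℕ} {u v : List Lt} (hu : Ok m u) (hv : Ok m v) :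
    Ok (m + m) (u.map (Lt.map (m + ·)) ++ v) := by
  intro a ha
  rcases List.mem_append.mp ha with h | h
  · obtain ⟨b, hb, rfl⟩ := List.mem_map.mp h
    have hb' := hu b hb
    cases b with
    | E i j =>
      obtain ⟨h1, h2, h3⟩ := hb'
      exact ⟨show m + i < m + m by omega, show m + j < m + m by omega,
        show m + i ≠ m + j by omega⟩
    | S i j =>
      obtain ⟨h1, h2⟩ := hb'
      exact ⟨show m + i < m + m by omega, show m + j < m + m by omega⟩
  · have hb' := hv a h
    cases a with
    | E i j =>
      obtain ⟨h1, h2, h3⟩ := hb'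
      exact ⟨by omega, by omega, h3⟩
    | S i j =>
      obtain ⟨h1, h2⟩ := hb'
      exact ⟨by omega, by omega⟩

lemma unroll_mem_clist {m : ℕ} {a : ℕ × ℕ} (ha : a ∈ clist m) : a.1 < m ∧ a.2 < m := by
  induction m with
  | zero => simp [clist] at ha
  | succ m ih =>
    rw [clist, List.mem_cons] at ha
    rcases ha with h | h
    · subst h
      exact ⟨by simp, by simp⟩
    · have := ih h
      omega

theorem unroll (hne : lam ≠ 0) {m : ℕ} {u v : List Lt} (hu : Ok m u) (hv : Ok m v) :
    ((word (u.map (Lt.map (m + ·)) ++ v) (base n hne (m + m))).cls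
      (dlist m m ++ elist m)).tau = trw n hne m (u ++ v) := by
  have hfl : Flat (word (u.map (Lt.map (m + ·)) ++ v) (base n hne (m + m)))
      (dlist m m ++ elist m) :=
    flat_word hne (unroll_ok hu hv) (dlist_perm m).1 (dlist_perm m).2
  have e1 : Iso Set.univ (word (u.map (Lt.map (m + ·)) ++ v) (base n hne (m + m)))
      (word (u.map (Lt.map (m + ·))) (news ((word v (base n hne m)).upd m m) m m)) := by
    rw [unroll_word_append, unroll_base]
    refine Iso.wordU ?_ _
    exact (word_news _ m hv).trans ((unroll_upd_top _ m).news m m)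
  have hfl2 := e1.flat (L := dlist m m ++ elist m) (fun a _ => ⟨trivial, trivial⟩) hfl
  have h1 : HQ _ _ := e1.he (L := dlist m m ++ elist m) (fun a _ => ⟨trivial, trivial⟩)
  have h2 := unroll_step (word v (base n hne m)) hu m le_rfl (elist m) hfl2
  have hinj : Function.Injective (m + · : ℕ → ℕ) := fun a b h => Nat.add_left_cancel h
  have e2 : Iso {l | l < m}
      ((word (u.map (Lt.map (m + ·))) ((word v (base n hne m)).upd m 0)).rel (m + ·) id)
      (word u (word v (base n hne m))) :=
    ((word_rel _ u (m + ·) id hinj).symm.mono (fun _ _ => trivial)).trans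
      ((unroll_upd_rel _ m).word m (fun _ h => h) hu)
  have h3 : HQ _ _ := e2.he (L := clist m) (fun a ha => unroll_mem_clist ha)
  have h4 : HQ _ _ := (cls_rel (word (u.map (Lt.map (m + ·))) ((word v (base n hne m)).upd m 0))
    (m + ·) id (clist m)).hq
  have h5 : HQ _ _ := rel_hq (((word (u.map (Lt.map (m + ·)))
    ((word v (base n hne m)).upd m 0))).cls (elist m)) (m + ·) id
  have h6 : HQ ((word (u.map (Lt.map (m + ·)) ++ v) (base n hne (m + m))).cls
      (dlist m m ++ elist m)) ((word u (word v (base n hne m))).cls (clist m)) :=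
    h1.trans (h2.trans ((h5.symm.trans h4.symm).trans h3))
  rw [h6.tau, trw, unroll_word_append]

end ZM
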